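import Pool.Agent.H998_RN.Base3

/-! Rough numbers on trajectories, part 6: all scales. -/

set_option autoImplicit false

namespace Pool.Agent.H998_RN

open Finset
open Pool.Agent.H320R2.PD Pool.Agent.H499R2.ND
open Pool.Agent.R344.TH Pool.Agent.H998_PL

/-- change of the last parameter -/
theorem Par.setL {δ η ε₁ l a Lb Lb' : ℝ} {m m' K k₁ k₃ : ℕ} (h : Par δ η ε₁ l a Lb m m' K k₁ k₃)
    (hL : Lb' ≤ Real.exp (l / 2)) : Par δ η ε₁ l a Lb' m m' K k₁ k₃ :=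
  { h with big := hL }

/-- choice of the parameters -/
theorem choose_par {G δ ε C₁ : ℝ} (hG : 1 ≤ G) (hC₁ : 0 < C₁) (hδ : 0 < δ) (hδ1 : δ ≤ 1 / 50)
    (hε : 0 < ε) : ∃ (η ε₁ : ℝ) (m' : ℕ) (l₀ : ℝ), 0 < η ∧ η ≤ 1 / 20 ∧ 0 < ε₁ ∧ ε₁ ≤ δ / 10 ∧
      1 ≤ m' ∧ 1 ≤ l₀ ∧ G * η ≤ ε / 280 ∧ G * ε₁ ≤ ε / 400 ∧
      G * (C₁ * (1 / (m' : ℝ) + ε₁)) ≤ ε / 80 ∧
      ∀ l : ℝ, l₀ ≤ l → (∀ a : ℝ, l - Real.log 2 ≤ a → a ≤ l + 3 * Real.sqrt l → ∀ m : ℕ,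
        (m : ℝ) ≤ a ^ (1 / 4 : ℝ) → ∃ K k₁ k₃ : ℕ, Par δ η ε₁ l a 0 m m' K k₁ k₃) ∧
        G * (l ^ 2 * el η l + 5 * el η l + l * el η l + Real.exp (-(l / 2))) ≤ ε / 8 ∧
        l ^ 2 * el η l + 5 * el η l + l * el η l + Real.exp (-(l / 2)) ≤ 1 / l ^ 2 := by
  have hG0 : 0 < G := by linarith
  obtain ⟨η, hη⟩ : ∃ η : ℝ, η = min (1 / 20) (ε / (280 * G)) := ⟨_, rfl⟩
  have hη0 : 0 < η := by rw [hη]; positivity
  have hη1 : η ≤ 1 / 20 := by rw [hη]; exact min_le_left _ _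
  have hη2 : η ≤ ε / (280 * G) := by rw [hη]; exact min_le_right _ _
  obtain ⟨ε₁, hε₁⟩ : ∃ ε₁ : ℝ, ε₁ = min (δ / 10) (min (ε / (400 * G)) (ε / (400 * (G * C₁)))) := ⟨_, rfl⟩
  have hε₁0 : 0 < ε₁ := by rw [hε₁]; positivity
  have hε₁1 : ε₁ ≤ δ / 10 := by rw [hε₁]; exact min_le_left _ _
  have hε₁2 : ε₁ ≤ ε / (400 * G) := by rw [hε₁]; exact (min_le_right _ _).trans (min_le_left _ _)
  have hε₁3 : ε₁ ≤ ε / (400 * (G * C₁)) := by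
    rw [hε₁]; exact (min_le_right _ _).trans (min_le_right _ _)
  obtain ⟨m', hm'⟩ := exists_nat_ge (max 1 (400 * (G * C₁) / ε))
  have hm'1 : 1 ≤ m' := by
    have : (1 : ℝ) ≤ m' := (le_max_left _ _).trans hm'
    exact_mod_cast this
  have hm'2 : 400 * (G * C₁) / ε ≤ m' := (le_max_right _ _).trans hm'
  have hm'R : (0 : ℝ) < m' := by exact_mod_cast hm'1
  obtain ⟨l₁, hl₁⟩ := params hδ hδ1 hη0 hη1 hε₁0 hε₁1 0 m'
  obtain ⟨l₂, hl₂1, hl₂⟩ := el_ev η hη0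
  refine ⟨η, ε₁, m', max (max l₁ l₂) (max 1 (8 * G / ε)), hη0, hη1, hε₁0, hε₁1, hm'1,
    le_trans (le_max_left _ _) (le_max_right _ _), ?_, ?_, ?_, ?_⟩
  · rw [le_div_iff₀ (by positivity)] at hη2
    linarith
  · rw [le_div_iff₀ (by positivity)] at hε₁2
    linarith
  · have h1 : G * C₁ * (1 / (m' : ℝ)) ≤ ε / 400 := by
      rw [mul_one_div, div_le_iff₀ hm'R]
      rw [div_le_iff₀ hε] at hm'2
      linarith
    have h2 : G * C₁ * ε₁ ≤ ε / 400 := by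
      rw [le_div_iff₀ (by positivity)] at hε₁3
      linarith
    have : G * (C₁ * (1 / (m' : ℝ) + ε₁)) = G * C₁ * (1 / (m' : ℝ)) + G * C₁ * ε₁ := by ring
    linarith
  · intro l hl
    have hll₁ : l₁ ≤ l := (le_max_left _ _).trans ((le_max_left _ _).trans hl)
    have hll₂ : l₂ ≤ l := (le_max_right _ _).trans ((le_max_left _ _).trans hl)
    have hl1 : 1 ≤ l := (le_max_left _ _).trans ((le_max_right _ _).trans hl)
    have hlε : 8 * G / ε ≤ l := (le_max_right _ _).trans ((le_max_right _ _).trans hl)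
    have hsmall := hl₂ l hll₂
    refine ⟨hl₁ l hll₁, ?_, hsmall⟩
    have hsq : G * (1 / l ^ 2) ≤ ε / 8 := by
      rw [mul_one_div, div_le_iff₀ (by positivity)]
      rw [div_le_iff₀ hε] at hlε
      have : l ≤ l ^ 2 := by nlinarith
      nlinarith
    exact (mul_le_mul_of_nonneg_left hsmall hG0.le).trans hsq

/-- upper bound at the lowest scales, for all subsets -/
theorem up_base {P R : Set ℤ} {G X₁ : ℝ} (hP : Rg P R G X₁) {δ : ℝ} (hδ : 0 < δ) (hδ1 : δ ≤ 1 / 50)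
    {ε : ℝ} (hε : 0 < ε) : ∃ (m' : ℕ) (l₀ : ℝ), 1 ≤ m' ∧ 1 ≤ l₀ ∧ ∀ l : ℝ, l₀ ≤ l →
      ∀ (Q : Set ℤ) (θ : ℝ), Q ⊆ P → 0 ≤ θ → θ ≤ G →
      (∀ L : ℝ, Real.exp (l / 2) ≤ L → ∀ c : ℤ, c % 3 ∈ R →
        ((cls Q L (2 * L) m' 1 c).card : ℝ) ≤ θ * (3 / 2) * (L / (3 ^ m' * Real.log L))) →
      ∀ a : ℝ, l - Real.log 2 ≤ a → a ≤ l + 3 * Real.sqrt l → ∀ m : ℕ, (m : ℝ) ≤ a ^ (1 / 4 : ℝ) →
      PB (Sh Q (Real.exp (l / (1 + δ))) (Real.exp l) 1) (Real.exp a) m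
        (kap0 θ R * δ + 34 * θ * δ ^ 2 + ε) := by
  obtain ⟨C₁, hC₁, hmix⟩ := mix2
  obtain ⟨η, ε₁, m', l₀, hη0, hη1, hε₁0, hε₁1, hm'1, hl₀1, g1, g2, g3, hmain⟩ :=
    choose_par hP.G1 hC₁ hδ hδ1 hε
  refine ⟨m', max l₀ (2 * Real.log (max X₁ 1)), hm'1, hl₀1.trans (le_max_left _ _), ?_⟩
  intro l hl Q θ hQ hθ hθG hdens a ha1 ha2 m hm
  have hG0 : 0 < G := by linarith [hP.G1]
  have hl0 : l₀ ≤ l := (le_max_left _ _).trans hl
  have hX : X₁ ≤ Real.exp (l / 2) := by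
    have h1 : Real.log (max X₁ 1) ≤ l / 2 := by linarith [(le_max_right _ _).trans hl]
    have h2 := Real.exp_le_exp.2 h1
    rw [Real.exp_log (by positivity)] at h2
    exact (le_max_left _ _).trans h2
  obtain ⟨hpar0, hsm, -⟩ := hmain l hl0
  obtain ⟨K, k₁, k₃, hpar1⟩ := hpar0 a ha1 ha2 m hm
  have hpar := Par.setL hpar1 (le_refl (Real.exp (l / 2)))
  have hQR : Rg Q R G (Real.exp (l / 2)) := hP.mono hQ hX
  have hε₃0 : 0 ≤ G * (C₁ * (1 / (m' : ℝ) + ε₁)) := by positivity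
  refine PB_of fun c => ?_
  refine (base_up' hQR le_rfl hθ hδ hδ1 hη0 hη1 hε₁0 hε₁1 hpar hε₃0 c
      (fun k hk1 hk => xp_up hQR hθ hC₁ hmix hm'1 hdens le_rfl hδ hδ1 hη0 hη1 hε₁0 hε₁1 hpar c
        hk1 hk)).trans ?_
  apply mul_le_mul_of_nonneg_left _ (by positivity)
  have h1 : θ * η ≤ G * η := mul_le_mul_of_nonneg_right hθG hη0.le
  have hl1 : 1 ≤ l := hl₀1.trans hl0
  have hel := el_pos η l
  have hexp := Real.exp_pos (-(l / 2))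
  have h2 : l * el η l + Real.exp (-(l / 2))
      ≤ G * (l ^ 2 * el η l + 5 * el η l + l * el η l + Real.exp (-(l / 2))) := by
    have e1 : 0 ≤ l * el η l + Real.exp (-(l / 2)) := by positivity
    have e2 : l * el η l + Real.exp (-(l / 2)) ≤ G * (l * el η l + Real.exp (-(l / 2))) := by
      nlinarith [hP.G1]
    refine e2.trans (mul_le_mul_of_nonneg_left ?_ hG0.le)
    have : 0 ≤ l ^ 2 * el η l + 5 * el η l := by positivity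
    linarith
  linarith

/-- all scales from the lowest scales -/
theorem all_of_base : ∃ l₀ K : ℝ, 1 ≤ l₀ ∧ 0 < K ∧ ∀ l : ℝ, l₀ ≤ l → ∀ (S : Set ℤ) (ρ : ℝ), 0 ≤ ρ →
    FwdA 1 (2 * Real.exp l) S →
    (∀ a : ℝ, l - Real.log 2 ≤ a → a ≤ l + 3 * Real.sqrt l → ∀ m : ℕ, (m : ℝ) ≤ a ^ (1 / 4 : ℝ) →
      PB S (Real.exp a) m ρ) → ∀ A : ℝ, Real.exp l / 2 ≤ A → PB S A 0 (ρ + K / l ^ 2) := by
  obtain ⟨l₁, K, hl₁, hK, hchain⟩ := H998_BC.chain_PB (d := 1) (by norm_num) isCoprime_one_left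
    (γ := 1 / 2) (by norm_num) (by norm_num) 2 (by norm_num)
  refine ⟨max l₁ 1, K, le_max_right _ _, hK, ?_⟩
  intro l hl S ρ hρ hS hb A hA
  have hll₁ : l₁ ≤ l := (le_max_left _ _).trans hl
  have hl1 : 1 ≤ l := (le_max_right _ _).trans hl
  have hlog : Real.log (Real.exp l) = l := Real.log_exp l
  have hrange : ∀ A' : ℝ, Real.exp l / 2 ≤ A' →
      Real.log A' ≤ Real.log (Real.exp l) + 3 * (Real.log (Real.exp l)) ^ (1 / 2 : ℝ) → ∀ m : ℕ,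
      (m : ℝ) ≤ (Real.log A') ^ ((1 / 2 : ℝ) / 2) →
      0 < A' ∧ Real.exp (Real.log A') = A' ∧ l - Real.log 2 ≤ Real.log A' ∧
        Real.log A' ≤ l + 3 * Real.sqrt l ∧ (m : ℝ) ≤ (Real.log A') ^ (1 / 4 : ℝ) := by
    intro A' h1 h2 m h3
    have h4 : 0 < A' := lt_of_lt_of_le (by positivity) h1
    refine ⟨h4, Real.exp_log h4, ?_, ?_, ?_⟩
    · rw [← Real.log_exp l, ← Real.log_div (Real.exp_pos l).ne' (by norm_num)]
      exact Real.log_le_log (by positivity) h1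
    · rw [hlog] at h2; rw [Real.sqrt_eq_rpow]; exact h2
    · norm_num at h3 ⊢; exact h3
  have hchain' := hchain (Real.exp l) (Real.exp_pos l) (by rw [hlog]; exact hll₁)
  have hm0 : ((0 : ℕ) : ℝ) ≤ (Real.log A) ^ ((1 / 2 : ℝ) / 2) := by
    rw [Nat.cast_zero]
    apply Real.rpow_nonneg
    have h5 : Real.log (Real.exp l / 2) ≤ Real.log A := Real.log_le_log (by positivity) hA
    rw [Real.log_div (Real.exp_pos l).ne' (by norm_num), Real.log_exp] at h5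
    have := Real.log_two_lt_d9
    linarith
  rw [hlog] at hchain'
  exact hchain' S ρ hρ hS
    (fun A' h1 h2 m h3 => by
      obtain ⟨g1, g2, g3, g4, g5⟩ := hrange A' h1 (by rw [hlog]; exact h2) m h3
      have := hb (Real.log A') g3 g4 m g5
      rwa [g2] at this) A hA 0 hm0

theorem PB_mono {S : Set ℤ} {A : ℝ} {m : ℕ} {ρ ρ' : ℝ} (hA : 0 ≤ A) (h : PB S A m ρ) (hρ : ρ ≤ ρ') :
    PB S A m ρ' := by
  intro u v hu
  refine (h u v hu).trans ?_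
  apply mul_le_mul_of_nonneg_right hρ (by positivity)

/-- UPPER BOUND AT ALL SCALES, for all subsets -/
theorem up_all {P R : Set ℤ} {G X₁ : ℝ} (hP : Rg P R G X₁) {δ : ℝ} (hδ : 0 < δ) (hδ1 : δ ≤ 1 / 50)
    {ε : ℝ} (hε : 0 < ε) : ∃ (m' : ℕ) (l₀ : ℝ), 1 ≤ m' ∧ 1 ≤ l₀ ∧ ∀ l : ℝ, l₀ ≤ l →
      ∀ (Q : Set ℤ) (θ : ℝ), Q ⊆ P → 0 ≤ θ → θ ≤ G →
      (∀ L : ℝ, Real.exp (l / 2) ≤ L → ∀ c : ℤ, c % 3 ∈ R →
        ((cls Q L (2 * L) m' 1 c).card : ℝ) ≤ θ * (3 / 2) * (L / (3 ^ m' * Real.log L))) →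
      ∀ A : ℝ, Real.exp l / 2 ≤ A →
      PB (Sh Q (Real.exp (l / (1 + δ))) (Real.exp l) 1) A 0
        (kap0 θ R * δ + 34 * θ * δ ^ 2 + ε) := by
  obtain ⟨m', l₁, hm', hl₁, h1⟩ := up_base hP hδ hδ1 (half_pos hε)
  obtain ⟨l₂, K, hl₂, hK, h2⟩ := all_of_base
  refine ⟨m', max (max l₁ l₂) (2 * K / ε), hm', hl₁.trans ((le_max_left _ _).trans (le_max_left _ _)), ?_⟩
  intro l hl Q θ hQ hθ hθG hdens A hA
  have hll₁ : l₁ ≤ l := (le_max_left _ _).trans ((le_max_left _ _).trans hl)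
  have hll₂ : l₂ ≤ l := (le_max_right _ _).trans ((le_max_left _ _).trans hl)
  have hlK : 2 * K / ε ≤ l := (le_max_right _ _).trans hl
  have hl1 : 1 ≤ l := hl₁.trans hll₁
  have hκ := kap0_nonneg hθ R
  have h3 := h2 l hll₂ (Sh Q (Real.exp (l / (1 + δ))) (Real.exp l) 1)
    (kap0 θ R * δ + 34 * θ * δ ^ 2 + ε / 2) (by positivity) (Sh_fwd Q (Real.exp_pos l) 1)
    (h1 l hll₁ Q θ hQ hθ hθG hdens) A hA
  refine PB_mono (le_trans (by positivity) hA) h3 ?_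
  have : K / l ^ 2 ≤ ε / 2 := by
    rw [div_le_iff₀ (by positivity)]
    rw [div_le_iff₀ hε] at hlK
    have : l ≤ l ^ 2 := by nlinarith
    nlinarith
  linarith

end Pool.Agent.H998_RN
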