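import Pool.Agent.H998_RN.All

/-! Rough numbers on trajectories, part 7: all scales, lower bound and several visits. -/

set_option autoImplicit false

namespace Pool.Agent.H998_RN

open Finset
open Pool.Agent.H320R2.PD Pool.Agent.H499R2.ND
open Pool.Agent.R344.TH Pool.Agent.H998_PL

/-- the bound for pairs -/
def Pairs (P : Set ℤ) (C X₀ : ℝ) : Prop := ∀ L : ℝ, X₀ ≤ L → ∀ τ n : ℕ, 1 ≤ τ →
  (2 : ℝ) ^ τ * 3 ^ n ≤ Real.sqrt L → ∀ u v : ℤ, IsCoprime u 3 →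
  ((cls (Pt P τ) L (2 * L) n u v).card : ℝ) ≤ C * (L / (3 ^ n * (Real.log L) ^ 2))

/-- LOWER BOUND AT ALL SCALES -/
theorem lo_all {P R : Set ℤ} {G X₁ C X₀ : ℝ} (hP : Rg P R G X₁) (hC : 0 < C) (hpair : Pairs P C X₀)
    {δ : ℝ} (hδ : 0 < δ) (hδ1 : δ ≤ 1 / 50)
    {ε : ℝ} (hε : 0 < ε) : ∃ (m' : ℕ) (l₀ : ℝ), 1 ≤ m' ∧ 1 ≤ l₀ ∧ ∀ l : ℝ, l₀ ≤ l →
      ∀ θ : ℝ, 0 ≤ θ → θ ≤ G → kap0 θ R * δ ≤ 1 →
      (∀ L : ℝ, Real.exp (l / 2) ≤ L → ∀ c : ℤ, c % 3 ∈ R →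
        θ * (3 / 2) * (L / (3 ^ m' * Real.log L)) ≤ ((cls P L (2 * L) m' 1 c).card : ℝ)) →
      ∀ A : ℝ, Real.exp l / 2 ≤ A →
      PB (Sh P (Real.exp (l / (1 + δ))) (Real.exp l) 1)ᶜ A 0
        (1 - kap0 θ R * δ + (600 * C + 12 * θ) * δ ^ 2 + ε) := by
  obtain ⟨C₁, hC₁, hmix⟩ := mix2
  obtain ⟨η, ε₁, m', l₀, hη0, hη1, hε₁0, hε₁1, hm'1, hl₀1, g1, g2, g3, hmain⟩ :=
    choose_par hP.G1 hC₁ hδ hδ1 (half_pos hε)
  obtain ⟨l₂, K, hl₂, hK, h2⟩ := all_of_base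
  refine ⟨m', max (max l₀ l₂) (max (2 * K / ε) (2 * Real.log (max (max X₀ X₁) 1))), hm'1,
    hl₀1.trans ((le_max_left _ _).trans (le_max_left _ _)), ?_⟩
  intro l hl θ hθ hθG hκ1 hdens A hA
  have hG0 : 0 < G := by linarith [hP.G1]
  have hl0 : l₀ ≤ l := (le_max_left _ _).trans ((le_max_left _ _).trans hl)
  have hll₂ : l₂ ≤ l := (le_max_right _ _).trans ((le_max_left _ _).trans hl)
  have hlK : 2 * K / ε ≤ l := (le_max_left _ _).trans ((le_max_right _ _).trans hl)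
  have hl1 : 1 ≤ l := hl₀1.trans hl0
  have hXX : max X₀ X₁ ≤ Real.exp (l / 2) := by
    have h1 : Real.log (max (max X₀ X₁) 1) ≤ l / 2 := by
      linarith [(le_max_right _ _).trans ((le_max_right _ _).trans hl)]
    have h2 := Real.exp_le_exp.2 h1
    rw [Real.exp_log (by positivity)] at h2
    exact (le_max_left _ _).trans h2
  have hX : X₁ ≤ Real.exp (l / 2) := (le_max_right _ _).trans hXX
  have hX0 : X₀ ≤ Real.exp (l / 2) := (le_max_left _ _).trans hXX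
  obtain ⟨hpar0, hsm, hsm2⟩ := hmain l hl0
  have hQR : Rg P R G (Real.exp (l / 2)) := hP.mono subset_rfl hX
  have hyz : Real.exp (l / (1 + δ)) ≤ 2 * Real.exp l := by
    have h1 : Real.exp (l / (1 + δ)) ≤ Real.exp l := by
      apply Real.exp_le_exp.2
      exact div_le_self (by linarith) (by linarith)
    linarith [Real.exp_pos l]
  have hbase : ∀ a : ℝ, l - Real.log 2 ≤ a → a ≤ l + 3 * Real.sqrt l → ∀ m : ℕ, (m : ℝ) ≤ a ^ (1 / 4 : ℝ) →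
      PB (Sh P (Real.exp (l / (1 + δ))) (Real.exp l) 1)ᶜ (Real.exp a) m
        (1 - kap0 θ R * δ + (600 * C + 12 * θ) * δ ^ 2 + ε / 2) := by
    intro a ha1 ha2 m hm
    obtain ⟨K, k₁, k₃, hpar1⟩ := hpar0 a ha1 ha2 m hm
    have hpar := Par.setL hpar1 (le_refl (Real.exp (l / 2)))
    have hε₃0 : 0 ≤ G * (C₁ * (1 / (m' : ℝ) + ε₁)) := by positivity
    refine PB_of fun c => ?_
    have hpt := ptot_bound' hP.odd hC hpair hδ hδ1 hη0 hη1 hpar hX0 c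
    refine (base_lo' hP.odd hθ hG0.le hδ hδ1 hη0 hη1 hε₁0 hε₁1 hpar hε₃0 c
      (fun k hk1 hk => xp_lo hQR hθ hθG hC₁ hmix hm'1 hdens le_rfl hδ hδ1 hη0 hη1 hε₁0 hε₁1 hpar c
        hk1 hk) hC hpt).trans ?_
    apply mul_le_mul_of_nonneg_left _ (by positivity)
    have h1 : θ * η ≤ G * η := mul_le_mul_of_nonneg_right hθG hη0.le
    have h1' : θ * ε₁ ≤ G * ε₁ := mul_le_mul_of_nonneg_right hθG hε₁0.le
    have hel := el_pos η l
    have hexp := Real.exp_pos (-(l / 2))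
    have h2 : l ^ 2 * el η l + 5 * (G * el η l) + Real.exp (-(l / 2))
        ≤ G * (l ^ 2 * el η l + 5 * el η l + l * el η l + Real.exp (-(l / 2))) := by
      have e1 : l ^ 2 * el η l ≤ G * (l ^ 2 * el η l) := by
        have : 0 ≤ l ^ 2 * el η l := by positivity
        nlinarith [hP.G1]
      have e2 : Real.exp (-(l / 2)) ≤ G * Real.exp (-(l / 2)) := by
        nlinarith [hP.G1]
      have e3 : 0 ≤ G * (l * el η l) := by positivity
      linarith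
    linarith
  have h3 := h2 l hll₂ (Sh P (Real.exp (l / (1 + δ))) (Real.exp l) 1)ᶜ
    (1 - kap0 θ R * δ + (600 * C + 12 * θ) * δ ^ 2 + ε / 2) (by
      have : 0 ≤ (600 * C + 12 * θ) * δ ^ 2 + ε / 2 := by positivity
      linarith) (Sh_compl_fwd P (Real.exp_pos l) hyz 1) hbase A hA
  refine PB_mono (le_trans (by positivity) hA) h3 ?_
  have : K / l ^ 2 ≤ ε / 2 := by
    rw [div_le_iff₀ (by positivity)]
    rw [div_le_iff₀ hε] at hlK
    have : l ≤ l ^ 2 := by nlinarith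
    nlinarith
  linarith

/-- SEVERAL VISITS AT ALL SCALES -/
theorem many_all {P : Set ℤ} {C X₀ : ℝ} (hPo : ∀ x ∈ P, Odd x) (hC : 0 < C) (hpair : Pairs P C X₀)
    {δ : ℝ} (hδ : 0 < δ) (hδ1 : δ ≤ 1 / 50) :
    ∃ K₂ l₀ : ℝ, 0 < K₂ ∧ 1 ≤ l₀ ∧ ∀ l : ℝ, l₀ ≤ l → ∀ A : ℝ, Real.exp l / 2 ≤ A → ∀ j : ℕ, 2 ≤ j →
      PB (Sh P (Real.exp (l / (1 + δ))) (Real.exp l) j) A 0
        (1200 * C * δ ^ 2 / ((j : ℝ) * j - j) + K₂ / l ^ 2) := by
  obtain ⟨C₁, hC₁, hmix⟩ := mix2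
  obtain ⟨η, ε₁, m', l₀, hη0, hη1, hε₁0, hε₁1, hm'1, hl₀1, -, -, -, hmain⟩ :=
    choose_par le_rfl hC₁ hδ hδ1 (show (0 : ℝ) < 1 by norm_num)
  obtain ⟨l₂, K, hl₂, hK, h2⟩ := all_of_base
  refine ⟨1 + K, max (max l₀ l₂) (2 * Real.log (max X₀ 1)), by positivity,
    hl₀1.trans ((le_max_left _ _).trans (le_max_left _ _)), ?_⟩
  intro l hl A hA j hj
  have hl0 : l₀ ≤ l := (le_max_left _ _).trans ((le_max_left _ _).trans hl)
  have hll₂ : l₂ ≤ l := (le_max_right _ _).trans ((le_max_left _ _).trans hl)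
  have hl1 : 1 ≤ l := hl₀1.trans hl0
  have hX0 : X₀ ≤ Real.exp (l / 2) := by
    have h1 : Real.log (max X₀ 1) ≤ l / 2 := by linarith [(le_max_right _ _).trans hl]
    have h2 := Real.exp_le_exp.2 h1
    rw [Real.exp_log (by positivity)] at h2
    exact (le_max_left _ _).trans h2
  obtain ⟨hpar0, -, hsm2⟩ := hmain l hl0
  have hjR : (2 : ℝ) ≤ j := by exact_mod_cast hj
  have hjj : (0 : ℝ) < (j : ℝ) * j - j := by nlinarith
  have h3 := h2 l hll₂ (Sh P (Real.exp (l / (1 + δ))) (Real.exp l) j)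
    (1200 * C * δ ^ 2 / ((j : ℝ) * j - j) + 1 / l ^ 2) (by positivity) (Sh_fwd P (Real.exp_pos l) j)
    (by
      intro a ha1 ha2 m hm
      obtain ⟨K, k₁, k₃, hpar1⟩ := hpar0 a ha1 ha2 m hm
      have hpar := Par.setL hpar1 (le_refl (Real.exp (l / 2)))
      refine PB_of fun c => ?_
      have hpt := ptot_bound' hPo hC hpair hδ hδ1 hη0 hη1 hpar hX0 c
      refine (base_many hPo hδ hδ1 hη0 hη1 hpar c hpt j hj).trans ?_
      apply mul_le_mul_of_nonneg_left _ (by positivity)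
      have hel := el_pos η l
      have : 0 ≤ l ^ 2 * el η l + 5 * el η l := by positivity
      linarith) A hA
  refine PB_mono (le_trans (by positivity) hA) h3 ?_
  have e2 : (1 + K) / l ^ 2 = 1 / l ^ 2 + K / l ^ 2 := by ring
  rw [e2]; linarith

end Pool.Agent.H998_RN
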