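import Pool.Agent.H998_PL.Base4
import Pool.Agent.H998_PL.All

/-! Rough numbers on trajectories, part 2: endpoints in a general set. -/

set_option autoImplicit false

namespace Pool.Agent.H998_RN

open Finset
open Pool.Agent.H320R2.PD Pool.Agent.H499R2.ND
open Pool.Agent.R344.TH Pool.Agent.H998_PL

/-- a set of odd numbers with the upper bound `G L / (3^n log L)` in the classes modulo `3^n` -/
structure Rg (P R : Set ℤ) (G X₁ : ℝ) : Prop where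
  odd : ∀ x ∈ P, Odd x
  mod3 : ∀ x ∈ P, x % 3 ∈ R
  G1 : 1 ≤ G
  X1 : Real.exp 100 ≤ X₁
  bt : ∀ L : ℝ, X₁ ≤ L → ∀ n : ℕ, (3 : ℝ) ^ n ≤ Real.sqrt L → ∀ u v : ℤ, IsCoprime u 3 →
    ((cls P L (2 * L) n u v).card : ℝ) ≤ G * (L / (3 ^ n * Real.log L))

theorem Rg.mono {P Q R : Set ℤ} {G X₁ X₂ : ℝ} (h : Rg P R G X₁) (hQ : Q ⊆ P) (hX : X₁ ≤ X₂) :
    Rg Q R G X₂ where
  odd x hx := h.odd x (hQ hx)
  mod3 x hx := h.mod3 x (hQ hx)
  G1 := h.G1
  X1 := h.X1.trans hX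
  bt L hL n hn u v hu := by
    refine le_trans ?_ (h.bt L (hX.trans hL) n hn u v hu)
    have : cls Q L (2 * L) n u v ⊆ cls P L (2 * L) n u v := by
      intro x hx
      rw [mem_cls] at hx ⊢
      exact ⟨hx.1, hx.2.1, hQ hx.2.2.1, hx.2.2.2⟩
    exact_mod_cast card_le_card this

/-- the elements of `P` in a class, by the residue modulo `3` -/
theorem P_class {P R : Set ℤ} (hP : ∀ x ∈ P, x % 3 ∈ R) {m : ℕ} (hm : 1 ≤ m) {L : ℝ} (T : ℕ) (v : ℤ) :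
    ∃ c : ℤ, cls P L (2 * L) m (2 ^ T) v = cls P L (2 * L) m 1 c ∧ ((2 ^ T * v) % 3 ∈ R → c % 3 ∈ R) ∧
      ((2 ^ T * v) % 3 ∉ R → (cls P L (2 * L) m (2 ^ T) v).card = 0) := by
  obtain ⟨c, hc⟩ := unit_class m (cop_two_pow T) v
  have heq : cls P L (2 * L) m (2 ^ T) v = cls P L (2 * L) m 1 c := by
    ext x; rw [mem_cls, mem_cls, hc x]
  have h3m : (3 : ℤ) ∣ 3 ^ m := dvd_pow_self 3 (by omega)
  have h1 : (3 : ℤ) ∣ 2 ^ T * c - v := h3m.trans ((hc c).2 (by rw [one_mul, sub_self]; exact dvd_zero _))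
  have h2 : (2 ^ T * v) % 3 = c % 3 := by
    rw [← four_pow_mod T c]
    have : (3 : ℤ) ∣ 2 ^ T * v - 2 ^ T * (2 ^ T * c) := by
      rw [← mul_sub]
      apply Dvd.dvd.mul_left
      rw [← neg_sub]; exact (dvd_neg).2 h1
    exact Int.emod_eq_emod_iff_emod_sub_eq_zero.2 (Int.emod_eq_zero_of_dvd this)
  refine ⟨c, heq, fun h => by rw [← h2]; exact h, fun hcR => ?_⟩
  rw [heq, card_eq_zero, eq_empty_iff_forall_notMem]
  intro x hx
  rw [mem_cls] at hx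
  apply hcR
  have h3 : (3 : ℤ) ∣ 1 * x - c := h3m.trans hx.2.2.2
  rw [one_mul] at h3
  have h4 : x % 3 = c % 3 := Int.emod_eq_emod_iff_emod_sub_eq_zero.2 (Int.emod_eq_zero_of_dvd h3)
  rw [h2, ← h4]; exact hP x hx.2.2.1

section

variable {P R : Set ℤ} {G X₁ : ℝ}

/-- bookkeeping for the words of size `T` -/
theorem FT_aux {m' : ℕ} {L : ℝ} (cap k m T : ℕ) (hk : m' ≤ k)
    (c : ℤ) (hK : ∀ r : ℤ, ((cls P L (2 * L) (k + m) (2 ^ T) r).card : ℝ)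
      ≤ G * (L / (3 ^ (k + m) * Real.log L))) :
    |(∑ w ∈ FWT cap k T, ((cls P L (2 * L) (k + m) (2 ^ T) (Wo w + 3 ^ k * c)).card : ℝ))
      - (∑ w ∈ FWT cap k T, ((cls P L (2 * L) m' (2 ^ T) (Wo w)).card : ℝ)) / 3 ^ (k + m - m')|
      ≤ G * dev (FWT cap k T) wwt (fun w => (Wo w : ℤ)) (k + m) m'
        * (2 ^ T * (L / (3 ^ (k + m) * Real.log L))) := by
  refine (mixP P cap k m m' T hk c hK).trans (le_of_eq ?_)
  ring

open scoped Classical in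
theorem massR_eq (cap k T : ℕ) : massR R cap k T = (1 / 2) ^ T *
    (((FWT cap k T).filter (fun w => (2 ^ T * (Wo w : ℤ)) % 3 ∈ R)).card : ℝ) := by
  have hwt : ∀ w ∈ FWT cap k T, wwt w = (1 / 2 : ℝ) ^ T := by
    intro w hw
    unfold FWT at hw
    unfold wwt
    rw [(mem_filter.1 hw).2]
  unfold massR
  rw [sum_congr rfl (fun w hw => hwt w (mem_filter.1 hw).1), sum_const, nsmul_eq_mul, mul_comm]

/-- the number of pairs of words of size `T` and elements of `P`, upper bound -/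
theorem FT_up (hP : Rg P R G X₁) {θ : ℝ} (hθ : 0 ≤ θ) {m' : ℕ} (hm' : 1 ≤ m') {L : ℝ}
    (hL : ∀ c : ℤ, c % 3 ∈ R →
      ((cls P L (2 * L) m' 1 c).card : ℝ) ≤ θ * (3 / 2) * (L / (3 ^ m' * Real.log L)))
    (hL1 : 1 < L) (cap k m T : ℕ) (hk : m' ≤ k)
    (c : ℤ) (hK : ∀ r : ℤ, ((cls P L (2 * L) (k + m) (2 ^ T) r).card : ℝ)
      ≤ G * (L / (3 ^ (k + m) * Real.log L))) :
    (∑ w ∈ FWT cap k T, ((cls P L (2 * L) (k + m) (2 ^ T) (Wo w + 3 ^ k * c)).card : ℝ))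
      ≤ (θ * (3 / 2) * massR R cap k T + G * dev (FWT cap k T) wwt (fun w => (Wo w : ℤ)) (k + m) m')
        * (2 ^ T * (L / (3 ^ (k + m) * Real.log L))) := by
  classical
  have hlog : 0 < Real.log L := Real.log_pos hL1
  have hL0 : 0 < L := by linarith
  have hG0 : 0 ≤ G := by linarith [hP.G1]
  have h1 := FT_aux cap k m T hk c hK
  set S1 := ∑ w ∈ FWT cap k T, ((cls P L (2 * L) (k + m) (2 ^ T) (Wo w + 3 ^ k * c)).card : ℝ) with hS1
  set S2 := ∑ w ∈ FWT cap k T, ((cls P L (2 * L) m' (2 ^ T) (Wo w)).card : ℝ) with hS2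
  set Λ := L / (3 ^ m' * Real.log L) with hΛ
  have h2 : S2 ≤ θ * (3 / 2) * Λ *
      (((FWT cap k T).filter (fun w => (2 ^ T * (Wo w : ℤ)) % 3 ∈ R)).card : ℝ) := by
    have e1 : θ * (3 / 2) * Λ *
        (((FWT cap k T).filter (fun w => (2 ^ T * (Wo w : ℤ)) % 3 ∈ R)).card : ℝ)
        = ∑ w ∈ FWT cap k T, (if (2 ^ T * (Wo w : ℤ)) % 3 ∈ R then θ * (3 / 2) * Λ else 0) := by
      rw [← sum_filter, sum_const, nsmul_eq_mul, mul_comm]
    rw [e1, hS2]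
    refine sum_le_sum fun w hw => ?_
    obtain ⟨c', g1, g2, g3⟩ := P_class hP.mod3 hm' (L := L) T (Wo w)
    by_cases h : (2 ^ T * (Wo w : ℤ)) % 3 ∈ R
    · rw [if_pos h, g1]; exact hL c' (g2 h)
    · rw [if_neg h, g3 h]; simp
  have hpow : (3 : ℝ) ^ (k + m) = 3 ^ m' * 3 ^ (k + m - m') := by
    rw [← pow_add]; congr 1; omega
  have h3pos : (0 : ℝ) < 3 ^ (k + m - m') := by positivity
  have h22 : (2 : ℝ) ^ T * (1 / 2) ^ T = 1 := by rw [← mul_pow]; norm_num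
  have h4 : S2 / 3 ^ (k + m - m') ≤ θ * (3 / 2) * massR R cap k T
      * (2 ^ T * (L / (3 ^ (k + m) * Real.log L))) := by
    rw [div_le_iff₀ h3pos]
    refine h2.trans (le_of_eq ?_)
    rw [massR_eq, hΛ, hpow]
    have : θ * (3 / 2) * ((1 / 2) ^ T *
        (((FWT cap k T).filter (fun w => (2 ^ T * (Wo w : ℤ)) % 3 ∈ R)).card : ℝ))
        * (2 ^ T * (L / (3 ^ m' * 3 ^ (k + m - m') * Real.log L))) * 3 ^ (k + m - m')
        = (2 ^ T * (1 / 2) ^ T) * (θ * (3 / 2) *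
        (((FWT cap k T).filter (fun w => (2 ^ T * (Wo w : ℤ)) % 3 ∈ R)).card : ℝ)
        * (L / (3 ^ m' * 3 ^ (k + m - m') * Real.log L)) * 3 ^ (k + m - m')) := by ring
    refine Eq.trans ?_ (Eq.trans this.symm ?_)
    · rw [h22, one_mul]
      field_simp
    · congr!
  have h5 := (abs_le.1 h1).2
  rw [add_mul]
  linarith

/-- the number of pairs of words of size `T` and elements of `P`, lower bound -/
theorem FT_lo (hP : Rg P R G X₁) {θ : ℝ} (hθ : 0 ≤ θ) {m' : ℕ} (hm' : 1 ≤ m') {L : ℝ}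
    (hL : ∀ c : ℤ, c % 3 ∈ R →
      θ * (3 / 2) * (L / (3 ^ m' * Real.log L)) ≤ ((cls P L (2 * L) m' 1 c).card : ℝ))
    (hL1 : 1 < L) (cap k m T : ℕ) (hk : m' ≤ k)
    (c : ℤ) (hK : ∀ r : ℤ, ((cls P L (2 * L) (k + m) (2 ^ T) r).card : ℝ)
      ≤ G * (L / (3 ^ (k + m) * Real.log L))) :
    (θ * (3 / 2) * massR R cap k T - G * dev (FWT cap k T) wwt (fun w => (Wo w : ℤ)) (k + m) m')
        * (2 ^ T * (L / (3 ^ (k + m) * Real.log L)))
      ≤ (∑ w ∈ FWT cap k T, ((cls P L (2 * L) (k + m) (2 ^ T) (Wo w + 3 ^ k * c)).card : ℝ)) := by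
  classical
  have hlog : 0 < Real.log L := Real.log_pos hL1
  have hL0 : 0 < L := by linarith
  have hG0 : 0 ≤ G := by linarith [hP.G1]
  have h1 := FT_aux cap k m T hk c hK
  set S1 := ∑ w ∈ FWT cap k T, ((cls P L (2 * L) (k + m) (2 ^ T) (Wo w + 3 ^ k * c)).card : ℝ) with hS1
  set S2 := ∑ w ∈ FWT cap k T, ((cls P L (2 * L) m' (2 ^ T) (Wo w)).card : ℝ) with hS2
  set Λ := L / (3 ^ m' * Real.log L) with hΛ
  have h2 : θ * (3 / 2) * Λ *
      (((FWT cap k T).filter (fun w => (2 ^ T * (Wo w : ℤ)) % 3 ∈ R)).card : ℝ) ≤ S2 := by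
    have e1 : θ * (3 / 2) * Λ *
        (((FWT cap k T).filter (fun w => (2 ^ T * (Wo w : ℤ)) % 3 ∈ R)).card : ℝ)
        = ∑ w ∈ FWT cap k T, (if (2 ^ T * (Wo w : ℤ)) % 3 ∈ R then θ * (3 / 2) * Λ else 0) := by
      rw [← sum_filter, sum_const, nsmul_eq_mul, mul_comm]
    rw [e1, hS2]
    refine sum_le_sum fun w hw => ?_
    obtain ⟨c', g1, g2, g3⟩ := P_class hP.mod3 hm' (L := L) T (Wo w)
    by_cases h : (2 ^ T * (Wo w : ℤ)) % 3 ∈ R
    · rw [if_pos h, g1]; exact hL c' (g2 h)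
    · rw [if_neg h]; positivity
  have hpow : (3 : ℝ) ^ (k + m) = 3 ^ m' * 3 ^ (k + m - m') := by
    rw [← pow_add]; congr 1; omega
  have h3pos : (0 : ℝ) < 3 ^ (k + m - m') := by positivity
  have h22 : (2 : ℝ) ^ T * (1 / 2) ^ T = 1 := by rw [← mul_pow]; norm_num
  have h4 : θ * (3 / 2) * massR R cap k T
      * (2 ^ T * (L / (3 ^ (k + m) * Real.log L))) ≤ S2 / 3 ^ (k + m - m') := by
    rw [le_div_iff₀ h3pos]
    refine le_trans (le_of_eq ?_) h2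
    rw [massR_eq, hΛ, hpow]
    have : θ * (3 / 2) * ((1 / 2) ^ T *
        (((FWT cap k T).filter (fun w => (2 ^ T * (Wo w : ℤ)) % 3 ∈ R)).card : ℝ))
        * (2 ^ T * (L / (3 ^ m' * 3 ^ (k + m - m') * Real.log L))) * 3 ^ (k + m - m')
        = (2 ^ T * (1 / 2) ^ T) * (θ * (3 / 2) *
        (((FWT cap k T).filter (fun w => (2 ^ T * (Wo w : ℤ)) % 3 ∈ R)).card : ℝ)
        * (L / (3 ^ m' * 3 ^ (k + m - m') * Real.log L)) * 3 ^ (k + m - m')) := by ring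
    refine Eq.trans ?_ (this.trans ?_)
    · congr!
    · rw [h22, one_mul]
      field_simp
  have h5 := (abs_le.1 h1).1
  rw [sub_mul]
  linarith

end

end Pool.Agent.H998_RN
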