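import Pool.Agent.H998_RN.Core
import Pool.Agent.H998_RN.Cnt

/-! Rough numbers on trajectories, part 8: the classes as progressions. -/

set_option autoImplicit false

namespace Pool.Agent.H998_RN

open Finset
open Pool.Agent.H320R2.PD Pool.Agent.H499R2.ND

/-- the first element of the progression -/
theorem ap_param (m : ℕ) {u : ℤ} (hu : IsCoprime u 3) (v : ℤ) (L : ℝ) :
    ∃ A₀ : ℤ, L - 2 * 3 ^ m ≤ A₀ ∧ (A₀ : ℝ) < L ∧
      ∀ x : ℤ, (Odd x ∧ (3 : ℤ) ^ m ∣ u * x - v) ↔ (2 : ℤ) * 3 ^ m ∣ x - A₀ := by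
  obtain ⟨c, hc⟩ := odd_class m hu v
  have hB : (0 : ℝ) < 2 * 3 ^ m := by positivity
  set q : ℤ := ⌈(L - c) / (2 * 3 ^ m)⌉ - 1 with hq
  have h1 : (q : ℝ) < (L - c) / (2 * 3 ^ m) := by
    have := Int.ceil_lt_add_one ((L - c) / (2 * 3 ^ m))
    rw [hq]; push_cast; linarith
  have h2 : (L - c) / (2 * 3 ^ m) ≤ q + 1 := by
    have := Int.le_ceil ((L - c) / (2 * 3 ^ m))
    rw [hq]; push_cast; linarith
  rw [lt_div_iff₀ hB] at h1
  rw [div_le_iff₀ hB] at h2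
  refine ⟨c + 2 * 3 ^ m * q, ?_, ?_, fun x => ?_⟩
  · push_cast; linarith
  · push_cast; linarith
  · rw [hc x]
    have e : x - (c + 2 * 3 ^ m * q) = (x - c) - 2 * 3 ^ m * q := by ring
    rw [e]
    exact (dvd_sub_left (dvd_mul_right _ _)).symm

/-- the number of terms -/
noncomputable def nT (L : ℝ) (m : ℕ) : ℕ := ⌊L / (2 * 3 ^ m)⌋₊

theorem nT_le {L : ℝ} (hL : 0 ≤ L) (m : ℕ) : (nT L m : ℝ) ≤ L / (2 * 3 ^ m) :=
  Nat.floor_le (by positivity)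

theorem lt_nT (L : ℝ) (m : ℕ) : L / (2 * 3 ^ m) < nT L m + 1 := Nat.lt_floor_add_one _

/-- upper bound for the elements of a class -/
theorem cls_le_sum {Q : Set ℤ} {m : ℕ} {u v A₀ : ℤ} {L : ℝ} (hL : 0 ≤ L) (hA1 : L - 2 * 3 ^ m ≤ A₀)
    (hA2 : (A₀ : ℝ) < L)
    (hA : ∀ x : ℤ, (Odd x ∧ (3 : ℤ) ^ m ∣ u * x - v) ↔ (2 : ℤ) * 3 ^ m ∣ x - A₀) (g : ℤ → ℝ)
    (hg0 : ∀ t, 0 ≤ g t) (hg : ∀ t : ℤ, A₀ + 2 * 3 ^ m * t ∈ Q → L ≤ ((A₀ + 2 * 3 ^ m * t : ℤ) : ℝ) →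
      ((A₀ + 2 * 3 ^ m * t : ℤ) : ℝ) < 2 * L → Odd (A₀ + 2 * 3 ^ m * t) → 1 ≤ g t) :
    ((cls Q L (2 * L) m u v).card : ℝ) ≤ ∑ t ∈ Icc 1 (nT L m + 1), g (t : ℕ) := by
  classical
  have hB : (0 : ℝ) < 2 * 3 ^ m := by positivity
  have hBZ : (0 : ℤ) < 2 * 3 ^ m := by positivity
  -- the index
  set ix : ℤ → ℕ := fun x => ((x - A₀) / (2 * 3 ^ m)).toNat with hix
  have hkey : ∀ x ∈ cls Q L (2 * L) m u v, x = A₀ + 2 * 3 ^ m * (ix x : ℕ) ∧
      ix x ∈ Icc 1 (nT L m + 1) := by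
    intro x hx
    rw [mem_cls] at hx
    obtain ⟨⟨h1, h2⟩, h3, h4, h5⟩ := hx
    obtain ⟨t, ht⟩ := (hA x).1 ⟨h3, h5⟩
    have ht1 : x = A₀ + 2 * 3 ^ m * t := by linarith
    have hdiv : (x - A₀) / (2 * 3 ^ m) = t := by
      rw [ht]; exact Int.mul_ediv_cancel_left _ hBZ.ne'
    have hxR : (x : ℝ) = A₀ + 2 * 3 ^ m * t := by rw [ht1]; push_cast; ring
    have ht0 : 0 < t := by
      by_contra hcon
      push Not at hcon
      have : (t : ℝ) ≤ 0 := by exact_mod_cast hcon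
      have : 2 * 3 ^ m * (t : ℝ) ≤ 0 := mul_nonpos_of_nonneg_of_nonpos hB.le this
      linarith
    have htc : ((t.toNat : ℕ) : ℤ) = t := Int.toNat_of_nonneg ht0.le
    have hixt : ix x = t.toNat := by simp only [hix, hdiv]
    refine ⟨?_, ?_⟩
    · rw [hixt, htc]; exact ht1
    · rw [mem_Icc, hixt]
      refine ⟨by omega, ?_⟩
      have h6 : (t : ℝ) ≤ L / (2 * 3 ^ m) + 1 := by
        rw [div_add_one hB.ne', le_div_iff₀ hB]
        linarith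
      have h7 : (t : ℝ) < nT L m + 1 + 1 := lt_of_le_of_lt h6 (by linarith [lt_nT L m])
      have h8 : t < (nT L m : ℤ) + 1 + 1 := by exact_mod_cast h7
      omega
  have hinj : Set.InjOn ix (cls Q L (2 * L) m u v : Set ℤ) := by
    intro x hx y hy hxy
    rw [(hkey x hx).1, (hkey y hy).1, hxy]
  calc ((cls Q L (2 * L) m u v).card : ℝ) = ∑ x ∈ cls Q L (2 * L) m u v, (1 : ℝ) := by simp
    _ ≤ ∑ x ∈ cls Q L (2 * L) m u v, g (ix x : ℕ) := by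
        apply sum_le_sum
        intro x hx
        have h1 := (hkey x hx).1
        rw [mem_cls] at hx
        apply hg
        · rw [← h1]; exact hx.2.2.1
        · rw [← h1]; exact hx.1.1
        · rw [← h1]; exact hx.1.2
        · rw [← h1]; exact hx.2.1
    _ = ∑ t ∈ (cls Q L (2 * L) m u v).image ix, g (t : ℕ) := (sum_image (f := fun t : ℕ => g (t : ℤ)) hinj).symm
    _ ≤ _ := by
        apply sum_le_sum_of_subset_of_nonneg
        · intro t ht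
          rw [mem_image] at ht
          obtain ⟨x, hx, rfl⟩ := ht
          exact (hkey x hx).2
        · intro t _ _; exact hg0 _

/-- lower bound for the elements of a class -/
theorem sum_le_cls {Q : Set ℤ} {m : ℕ} {u v A₀ : ℤ} {L : ℝ} (hL : 0 ≤ L) (hA1 : L - 2 * 3 ^ m ≤ A₀)
    (hA2 : (A₀ : ℝ) < L)
    (hA : ∀ x : ℤ, (Odd x ∧ (3 : ℤ) ^ m ∣ u * x - v) ↔ (2 : ℤ) * 3 ^ m ∣ x - A₀) (g : ℤ → ℝ)
    (hg1 : ∀ t, g t ≤ 1) (hg : ∀ t : ℤ, L ≤ ((A₀ + 2 * 3 ^ m * t : ℤ) : ℝ) →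
      ((A₀ + 2 * 3 ^ m * t : ℤ) : ℝ) < 2 * L → Odd (A₀ + 2 * 3 ^ m * t) →
      A₀ + 2 * 3 ^ m * t ∉ Q → g t ≤ 0) :
    ∑ t ∈ Icc 1 (nT L m), g (t : ℕ) ≤ ((cls Q L (2 * L) m u v).card : ℝ) := by
  classical
  have hB : (0 : ℝ) < 2 * 3 ^ m := by positivity
  have hBZ : (0 : ℤ) < 2 * 3 ^ m := by positivity
  set F := (Icc 1 (nT L m)).filter (fun t : ℕ => A₀ + 2 * 3 ^ m * (t : ℕ) ∈ Q) with hF
  have hrange : ∀ t ∈ Icc 1 (nT L m), L ≤ ((A₀ + 2 * 3 ^ m * (t : ℕ) : ℤ) : ℝ) ∧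
      ((A₀ + 2 * 3 ^ m * (t : ℕ) : ℤ) : ℝ) < 2 * L := by
    intro t ht
    rw [mem_Icc] at ht
    have h1 : (1 : ℝ) ≤ t := by exact_mod_cast ht.1
    have h2 : (t : ℝ) ≤ L / (2 * 3 ^ m) := (by exact_mod_cast ht.2 : (t : ℝ) ≤ nT L m).trans (nT_le hL m)
    rw [le_div_iff₀ hB] at h2
    push_cast
    constructor
    · have := mul_le_mul_of_nonneg_left h1 hB.le
      linarith
    · linarith
  have hodd : ∀ t : ℕ, Odd (A₀ + 2 * 3 ^ m * (t : ℕ)) ∧ (3 : ℤ) ^ m ∣ u * (A₀ + 2 * 3 ^ m * (t : ℕ)) - v := by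
    intro t
    apply (hA _).2
    exact ⟨t, by ring⟩
  calc ∑ t ∈ Icc 1 (nT L m), g (t : ℕ) ≤ ∑ t ∈ Icc 1 (nT L m),
        (if A₀ + 2 * 3 ^ m * (t : ℕ) ∈ Q then (1 : ℝ) else 0) := by
        apply sum_le_sum
        intro t ht
        split_ifs with h
        · exact hg1 _
        · obtain ⟨h1, h2⟩ := hrange t ht
          exact hg _ h1 h2 (hodd t).1 h
    _ = (F.card : ℝ) := by rw [← sum_filter, sum_const, nsmul_eq_mul, mul_one]
    _ ≤ _ := by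
        have : F.card ≤ (cls Q L (2 * L) m u v).card := by
          apply card_le_card_of_injOn (fun t : ℕ => A₀ + 2 * 3 ^ m * (t : ℤ))
          · intro t ht
            have ht' : t ∈ F := ht
            rw [hF, mem_filter] at ht'
            rw [mem_coe, mem_cls]
            exact ⟨hrange t ht'.1, (hodd t).1, ht'.2, (hodd t).2⟩
          · intro s _ t _ hst
            have h1 : (2 : ℤ) * 3 ^ m * s = 2 * 3 ^ m * t := by
              have := hst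
              simp only at this
              linarith
            have h2 := mul_left_cancel₀ hBZ.ne' h1
            exact_mod_cast h2
        exact_mod_cast this

end Pool.Agent.H998_RN
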