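import Pool.Agent.H998_RN.Nk

/-! Rough numbers on trajectories, part 4: the lowest scales, bounds for the ingredients. -/

set_option autoImplicit false

namespace Pool.Agent.H998_RN

open Finset
open Pool.Agent.H320R2.PD Pool.Agent.H499R2.ND
open Pool.Agent.R344.TH Pool.Agent.H998_PL

open scoped Classical in
/-- the pairs of times -/
theorem PTot_le' {P : Set ℤ} (hPo : ∀ x ∈ P, Odd x) {C X₀ : ℝ}
    (hC : 0 < C)
    (hpair : ∀ L : ℝ, X₀ ≤ L → ∀ τ n : ℕ, 1 ≤ τ → (2 : ℝ) ^ τ * 3 ^ n ≤ Real.sqrt L →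
      ∀ u v : ℤ, IsCoprime u 3 →
      ((cls (Pt P τ) L (2 * L) n u v).card : ℝ) ≤ C * (L / (3 ^ n * (Real.log L) ^ 2)))
    {A : ℝ} (hA : 0 < A) (cap K t₂ m : ℕ) (c : ℤ) {lam0 : ℝ} (hlam : 0 < lam0)
    (h0 : lam0 ≤ Real.log (A / 2 ^ t₂)) (h1 : X₀ ≤ A / 2 ^ t₂) 
    (h2 : (2 : ℝ) ^ t₂ * 3 ^ (K + m) ≤ Real.sqrt (A / 2 ^ t₂)) :
    PTot P A cap K t₂ m c
      ≤ 2 * (((K : ℝ) + 1) * t₂ * (C * (A / 3 ^ m) / lam0 ^ 2 + 2 * 2 ^ t₂)) := by
  classical
  have hPto : ∀ τ, ∀ x ∈ Pt P τ, Odd x := fun τ x hx => hPo x hx.1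
  have hYY : ∀ q ∈ range (K + 1) ×ˢ Icc 1 t₂, ((YY P A cap t₂ m c q).card : ℝ)
      ≤ C * (A / 3 ^ m) / lam0 ^ 2 + 2 * 2 ^ t₂ := by
    rintro ⟨k, τ⟩ hq
    rw [mem_product, mem_range, mem_Icc] at hq
    obtain ⟨hk, hτ1, hτ2⟩ := hq
    simp only at hk hτ1 hτ2
    have hsum : ((YY P A cap t₂ m c (k, τ)).card : ℝ)
        ≤ ∑ v ∈ GW cap k 0 t₂, ((XP (Pt P τ) A k m c v).card : ℝ) := by
      unfold YY
      exact_mod_cast card_biUnion_le
    refine hsum.trans ?_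
    have hterm : ∀ v ∈ GW cap k 0 t₂, ((XP (Pt P τ) A k m c v).card : ℝ)
        ≤ C * (A / 3 ^ m) / lam0 ^ 2 * wwt v + 2 := by
      intro v hv
      unfold GW at hv
      rw [mem_filter] at hv
      have hvp := FW_props hv.1
      have hXP := XP_card (hPto τ) hA.le (m := m) (c := c) hvp.1 hvp.2
      rw [abs_le] at hXP
      set L := A * 3 ^ k / 2 ^ v.sum with hL
      have hLge : A / 2 ^ t₂ ≤ L := by
        rw [hL]
        calc A / 2 ^ t₂ ≤ A / 2 ^ v.sum := div_le_div_of_nonneg_left hA.le (by positivity)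
              (pow_le_pow_right₀ (by norm_num) hv.2.2)
          _ ≤ _ := by
              apply div_le_div_of_nonneg_right _ (by positivity)
              exact le_mul_of_one_le_right hA.le (one_le_pow₀ (by norm_num))
      have hLlog : lam0 ≤ Real.log L := h0.trans (Real.log_le_log (by positivity) hLge)
      have hb := hpair L (h1.trans hLge) τ (k + m) hτ1 (by
        calc (2 : ℝ) ^ τ * 3 ^ (k + m) ≤ 2 ^ t₂ * 3 ^ (K + m) := by
              apply mul_le_mul (pow_le_pow_right₀ (by norm_num) hτ2)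
                (pow_le_pow_right₀ (by norm_num) (by omega)) (by positivity) (by positivity)
          _ ≤ Real.sqrt (A / 2 ^ t₂) := h2
          _ ≤ Real.sqrt L := Real.sqrt_le_sqrt hLge) (2 ^ v.sum) (Wo v + 3 ^ k * c) (cop_two_pow _)
      have hb2 : C * (L / (3 ^ (k + m) * (Real.log L) ^ 2)) ≤ C * (A / 3 ^ m) / lam0 ^ 2 * wwt v := by
        have e1 : C * (A / 3 ^ m) / lam0 ^ 2 * wwt v = C * (L / (3 ^ (k + m) * lam0 ^ 2)) := by
          rw [hL, pow_add]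
          unfold wwt
          rw [one_div, inv_pow]
          field_simp
        rw [e1]
        apply mul_le_mul_of_nonneg_left _ hC.le
        apply div_le_div_of_nonneg_left (by positivity) (by positivity)
        apply mul_le_mul_of_nonneg_left _ (by positivity)
        exact pow_le_pow_left₀ hlam.le hLlog 2
      linarith [hXP.2]
    refine (sum_le_sum hterm).trans ?_
    rw [sum_add_distrib, ← mul_sum, sum_const, nsmul_eq_mul]
    have hmass : ∑ v ∈ GW cap k 0 t₂, wwt v ≤ 1 := by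
      refine le_trans ?_ (sum_wwt_le cap k)
      unfold GW
      apply sum_le_sum_of_subset_of_nonneg (filter_subset _ _)
      intro w _ _; unfold wwt; positivity
    have hc := GW_card cap k 0 t₂
    have hpos : 0 ≤ C * (A / 3 ^ m) / lam0 ^ 2 := by positivity
    have := mul_le_mul_of_nonneg_left hmass hpos
    linarith
  unfold PTot
  have hx : ∀ x ∈ cls Set.univ A (2 * A) m 1 c,
      (((PT P A cap K t₂ m c x).card : ℝ) * ((PT P A cap K t₂ m c x).card : ℝ)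
      - ((PT P A cap K t₂ m c x).card : ℝ))
      ≤ 2 * ∑ q ∈ range (K + 1) ×ˢ Icc 1 t₂, (if x ∈ YY P A cap t₂ m c q then (1 : ℝ) else 0) := by
    intro x hx
    have hxo : Odd x := by rw [mem_cls] at hx; exact hx.2.1
    have h3 := pair_le hPo (A := A) (cap := cap) (K := K) (t₂ := t₂) (m := m) (c := c) hxo
    have h4 : ∑ q ∈ range (K + 1) ×ˢ Icc 1 t₂, (if x ∈ YY P A cap t₂ m c q then (1 : ℝ) else 0)
        = (((range (K + 1) ×ˢ Icc 1 t₂).filter (fun q => x ∈ YY P A cap t₂ m c q)).card : ℝ) := by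
      rw [card_filter]; push_cast; rfl
    rw [h4]
    set n := (PT P A cap K t₂ m c x).card with hn
    have h5 : n ≤ n * n := by
      rcases Nat.eq_zero_or_pos n with h | h
      · rw [h]
      · exact Nat.le_mul_of_pos_left n h
    have h6 : ((n * n - n : ℕ) : ℝ) = (n : ℝ) * n - n := by
      rw [Nat.cast_sub h5]; push_cast; ring
    rw [← h6]
    exact_mod_cast h3
  refine (sum_le_sum hx).trans ?_
  rw [← mul_sum, sum_comm]
  apply mul_le_mul_of_nonneg_left _ (by norm_num)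
  have h7 : ∀ q ∈ range (K + 1) ×ˢ Icc 1 t₂,
      ∑ x ∈ cls Set.univ A (2 * A) m 1 c, (if x ∈ YY P A cap t₂ m c q then (1 : ℝ) else 0)
      ≤ C * (A / 3 ^ m) / lam0 ^ 2 + 2 * 2 ^ t₂ := by
    intro q hq
    refine le_trans ?_ (hYY q hq)
    have : ∑ x ∈ cls Set.univ A (2 * A) m 1 c, (if x ∈ YY P A cap t₂ m c q then (1 : ℝ) else 0)
        = (((cls Set.univ A (2 * A) m 1 c).filter (fun x => x ∈ YY P A cap t₂ m c q)).card : ℝ) := by
      rw [card_filter]; push_cast; rfl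
    rw [this]
    exact_mod_cast card_le_card (fun x hx => (mem_filter.1 hx).2)
  refine (sum_le_sum h7).trans (le_of_eq ?_)
  rw [sum_const, card_product, card_range, Nat.card_Icc, nsmul_eq_mul, Nat.add_sub_cancel]
  push_cast
  ring


section

variable {P R : Set ℤ} {G X₁ θ δ η ε₁ l a Lb C₁ : ℝ} {m m' K k₁ k₃ : ℕ}

/-- facts used for the number of starting points with a typical word and endpoint in `P` -/
theorem xp_facts (hC₁ : 0 < C₁)
    (hmix : ∀ k m m' A : ℕ, 1 ≤ k → 1 ≤ m' → m' ≤ k → 3 * k ≤ A →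
      ∑ T ∈ range (k * A + 1), dev (FWT A k T) wwt (fun w => (Wo w : ℤ)) (k + m) m'
        ≤ C₁ * (1 / (m' : ℝ) + (m : ℝ) ^ 3 / (k : ℝ) ^ 2)) (hm' : 1 ≤ m') (hX : X₁ ≤ Lb)
    (hδ : 0 < δ) (hδ1 : δ ≤ 1 / 50) (hη : 0 < η) (hη1 : η ≤ 1 / 20) (hε₁ : 0 < ε₁) (hε1 : ε₁ ≤ δ / 10)
    (h : Par δ η ε₁ l a Lb m m' K k₁ k₃) {k : ℕ} (hk1 : k₁ ≤ k) (hk : k ≤ K) :
    Thi η k ≤ k * (2 * (3 * K)) ∧ X₁ ≤ Real.exp a * 3 ^ k / 2 ^ (Thi η k) ∧
    (3 : ℝ) ^ (k + m) ≤ Real.sqrt (Real.exp a * 3 ^ k / 2 ^ (Thi η k)) ∧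
    0 < (1 - 2 * δ) * l ∧ (1 - 2 * δ) * l ≤ Real.log (Real.exp a * 3 ^ k / 2 ^ (Thi η k)) ∧
    Real.log (Real.exp a * 3 ^ k / 2 ^ (Tlo η k)) ≤ a ∧
    ∑ T ∈ range (k * (2 * (3 * K)) + 1),
      dev (FWT (2 * (3 * K)) k T) wwt (fun w => (Wo w : ℤ)) (k + m) m' ≤ C₁ * (1 / (m' : ℝ) + ε₁) ∧
    (2 : ℝ) ^ (Thi η k) ≤ 2 ^ (Thi η K) := by
  have hl := h.l1
  have hk0 : 1 ≤ k := h.one.trans hk1
  have hkR : (0 : ℝ) < k := by exact_mod_cast hk0
  have hThi3 : Thi η k ≤ 3 * k := by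
    have h1 := Thi_le hη.le k
    have h2 : (Thi η k : ℝ) ≤ 3 * k := by nlinarith
    exact_mod_cast h2
  have hTm : Thi η k ≤ k * (2 * (3 * K)) := by nlinarith
  have hf6 := h.f6 hδ hη hη1 hε1 hk
  have hLb : X₁ ≤ Real.exp a * 3 ^ k / 2 ^ (Thi η k) := by
    refine hX.trans (h.big.trans (le_trans (Real.exp_le_exp.2 ?_) hf6))
    nlinarith
  have hlamle : (1 - 2 * δ) * l ≤ Real.log (Real.exp a * 3 ^ k / 2 ^ (Thi η k)) := by
    rw [← Real.log_exp ((1 - 2 * δ) * l)]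
    exact Real.log_le_log (Real.exp_pos _) hf6
  have hsqrt : (3 : ℝ) ^ (k + m) ≤ Real.sqrt (Real.exp a * 3 ^ k / 2 ^ (Thi η k)) := by
    refine (h.three_pow hδ1 hη1 hk).trans ?_
    apply Real.le_sqrt_of_sq_le
    rw [exp_sq]
    refine le_trans (Real.exp_le_exp.2 ?_) hf6
    nlinarith
  have hlam1 : Real.log (Real.exp a * 3 ^ k / 2 ^ (Tlo η k)) ≤ a := by
    have h1 := upL η a k
    have h2 : Real.exp (a - k * km η) ≤ Real.exp a := by
      apply Real.exp_le_exp.2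
      have := km_ge hη1
      have : 0 ≤ (k : ℝ) * km η := by positivity
      linarith
    rw [← Real.log_exp a]
    have h3 := Real.log_le_log (by positivity) (h1.trans h2)
    rwa [Real.log_exp] at h3 ⊢
  have hlam0 : 0 < (1 - 2 * δ) * l := by
    have : 0 < 1 - 2 * δ := by linarith
    positivity
  have hdev : ∑ T ∈ range (k * (2 * (3 * K)) + 1),
      dev (FWT (2 * (3 * K)) k T) wwt (fun w => (Wo w : ℤ)) (k + m) m' ≤ C₁ * (1 / (m' : ℝ) + ε₁) := by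
    refine (hmix k m m' (2 * (3 * K)) hk0 hm' (h.hm'.trans hk1) (by omega)).trans ?_
    apply mul_le_mul_of_nonneg_left _ hC₁.le
    apply add_le_add_right
    rw [div_le_iff₀ (by positivity)]
    refine h.m3.trans ?_
    apply mul_le_mul_of_nonneg_left _ hε₁.le
    have h1 : 3 * Real.sqrt l ≤ k := h.k1sq.trans (by exact_mod_cast hk1)
    have h2 : (3 * Real.sqrt l) ^ 2 ≤ (k : ℝ) ^ 2 := pow_le_pow_left₀ (by positivity) h1 2
    rw [mul_pow, Real.sq_sqrt (by linarith)] at h2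
    linarith
  have h2pow : (2 : ℝ) ^ (Thi η k) ≤ 2 ^ (Thi η K) :=
    pow_le_pow_right₀ (by norm_num) (Thi_mono hη.le hk)
  exact ⟨hTm, hLb, hsqrt, hlam0, hlamle, hlam1, hdev, h2pow⟩

/-- upper bound -/
theorem xp_up (hP : Rg P R G X₁) (hθ : 0 ≤ θ) (hC₁ : 0 < C₁)
    (hmix : ∀ k m m' A : ℕ, 1 ≤ k → 1 ≤ m' → m' ≤ k → 3 * k ≤ A →
      ∑ T ∈ range (k * A + 1), dev (FWT A k T) wwt (fun w => (Wo w : ℤ)) (k + m) m'
        ≤ C₁ * (1 / (m' : ℝ) + (m : ℝ) ^ 3 / (k : ℝ) ^ 2)) (hm' : 1 ≤ m')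
    (hL₀ : ∀ L : ℝ, X₁ ≤ L → ∀ c : ℤ, c % 3 ∈ R →
      ((cls P L (2 * L) m' 1 c).card : ℝ) ≤ θ * (3 / 2) * (L / (3 ^ m' * Real.log L)))
    (hX : X₁ ≤ Lb)
    (hδ : 0 < δ) (hδ1 : δ ≤ 1 / 50) (hη : 0 < η) (hη1 : η ≤ 1 / 20) (hε₁ : 0 < ε₁) (hε1 : ε₁ ≤ δ / 10)
    (h : Par δ η ε₁ l a Lb m m' K k₁ k₃) (c : ℤ) {k : ℕ} (hk1 : k₁ ≤ k)
    (hk : k ≤ K) :
    (∑ w ∈ GW (2 * (3 * K)) k (Tlo η k) (Thi η k), ((XP P (Real.exp a) k m c w).card : ℝ))
      ≤ Real.exp a / 3 ^ m * ((θ * (3 / 2) * sig R + G * (C₁ * (1 / (m' : ℝ) + ε₁)))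
          / ((1 - 2 * δ) * l)) + 2 * 2 ^ (Thi η K) := by
  obtain ⟨hTm, hLb, hsqrt, hlam0, hlamle, hlam1, hdev, h2pow⟩ :=
    xp_facts hC₁ hmix hm' hX hδ hδ1 hη hη1 hε₁ hε1 h hk1 hk
  have hmain := Nk_up hP hθ hm' hL₀ (Real.exp_pos a) (2 * (3 * K)) k m (Tlo η k) (Thi η k)
    (h.hm'.trans hk1) hTm c hLb hsqrt hlam0 hlamle
  have hm1 := massR_le R (3 * K) k (Tlo η k) (Thi η k) (h.one.trans hk1)
  have hA3 : 0 < Real.exp a / 3 ^ m := by positivity
  have hG0 : 0 ≤ G := by linarith [hP.G1]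
  refine hmain.trans ?_
  apply add_le_add _ (by linarith)
  apply mul_le_mul_of_nonneg_left _ hA3.le
  apply div_le_div_of_nonneg_right _ hlam0.le
  have h1 : θ * (3 / 2) * ∑ T ∈ Icc (Tlo η k) (Thi η k), massR R (2 * (3 * K)) k T
      ≤ θ * (3 / 2) * sig R := mul_le_mul_of_nonneg_left hm1 (by positivity)
  have h2 := mul_le_mul_of_nonneg_left hdev hG0
  linarith

/-- lower bound -/
theorem xp_lo (hP : Rg P R G X₁) (hθ : 0 ≤ θ) (hθG : θ ≤ G) (hC₁ : 0 < C₁)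
    (hmix : ∀ k m m' A : ℕ, 1 ≤ k → 1 ≤ m' → m' ≤ k → 3 * k ≤ A →
      ∑ T ∈ range (k * A + 1), dev (FWT A k T) wwt (fun w => (Wo w : ℤ)) (k + m) m'
        ≤ C₁ * (1 / (m' : ℝ) + (m : ℝ) ^ 3 / (k : ℝ) ^ 2)) (hm' : 1 ≤ m')
    (hL₀ : ∀ L : ℝ, X₁ ≤ L → ∀ c : ℤ, c % 3 ∈ R →
      θ * (3 / 2) * (L / (3 ^ m' * Real.log L)) ≤ ((cls P L (2 * L) m' 1 c).card : ℝ))
    (hX : X₁ ≤ Lb)
    (hδ : 0 < δ) (hδ1 : δ ≤ 1 / 50) (hη : 0 < η) (hη1 : η ≤ 1 / 20) (hε₁ : 0 < ε₁) (hε1 : ε₁ ≤ δ / 10)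
    (h : Par δ η ε₁ l a Lb m m' K k₁ k₃) (c : ℤ) {k : ℕ} (hk1 : k₁ ≤ k)
    (hk : k ≤ K) :
    Real.exp a / 3 ^ m * (θ * (3 / 2) * sig R / a - (G * (C₁ * (1 / (m' : ℝ) + ε₁))
          + 5 * (G * el η l)) / ((1 - 2 * δ) * l)) - 2 * 2 ^ (Thi η K)
      ≤ (∑ w ∈ GW (2 * (3 * K)) k (Tlo η k) (Thi η k), ((XP P (Real.exp a) k m c w).card : ℝ)) := by
  obtain ⟨hTm, hLb, hsqrt, hlam0, hlamle, hlam1, hdev, h2pow⟩ :=
    xp_facts hC₁ hmix hm' hX hδ hδ1 hη hη1 hε₁ hε1 h hk1 hk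
  have hmain := Nk_lo hP hθ hm' hL₀ (Real.exp_pos a) (2 * (3 * K)) k m (Tlo η k) (Thi η k)
    (h.hm'.trans hk1) hTm c hLb hsqrt hlam0 hlamle hlam1
  have hm2 := massR_ge R (h := 3 * K) (h.one.trans hk1) (by omega) hη (by linarith)
  have hel := h.elk hk1
  have hA3 : 0 < Real.exp a / 3 ^ m := by positivity
  have hG0 : 0 ≤ G := by linarith [hP.G1]
  refine le_trans ?_ hmain
  apply sub_le_sub _ (by linarith)
  apply mul_le_mul_of_nonneg_left _ hA3.le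
  have ha0 : 0 < a := by linarith [h.a1, h.l1]
  have hala : (1 - 2 * δ) * l ≤ a := hlamle.trans (by
    refine le_trans ?_ hlam1
    apply Real.log_le_log (by positivity)
    exact div_le_div_of_nonneg_left (by positivity) (by positivity)
      (pow_le_pow_right₀ (by norm_num) (Tlo_le_Thi hη.le k)))
  have h1 : θ * (3 / 2) * (sig R - 3 * el η l)
      ≤ θ * (3 / 2) * ∑ T ∈ Icc (Tlo η k) (Thi η k), massR R (2 * (3 * K)) k T :=
    mul_le_mul_of_nonneg_left (by linarith) (by positivity)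
  have help := el_pos η l
  have hGel : 0 ≤ G * el η l := by positivity
  have h2 : θ * (3 / 2) * sig R / a - 5 * (G * el η l) / ((1 - 2 * δ) * l)
      ≤ (θ * (3 / 2) * ∑ T ∈ Icc (Tlo η k) (Thi η k), massR R (2 * (3 * K)) k T) / a := by
    have e1 : θ * (3 / 2) * (3 * el η l) ≤ 5 * (G * el η l) := by
      have := mul_le_mul_of_nonneg_right hθG help.le
      linarith
    have e2 : θ * (3 / 2) * sig R / a - 5 * (G * el η l) / a
        ≤ (θ * (3 / 2) * ∑ T ∈ Icc (Tlo η k) (Thi η k), massR R (2 * (3 * K)) k T) / a := by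
      rw [← sub_div]
      apply div_le_div_of_nonneg_right _ ha0.le
      linarith
    have e3 : 5 * (G * el η l) / a ≤ 5 * (G * el η l) / ((1 - 2 * δ) * l) :=
      div_le_div_of_nonneg_left (by linarith) hlam0 hala
    linarith
  have h3 : (G * ∑ T ∈ range (k * (2 * (3 * K)) + 1),
    dev (FWT (2 * (3 * K)) k T) wwt (fun w => (Wo w : ℤ)) (k + m) m') / ((1 - 2 * δ) * l)
    ≤ (G * (C₁ * (1 / (m' : ℝ) + ε₁))) / ((1 - 2 * δ) * l) := by
    apply div_le_div_of_nonneg_right _ hlam0.le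
    exact mul_le_mul_of_nonneg_left hdev hG0
  rw [add_div (G * (C₁ * (1 / (m' : ℝ) + ε₁)))]
  linarith

/-- the first letters -/
theorem early_bound' (hP : Rg P R G X₁) (hX : X₁ ≤ Lb) (hδ : 0 < δ) (hδ1 : δ ≤ 1 / 50) (hη : 0 < η) (hη1 : η ≤ 1 / 20)
    (hε1 : ε₁ ≤ δ / 10) (h : Par δ η ε₁ l a Lb m m' K k₁ k₃) (c : ℤ)
    {k : ℕ} (hk : k ≤ k₁) :
    (∑ v ∈ GW (2 * (3 * K)) k 0 (Thi η k₁), ((XP P (Real.exp a) k m c v).card : ℝ))
      ≤ G * (Real.exp a / 3 ^ m) / ((1 - 2 * δ) * l) + 2 * 2 ^ (Thi η K) := by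
  have hl := h.l1
  have hlam0 : 0 < (1 - 2 * δ) * l := by
    have : 0 < 1 - 2 * δ := by linarith
    positivity
  have hf4 := h.f4' hδ hη hη1 hε1
  have hterm : ∀ v ∈ GW (2 * (3 * K)) k 0 (Thi η k₁), ((XP P (Real.exp a) k m c v).card : ℝ)
      ≤ G * (Real.exp a / 3 ^ m) / ((1 - 2 * δ) * l) * wwt v + 2 := by
    intro v hv
    unfold GW at hv
    rw [mem_filter] at hv
    have hvp := FW_props hv.1
    have hXP := XP_card hP.odd (Real.exp_pos a).le (m := m) (c := c) hvp.1 hvp.2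
    rw [abs_le] at hXP
    set L := Real.exp a * 3 ^ k / 2 ^ v.sum with hL
    have hLge : Real.exp (l - 0.25 * (δ * l)) ≤ L := by
      rw [hL]
      refine hf4.trans ?_
      calc Real.exp a / 2 ^ (Thi η k₁) ≤ Real.exp a / 2 ^ v.sum :=
            div_le_div_of_nonneg_left (Real.exp_pos a).le (by positivity)
              (pow_le_pow_right₀ (by norm_num) hv.2.2)
        _ ≤ _ := by
            apply div_le_div_of_nonneg_right _ (by positivity)
            exact le_mul_of_one_le_right (Real.exp_pos a).le (one_le_pow₀ (by norm_num))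
    have hδl : δ * l ≤ 1 / 50 * l := mul_le_mul_of_nonneg_right hδ1 (by linarith)
    have hδl0 : 0 < δ * l := by positivity
    have hLge2 : Real.exp ((1 - 2 * δ) * l) ≤ L := by
      refine le_trans (Real.exp_le_exp.2 ?_) hLge
      nlinarith
    have hLlog : (1 - 2 * δ) * l ≤ Real.log L := by
      rw [← Real.log_exp ((1 - 2 * δ) * l)]
      exact Real.log_le_log (Real.exp_pos _) hLge2
    have h100 : X₁ ≤ L := by
      refine hX.trans (h.big.trans ((Real.exp_le_exp.2 ?_).trans hLge2))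
      nlinarith
    have hsq : (3 : ℝ) ^ (k + m) ≤ Real.sqrt L := by
      refine (h.three_pow hδ1 hη1 (hk.trans h.k1K)).trans ?_
      apply Real.le_sqrt_of_sq_le
      rw [exp_sq]
      refine le_trans (Real.exp_le_exp.2 ?_) hLge2
      nlinarith
    have hb := hP.bt L h100 (k + m) hsq _ (Wo v + 3 ^ k * c) (cop_two_pow v.sum)
    have hb2 : G * (L / (3 ^ (k + m) * Real.log L))
        ≤ G * (Real.exp a / 3 ^ m) / ((1 - 2 * δ) * l) * wwt v := by
      have e1 : G * (Real.exp a / 3 ^ m) / ((1 - 2 * δ) * l) * wwt v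
          = G * (L / (3 ^ (k + m) * ((1 - 2 * δ) * l))) := by
        rw [hL, pow_add]
        unfold wwt
        rw [one_div, inv_pow]
        have : 0 < 1 - 2 * δ := by linarith
        field_simp
      rw [e1]
      apply mul_le_mul_of_nonneg_left _ (by linarith [hP.G1])
      apply div_le_div_of_nonneg_left (by positivity) (by positivity)
      exact mul_le_mul_of_nonneg_left hLlog (by positivity)
    linarith [hXP.2]
  refine (sum_le_sum hterm).trans ?_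
  rw [sum_add_distrib, ← mul_sum, sum_const, nsmul_eq_mul]
  have hmass : ∑ v ∈ GW (2 * (3 * K)) k 0 (Thi η k₁), wwt v ≤ 1 := by
    refine le_trans ?_ (sum_wwt_le (2 * (3 * K)) k)
    unfold GW
    apply sum_le_sum_of_subset_of_nonneg (filter_subset _ _)
    intro w _ _; unfold wwt; positivity
  have hc := GW_card (2 * (3 * K)) k 0 (Thi η k₁)
  have h2pow : (2 : ℝ) ^ (Thi η k₁) ≤ 2 ^ (Thi η K) :=
    pow_le_pow_right₀ (by norm_num) (Thi_mono hη.le h.k1K)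
  have hG0 : 0 ≤ G := by linarith [hP.G1]
  have hpos : 0 ≤ G * (Real.exp a / 3 ^ m) / ((1 - 2 * δ) * l) := by positivity
  have := mul_le_mul_of_nonneg_left hmass hpos
  linarith

/-- the pairs of times -/
theorem ptot_bound' {C X₀ : ℝ} (hPo : ∀ x ∈ P, Odd x)
    (hC : 0 < C)
    (hpair : ∀ L : ℝ, X₀ ≤ L → ∀ τ n : ℕ, 1 ≤ τ → (2 : ℝ) ^ τ * 3 ^ n ≤ Real.sqrt L →
      ∀ u v : ℤ, IsCoprime u 3 →
      ((cls (Pt P τ) L (2 * L) n u v).card : ℝ) ≤ C * (L / (3 ^ n * (Real.log L) ^ 2)))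
    (hδ : 0 < δ) (hδ1 : δ ≤ 1 / 50) (hη : 0 < η) (hη1 : η ≤ 1 / 20)
    (h : Par δ η ε₁ l a Lb m m' K k₁ k₃) (hLb : X₀ ≤ Lb) (c : ℤ) :
    PTot P (Real.exp a) (2 * (3 * K)) K (Thi η K) m c
      ≤ Real.exp a / (2 * 3 ^ m) * (1200 * C * δ ^ 2) + l ^ 2 * 2 ^ (Thi η K) := by
  have hl := h.l1
  have hKl := h.K_le hδ1 hη1
  have hf8 := h.f8' hδ1 hη hη1
  have h1 := PTot_le' hPo hC hpair (Real.exp_pos a) (2 * (3 * K)) K (Thi η K) m c
    (lam0 := l / 2) (by linarith) (by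
      rw [← Real.log_exp (l / 2)]
      refine Real.log_le_log (Real.exp_pos _) (le_trans (Real.exp_le_exp.2 ?_) hf8)
      linarith) (by
      refine hLb.trans (h.big.trans (le_trans (Real.exp_le_exp.2 ?_) hf8))
      linarith) (by
      apply Real.le_sqrt_of_sq_le
      have e1 := h.f8 hδ1 hη hη1
      have e2 := h.three_pow hδ1 hη1 (le_refl K)
      calc ((2 : ℝ) ^ (Thi η K) * 3 ^ (K + m)) ^ 2
          ≤ (Real.exp (0.1185 * l) * Real.exp (0.095 * l)) ^ 2 := by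
            apply pow_le_pow_left₀ (by positivity)
            exact mul_le_mul e1 e2 (by positivity) (Real.exp_pos _).le
        _ = Real.exp (2 * (0.1185 * l + 0.095 * l)) := by
            rw [← Real.exp_add, ← Real.exp_nat_mul]; push_cast; rfl
        _ ≤ Real.exp (0.88 * l) := Real.exp_le_exp.2 (by linarith)
        _ ≤ _ := hf8)
  refine h1.trans ?_
  -- the number of pairs of indices
  have hK2 : (K : ℝ) ≤ δ * l / 0.24 := by
    rw [le_div_iff₀ (by norm_num)]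
    have := h.Kle
    have h2 := km_ge hη1
    have h3 : (K : ℝ) * 0.24 ≤ K * km η := mul_le_mul_of_nonneg_left h2 (Nat.cast_nonneg _)
    linarith
  have hK1 : (1 : ℝ) ≤ K := by exact_mod_cast h.one.trans h.k1K
  have ht2 : (Thi η K : ℝ) ≤ 2.05 * K := (Thi_le hη.le K).trans
    (mul_le_mul_of_nonneg_right (by linarith) (Nat.cast_nonneg _))
  have hprod : ((K : ℝ) + 1) * (Thi η K : ℝ) ≤ 72 * (δ * l) ^ 2 := by
    have e1 : (K : ℝ) + 1 ≤ 2 * K := by linarith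
    have e2 : ((K : ℝ) + 1) * (Thi η K : ℝ) ≤ (2 * K) * (2.05 * K) :=
      mul_le_mul e1 ht2 (Nat.cast_nonneg _) (by positivity)
    have e3 : (K : ℝ) ^ 2 ≤ (δ * l / 0.24) ^ 2 := pow_le_pow_left₀ (Nat.cast_nonneg _) hK2 2
    have e4 : (δ * l / 0.24) ^ 2 = (δ * l) ^ 2 / 0.0576 := by rw [div_pow]; norm_num
    rw [e4, le_div_iff₀ (by norm_num)] at e3
    nlinarith [sq_nonneg (δ * l)]
  have hprod2 : ((K : ℝ) + 1) * (Thi η K : ℝ) ≤ l ^ 2 / 4 := by
    have e1 : (δ * l) ^ 2 ≤ (1 / 50 * l) ^ 2 :=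
      pow_le_pow_left₀ (by positivity) (mul_le_mul_of_nonneg_right hδ1 (by linarith)) 2
    nlinarith [sq_nonneg l]
  have hA : 0 < Real.exp a / (2 * 3 ^ m) := by positivity
  have e0 : C * (Real.exp a / 3 ^ m) / (l / 2) ^ 2 = 8 * C * (Real.exp a / (2 * 3 ^ m)) / l ^ 2 := by
    field_simp
    ring
  have hpos1 : 0 ≤ 8 * C * (Real.exp a / (2 * 3 ^ m)) / l ^ 2 := by positivity
  calc 2 * (((K : ℝ) + 1) * (Thi η K : ℕ) * (C * (Real.exp a / 3 ^ m) / (l / 2) ^ 2 + 2 * 2 ^ (Thi η K)))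
      = 2 * (((K : ℝ) + 1) * (Thi η K : ℝ)) * (8 * C * (Real.exp a / (2 * 3 ^ m)) / l ^ 2)
        + 4 * (((K : ℝ) + 1) * (Thi η K : ℝ)) * 2 ^ (Thi η K) := by rw [e0]; ring
    _ ≤ 2 * (72 * (δ * l) ^ 2) * (8 * C * (Real.exp a / (2 * 3 ^ m)) / l ^ 2)
        + 4 * (l ^ 2 / 4) * 2 ^ (Thi η K) := by
        apply add_le_add
        · exact mul_le_mul_of_nonneg_right (by linarith) hpos1
        · exact mul_le_mul_of_nonneg_right (by linarith) (by positivity)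
    _ = Real.exp a / (2 * 3 ^ m) * (1152 * C * δ ^ 2) + l ^ 2 * 2 ^ (Thi η K) := by
        field_simp
        ring
    _ ≤ _ := by
        have : Real.exp a / (2 * 3 ^ m) * (1152 * C * δ ^ 2) ≤ Real.exp a / (2 * 3 ^ m) * (1200 * C * δ ^ 2) := by
          apply mul_le_mul_of_nonneg_left _ hA.le
          have : 0 < C * δ ^ 2 := by positivity
          linarith
        linarith

end

end Pool.Agent.H998_RN
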