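import Pool.Agent.H998_RN.Base

/-! Rough numbers on trajectories, part 5: the lowest scales. -/

set_option autoImplicit false

namespace Pool.Agent.H998_RN

open Finset
open Pool.Agent.H320R2.PD Pool.Agent.H499R2.ND
open Pool.Agent.R344.TH Pool.Agent.H998_PL

section

variable {P R : Set ℤ} {G X₁ θ δ η ε₁ l a Lb ε₃ C : ℝ} {m m' K k₁ k₃ : ℕ}

/-- one visit, upper bound -/
theorem base_up' (hP : Rg P R G X₁) (hX : X₁ ≤ Lb) (hθ : 0 ≤ θ) (hδ : 0 < δ) (hδ1 : δ ≤ 1 / 50) (hη : 0 < η) (hη1 : η ≤ 1 / 20)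
    (hε₁ : 0 < ε₁) (hε1 : ε₁ ≤ δ / 10) (h : Par δ η ε₁ l a Lb m m' K k₁ k₃)
    (hε₃ : 0 ≤ ε₃) (c : ℤ)
    (hxp : ∀ k, k₁ ≤ k → k ≤ K →
      (∑ w ∈ GW (2 * (3 * K)) k (Tlo η k) (Thi η k), ((XP P (Real.exp a) k m c w).card : ℝ))
      ≤ Real.exp a / 3 ^ m * ((θ * (3 / 2) * sig R + ε₃) / ((1 - 2 * δ) * l)) + 2 * 2 ^ (Thi η K)) :
    ((cls (Sh P (Real.exp (l / (1 + δ))) (Real.exp l) 1) (Real.exp a) (2 * Real.exp a) m 1 c).card : ℝ)
      ≤ Real.exp a / (2 * 3 ^ m) * (kap0 θ R * δ + 34 * θ * δ ^ 2 + 35 * θ * η + 10 * ε₃ + 3 * G * ε₁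
        + (l * el η l + Real.exp (-(l / 2)))) := by
  classical
  have hl := h.l1
  have hA : 0 < Real.exp a / (2 * 3 ^ m) := by positivity
  have h12 : 0 < 1 - 2 * δ := by linarith
  have hlam0 : 0 < (1 - 2 * δ) * l := by positivity
  have hσ0 := sig_nonneg R
  have hσ1 := sig_le R
  have hcount := count_up (P := P) hP.odd (Real.exp_pos a).le (η := η) (cap := 2 * (3 * K)) (m := m)
    h.k1K c (Real.exp l) (h.f2 hδ hδ1 hη1)
  have hbad := bad_bound hδ1 hη hη1 h c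
  have hearly : ∑ k ∈ range k₁, ∑ v ∈ GW (2 * (3 * K)) k 0 (Thi η k₁),
      ((XP P (Real.exp a) k m c v).card : ℝ)
      ≤ Real.exp a / (2 * 3 ^ m) * (3 * G * ε₁) + l * 2 ^ (Thi η K) := by
    have h1 : ∀ k ∈ range k₁, ∑ v ∈ GW (2 * (3 * K)) k 0 (Thi η k₁),
      ((XP P (Real.exp a) k m c v).card : ℝ)
        ≤ G * (Real.exp a / 3 ^ m) / ((1 - 2 * δ) * l) + 2 * 2 ^ (Thi η K) := fun k hk =>
      early_bound' hP hX hδ hδ1 hη hη1 hε1 h c (mem_range.1 hk).le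
    refine (sum_le_sum h1).trans ?_
    rw [sum_const, card_range, nsmul_eq_mul, mul_add]
    apply add_le_add
    · have e1 : (k₁ : ℝ) * (G * (Real.exp a / 3 ^ m) / ((1 - 2 * δ) * l))
          = Real.exp a / (2 * 3 ^ m) * (2 * G * (k₁ / ((1 - 2 * δ) * l))) := by
        field_simp
      rw [e1]
      apply mul_le_mul_of_nonneg_left _ hA.le
      have e2 : (k₁ : ℝ) / ((1 - 2 * δ) * l) ≤ ε₁ / 0.96 := by
        rw [div_le_div_iff₀ hlam0 (by norm_num)]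
        have := h.k1le
        nlinarith [mul_pos hε₁ (by linarith : 0 < l)]
      have g1 : 2 * G * ((k₁ : ℝ) / ((1 - 2 * δ) * l)) ≤ 2 * G * (ε₁ / 0.96) :=
        mul_le_mul_of_nonneg_left e2 (by linarith [hP.G1])
      have g2 : 0 < G * ε₁ := mul_pos (by linarith [hP.G1]) hε₁
      have g3 : 2 * G * (ε₁ / 0.96) = 2 / 0.96 * (G * ε₁) := by ring
      rw [g3] at g1
      nlinarith
    · have h2 : (k₁ : ℝ) ≤ l / 12 := (by exact_mod_cast h.k1K : (k₁ : ℝ) ≤ K).trans (h.K_le hδ1 hη1)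
      have : (k₁ : ℝ) * (2 * 2 ^ (Thi η K)) ≤ l / 12 * (2 * 2 ^ (Thi η K)) :=
        mul_le_mul_of_nonneg_right h2 (by positivity)
      have h3 : (0 : ℝ) < l * 2 ^ (Thi η K) := by positivity
      linarith
  have hmain : ∑ k ∈ Icc k₁ K, ∑ v ∈ GW (2 * (3 * K)) k (Tlo η k) (Thi η k),
      ((XP P (Real.exp a) k m c v).card : ℝ)
      ≤ Real.exp a / (2 * 3 ^ m) * (kap0 θ R * δ + 34 * θ * δ ^ 2 + 35 * θ * η + 10 * ε₃)
        + l * 2 ^ (Thi η K) := by
    have h1 : ∀ k ∈ Icc k₁ K, ∑ v ∈ GW (2 * (3 * K)) k (Tlo η k) (Thi η k),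
      ((XP P (Real.exp a) k m c v).card : ℝ)
        ≤ Real.exp a / 3 ^ m * ((θ * (3 / 2) * sig R + ε₃) / ((1 - 2 * δ) * l)) + 2 * 2 ^ (Thi η K) :=
      fun k hk => hxp k (mem_Icc.1 hk).1 (mem_Icc.1 hk).2
    refine (sum_le_sum h1).trans ?_
    rw [sum_const, Nat.card_Icc, nsmul_eq_mul]
    have hn : ((K + 1 - k₁ : ℕ) : ℝ) ≤ K := by
      have : K + 1 - k₁ ≤ K := by have := h.one; omega
      exact_mod_cast this
    have hpos : 0 ≤ Real.exp a / 3 ^ m * ((θ * (3 / 2) * sig R + ε₃) / ((1 - 2 * δ) * l))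
        + 2 * 2 ^ (Thi η K) := by
      positivity
    refine (mul_le_mul_of_nonneg_right hn hpos).trans ?_
    rw [mul_add]
    apply add_le_add
    · have e1 : (K : ℝ) * (Real.exp a / 3 ^ m * ((θ * (3 / 2) * sig R + ε₃) / ((1 - 2 * δ) * l)))
          = Real.exp a / (2 * 3 ^ m) * ((K / l) * (3 * θ * sig R + 2 * ε₃) * (1 / (1 - 2 * δ))) := by
        field_simp
      rw [e1]
      apply mul_le_mul_of_nonneg_left _ hA.le
      -- numbers
      have hKl : (K : ℝ) / l ≤ δ * (1 / km η) := by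
        rw [mul_one_div, div_le_div_iff₀ (by linarith) (by have := km_ge hη1; linarith)]
        exact h.Kle
      have hik := inv_km hη.le hη1
      have h3 : (K : ℝ) / l ≤ δ * (1 / Real.log (4 / 3) + 11 * η) :=
        hKl.trans (mul_le_mul_of_nonneg_left hik hδ.le)
      have h4 : 1 / (1 - 2 * δ) ≤ 1 + 3 * δ := by
        rw [div_le_iff₀ h12]; nlinarith
      set s := 3 * θ * sig R with hs
      have hs0 : 0 ≤ s := by positivity
      have hs3 : s ≤ 3 * θ := by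
        rw [hs]
        have : θ * sig R ≤ θ * 1 := mul_le_mul_of_nonneg_left hσ1 hθ
        linarith
      set w := 1 / Real.log (4 / 3) with hw
      have hw0 : 0 < w := by
        rw [hw]; have := log43
        exact one_div_pos.2 (by linarith)
      have hw1 : w ≤ 3.71 := by
        rw [hw, div_le_iff₀ (by have := log43; linarith)]
        have := log43; linarith
      have hkap : kap0 θ R = s * w := by unfold kap0; rw [hs, hw]; ring
      rw [hkap]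
      have h5 : (K : ℝ) / l * (s + 2 * ε₃) * (1 / (1 - 2 * δ))
          ≤ δ * (w + 11 * η) * (s + 2 * ε₃) * (1 + 3 * δ) := by
        apply mul_le_mul _ h4 (by positivity) (by positivity)
        exact mul_le_mul_of_nonneg_right h3 (by positivity)
      refine h5.trans ?_
      have e2 : δ * (w + 11 * η) * (s + 2 * ε₃) * (1 + 3 * δ)
          = s * w * δ + 3 * (s * w) * δ ^ 2
            + δ * (1 + 3 * δ) * (11 * (s * η) + 2 * (w * ε₃) + 22 * (η * ε₃)) := by ring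
      rw [e2]
      have h6 : s * w ≤ 3 * θ * 3.71 := mul_le_mul hs3 hw1 hw0.le (by positivity)
      have h7 : 3 * (s * w) * δ ^ 2 ≤ 34 * θ * δ ^ 2 :=
        mul_le_mul_of_nonneg_right (by linarith) (sq_nonneg δ)
      have h8 : s * η ≤ 3 * θ * η := mul_le_mul_of_nonneg_right hs3 hη.le
      have hθη : 0 ≤ θ * η := by positivity
      have h9 : w * ε₃ ≤ 3.71 * ε₃ := mul_le_mul_of_nonneg_right hw1 hε₃
      have h10 : η * ε₃ ≤ 1 / 20 * ε₃ := mul_le_mul_of_nonneg_right hη1 hε₃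
      have h11 : 0 ≤ 11 * (s * η) + 2 * (w * ε₃) + 22 * (η * ε₃) := by positivity
      have h12' : δ * (1 + 3 * δ) ≤ 1 := by nlinarith
      have h13 := mul_le_mul_of_nonneg_right h12' h11
      linarith
    · have h2 := h.K_le hδ1 hη1
      have : (K : ℝ) * (2 * 2 ^ (Thi η K)) ≤ l / 12 * (2 * 2 ^ (Thi η K)) :=
        mul_le_mul_of_nonneg_right h2 (by positivity)
      have h3 : (0 : ℝ) < l * 2 ^ (Thi η K) := by positivity
      linarith
  have hjunk := h.junk hδ1 hη hη1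
  have hj2 : 4 * l * 2 ^ (Thi η K) ≤ 6 * l ^ 2 * 2 ^ (Thi η K) := by
    apply mul_le_mul_of_nonneg_right _ (by positivity)
    nlinarith
  have e : Real.exp a / (2 * 3 ^ m) * (kap0 θ R * δ + 34 * θ * δ ^ 2 + 35 * θ * η + 10 * ε₃ + 3 * G * ε₁
        + (l * el η l + Real.exp (-(l / 2))))
      = Real.exp a / (2 * 3 ^ m) * (kap0 θ R * δ + 34 * θ * δ ^ 2 + 35 * θ * η + 10 * ε₃)
        + Real.exp a / (2 * 3 ^ m) * (3 * G * ε₁) + Real.exp a / (2 * 3 ^ m) * (l * el η l)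
        + Real.exp a / (2 * 3 ^ m) * Real.exp (-(l / 2)) := by ring
  rw [e]
  linarith

/-- no visit, upper bound -/
theorem base_lo' (hPo : ∀ x ∈ P, Odd x) (hθ : 0 ≤ θ) (hG : 0 ≤ G) (hδ : 0 < δ) (hδ1 : δ ≤ 1 / 50) (hη : 0 < η) (hη1 : η ≤ 1 / 20)
    (hε₁ : 0 < ε₁) (hε1 : ε₁ ≤ δ / 10) (h : Par δ η ε₁ l a Lb m m' K k₁ k₃)
    (hε₃ : 0 ≤ ε₃) (c : ℤ)
    (hxp : ∀ k, k₁ ≤ k → k ≤ K →
      Real.exp a / 3 ^ m * (θ * (3 / 2) * sig R / a - (ε₃ + 5 * (G * el η l)) / ((1 - 2 * δ) * l))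
        - 2 * 2 ^ (Thi η K)
      ≤ (∑ w ∈ GW (2 * (3 * K)) k (Tlo η k) (Thi η k), ((XP P (Real.exp a) k m c w).card : ℝ)))
    (hC : 0 < C) (hpt : PTot P (Real.exp a) (2 * (3 * K)) K (Thi η K) m c
      ≤ Real.exp a / (2 * 3 ^ m) * (1200 * C * δ ^ 2) + l ^ 2 * 2 ^ (Thi η K)) :
    ((cls (Sh P (Real.exp (l / (1 + δ))) (Real.exp l) 1)ᶜ (Real.exp a) (2 * Real.exp a) m 1 c).card : ℝ)
      ≤ Real.exp a / (2 * 3 ^ m) * (1 - kap0 θ R * δ + (600 * C + 12 * θ) * δ ^ 2 + 30 * θ * η + ε₃ + 21 * θ * ε₁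
        + (l ^ 2 * el η l + 5 * (G * el η l) + Real.exp (-(l / 2)))) := by
  classical
  have hl := h.l1
  have hA : 0 < Real.exp a / (2 * 3 ^ m) := by positivity
  have h12 : 0 < 1 - 2 * δ := by linarith
  have hlam0 : 0 < (1 - 2 * δ) * l := by positivity
  have hσ0 := sig_nonneg R
  have hσ1 := sig_le R
  have ha0 : 0 < a := by linarith [h.a1]
  have hKl := h.K_le hδ1 hη1
  have hcount := count_none (P := P) hPo (Real.exp_pos a).le (η := η) (cap := 2 * (3 * K)) (m := m)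
    h.k1K h.k3K (fun k hk => Thi_mono hη.le hk) c
    (y := Real.exp (l / (1 + δ))) (z := Real.exp l)
    (fun k _ hk => h.f3 hη hk) (h.f4 hδ hδ1 hη hη1 hε1) (fun k hk hk3 => h.f5 hδ1 hη1 hk hk3)
  have hbad := bad_bound hδ1 hη hη1 h c
  have hAll : ((cls Set.univ (Real.exp a) (2 * Real.exp a) m 1 c).card : ℝ)
      ≤ Real.exp a / (2 * 3 ^ m) + 1 := by
    have := cls_card_le Set.univ (by linarith [Real.exp_pos a] : Real.exp a ≤ 2 * Real.exp a) m
      isCoprime_one_left c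
    rw [show 2 * Real.exp a - Real.exp a = Real.exp a by ring] at this
    exact this
  set n₃ : ℝ := ((Icc k₁ k₃).card : ℝ) with hn₃
  have hn0 : 0 ≤ n₃ := Nat.cast_nonneg _
  have hnK : n₃ ≤ l / 12 := by
    rw [hn₃, Nat.card_Icc]
    have : k₃ + 1 - k₁ ≤ K := by have := h.one; have := h.k3K; omega
    have h2 : ((k₃ + 1 - k₁ : ℕ) : ℝ) ≤ K := by exact_mod_cast this
    linarith
  have hnlow : (k₃ : ℝ) + 1 - k₁ ≤ n₃ := by
    rw [hn₃, Nat.card_Icc]
    rcases le_or_gt k₁ (k₃ + 1) with h1 | h1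
    · rw [Nat.cast_sub h1]; push_cast; exact le_rfl
    · have : (k₃ : ℝ) + 1 < k₁ := by exact_mod_cast h1
      have : (0 : ℝ) ≤ ((k₃ + 1 - k₁ : ℕ) : ℝ) := Nat.cast_nonneg _
      linarith
  -- the main sum
  have hmain : n₃ * (Real.exp a / 3 ^ m * (θ * (3 / 2) * sig R / a
        - (ε₃ + 5 * (G * el η l)) / ((1 - 2 * δ) * l)) - 2 * 2 ^ (Thi η K))
      ≤ ∑ k ∈ Icc k₁ k₃, ∑ v ∈ GW (2 * (3 * K)) k (Tlo η k) (Thi η k),
        ((XP P (Real.exp a) k m c v).card : ℝ) := by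
    rw [hn₃, ← nsmul_eq_mul, ← sum_const]
    apply sum_le_sum
    intro k hk
    rw [mem_Icc] at hk
    exact hxp k hk.1 (hk.2.trans h.k3K)
  have e1 : n₃ * (Real.exp a / 3 ^ m * (θ * (3 / 2) * sig R / a
        - (ε₃ + 5 * (G * el η l)) / ((1 - 2 * δ) * l)) - 2 * 2 ^ (Thi η K))
      = Real.exp a / (2 * 3 ^ m) * (3 * θ * sig R * (n₃ / a)
        - 2 * (n₃ / l) * (ε₃ + 5 * (G * el η l)) * (1 / (1 - 2 * δ))) - 2 * n₃ * 2 ^ (Thi η K) := by
    field_simp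
  rw [e1] at hmain
  -- numbers
  set s := 3 * θ * sig R with hs
  have hs0 : 0 ≤ s := by positivity
  have hs3 : s ≤ 3 * θ := by
    rw [hs]
    have : θ * sig R ≤ θ * 1 := mul_le_mul_of_nonneg_left hσ1 hθ
    linarith
  set w := 1 / Real.log (4 / 3) with hw
  have hw0 : 0 < w := by
    rw [hw]; have := log43
    exact one_div_pos.2 (by linarith)
  have hw1 : w ≤ 3.71 := by
    rw [hw, div_le_iff₀ (by have := log43; linarith)]
    have := log43; linarith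
  have hkap : kap0 θ R = s * w := by unfold kap0; rw [hs, hw]; ring
  have hkp0 : 0 < kp η := by have := kp_ge hη.le; linarith
  obtain ⟨hy1, hy2, hy3, hy4⟩ := h.ly hδ hδ1
  have hN : δ * (1 - δ) * (w - 10 * η) - 6 * ε₁ ≤ n₃ / a * (1 + ε₁) := by
    have g1 : (a - l / (1 + δ)) / kp η ≤ (k₃ : ℝ) + 1 := by
      rw [div_le_iff₀ hkp0]; exact h.k3ge
    have g2 : (a - l / (1 + δ)) / kp η - ε₁ * l ≤ n₃ := by linarith [h.k1le]
    have g3 : δ * (1 - δ) * l ≤ δ * l / (1 + δ) := by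
      rw [le_div_iff₀ (by linarith)]
      have : δ * (1 - δ) * l * (1 + δ) = δ * l - δ ^ 3 * l := by ring
      rw [this]
      have : 0 ≤ δ ^ 3 * l := by positivity
      linarith
    have g4 : (δ * (1 - δ) * l - ε₁ * l) / kp η ≤ (a - l / (1 + δ)) / kp η := by
      apply div_le_div_of_nonneg_right _ hkp0.le
      linarith [h.a1, h.dl]
    have g5 : δ * (1 - δ) * l * (w - 10 * η) ≤ δ * (1 - δ) * l / kp η := by
      rw [div_eq_mul_one_div]
      apply mul_le_mul_of_nonneg_left (inv_kp hη.le)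
      have : 0 < 1 - δ := by linarith
      positivity
    have g6 : ε₁ * l / kp η ≤ 4 * (ε₁ * l) := by
      rw [div_le_iff₀ hkp0]
      have := kp_ge hη.le
      have : 0 < ε₁ * l := by positivity
      nlinarith
    have g7 : (δ * (1 - δ) * (w - 10 * η) - 6 * ε₁) * l ≤ n₃ := by
      have e2 : (δ * (1 - δ) * l - ε₁ * l) / kp η = δ * (1 - δ) * l / kp η - ε₁ * l / kp η := sub_div _ _ _
      have : 0 < ε₁ * l := by positivity
      have e3 : (δ * (1 - δ) * (w - 10 * η) - 6 * ε₁) * l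
          = δ * (1 - δ) * l * (w - 10 * η) - 6 * (ε₁ * l) := by ring
      rw [e3]
      linarith
    have g8 : n₃ / a * (1 + ε₁) ≥ n₃ / l := by
      rw [ge_iff_le, div_mul_eq_mul_div, div_le_div_iff₀ (by linarith) ha0]
      have := mul_le_mul_of_nonneg_left h.a3 hn0
      linarith
    refine le_trans ?_ g8
    rw [le_div_iff₀ (by linarith)]
    exact g7
  have hn1 : n₃ / a ≤ 1 / 10 := by
    rw [div_le_div_iff₀ ha0 (by norm_num)]
    linarith [h.a1]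
  have hN2 : δ * w - δ ^ 2 * w - 10 * η - 7 * ε₁ ≤ n₃ / a := by
    have g1 : n₃ / a * (1 + ε₁) ≤ n₃ / a + 1 / 10 * ε₁ := by
      rw [mul_add, mul_one]
      have := mul_le_mul_of_nonneg_right hn1 hε₁.le
      linarith
    have g2 : δ * (1 - δ) * (w - 10 * η) = δ * w - δ ^ 2 * w - δ * (1 - δ) * (10 * η) := by ring
    have g3 : δ * (1 - δ) * (10 * η) ≤ 1 * (10 * η) := by
      apply mul_le_mul_of_nonneg_right _ (by positivity)
      nlinarith
    linarith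
  have hMain2 : s * w * δ - 12 * θ * δ ^ 2 - 30 * θ * η - 21 * θ * ε₁ ≤ s * (n₃ / a) := by
    have g1 := mul_le_mul_of_nonneg_left hN2 hs0
    have g2 : s * (δ * w - δ ^ 2 * w - 10 * η - 7 * ε₁)
        = s * w * δ - (s * w) * δ ^ 2 - s * (10 * η + 7 * ε₁) := by ring
    have g3 : s * w ≤ 3 * θ * 3.71 := mul_le_mul hs3 hw1 hw0.le (by positivity)
    have g4 : (s * w) * δ ^ 2 ≤ 12 * θ * δ ^ 2 := mul_le_mul_of_nonneg_right (by linarith) (sq_nonneg δ)
    have g5 : s * (10 * η + 7 * ε₁) ≤ 3 * θ * (10 * η + 7 * ε₁) :=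
      mul_le_mul_of_nonneg_right hs3 (by positivity)
    linarith
  have hNeg : 2 * (n₃ / l) * (ε₃ + 5 * (G * el η l)) * (1 / (1 - 2 * δ)) ≤ ε₃ + 5 * (G * el η l) := by
    have hel := el_pos η l
    have g1 : n₃ / l ≤ 1 / 12 := by rw [div_le_div_iff₀ (by linarith) (by norm_num)]; linarith
    have g2 : 1 / (1 - 2 * δ) ≤ 2 := by rw [div_le_iff₀ h12]; linarith
    have g3 : 2 * (n₃ / l) * (1 / (1 - 2 * δ)) ≤ 2 * (1 / 12) * 2 := by
      apply mul_le_mul _ g2 (by positivity) (by norm_num)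
      linarith
    have g4 : 2 * (n₃ / l) * (ε₃ + 5 * (G * el η l)) * (1 / (1 - 2 * δ))
        = 2 * (n₃ / l) * (1 / (1 - 2 * δ)) * (ε₃ + 5 * (G * el η l)) := by ring
    rw [g4]
    have g5 : 0 ≤ ε₃ + 5 * (G * el η l) := by positivity
    have := mul_le_mul_of_nonneg_right g3 g5
    linarith
  have hmain3 : Real.exp a / (2 * 3 ^ m) * (s * w * δ - 12 * θ * δ ^ 2 - 30 * θ * η - 21 * θ * ε₁
        - (ε₃ + 5 * (G * el η l))) - l * 2 ^ (Thi η K)
      ≤ ∑ k ∈ Icc k₁ k₃, ∑ v ∈ GW (2 * (3 * K)) k (Tlo η k) (Thi η k),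
        ((XP P (Real.exp a) k m c v).card : ℝ) := by
    refine le_trans ?_ hmain
    apply sub_le_sub
    · apply mul_le_mul_of_nonneg_left _ hA.le
      linarith
    · have : 2 * n₃ * 2 ^ (Thi η K) ≤ 2 * (l / 12) * 2 ^ (Thi η K) := by
        apply mul_le_mul_of_nonneg_right _ (by positivity); linarith
      have h3 : (0 : ℝ) < l * 2 ^ (Thi η K) := by positivity
      linarith
  have hnbad : n₃ * (((cls Set.univ (Real.exp a) (2 * Real.exp a) m 1 c).filter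
      (fun x => ¬ Good η (2 * (3 * K)) k₁ K x)).card : ℝ)
      ≤ Real.exp a / (2 * 3 ^ m) * (l ^ 2 * el η l) + l ^ 2 * 2 ^ (Thi η K) := by
    have hel := el_pos η l
    have g0 : 0 ≤ Real.exp a / (2 * 3 ^ m) * (l * el η l) + 2 * l * 2 ^ (Thi η K) := by positivity
    calc _ ≤ n₃ * (Real.exp a / (2 * 3 ^ m) * (l * el η l) + 2 * l * 2 ^ (Thi η K)) :=
          mul_le_mul_of_nonneg_left hbad hn0
      _ ≤ l / 12 * (Real.exp a / (2 * 3 ^ m) * (l * el η l) + 2 * l * 2 ^ (Thi η K)) :=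
          mul_le_mul_of_nonneg_right hnK g0
      _ = 1 / 12 * (Real.exp a / (2 * 3 ^ m) * (l ^ 2 * el η l)) + 1 / 6 * (l ^ 2 * 2 ^ (Thi η K)) := by
          ring
      _ ≤ _ := by
          have g1 : 0 ≤ Real.exp a / (2 * 3 ^ m) * (l ^ 2 * el η l) := by positivity
          have g2 : 0 ≤ l ^ 2 * 2 ^ (Thi η K) := by positivity
          linarith
  have hjunk := h.junk hδ1 hη hη1
  have h2one : (1 : ℝ) ≤ 2 ^ (Thi η K) := one_le_pow₀ (by norm_num)
  have hj1 : 1 ≤ l ^ 2 * 2 ^ (Thi η K) := by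
    have : (1 : ℝ) ≤ l ^ 2 := one_le_pow₀ (by linarith)
    nlinarith
  have hj2 : l * 2 ^ (Thi η K) ≤ l ^ 2 * 2 ^ (Thi η K) := by
    apply mul_le_mul_of_nonneg_right _ (by positivity)
    nlinarith
  have e : Real.exp a / (2 * 3 ^ m) * (1 - kap0 θ R * δ + (600 * C + 12 * θ) * δ ^ 2 + 30 * θ * η + ε₃ + 21 * θ * ε₁
        + (l ^ 2 * el η l + 5 * (G * el η l) + Real.exp (-(l / 2))))
      = Real.exp a / (2 * 3 ^ m) - Real.exp a / (2 * 3 ^ m) * (s * w * δ - 12 * θ * δ ^ 2 - 30 * θ * η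
        - 21 * θ * ε₁ - (ε₃ + 5 * (G * el η l))) + 1 / 2 * (Real.exp a / (2 * 3 ^ m) * (1200 * C * δ ^ 2))
        + Real.exp a / (2 * 3 ^ m) * (l ^ 2 * el η l)
        + Real.exp a / (2 * 3 ^ m) * Real.exp (-(l / 2)) := by rw [hkap]; ring
  rw [e]
  have hl2 : 0 ≤ l ^ 2 * 2 ^ (Thi η K) := by positivity
  linarith


end

end Pool.Agent.H998_RN
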