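import Pool.Agent.H998_RN.All2

/-! Rough numbers on trajectories, part 19: the lower bound for the terms of bounded size. -/

set_option autoImplicit false

namespace Pool.Agent.H998_RN

open Finset
open Pool.Agent.H320R2.PD Pool.Agent.H499R2.ND
open Pool.Agent.R344.TH Pool.Agent.H998_PL

section

variable {P R : Set ℤ} {G X₁ : ℝ}

/-- lower bound -/
theorem Nk_lo2 (hP : Rg P R G X₁) {θ : ℝ} (hθ : 0 ≤ θ) {m' : ℕ} (hm' : 1 ≤ m')
    {A : ℝ} (hA : 0 < A) (cap k m Tl Tm : ℕ) (hk : m' ≤ k)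
    (hTm : Tm ≤ k * cap) (c : ℤ) (hL1 : X₁ ≤ A * 3 ^ k / 2 ^ Tm)
    (hL2 : (3 : ℝ) ^ (k + m) ≤ Real.sqrt (A * 3 ^ k / 2 ^ Tm)) {lam0 lam1 : ℝ}
    (hL₀ : ∀ L : ℝ, X₁ ≤ L → Real.log L ≤ lam1 → ∀ c : ℤ, c % 3 ∈ R →
      θ * (3 / 2) * (L / (3 ^ m' * Real.log L)) ≤ ((cls P L (2 * L) m' 1 c).card : ℝ))
    (hlam : 0 < lam0)
    (h0 : lam0 ≤ Real.log (A * 3 ^ k / 2 ^ Tm)) (h1 : Real.log (A * 3 ^ k / 2 ^ Tl) ≤ lam1) :
    A / 3 ^ m * ((θ * (3 / 2) * ∑ T ∈ Icc Tl Tm, massR R cap k T) / lam1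
          - (G * ∑ T ∈ range (k * cap + 1), dev (FWT cap k T) wwt (fun w => (Wo w : ℤ)) (k + m) m')
            / lam0) - 2 * 2 ^ Tm ≤ (∑ w ∈ GW cap k Tl Tm, ((XP P A k m c w).card : ℝ)) := by
  classical
  have hG0 : 0 ≤ G := by linarith [hP.G1]
  have h3 := (abs_le.1 (Nk_shift hP.odd hA.le cap k m Tl Tm c)).1
  have h2 : ∑ T ∈ Icc Tl Tm, (θ * (3 / 2) * massR R cap k T * (A / 3 ^ m * (1 / lam1))
          - G * dev (FWT cap k T) wwt (fun w => (Wo w : ℤ)) (k + m) m' * (A / 3 ^ m * (1 / lam0)))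
      ≤ ∑ T ∈ Icc Tl Tm, ∑ w ∈ FWT cap k T, ((cls P (A * 3 ^ k / 2 ^ T)
        (2 * (A * 3 ^ k / 2 ^ T)) (k + m) (2 ^ T) (Wo w + 3 ^ k * c)).card : ℝ) := by
    apply sum_le_sum
    intro T hT
    rw [mem_Icc] at hT
    have hle : A * 3 ^ k / 2 ^ Tm ≤ A * 3 ^ k / 2 ^ T :=
      div_le_div_of_nonneg_left (by positivity) (by positivity)
        (pow_le_pow_right₀ (by norm_num) hT.2)
    have g1 : X₁ ≤ A * 3 ^ k / 2 ^ T := hL1.trans hle
    have g3 : (1 : ℝ) < A * 3 ^ k / 2 ^ T := by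
      have : (1 : ℝ) < Real.exp 100 := by
        rw [← Real.exp_zero]; exact Real.exp_lt_exp.2 (by norm_num)
      linarith [hP.X1]
    have g4 : (3 : ℝ) ^ (k + m) ≤ Real.sqrt (A * 3 ^ k / 2 ^ T) := hL2.trans (Real.sqrt_le_sqrt hle)
    have hlog1 : Real.log (A * 3 ^ k / 2 ^ T) ≤ lam1 := by
      refine (Real.log_le_log (by positivity) ?_).trans h1
      exact div_le_div_of_nonneg_left (by positivity) (by positivity)
        (pow_le_pow_right₀ (by norm_num) hT.1)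
    have g5 := FT_lo hP hθ hm' (hL₀ _ g1 hlog1) g3 cap k m T hk c
      (fun r => hP.bt _ g1 (k + m) g4 _ r (cop_two_pow T))
    have e1 : (2 : ℝ) ^ T * (A * 3 ^ k / 2 ^ T / (3 ^ (k + m) * Real.log (A * 3 ^ k / 2 ^ T)))
        = A / (3 ^ m * Real.log (A * 3 ^ k / 2 ^ T)) := by
      rw [pow_add]
      have : 0 < Real.log (A * 3 ^ k / 2 ^ T) := Real.log_pos g3
      field_simp
    rw [e1] at g5
    refine le_trans ?_ g5
    have hlog0 : lam0 ≤ Real.log (A * 3 ^ k / 2 ^ T) := h0.trans (Real.log_le_log (by positivity) hle)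
    have hl0 : 0 < Real.log (A * 3 ^ k / 2 ^ T) := lt_of_lt_of_le hlam hlog0
    have a1 : A / (3 ^ m * Real.log (A * 3 ^ k / 2 ^ T)) ≤ A / 3 ^ m * (1 / lam0) := by
      rw [div_mul_div_comm, mul_one]
      apply div_le_div_of_nonneg_left hA.le (by positivity)
      exact mul_le_mul_of_nonneg_left hlog0 (by positivity)
    have a2 : A / 3 ^ m * (1 / lam1) ≤ A / (3 ^ m * Real.log (A * 3 ^ k / 2 ^ T)) := by
      rw [div_mul_div_comm, mul_one]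
      apply div_le_div_of_nonneg_left hA.le (by positivity)
      exact mul_le_mul_of_nonneg_left hlog1 (by positivity)
    rw [sub_mul]
    apply sub_le_sub
    · apply mul_le_mul_of_nonneg_left a2
      have := massR_nonneg (R := R) cap k T
      positivity
    · apply mul_le_mul_of_nonneg_left a1
      have := dev_nonneg' cap k T (k + m) m'
      positivity
  have h4 : A / 3 ^ m * ((θ * (3 / 2) * ∑ T ∈ Icc Tl Tm, massR R cap k T) / lam1
          - (G * ∑ T ∈ range (k * cap + 1), dev (FWT cap k T) wwt (fun w => (Wo w : ℤ)) (k + m) m')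
            / lam0) ≤ ∑ T ∈ Icc Tl Tm, (θ * (3 / 2) * massR R cap k T * (A / 3 ^ m * (1 / lam1))
          - G * dev (FWT cap k T) wwt (fun w => (Wo w : ℤ)) (k + m) m' * (A / 3 ^ m * (1 / lam0))) := by
    rw [sum_sub_distrib, ← sum_mul, ← sum_mul, ← mul_sum, ← mul_sum]
    have e : A / 3 ^ m * ((θ * (3 / 2) * ∑ T ∈ Icc Tl Tm, massR R cap k T) / lam1
          - (G * ∑ T ∈ range (k * cap + 1), dev (FWT cap k T) wwt (fun w => (Wo w : ℤ)) (k + m) m')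
            / lam0) = θ * (3 / 2) * (∑ T ∈ Icc Tl Tm, massR R cap k T) * (A / 3 ^ m * (1 / lam1))
          - G * (∑ T ∈ range (k * cap + 1), dev (FWT cap k T) wwt (fun w => (Wo w : ℤ)) (k + m) m')
            * (A / 3 ^ m * (1 / lam0)) := by ring
    rw [e]
    apply sub_le_sub le_rfl
    apply mul_le_mul_of_nonneg_right _ (by positivity)
    apply mul_le_mul_of_nonneg_left _ hG0
    apply sum_le_sum_of_subset_of_nonneg
    · intro T hT
      rw [mem_Icc] at hT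
      rw [mem_range]; omega
    · intro T _ _; exact dev_nonneg' cap k T (k + m) m'
  linarith

end

section

variable {P R : Set ℤ} {G X₁ θ δ η ε₁ l a Lb C₁ : ℝ} {m m' K k₁ k₃ : ℕ}

/-- lower bound -/
theorem xp_lo2 (hP : Rg P R G X₁) (hθ : 0 ≤ θ) (hθG : θ ≤ G) (hC₁ : 0 < C₁)
    (hmix : ∀ k m m' A : ℕ, 1 ≤ k → 1 ≤ m' → m' ≤ k → 3 * k ≤ A →
      ∑ T ∈ range (k * A + 1), dev (FWT A k T) wwt (fun w => (Wo w : ℤ)) (k + m) m'
        ≤ C₁ * (1 / (m' : ℝ) + (m : ℝ) ^ 3 / (k : ℝ) ^ 2)) (hm' : 1 ≤ m')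
    (hL₀ : ∀ L : ℝ, X₁ ≤ L → Real.log L ≤ a → ∀ c : ℤ, c % 3 ∈ R →
      θ * (3 / 2) * (L / (3 ^ m' * Real.log L)) ≤ ((cls P L (2 * L) m' 1 c).card : ℝ))
    (hX : X₁ ≤ Lb)
    (hδ : 0 < δ) (hδ1 : δ ≤ 1 / 50) (hη : 0 < η) (hη1 : η ≤ 1 / 20) (hε₁ : 0 < ε₁) (hε1 : ε₁ ≤ δ / 10)
    (h : Par δ η ε₁ l a Lb m m' K k₁ k₃) (c : ℤ) {k : ℕ} (hk1 : k₁ ≤ k)
    (hk : k ≤ K) :
    Real.exp a / 3 ^ m * (θ * (3 / 2) * sig R / a - (G * (C₁ * (1 / (m' : ℝ) + ε₁))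
          + 5 * (G * el η l)) / ((1 - 2 * δ) * l)) - 2 * 2 ^ (Thi η K)
      ≤ (∑ w ∈ GW (2 * (3 * K)) k (Tlo η k) (Thi η k), ((XP P (Real.exp a) k m c w).card : ℝ)) := by
  obtain ⟨hTm, hLb, hsqrt, hlam0, hlamle, hlam1, hdev, h2pow⟩ :=
    xp_facts hC₁ hmix hm' hX hδ hδ1 hη hη1 hε₁ hε1 h hk1 hk
  have hmain := Nk_lo2 hP hθ hm' (Real.exp_pos a) (2 * (3 * K)) k m (Tlo η k) (Thi η k)
    (h.hm'.trans hk1) hTm c hLb hsqrt hL₀ hlam0 hlamle hlam1
  have hm2 := massR_ge R (h := 3 * K) (h.one.trans hk1) (by omega) hη (by linarith)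
  have hel := h.elk hk1
  have hA3 : 0 < Real.exp a / 3 ^ m := by positivity
  have hG0 : 0 ≤ G := by linarith [hP.G1]
  refine le_trans ?_ hmain
  apply sub_le_sub _ (by linarith)
  apply mul_le_mul_of_nonneg_left _ hA3.le
  have ha0 : 0 < a := by linarith [h.a1, h.l1]
  have hala : (1 - 2 * δ) * l ≤ a := hlamle.trans (by
    refine le_trans ?_ hlam1
    apply Real.log_le_log (by positivity)
    exact div_le_div_of_nonneg_left (by positivity) (by positivity)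
      (pow_le_pow_right₀ (by norm_num) (Tlo_le_Thi hη.le k)))
  have h1 : θ * (3 / 2) * (sig R - 3 * el η l)
      ≤ θ * (3 / 2) * ∑ T ∈ Icc (Tlo η k) (Thi η k), massR R (2 * (3 * K)) k T :=
    mul_le_mul_of_nonneg_left (by linarith) (by positivity)
  have help := el_pos η l
  have hGel : 0 ≤ G * el η l := by positivity
  have h2 : θ * (3 / 2) * sig R / a - 5 * (G * el η l) / ((1 - 2 * δ) * l)
      ≤ (θ * (3 / 2) * ∑ T ∈ Icc (Tlo η k) (Thi η k), massR R (2 * (3 * K)) k T) / a := by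
    have e1 : θ * (3 / 2) * (3 * el η l) ≤ 5 * (G * el η l) := by
      have := mul_le_mul_of_nonneg_right hθG help.le
      linarith
    have e2 : θ * (3 / 2) * sig R / a - 5 * (G * el η l) / a
        ≤ (θ * (3 / 2) * ∑ T ∈ Icc (Tlo η k) (Thi η k), massR R (2 * (3 * K)) k T) / a := by
      rw [← sub_div]
      apply div_le_div_of_nonneg_right _ ha0.le
      linarith
    have e3 : 5 * (G * el η l) / a ≤ 5 * (G * el η l) / ((1 - 2 * δ) * l) :=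
      div_le_div_of_nonneg_left (by linarith) hlam0 hala
    linarith
  have h3 : (G * ∑ T ∈ range (k * (2 * (3 * K)) + 1),
    dev (FWT (2 * (3 * K)) k T) wwt (fun w => (Wo w : ℤ)) (k + m) m') / ((1 - 2 * δ) * l)
    ≤ (G * (C₁ * (1 / (m' : ℝ) + ε₁))) / ((1 - 2 * δ) * l) := by
    apply div_le_div_of_nonneg_right _ hlam0.le
    exact mul_le_mul_of_nonneg_left hdev hG0
  rw [add_div (G * (C₁ * (1 / (m' : ℝ) + ε₁)))]
  linarith

end

theorem Pairs.mono {P Q : Set ℤ} {C X₀ : ℝ} (h : Pairs P C X₀) (hQ : Q ⊆ P) : Pairs Q C X₀ := by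
  intro L hL τ n hτ h1 u v hu
  refine le_trans ?_ (h L hL τ n hτ h1 u v hu)
  have : cls (Pt Q τ) L (2 * L) n u v ⊆ cls (Pt P τ) L (2 * L) n u v := by
    intro x hx
    rw [mem_cls] at hx ⊢
    exact ⟨hx.1, hx.2.1, ⟨hQ hx.2.2.1.1, hQ hx.2.2.1.2⟩, hx.2.2.2⟩
  exact_mod_cast card_le_card this

/-- LOWER BOUND AT ALL SCALES, for the elements of bounded size -/
theorem lo_all2 {P R : Set ℤ} {G X₁ C X₀ : ℝ} (hP : Rg P R G X₁) (hC : 0 < C) (hpair : Pairs P C X₀)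
    {δ : ℝ} (hδ : 0 < δ) (hδ1 : δ ≤ 1 / 50)
    {ε : ℝ} (hε : 0 < ε) : ∃ (m' : ℕ) (l₀ : ℝ), 1 ≤ m' ∧ 1 ≤ l₀ ∧ ∀ l : ℝ, l₀ ≤ l →
      ∀ Q : Set ℤ, Q ⊆ P → ∀ θ : ℝ, 0 ≤ θ → θ ≤ G → kap0 θ R * δ ≤ 1 →
      (∀ L : ℝ, Real.exp (l / 2) ≤ L → Real.log L ≤ 2 * l → ∀ c : ℤ, c % 3 ∈ R →
        θ * (3 / 2) * (L / (3 ^ m' * Real.log L)) ≤ ((cls Q L (2 * L) m' 1 c).card : ℝ)) →
      ∀ A : ℝ, Real.exp l / 2 ≤ A →
      PB (Sh Q (Real.exp (l / (1 + δ))) (Real.exp l) 1)ᶜ A 0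
        (1 - kap0 θ R * δ + (600 * C + 12 * θ) * δ ^ 2 + ε) := by
  obtain ⟨C₁, hC₁, hmix⟩ := mix2
  obtain ⟨η, ε₁, m', l₀, hη0, hη1, hε₁0, hε₁1, hm'1, hl₀1, g1, g2, g3, hmain⟩ :=
    choose_par hP.G1 hC₁ hδ hδ1 (half_pos hε)
  obtain ⟨l₂, K, hl₂, hK, h2⟩ := all_of_base
  refine ⟨m', max (max l₀ (max 9 l₂)) (max (2 * K / ε) (2 * Real.log (max (max X₀ X₁) 1))), hm'1,
    hl₀1.trans ((le_max_left _ _).trans (le_max_left _ _)), ?_⟩
  intro l hl Q hQ θ hθ hθG hκ1 hdens A hA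
  have hl9 : 9 ≤ l := ((le_max_left _ _).trans (le_max_right _ _)).trans ((le_max_left _ _).trans hl)
  have hG0 : 0 < G := by linarith [hP.G1]
  have hl0 : l₀ ≤ l := (le_max_left _ _).trans ((le_max_left _ _).trans hl)
  have hll₂ : l₂ ≤ l := ((le_max_right _ _).trans (le_max_right _ _)).trans ((le_max_left _ _).trans hl)
  have hlK : 2 * K / ε ≤ l := (le_max_left _ _).trans ((le_max_right _ _).trans hl)
  have hl1 : 1 ≤ l := hl₀1.trans hl0
  have hXX : max X₀ X₁ ≤ Real.exp (l / 2) := by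
    have h1 : Real.log (max (max X₀ X₁) 1) ≤ l / 2 := by
      linarith [(le_max_right _ _).trans ((le_max_right _ _).trans hl)]
    have h2 := Real.exp_le_exp.2 h1
    rw [Real.exp_log (by positivity)] at h2
    exact (le_max_left _ _).trans h2
  have hX : X₁ ≤ Real.exp (l / 2) := (le_max_right _ _).trans hXX
  have hX0 : X₀ ≤ Real.exp (l / 2) := (le_max_left _ _).trans hXX
  obtain ⟨hpar0, hsm, hsm2⟩ := hmain l hl0
  have hQR : Rg Q R G (Real.exp (l / 2)) := hP.mono hQ hX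
  have hQp : Pairs Q C X₀ := hpair.mono hQ
  have hyz : Real.exp (l / (1 + δ)) ≤ 2 * Real.exp l := by
    have h1 : Real.exp (l / (1 + δ)) ≤ Real.exp l := by
      apply Real.exp_le_exp.2
      exact div_le_self (by linarith) (by linarith)
    linarith [Real.exp_pos l]
  have hbase : ∀ a : ℝ, l - Real.log 2 ≤ a → a ≤ l + 3 * Real.sqrt l → ∀ m : ℕ, (m : ℝ) ≤ a ^ (1 / 4 : ℝ) →
      PB (Sh Q (Real.exp (l / (1 + δ))) (Real.exp l) 1)ᶜ (Real.exp a) m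
        (1 - kap0 θ R * δ + (600 * C + 12 * θ) * δ ^ 2 + ε / 2) := by
    intro a ha1 ha2 m hm
    obtain ⟨K, k₁, k₃, hpar1⟩ := hpar0 a ha1 ha2 m hm
    have ha3 : a ≤ 2 * l := by
      have h1 : Real.sqrt l ^ 2 = l := Real.sq_sqrt (by linarith)
      have h2 : 3 ≤ Real.sqrt l := Real.le_sqrt_of_sq_le (by linarith)
      nlinarith
    have hpar := Par.setL hpar1 (le_refl (Real.exp (l / 2)))
    have hε₃0 : 0 ≤ G * (C₁ * (1 / (m' : ℝ) + ε₁)) := by positivity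
    refine PB_of fun c => ?_
    have hpt := ptot_bound' hQR.odd hC hQp hδ hδ1 hη0 hη1 hpar hX0 c
    refine (base_lo' hQR.odd hθ hG0.le hδ hδ1 hη0 hη1 hε₁0 hε₁1 hpar hε₃0 c
      (fun k hk1 hk => xp_lo2 hQR hθ hθG hC₁ hmix hm'1 (fun L hL hLa => hdens L hL (hLa.trans ha3)) le_rfl hδ hδ1 hη0 hη1 hε₁0 hε₁1 hpar c
        hk1 hk) hC hpt).trans ?_
    apply mul_le_mul_of_nonneg_left _ (by positivity)
    have h1 : θ * η ≤ G * η := mul_le_mul_of_nonneg_right hθG hη0.le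
    have h1' : θ * ε₁ ≤ G * ε₁ := mul_le_mul_of_nonneg_right hθG hε₁0.le
    have hel := el_pos η l
    have hexp := Real.exp_pos (-(l / 2))
    have h2 : l ^ 2 * el η l + 5 * (G * el η l) + Real.exp (-(l / 2))
        ≤ G * (l ^ 2 * el η l + 5 * el η l + l * el η l + Real.exp (-(l / 2))) := by
      have e1 : l ^ 2 * el η l ≤ G * (l ^ 2 * el η l) := by
        have : 0 ≤ l ^ 2 * el η l := by positivity
        nlinarith [hP.G1]
      have e2 : Real.exp (-(l / 2)) ≤ G * Real.exp (-(l / 2)) := by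
        nlinarith [hP.G1]
      have e3 : 0 ≤ G * (l * el η l) := by positivity
      linarith
    linarith
  have h3 := h2 l hll₂ (Sh Q (Real.exp (l / (1 + δ))) (Real.exp l) 1)ᶜ
    (1 - kap0 θ R * δ + (600 * C + 12 * θ) * δ ^ 2 + ε / 2) (by
      have : 0 ≤ (600 * C + 12 * θ) * δ ^ 2 + ε / 2 := by positivity
      linarith) (Sh_compl_fwd Q (Real.exp_pos l) hyz 1) hbase A hA
  refine PB_mono (le_trans (by positivity) hA) h3 ?_
  have : K / l ^ 2 ≤ ε / 2 := by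
    rw [div_le_iff₀ (by positivity)]
    rw [div_le_iff₀ hε] at hlK
    have : l ≤ l ^ 2 := by nlinarith
    nlinarith
  linarith

end Pool.Agent.H998_RN
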