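import Pool.Agent.H998_RN.Blocks
import Pool.Agent.H998_RN.Lo2

/-! Rough numbers on trajectories, part 20: the blocks, with the terms of bounded size. -/

set_option autoImplicit false

namespace Pool.Agent.H998_RN

open Finset
open Pool.Agent.H320R2.PD Pool.Agent.H499R2.ND
open Pool.Agent.H499R2.CO (Tz)
open Pool.Agent.R344.TH Pool.Agent.H998_PL

/-- the elements of size at most `e^{3l}` -/
def Pl (P : Set ℤ) (l : ℝ) : Set ℤ := {x : ℤ | x ∈ P ∧ (x : ℝ) < Real.exp (3 * l)}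

/-- THE BLOCKS, with the terms of bounded size -/
theorem blocks2 {R : Set ℤ} (hR : ∀ r ∈ R, r = 1 ∨ r = 2) (hσ : 0 < sig R) {τ : ℝ} (hτ : 0 < τ)
    (hτ1 : τ ≤ 1) : ∃ u₀ : ℕ, 1 ≤ u₀ ∧ ∀ u : ℕ, u₀ ≤ u → ∃ δ l₀ K₂ X₁ : ℝ, δ ≤ τ ∧
      Bl (Ru u R) δ (kap0 (th u) R * δ) τ l₀ K₂ ∧ Rg (Ru u R) R (8 * th u) X₁ ∧
      ∀ l : ℝ, l₀ ≤ l → ∀ A : ℝ, Real.exp l / 2 ≤ A →
        PB (Sh (Pl (Ru u R) l) (Real.exp (l / (1 + δ))) (Real.exp l) 1)ᶜ A 0
          (1 - kap0 (th u) R * δ * (1 - τ)) := by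
  obtain ⟨C, hC, hpairs⟩ := Ru_pairs
  obtain ⟨u₁, hu₁, hrg⟩ := Ru_rg
  obtain ⟨u₂, hu₂, hdens⟩ := Ru_dens (show 0 < τ / 8 by positivity) (by linarith)
  obtain ⟨b, hb⟩ : ∃ b : ℝ, b = τ * sig R / (1600 * (C + 1)) := ⟨_, rfl⟩
  have hb0 : 0 < b := by rw [hb]; positivity
  have hσ1 := sig_le R
  have hτσ : τ * sig R ≤ 1 := by
    have := mul_le_mul hτ1 hσ1 hσ.le (by norm_num)
    linarith
  have hb1 : b * (1600 * (C + 1)) = τ * sig R := by rw [hb]; field_simp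
  have hb2 : 1600 * b ≤ τ * sig R := by
    have : 0 < b * (1600 * C) := by positivity
    linarith
  have hb3 : 1600 * (b * C) ≤ τ * sig R := by linarith
  have hb4 : b ≤ 1 / 1600 := by linarith
  have hb5 : 1600 * b ≤ τ := by
    have : τ * sig R ≤ τ * 1 := mul_le_mul_of_nonneg_left hσ1 hτ.le
    linarith
  obtain ⟨u₃, hu₃, hstar⟩ := star (show 0 < τ * sig R * b / 4 by positivity) (by nlinarith)
  refine ⟨max (max u₁ u₂) (max u₃ 7), le_trans (by norm_num) ((le_max_right _ _).trans (le_max_right _ _)), ?_⟩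
  intro u hu
  have hu1 : u₁ ≤ u := (le_max_left _ _).trans ((le_max_left _ _).trans hu)
  have hu2 : u₂ ≤ u := (le_max_right _ _).trans ((le_max_left _ _).trans hu)
  have hu3 : u₃ ≤ u := (le_max_left _ _).trans ((le_max_right _ _).trans hu)
  have hu7 : 7 ≤ u := (le_max_right _ _).trans ((le_max_right _ _).trans hu)
  have huR : (7 : ℝ) ≤ u := by exact_mod_cast hu7
  have hu0 : (0 : ℝ) < u := by linarith
  obtain ⟨X₁, hrgu⟩ := hrg u hu1
  have hP := hrgu R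
  have hth := th_ge (show 1 ≤ u by omega)
  have hth1 := th_le u
  have hth0 : 0 < th u := by linarith
  set κ := kap0 (th u) R with hκ
  have hκlo : 9 * th u * sig R ≤ κ := kap0_lower hth0.le R
  have hκup : κ ≤ 12 * th u := kap0_upper hth0.le R
  have hκlo2 : 3 * (u * sig R) ≤ κ := by
    have : (u : ℝ) / 3 * sig R ≤ th u * sig R := mul_le_mul_of_nonneg_right hth hσ.le
    linarith
  have hκ0 : 0 < κ := lt_of_lt_of_le (by positivity) hκlo2
  obtain ⟨δ, hδ⟩ : ∃ δ : ℝ, δ = b / u := ⟨_, rfl⟩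
  have hδ0 : 0 < δ := by rw [hδ]; positivity
  have hδu : δ * u = b := by rw [hδ]; field_simp
  have hδb : δ ≤ b := by
    rw [hδ]; exact div_le_self hb0.le (by linarith)
  have hδ1 : δ ≤ 1 / 50 := by linarith
  set x := κ * δ with hx
  have hx0 : 0 < x := by positivity
  have hx1 : x ≤ 1 / 4 := by
    have h1 : κ ≤ 12 * u := by linarith
    have h2 : x ≤ 12 * u * δ := mul_le_mul_of_nonneg_right h1 hδ0.le
    have h3 : 12 * u * δ = 12 * b := by rw [← hδu]; ring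
    linarith
  have hxlo : 3 * (sig R * b) ≤ x := by
    have h1 := mul_le_mul_of_nonneg_right hκlo2 hδ0.le
    have h2 : 3 * (u * sig R) * δ = 3 * (sig R * b) := by rw [← hδu]; ring
    rw [h2] at h1; exact h1
  -- the small terms
  have hs1 : 34 * th u * δ ^ 2 ≤ τ / 16 * x := by
    have h1 : 34 * th u * δ ≤ τ / 16 * κ := by
      have e1 : 34 * th u * δ ≤ 34 * th u * (τ * sig R / 1600) :=
        mul_le_mul_of_nonneg_left (by linarith) (by positivity)
      have e2 : τ / 16 * (9 * th u * sig R) ≤ τ / 16 * κ := mul_le_mul_of_nonneg_left hκlo (by positivity)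
      have e3 : 0 < th u * (τ * sig R) := by positivity
      nlinarith
    calc 34 * th u * δ ^ 2 = 34 * th u * δ * δ := by ring
      _ ≤ τ / 16 * κ * δ := mul_le_mul_of_nonneg_right h1 hδ0.le
      _ = _ := by rw [hx]; ring
  have hs2 : C * (u : ℝ) ^ 2 * δ ^ 2 ≤ τ / 4800 * x := by
    have h1 : C * (u : ℝ) ^ 2 * δ ≤ τ / 4800 * κ := by
      have e1 : C * (u : ℝ) ^ 2 * δ = (b * C) * u := by rw [← hδu]; ring
      have e2 : (b * C) * u ≤ (τ * sig R / 1600) * u := mul_le_mul_of_nonneg_right (by linarith) hu0.le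
      have e3 : τ / 4800 * (3 * (u * sig R)) ≤ τ / 4800 * κ := mul_le_mul_of_nonneg_left hκlo2 (by positivity)
      rw [e1]
      nlinarith
    calc C * (u : ℝ) ^ 2 * δ ^ 2 = C * (u : ℝ) ^ 2 * δ * δ := by ring
      _ ≤ τ / 4800 * κ * δ := mul_le_mul_of_nonneg_right h1 hδ0.le
      _ = _ := by rw [hx]; ring
  have hεs : τ * sig R * b / 4 ≤ τ / 8 * x := by
    have := mul_le_mul_of_nonneg_left hxlo (show 0 ≤ τ / 8 by positivity)
    have h0 : 0 < τ * (sig R * b) := by positivity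
    nlinarith
  have hεa : 0 < τ / 8 * x ^ 2 := by positivity
  have hx2 : x ^ 2 ≤ x := by nlinarith
  have hεa1 : τ / 8 * x ^ 2 ≤ τ / 8 * x := mul_le_mul_of_nonneg_left hx2 (by positivity)
  -- the constants of the pieces
  obtain ⟨m', l₁, hm', hl₁, hup⟩ := up_all hP hδ0 hδ1 hεa
  obtain ⟨m'', l₂, hm'', hl₂, hlo⟩ := lo_all hP (by positivity : 0 < C * (u : ℝ) ^ 2) (hpairs u hu7 R)
    hδ0 hδ1 hεa
  obtain ⟨K₂, l₃, hK₂, hl₃, hmany⟩ := many_all hP.odd (by positivity : 0 < C * (u : ℝ) ^ 2)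
    (hpairs u hu7 R) hδ0 hδ1
  obtain ⟨m3, l₄, hm3, hl₄, hlo2⟩ := lo_all2 hP (by positivity : 0 < C * (u : ℝ) ^ 2) (hpairs u hu7 R)
    hδ0 hδ1 hεa
  obtain ⟨Xa, hXa⟩ := hdens u hu2 m' hm'
  obtain ⟨Xb, hXb⟩ := hdens u hu2 m'' hm''
  obtain ⟨Xc, hXc⟩ := hstar u hu3 m'
  obtain ⟨Xd, hXd⟩ := hdens u hu2 m3 hm3
  obtain ⟨l₀, hl₀⟩ : ∃ l₀ : ℝ, l₀ = max (max l₁ (max l₂ l₄)) (max l₃ (2 * Real.log (max (max Xa Xb) (max Xc (max Xd 1))))) :=
    ⟨_, rfl⟩
  have hl1' : ∀ l, l₀ ≤ l → l₁ ≤ l ∧ l₂ ≤ l ∧ l₃ ≤ l ∧ Xa ≤ Real.exp (l / 2) ∧ Xb ≤ Real.exp (l / 2) ∧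
      Xc ≤ Real.exp (l / 2) ∧ l₄ ≤ l ∧ Xd ≤ Real.exp (l / 2) := by
    intro l hl
    rw [hl₀] at hl
    rw [max_le_iff, max_le_iff, max_le_iff, max_le_iff] at hl
    obtain ⟨⟨g1, g2, g2'⟩, g3, g4⟩ := hl
    have h1 : Real.log (max (max Xa Xb) (max Xc (max Xd 1))) ≤ l / 2 := by linarith
    have h2 := Real.exp_le_exp.2 h1
    rw [Real.exp_log (by positivity)] at h2
    simp only [max_le_iff] at h2
    exact ⟨g1, g2, g3, h2.1.1, h2.1.2, h2.2.1, g2', h2.2.2.1⟩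
  have h78 : (0 : ℝ) < 1 - τ / 8 := by linarith
  -- upper bound, first form
  have hup1 : ∀ l : ℝ, l₀ ≤ l → ∀ A : ℝ, Real.exp l / 2 ≤ A →
      PB (Sh (Ru u R) (Real.exp (l / (1 + δ))) (Real.exp l) 1) A 0 (x * (1 + τ / 2)) := by
    intro l hl A hA
    obtain ⟨g1, g2, g3, g4, g5, g6, g7, g8⟩ := hl1' l hl
    have h1 := hup l g1 (Ru u R) ((1 + τ / 8) * th u) subset_rfl (by positivity) (by nlinarith)
      (fun L hL c hc => (hXa L (g4.trans hL) R hR c hc).2) A hA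
    refine PB_mono (le_trans (by positivity) hA) h1 ?_
    rw [kap0_mul, ← hκ]
    have e1 : (1 + τ / 8) * κ * δ = (1 + τ / 8) * x := by rw [hx]; ring
    have e2 : 34 * ((1 + τ / 8) * th u) * δ ^ 2 ≤ 2 * (34 * th u * δ ^ 2) := by
      have : 0 < 34 * th u * δ ^ 2 := by positivity
      nlinarith
    rw [e1]
    nlinarith
  refine ⟨δ, l₀, K₂, X₁, by linarith, ?_, hP, ?_⟩
  swap
  · intro l hl A hA
    obtain ⟨g1, g2, g3, g4, g5, g6, g7, g8⟩ := hl1' l hl
    have hl1 : 1 ≤ l := hl₁.trans g1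
    have h1 := hlo2 l g7 (Pl (Ru u R) l) (fun x hx => hx.1) ((1 - τ / 8) * th u) (by positivity) (by nlinarith) (by
      rw [kap0_mul, ← hκ]
      have : (1 - τ / 8) * κ * δ = (1 - τ / 8) * x := by rw [hx]; ring
      rw [this]; nlinarith)
      (fun L hL hL2 c hc => by
        refine (hXd L (g8.trans hL) R hR c hc).1.trans ?_
        have hL0 : 0 < L := (Real.exp_pos _).trans_le hL
        have hL3 : 2 * L ≤ Real.exp (3 * l) := by
          have e1 : L ≤ Real.exp (2 * l) := by rw [← Real.exp_log hL0]; exact Real.exp_le_exp.2 hL2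
          have e2 : (2 : ℝ) ≤ Real.exp l := by linarith [Real.add_one_le_exp l]
          have e3 : Real.exp (3 * l) = Real.exp l * Real.exp (2 * l) := by rw [← Real.exp_add]; congr 1; ring
          rw [e3]
          exact mul_le_mul e2 e1 hL0.le (Real.exp_pos _).le
        have : cls (Ru u R) L (2 * L) m3 1 c ⊆ cls (Pl (Ru u R) l) L (2 * L) m3 1 c := by
          intro z hz
          rw [mem_cls] at hz ⊢
          exact ⟨hz.1, hz.2.1, ⟨hz.2.2.1, by linarith [hz.2.1]⟩, hz.2.2.2⟩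
        exact_mod_cast card_le_card this) A hA
    refine PB_mono (le_trans (by positivity) hA) h1 ?_
    rw [kap0_mul, ← hκ]
    have e1 : (1 - τ / 8) * κ * δ = (1 - τ / 8) * x := by rw [hx]; ring
    have e2 : (600 * (C * (u : ℝ) ^ 2) + 12 * ((1 - τ / 8) * th u)) * δ ^ 2
        ≤ 600 * (C * (u : ℝ) ^ 2 * δ ^ 2) + 34 * th u * δ ^ 2 := by
      have h2 : (1 - τ / 8) * th u * δ ^ 2 ≤ 1 * th u * δ ^ 2 := by
        apply mul_le_mul_of_nonneg_right _ (by positivity)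
        exact mul_le_mul_of_nonneg_right (by linarith) hth0.le
      have h3 : 0 < th u * δ ^ 2 := by positivity
      nlinarith
    rw [e1]
    nlinarith
  refine ⟨hδ0, hδ1, hx0, hx1, hτ, hτ1, ?_, hK₂, hP.odd, ?_, ?_, ?_, ?_⟩
  · rw [hl₀]; exact hl₁.trans ((le_max_left _ _).trans (le_max_left _ _))
  · intro l hl A hA
    refine PB_mono (le_trans (by positivity) hA) (hup1 l hl A hA) ?_
    nlinarith
  · intro l hl A hA
    obtain ⟨g1, g2, g3, g4, g5, g6, g7, g8⟩ := hl1' l hl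
    have h1 := hlo l g2 ((1 - τ / 8) * th u) (by positivity) (by nlinarith) (by
      rw [kap0_mul, ← hκ]
      have : (1 - τ / 8) * κ * δ = (1 - τ / 8) * x := by rw [hx]; ring
      rw [this]; nlinarith)
      (fun L hL c hc => (hXb L (g5.trans hL) R hR c hc).1) A hA
    refine PB_mono (le_trans (by positivity) hA) h1 ?_
    rw [kap0_mul, ← hκ]
    have e1 : (1 - τ / 8) * κ * δ = (1 - τ / 8) * x := by rw [hx]; ring
    have e2 : (600 * (C * (u : ℝ) ^ 2) + 12 * ((1 - τ / 8) * th u)) * δ ^ 2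
        ≤ 600 * (C * (u : ℝ) ^ 2 * δ ^ 2) + 34 * th u * δ ^ 2 := by
      have h2 : (1 - τ / 8) * th u * δ ^ 2 ≤ 1 * th u * δ ^ 2 := by
        apply mul_le_mul_of_nonneg_right _ (by positivity)
        exact mul_le_mul_of_nonneg_right (by linarith) hth0.le
      have h3 : 0 < th u * δ ^ 2 := by positivity
      nlinarith
    rw [e1]
    nlinarith
  · intro l' hl' l hl A hA
    have hl'1 := (hl1' l' hl').1
    have hl'pos : 1 ≤ l' := hl₁.trans hl'1
    have hll : l₀ ≤ l := by linarith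
    obtain ⟨g1, g2, g3, g4, g5, g6, g7, g8⟩ := hl1' l hll
    have hρ0 : 0 ≤ x * (1 + τ / 2) := by positivity
    have hρ1 : x * (1 + τ / 2) ≤ 1 := by nlinarith
    have hyz' : Real.exp (l' / (1 + δ)) ≤ Real.exp l' :=
      Real.exp_le_exp.2 (div_le_self (by linarith) (by linarith))
    have h1 := hup l g1 (Ru u R ∩ Sh (Ru u R) (Real.exp (l' / (1 + δ))) (Real.exp l') 1)
      (th u * (x * (1 + τ / 2) + τ * sig R * b / 4)) Set.inter_subset_left (by positivity) (by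
        nlinarith) (fun L hL c _ => by
        refine hXc L (g6.trans hL) (Real.exp l') (Real.one_le_exp (by linarith)) ?_ _ _ hρ0 hρ1 ?_ ?_ ?_ R c
        · rw [← Real.exp_nat_mul]
          refine (Real.exp_le_exp.2 ?_).trans hL
          push_cast; linarith
        · exact fun e m hm => Sh_even hP.odd e m hm
        · exact fun n hn => Sh_step hyz' hn
        · exact fun A hA => hup1 l' hl' A hA) A hA
    refine PB_mono (le_trans (by positivity) hA) h1 ?_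
    rw [kap0_mul', ← hκ]
    set ρ := x * (1 + τ / 2) + τ * sig R * b / 4 with hρ
    have hρle : ρ ≤ x * (1 + 5 * τ / 8) := by rw [hρ]; nlinarith
    have hρ0' : 0 ≤ ρ := by rw [hρ]; positivity
    have e1 : κ * ρ * δ + 34 * (th u * ρ) * δ ^ 2 = (x + 34 * th u * δ ^ 2) * ρ := by rw [hx]; ring
    rw [e1]
    have e2 : (x + 34 * th u * δ ^ 2) * ρ ≤ (x * (1 + τ / 16)) * (x * (1 + 5 * τ / 8)) := by
      apply mul_le_mul _ hρle hρ0' (by positivity)
      linarith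
    have e3 : (x * (1 + τ / 16)) * (x * (1 + 5 * τ / 8)) + τ / 8 * x ^ 2
        = x ^ 2 * (1 + 13 * τ / 16 + 5 * τ ^ 2 / 128) := by ring
    have e4 : x ^ 2 * (1 + 13 * τ / 16 + 5 * τ ^ 2 / 128) ≤ x ^ 2 * (1 + τ) := by
      apply mul_le_mul_of_nonneg_left _ (sq_nonneg x)
      nlinarith
    linarith
  · intro l hl A hA j hj
    obtain ⟨g1, g2, g3, g4, g5, g6, g7, g8⟩ := hl1' l hl
    refine PB_mono (le_trans (by positivity) hA) (hmany l g3 A hA j hj) ?_
    have hjR : (2 : ℝ) ≤ j := by exact_mod_cast hj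
    have hjj : (0 : ℝ) < (j : ℝ) * j - j := by nlinarith
    apply add_le_add _ le_rfl
    apply div_le_div_of_nonneg_right _ hjj.le
    nlinarith

end Pool.Agent.H998_RN
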