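import Pool.Agent.H998_RN.Pair
import Pool.Agent.H998_RN.All2

/-! Rough numbers on trajectories, part 12: pairs of rough numbers in the classes. -/

set_option autoImplicit false

namespace Pool.Agent.H998_RN

open Finset
open Pool.Agent.H320R2.PD Pool.Agent.H499R2.ND
open Pool.Agent.H499R2.CO (Tz)
open Pool.Agent.R344.TH Pool.Agent.H998_PL
open Pool.Agent.H998_BC (Ta Ta_ge)

theorem Ru_pairs : ∃ C : ℝ, 0 < C ∧ ∀ u : ℕ, 7 ≤ u → ∀ R : Set ℤ,
    Pairs (Ru u R) (C * (u : ℝ) ^ 2) (Real.exp 100) := by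
  classical
  obtain ⟨C, hC, h⟩ := rough_count
  refine ⟨16 * C, by positivity, ?_⟩
  intro u hu R L hL τ n hτ hM a v ha
  have hL101 : 101 ≤ L := by linarith [Real.add_one_le_exp (100 : ℝ)]
  have hL0 : 0 < L := by linarith
  have hlog : 0 < Real.log L := Real.log_pos (by linarith)
  have huR : (0 : ℝ) < u := by positivity
  obtain ⟨c, hc⟩ := cls_unit (Pt (Ru u R) τ) L (2 * L) n ha v
  rw [hc]
  set Y := yy (4 * u) L with hYd
  have h4u : 1 ≤ 4 * u := by omega
  have hY1 : 1 ≤ Y := by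
    rw [hYd, yy_pow h4u hL0.le]; norm_num; linarith
  have hYR : (1 : ℝ) ≤ Y := by exact_mod_cast hY1
  have hYL : (Y : ℝ) ^ (4 * u) ≤ L := (yy_pow h4u hL0.le).1 le_rfl
  have hY28 : (Y : ℝ) ^ 28 ≤ L := (pow_le_pow_right₀ hYR (by omega)).trans hYL
  have hsq := Real.mul_self_sqrt hL0.le
  have hs1 : 1 ≤ Real.sqrt L := Real.le_sqrt_of_sq_le (by linarith)
  have hYs : (Y : ℝ) ^ (2 * u) ≤ Real.sqrt L := by
    apply Real.le_sqrt_of_sq_le
    rw [← pow_mul]
    rw [show 2 * u * 2 = 4 * u by ring]; exact hYL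
  have hsL : Real.sqrt L ≤ L := by nlinarith
  have hq : ∀ q : ℕ, q ≤ Y ^ 2 → ((q : ℤ) ^ u : ℝ) ≤ Real.sqrt L := by
    intro q hq
    have h1 : (q : ℝ) ≤ (Y : ℝ) ^ 2 := by exact_mod_cast hq
    have h2 := pow_le_pow_left₀ (Nat.cast_nonneg q) h1 u
    rw [← pow_mul] at h2
    push_cast
    linarith
  have h2τ : (2 : ℝ) ^ τ ≤ Real.sqrt L := by
    refine le_trans ?_ hM
    exact le_mul_of_one_le_right (by positivity) (one_le_pow₀ (by norm_num))
  have hinj : Set.InjOn (fun x : ℤ => x.toNat) (cls (Pt (Ru u R) τ) L (2 * L) n 1 c : Set ℤ) := by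
    intro x hx y hy hxy
    rw [mem_coe, mem_cls] at hx hy
    have h1 := hx.2.2.1.1.1
    have h2 := hy.2.2.1.1.1
    have h3 : x.toNat = y.toNat := hxy
    omega
  have key := h Y hY1 L hL hY28 τ n (c % 3 ^ n).toNat hτ hM
    ((cls (Pt (Ru u R) τ) L (2 * L) n 1 c).image (fun x : ℤ => x.toNat)) (by
      intro p hp
      rw [mem_image] at hp
      obtain ⟨x, hx, rfl⟩ := hp
      rw [mem_cls] at hx
      obtain ⟨⟨h1, h2⟩, h3, ⟨h4, h4'⟩, h5⟩ := hx
      have h6 := h4.1
      have hcast : ((x.toNat : ℕ) : ℤ) = x := Int.toNat_of_nonneg h6.le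
      have hcastR : ((x.toNat : ℕ) : ℝ) = x := by
        have : (((x.toNat : ℕ) : ℤ) : ℝ) = (x : ℝ) := by rw [hcast]
        exact_mod_cast this
      refine ⟨⟨by rw [hcastR]; exact h1, by rw [hcastR]; exact h2.le⟩, ?_, ?_, ?_⟩
      · obtain ⟨k, hk⟩ := h3
        omega
      · have h8 : x % 3 ^ n = c % 3 ^ n := by
          rw [one_mul] at h5
          exact Int.emod_eq_emod_iff_emod_sub_eq_zero.2 (Int.emod_eq_zero_of_dvd h5)
        have h9 : (((x.toNat % 3 ^ n : ℕ)) : ℤ) = (((c % 3 ^ n).toNat : ℕ) : ℤ) := by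
          push_cast
          rw [hcast, h8, Int.toNat_of_nonneg (Int.emod_nonneg _ (by positivity))]
        exact_mod_cast h9
      · intro q hqp hqY hd
        have hq1 := hq q hqY
        rcases (Nat.Prime.dvd_mul hqp).1 hd with hd | hd
        · have g1 : (q : ℤ) ∣ x := by rw [← hcast]; exact_mod_cast hd
          apply h4.2.2.2 q hqp _ g1
          have : ((q : ℤ) ^ u : ℝ) ≤ x := by linarith
          exact_mod_cast this
        · have g0 : (Tz 1)^[τ] x = ((Ta^[τ] x.toNat : ℕ) : ℤ) := by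
            rw [← Tz_iter_cast, hcast]
          have g1 : (q : ℤ) ∣ (Tz 1)^[τ] x := by rw [g0]; exact_mod_cast hd
          apply h4'.2.2.2 q hqp _ g1
          have g2 : (x.toNat : ℝ) ≤ 2 ^ τ * (Ta^[τ] x.toNat : ℕ) := by exact_mod_cast Ta_ge (t := τ) x.toNat
          rw [hcastR] at g2
          have g3 : Real.sqrt L ≤ ((Ta^[τ] x.toNat : ℕ) : ℝ) := by
            have g4 : (0 : ℝ) ≤ ((Ta^[τ] x.toNat : ℕ) : ℝ) := Nat.cast_nonneg _
            have g5 := mul_le_mul_of_nonneg_right h2τ g4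
            have g6 : Real.sqrt L * Real.sqrt L ≤ Real.sqrt L * ((Ta^[τ] x.toNat : ℕ) : ℝ) := by linarith
            exact le_of_mul_le_mul_left g6 (by linarith)
          rw [g0]
          have : ((q : ℤ) ^ u : ℝ) ≤ ((Ta^[τ] x.toNat : ℕ) : ℝ) := by linarith
          exact_mod_cast this)
  rw [card_image_of_injOn hinj] at key
  refine key.trans ?_
  have hlY : Real.log L / (4 * u) ≤ Real.log (Y + 1) := by
    have h1 : L ^ (1 / ((4 * u : ℕ) : ℝ)) < (Y : ℝ) + 1 := by
      rw [hYd]; exact Nat.lt_floor_add_one _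
    have h2 := Real.log_le_log (by positivity) h1.le
    rw [Real.log_rpow hL0] at h2
    push_cast at h2
    refine le_trans (le_of_eq ?_) h2
    field_simp
  have hlY0 : 0 < Real.log L / (4 * u) := by positivity
  have h5 : (Real.log L / (4 * u)) ^ 2 ≤ Real.log (Y + 1) ^ 2 := pow_le_pow_left₀ hlY0.le hlY 2
  calc C * (L / 3 ^ n) / Real.log (Y + 1) ^ 2 ≤ C * (L / 3 ^ n) / (Real.log L / (4 * u)) ^ 2 :=
        div_le_div_of_nonneg_left (by positivity) (by positivity) h5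
    _ = _ := by field_simp; ring

end Pool.Agent.H998_RN
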