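import Pool.Agent.H998_RN.Star
import Pool.Agent.H998_RN.Pair2
import Pool.Agent.H998_PL.Blk

/-! Rough numbers on trajectories, part 15: the blocks. -/

set_option autoImplicit false

namespace Pool.Agent.H998_RN

open Finset
open Pool.Agent.H320R2.PD Pool.Agent.H499R2.ND
open Pool.Agent.H499R2.CO (Tz)
open Pool.Agent.R344.TH Pool.Agent.H998_PL

theorem Sh_one {P : Set ℤ} {y z : ℝ} {x : ℤ} : x ∈ Sh P y z 1 ↔ ∃ k, (Tz 1)^[k] x ∈ P ∧
    (∀ j ≤ k, y ≤ (((Tz 1)^[j] x : ℤ) : ℝ)) ∧ ∃ j ≤ k, (((Tz 1)^[j] x : ℤ) : ℝ) < z := by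
  constructor
  · rintro ⟨s, hs, h⟩
    obtain ⟨k, hk⟩ := card_eq_one.1 hs
    exact ⟨k, h k (by rw [hk]; exact mem_singleton_self k)⟩
  · rintro ⟨k, hk⟩
    exact ⟨{k}, card_singleton k, fun k' hk' => by rw [mem_singleton.1 hk']; exact hk⟩

theorem Sh_step {P : Set ℤ} {y z : ℝ} (hyz : y ≤ z) {x : ℤ} (hx : z ≤ x) :
    x ∈ Sh P y z 1 ↔ Tz 1 x ∈ Sh P y z 1 := by
  rw [Sh_one, Sh_one]
  constructor
  · rintro ⟨k, h1, h2, j, hj, h3⟩
    rcases k with _ | k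
    · obtain rfl : j = 0 := by omega
      exfalso
      simp only [Function.iterate_zero, id_eq] at h3
      linarith
    · refine ⟨k, by rwa [← Function.iterate_succ_apply], fun i hi => ?_, ?_⟩
      · rw [← Function.iterate_succ_apply]; exact h2 (i + 1) (by omega)
      · rcases j with _ | j
        · exfalso
          simp only [Function.iterate_zero, id_eq] at h3
          linarith
        · exact ⟨j, by omega, by rwa [← Function.iterate_succ_apply]⟩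
  · rintro ⟨k, h1, h2, j, hj, h3⟩
    refine ⟨k + 1, by rwa [Function.iterate_succ_apply], fun i hi => ?_, j + 1, by omega, by
      rwa [Function.iterate_succ_apply]⟩
    rcases i with _ | i
    · simp only [Function.iterate_zero, id_eq]; linarith
    · rw [Function.iterate_succ_apply]; exact h2 i (by omega)

theorem Sh_iter {P : Set ℤ} {y z : ℝ} (hyz : y ≤ z) {x : ℤ} : ∀ k : ℕ,
    (∀ j < k, z ≤ (((Tz 1)^[j] x : ℤ) : ℝ)) → (x ∈ Sh P y z 1 ↔ (Tz 1)^[k] x ∈ Sh P y z 1)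
  | 0, _ => by simp
  | k + 1, h => by
    rw [Sh_iter hyz k (fun j hj => h j (by omega)), Function.iterate_succ_apply']
    exact Sh_step hyz (h k (by omega))

/-- two blocks -/
theorem Sh_inter {P : Set ℤ} {y z y' z' : ℝ} (hyz' : y' ≤ z') (hzy : z' ≤ y) {x : ℤ}
    (h1 : x ∈ Sh P y z 1) (h2 : x ∈ Sh P y' z' 1) : x ∈ Sh (P ∩ Sh P y' z' 1) y z 1 := by
  rw [Sh_one] at h1
  obtain ⟨k, g1, g2, g3⟩ := h1
  rw [Sh_one]
  refine ⟨k, ⟨g1, ?_⟩, g2, g3⟩
  exact (Sh_iter hyz' k (fun j hj => hzy.trans (g2 j hj.le))).1 h2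

/-- the data of the blocks -/
structure Bl (P : Set ℤ) (δ x τ l₀ K₂ : ℝ) : Prop where
  δ0 : 0 < δ
  δ1 : δ ≤ 1 / 50
  x0 : 0 < x
  x1 : x ≤ 1 / 4
  τ0 : 0 < τ
  τ1 : τ ≤ 1
  l1 : 1 ≤ l₀
  K0 : 0 < K₂
  odd : ∀ n ∈ P, Odd n
  up : ∀ l : ℝ, l₀ ≤ l → ∀ A : ℝ, Real.exp l / 2 ≤ A →
    PB (Sh P (Real.exp (l / (1 + δ))) (Real.exp l) 1) A 0 (x * (1 + τ))
  lo : ∀ l : ℝ, l₀ ≤ l → ∀ A : ℝ, Real.exp l / 2 ≤ A →
    PB (Sh P (Real.exp (l / (1 + δ))) (Real.exp l) 1)ᶜ A 0 (1 - x * (1 - τ))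
  cross : ∀ l' : ℝ, l₀ ≤ l' → ∀ l : ℝ, 6 * l' ≤ l → ∀ A : ℝ, Real.exp l / 2 ≤ A →
    PB (Sh (P ∩ Sh P (Real.exp (l' / (1 + δ))) (Real.exp l') 1) (Real.exp (l / (1 + δ)))
      (Real.exp l) 1) A 0 (x ^ 2 * (1 + τ))
  many : ∀ l : ℝ, l₀ ≤ l → ∀ A : ℝ, Real.exp l / 2 ≤ A → ∀ j : ℕ, 2 ≤ j →
    PB (Sh P (Real.exp (l / (1 + δ))) (Real.exp l) j) A 0 (τ * x / ((j : ℝ) * j - j) + K₂ / l ^ 2)

theorem kap0_mul (θ c : ℝ) (R : Set ℤ) : kap0 (c * θ) R = c * kap0 θ R := by unfold kap0; ring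

theorem kap0_mul' (θ c : ℝ) (R : Set ℤ) : kap0 (θ * c) R = kap0 θ R * c := by unfold kap0; ring

theorem kap0_lower {θ : ℝ} (hθ : 0 ≤ θ) (R : Set ℤ) : 9 * θ * sig R ≤ kap0 θ R := by
  unfold kap0
  have h1 := sig_nonneg R
  have h2 := log43
  have h3 : Real.log (4 / 3) ≤ 1 / 3 := by
    have := Real.log_le_sub_one_of_pos (show (0 : ℝ) < 4 / 3 by norm_num)
    linarith
  rw [le_div_iff₀ (by linarith)]
  have : 0 ≤ θ * sig R := by positivity
  nlinarith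

theorem kap0_upper {θ : ℝ} (hθ : 0 ≤ θ) (R : Set ℤ) : kap0 θ R ≤ 12 * θ := by
  unfold kap0
  have h1 := sig_nonneg R
  have h2 := sig_le R
  have h3 := log43
  rw [div_le_iff₀ (by linarith)]
  have : θ * sig R ≤ θ * 1 := mul_le_mul_of_nonneg_left h2 hθ
  nlinarith

/-- THE BLOCKS -/
theorem blocks {R : Set ℤ} (hR : ∀ r ∈ R, r = 1 ∨ r = 2) (hσ : 0 < sig R) {τ : ℝ} (hτ : 0 < τ)
    (hτ1 : τ ≤ 1) : ∃ u₀ : ℕ, 1 ≤ u₀ ∧ ∀ u : ℕ, u₀ ≤ u → ∃ δ l₀ K₂ X₁ : ℝ, δ ≤ τ ∧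
      Bl (Ru u R) δ (kap0 (th u) R * δ) τ l₀ K₂ ∧ Rg (Ru u R) R (8 * th u) X₁ := by
  obtain ⟨C, hC, hpairs⟩ := Ru_pairs
  obtain ⟨u₁, hu₁, hrg⟩ := Ru_rg
  obtain ⟨u₂, hu₂, hdens⟩ := Ru_dens (show 0 < τ / 8 by positivity) (by linarith)
  obtain ⟨b, hb⟩ : ∃ b : ℝ, b = τ * sig R / (1600 * (C + 1)) := ⟨_, rfl⟩
  have hb0 : 0 < b := by rw [hb]; positivity
  have hσ1 := sig_le R
  have hτσ : τ * sig R ≤ 1 := by
    have := mul_le_mul hτ1 hσ1 hσ.le (by norm_num)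
    linarith
  have hb1 : b * (1600 * (C + 1)) = τ * sig R := by rw [hb]; field_simp
  have hb2 : 1600 * b ≤ τ * sig R := by
    have : 0 < b * (1600 * C) := by positivity
    linarith
  have hb3 : 1600 * (b * C) ≤ τ * sig R := by linarith
  have hb4 : b ≤ 1 / 1600 := by linarith
  have hb5 : 1600 * b ≤ τ := by
    have : τ * sig R ≤ τ * 1 := mul_le_mul_of_nonneg_left hσ1 hτ.le
    linarith
  obtain ⟨u₃, hu₃, hstar⟩ := star (show 0 < τ * sig R * b / 4 by positivity) (by nlinarith)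
  refine ⟨max (max u₁ u₂) (max u₃ 7), le_trans (by norm_num) ((le_max_right _ _).trans (le_max_right _ _)), ?_⟩
  intro u hu
  have hu1 : u₁ ≤ u := (le_max_left _ _).trans ((le_max_left _ _).trans hu)
  have hu2 : u₂ ≤ u := (le_max_right _ _).trans ((le_max_left _ _).trans hu)
  have hu3 : u₃ ≤ u := (le_max_left _ _).trans ((le_max_right _ _).trans hu)
  have hu7 : 7 ≤ u := (le_max_right _ _).trans ((le_max_right _ _).trans hu)
  have huR : (7 : ℝ) ≤ u := by exact_mod_cast hu7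
  have hu0 : (0 : ℝ) < u := by linarith
  obtain ⟨X₁, hrgu⟩ := hrg u hu1
  have hP := hrgu R
  have hth := th_ge (show 1 ≤ u by omega)
  have hth1 := th_le u
  have hth0 : 0 < th u := by linarith
  set κ := kap0 (th u) R with hκ
  have hκlo : 9 * th u * sig R ≤ κ := kap0_lower hth0.le R
  have hκup : κ ≤ 12 * th u := kap0_upper hth0.le R
  have hκlo2 : 3 * (u * sig R) ≤ κ := by
    have : (u : ℝ) / 3 * sig R ≤ th u * sig R := mul_le_mul_of_nonneg_right hth hσ.le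
    linarith
  have hκ0 : 0 < κ := lt_of_lt_of_le (by positivity) hκlo2
  obtain ⟨δ, hδ⟩ : ∃ δ : ℝ, δ = b / u := ⟨_, rfl⟩
  have hδ0 : 0 < δ := by rw [hδ]; positivity
  have hδu : δ * u = b := by rw [hδ]; field_simp
  have hδb : δ ≤ b := by
    rw [hδ]; exact div_le_self hb0.le (by linarith)
  have hδ1 : δ ≤ 1 / 50 := by linarith
  set x := κ * δ with hx
  have hx0 : 0 < x := by positivity
  have hx1 : x ≤ 1 / 4 := by
    have h1 : κ ≤ 12 * u := by linarith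
    have h2 : x ≤ 12 * u * δ := mul_le_mul_of_nonneg_right h1 hδ0.le
    have h3 : 12 * u * δ = 12 * b := by rw [← hδu]; ring
    linarith
  have hxlo : 3 * (sig R * b) ≤ x := by
    have h1 := mul_le_mul_of_nonneg_right hκlo2 hδ0.le
    have h2 : 3 * (u * sig R) * δ = 3 * (sig R * b) := by rw [← hδu]; ring
    rw [h2] at h1; exact h1
  -- the small terms
  have hs1 : 34 * th u * δ ^ 2 ≤ τ / 16 * x := by
    have h1 : 34 * th u * δ ≤ τ / 16 * κ := by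
      have e1 : 34 * th u * δ ≤ 34 * th u * (τ * sig R / 1600) :=
        mul_le_mul_of_nonneg_left (by linarith) (by positivity)
      have e2 : τ / 16 * (9 * th u * sig R) ≤ τ / 16 * κ := mul_le_mul_of_nonneg_left hκlo (by positivity)
      have e3 : 0 < th u * (τ * sig R) := by positivity
      nlinarith
    calc 34 * th u * δ ^ 2 = 34 * th u * δ * δ := by ring
      _ ≤ τ / 16 * κ * δ := mul_le_mul_of_nonneg_right h1 hδ0.le
      _ = _ := by rw [hx]; ring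
  have hs2 : C * (u : ℝ) ^ 2 * δ ^ 2 ≤ τ / 4800 * x := by
    have h1 : C * (u : ℝ) ^ 2 * δ ≤ τ / 4800 * κ := by
      have e1 : C * (u : ℝ) ^ 2 * δ = (b * C) * u := by rw [← hδu]; ring
      have e2 : (b * C) * u ≤ (τ * sig R / 1600) * u := mul_le_mul_of_nonneg_right (by linarith) hu0.le
      have e3 : τ / 4800 * (3 * (u * sig R)) ≤ τ / 4800 * κ := mul_le_mul_of_nonneg_left hκlo2 (by positivity)
      rw [e1]
      nlinarith
    calc C * (u : ℝ) ^ 2 * δ ^ 2 = C * (u : ℝ) ^ 2 * δ * δ := by ring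
      _ ≤ τ / 4800 * κ * δ := mul_le_mul_of_nonneg_right h1 hδ0.le
      _ = _ := by rw [hx]; ring
  have hεs : τ * sig R * b / 4 ≤ τ / 8 * x := by
    have := mul_le_mul_of_nonneg_left hxlo (show 0 ≤ τ / 8 by positivity)
    have h0 : 0 < τ * (sig R * b) := by positivity
    nlinarith
  have hεa : 0 < τ / 8 * x ^ 2 := by positivity
  have hx2 : x ^ 2 ≤ x := by nlinarith
  have hεa1 : τ / 8 * x ^ 2 ≤ τ / 8 * x := mul_le_mul_of_nonneg_left hx2 (by positivity)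
  -- the constants of the pieces
  obtain ⟨m', l₁, hm', hl₁, hup⟩ := up_all hP hδ0 hδ1 hεa
  obtain ⟨m'', l₂, hm'', hl₂, hlo⟩ := lo_all hP (by positivity : 0 < C * (u : ℝ) ^ 2) (hpairs u hu7 R)
    hδ0 hδ1 hεa
  obtain ⟨K₂, l₃, hK₂, hl₃, hmany⟩ := many_all hP.odd (by positivity : 0 < C * (u : ℝ) ^ 2)
    (hpairs u hu7 R) hδ0 hδ1
  obtain ⟨Xa, hXa⟩ := hdens u hu2 m' hm'
  obtain ⟨Xb, hXb⟩ := hdens u hu2 m'' hm''
  obtain ⟨Xc, hXc⟩ := hstar u hu3 m'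
  obtain ⟨l₀, hl₀⟩ : ∃ l₀ : ℝ, l₀ = max (max l₁ l₂) (max l₃ (2 * Real.log (max (max Xa Xb) (max Xc 1)))) :=
    ⟨_, rfl⟩
  have hl1' : ∀ l, l₀ ≤ l → l₁ ≤ l ∧ l₂ ≤ l ∧ l₃ ≤ l ∧ Xa ≤ Real.exp (l / 2) ∧ Xb ≤ Real.exp (l / 2) ∧
      Xc ≤ Real.exp (l / 2) := by
    intro l hl
    rw [hl₀] at hl
    simp only [max_le_iff] at hl
    obtain ⟨⟨g1, g2⟩, g3, g4⟩ := hl
    have h1 : Real.log (max (max Xa Xb) (max Xc 1)) ≤ l / 2 := by linarith
    have h2 := Real.exp_le_exp.2 h1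
    rw [Real.exp_log (by positivity)] at h2
    simp only [max_le_iff] at h2
    exact ⟨g1, g2, g3, h2.1.1, h2.1.2, h2.2.1⟩
  have h78 : (0 : ℝ) < 1 - τ / 8 := by linarith
  -- upper bound, first form
  have hup1 : ∀ l : ℝ, l₀ ≤ l → ∀ A : ℝ, Real.exp l / 2 ≤ A →
      PB (Sh (Ru u R) (Real.exp (l / (1 + δ))) (Real.exp l) 1) A 0 (x * (1 + τ / 2)) := by
    intro l hl A hA
    obtain ⟨g1, g2, g3, g4, g5, g6⟩ := hl1' l hl
    have h1 := hup l g1 (Ru u R) ((1 + τ / 8) * th u) subset_rfl (by positivity) (by nlinarith)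
      (fun L hL c hc => (hXa L (g4.trans hL) R hR c hc).2) A hA
    refine PB_mono (le_trans (by positivity) hA) h1 ?_
    rw [kap0_mul, ← hκ]
    have e1 : (1 + τ / 8) * κ * δ = (1 + τ / 8) * x := by rw [hx]; ring
    have e2 : 34 * ((1 + τ / 8) * th u) * δ ^ 2 ≤ 2 * (34 * th u * δ ^ 2) := by
      have : 0 < 34 * th u * δ ^ 2 := by positivity
      nlinarith
    rw [e1]
    nlinarith
  refine ⟨δ, l₀, K₂, X₁, by linarith, ?_, hP⟩
  refine ⟨hδ0, hδ1, hx0, hx1, hτ, hτ1, ?_, hK₂, hP.odd, ?_, ?_, ?_, ?_⟩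
  · rw [hl₀]; exact hl₁.trans ((le_max_left _ _).trans (le_max_left _ _))
  · intro l hl A hA
    refine PB_mono (le_trans (by positivity) hA) (hup1 l hl A hA) ?_
    nlinarith
  · intro l hl A hA
    obtain ⟨g1, g2, g3, g4, g5, g6⟩ := hl1' l hl
    have h1 := hlo l g2 ((1 - τ / 8) * th u) (by positivity) (by nlinarith) (by
      rw [kap0_mul, ← hκ]
      have : (1 - τ / 8) * κ * δ = (1 - τ / 8) * x := by rw [hx]; ring
      rw [this]; nlinarith)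
      (fun L hL c hc => (hXb L (g5.trans hL) R hR c hc).1) A hA
    refine PB_mono (le_trans (by positivity) hA) h1 ?_
    rw [kap0_mul, ← hκ]
    have e1 : (1 - τ / 8) * κ * δ = (1 - τ / 8) * x := by rw [hx]; ring
    have e2 : (600 * (C * (u : ℝ) ^ 2) + 12 * ((1 - τ / 8) * th u)) * δ ^ 2
        ≤ 600 * (C * (u : ℝ) ^ 2 * δ ^ 2) + 34 * th u * δ ^ 2 := by
      have h2 : (1 - τ / 8) * th u * δ ^ 2 ≤ 1 * th u * δ ^ 2 := by
        apply mul_le_mul_of_nonneg_right _ (by positivity)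
        exact mul_le_mul_of_nonneg_right (by linarith) hth0.le
      have h3 : 0 < th u * δ ^ 2 := by positivity
      nlinarith
    rw [e1]
    nlinarith
  · intro l' hl' l hl A hA
    have hl'1 := (hl1' l' hl').1
    have hl'pos : 1 ≤ l' := hl₁.trans hl'1
    have hll : l₀ ≤ l := by linarith
    obtain ⟨g1, g2, g3, g4, g5, g6⟩ := hl1' l hll
    have hρ0 : 0 ≤ x * (1 + τ / 2) := by positivity
    have hρ1 : x * (1 + τ / 2) ≤ 1 := by nlinarith
    have hyz' : Real.exp (l' / (1 + δ)) ≤ Real.exp l' :=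
      Real.exp_le_exp.2 (div_le_self (by linarith) (by linarith))
    have h1 := hup l g1 (Ru u R ∩ Sh (Ru u R) (Real.exp (l' / (1 + δ))) (Real.exp l') 1)
      (th u * (x * (1 + τ / 2) + τ * sig R * b / 4)) Set.inter_subset_left (by positivity) (by
        nlinarith) (fun L hL c _ => by
        refine hXc L (g6.trans hL) (Real.exp l') (Real.one_le_exp (by linarith)) ?_ _ _ hρ0 hρ1 ?_ ?_ ?_ R c
        · rw [← Real.exp_nat_mul]
          refine (Real.exp_le_exp.2 ?_).trans hL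
          push_cast; linarith
        · exact fun e m hm => Sh_even hP.odd e m hm
        · exact fun n hn => Sh_step hyz' hn
        · exact fun A hA => hup1 l' hl' A hA) A hA
    refine PB_mono (le_trans (by positivity) hA) h1 ?_
    rw [kap0_mul', ← hκ]
    set ρ := x * (1 + τ / 2) + τ * sig R * b / 4 with hρ
    have hρle : ρ ≤ x * (1 + 5 * τ / 8) := by rw [hρ]; nlinarith
    have hρ0' : 0 ≤ ρ := by rw [hρ]; positivity
    have e1 : κ * ρ * δ + 34 * (th u * ρ) * δ ^ 2 = (x + 34 * th u * δ ^ 2) * ρ := by rw [hx]; ring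
    rw [e1]
    have e2 : (x + 34 * th u * δ ^ 2) * ρ ≤ (x * (1 + τ / 16)) * (x * (1 + 5 * τ / 8)) := by
      apply mul_le_mul _ hρle hρ0' (by positivity)
      linarith
    have e3 : (x * (1 + τ / 16)) * (x * (1 + 5 * τ / 8)) + τ / 8 * x ^ 2
        = x ^ 2 * (1 + 13 * τ / 16 + 5 * τ ^ 2 / 128) := by ring
    have e4 : x ^ 2 * (1 + 13 * τ / 16 + 5 * τ ^ 2 / 128) ≤ x ^ 2 * (1 + τ) := by
      apply mul_le_mul_of_nonneg_left _ (sq_nonneg x)
      nlinarith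
    linarith
  · intro l hl A hA j hj
    obtain ⟨g1, g2, g3, g4, g5, g6⟩ := hl1' l hl
    refine PB_mono (le_trans (by positivity) hA) (hmany l g3 A hA j hj) ?_
    have hjR : (2 : ℝ) ≤ j := by exact_mod_cast hj
    have hjj : (0 : ℝ) < (j : ℝ) * j - j := by nlinarith
    apply add_le_add _ le_rfl
    apply div_le_div_of_nonneg_right _ hjj.le
    nlinarith

end Pool.Agent.H998_RN
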