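import Pool.Agent.H998_RN.Lln

/-! Rough numbers on trajectories, part 19: the Collatz map. -/

set_option autoImplicit false

namespace Pool.Agent.H998_RN

open Finset Filter Topology
open Pool.Agent.H320R2.PD Pool.Agent.H499R2.ND
open Pool.Agent.H499R2.CO (Tz)
open Pool.Agent.R344.TH Pool.Agent.H998_PL
open Pool.Agent.H998_BC (C)

/-- every prime factor `p` of `m` satisfies `m < p ^ u` -/
def Rough (u m : ℕ) : Prop := ∀ p : ℕ, p.Prime → p ∣ m → m < p ^ u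

/-- the times of the rough terms (`≡ r` mod `3`, if `r ≠ 0`) before the first term below `Y` -/
def RoughTimes (u r : ℕ) (Y : ℝ) (n : ℕ) : Set ℕ :=
  {k : ℕ | Rough u (C^[k] n) ∧ (r = 0 ∨ C^[k] n % 3 = r) ∧ ∀ j ≤ k, Y ≤ ((C^[j] n : ℕ) : ℝ)}

/-- the constant -/
noncomputable def kapR (u r : ℕ) : ℝ :=
  (if r = 0 then 3 else (r : ℝ)) * (Real.exp (-Real.eulerMascheroniConstant) * u) / Real.log (4 / 3)

theorem kap0_eq {u r : ℕ} (hr : r ≤ 2) : kap0 (th u) (Rr r) = kapR u r := by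
  unfold kap0 kapR th
  rw [← sig_Rr hr]; ring

theorem sig_pos {r : ℕ} (hr : r ≤ 2) : 0 < sig (Rr r) := by
  have h := sig_Rr hr
  split_ifs at h with h0
  · linarith
  · have : (1 : ℝ) ≤ r := by exact_mod_cast Nat.one_le_iff_ne_zero.2 h0
    linarith

theorem kapR_ge {u r : ℕ} (hu : 1 ≤ u) (hr : r ≤ 2) : (u : ℝ) ≤ kapR u r := by
  have hth := th_ge hu
  have hu0 : (0 : ℝ) < u := by positivity
  have h0 : 0 ≤ th u := by linarith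
  have h1 := kap0_lower h0 (Rr r)
  rw [kap0_eq hr] at h1
  have h2 : 1 ≤ 3 * sig (Rr r) := by
    rw [sig_Rr hr]
    split_ifs with h0
    · norm_num
    · exact_mod_cast Nat.one_le_iff_ne_zero.2 h0
  nlinarith

theorem RoughTimes_eq {u r : ℕ} {Y : ℝ} (hY : (3 : ℝ) ^ u < Y) (n : ℕ) :
    RoughTimes u r Y n = HC {m : ℕ | (m : ℤ) ∈ Ru u (Rr r)} Y n := by
  ext k
  constructor
  · rintro ⟨h1, h2, h3⟩
    refine ⟨?_, h3⟩
    have h5 : (3 : ℝ) ^ u < ((C^[k] n : ℕ) : ℝ) := hY.trans_le (h3 k le_rfl)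
    have h6 : 3 ^ u < C^[k] n := by exact_mod_cast h5
    have h23 : 2 ^ u ≤ 3 ^ u := Nat.pow_le_pow_left (by norm_num) u
    have h7 : Odd (C^[k] n) := by
      rw [← Nat.not_even_iff_odd]
      intro h
      have := h1 2 Nat.prime_two h.two_dvd
      omega
    have h8 : ¬ 3 ∣ C^[k] n := by
      intro h
      have := h1 3 Nat.prime_three h
      omega
    have h9 : 0 < C^[k] n := by omega
    refine ⟨by exact_mod_cast h9, by exact_mod_cast h7, ?_, ?_⟩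
    · show (((C^[k] n : ℕ) : ℤ) % 3 = 1 ∨ ((C^[k] n : ℕ) : ℤ) % 3 = 2) ∧ (r = 0 ∨ ((C^[k] n : ℕ) : ℤ) % 3 = r)
      omega
    · intro p hp hle hdvd
      have e1 := h1 p hp (by exact_mod_cast hdvd)
      have e2 : p ^ u ≤ C^[k] n := by exact_mod_cast hle
      omega
  · rintro ⟨⟨h1, h2, ⟨h3, h4⟩, h5⟩, h6⟩
    refine ⟨?_, by omega, h6⟩
    intro p hp hdvd
    by_contra hcon
    push Not at hcon
    exact h5 p hp (by exact_mod_cast hcon) (by exact_mod_cast hdvd)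

/-- a rough number has few prime factors -/
theorem Rough.card_lt {u m : ℕ} (hu : 1 ≤ u) (hm : 1 ≤ m) (h : Rough u m) :
    ArithmeticFunction.cardFactors m < u := by
  rcases Nat.eq_or_lt_of_le hm with h1 | h1
  · rw [← h1]; simp; omega
  have hp := Nat.minFac_prime (show m ≠ 1 by omega)
  have h2 := h _ hp (Nat.minFac_dvd m)
  have h3 : m.minFac ^ (ArithmeticFunction.cardFactors m) ≤ m := by
    rw [ArithmeticFunction.cardFactors_apply]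
    conv_rhs => rw [← Nat.prod_primeFactorsList (show m ≠ 0 by omega)]
    apply List.pow_card_le_prod
    intro q hq
    exact Nat.minFac_le_of_dvd (Nat.prime_of_mem_primeFactorsList hq).two_le
      (Nat.dvd_of_mem_primeFactorsList hq)
  exact (Nat.pow_lt_pow_iff_right hp.one_lt).1 (h3.trans_lt h2)

theorem lln_col {ε : ℝ} (hε : 0 < ε) : ∃ u₀ : ℕ, 1 ≤ u₀ ∧ ∀ u : ℕ, u₀ ≤ u → ∃ Y₀ ℓ₀ : ℝ,
    4 ≤ Y₀ ∧ (3 : ℝ) ^ u < Y₀ ∧ 1 ≤ ℓ₀ ∧ ∀ r : ℕ, r ≤ 2 → ∀ (Y : ℝ) (N : ℕ), Y₀ ≤ Y →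
      ℓ₀ ≤ Real.log (Real.log N / Real.log Y) →
      (Set.ncard {n : ℕ | 1 ≤ n ∧ n ≤ N ∧ ¬ ∃ v : ℕ, (RoughTimes u r Y n).encard = v ∧
        |(v : ℝ) - kapR u r * Real.log (Real.log N / Real.log Y)|
          ≤ ε * (kapR u r * Real.log (Real.log N / Real.log Y))} : ℝ) ≤ ε * N := by
  classical
  obtain ⟨ε', hε'⟩ : ∃ ε' : ℝ, ε' = min ε 1 := ⟨_, rfl⟩
  have hε'0 : 0 < ε' := by rw [hε']; positivity
  have hε'1 : ε' ≤ 1 := by rw [hε']; exact min_le_right _ _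
  have hε'2 : ε' ≤ ε := by rw [hε']; exact min_le_left _ _
  have key : ∀ r : ℕ, r ≤ 2 → ∃ u₀ : ℕ, 1 ≤ u₀ ∧ ∀ u : ℕ, u₀ ≤ u → ∃ Y₀ ℓ₀ : ℝ,
    4 ≤ Y₀ ∧ (3 : ℝ) ^ u < Y₀ ∧ 1 ≤ ℓ₀ ∧ ∀ (Y : ℝ) (N : ℕ), Y₀ ≤ Y →
      ℓ₀ ≤ Real.log (Real.log N / Real.log Y) →
      (Set.ncard {n : ℕ | 1 ≤ n ∧ n ≤ N ∧ ¬ ∃ v : ℕ, (RoughTimes u r Y n).encard = v ∧
        |(v : ℝ) - kapR u r * Real.log (Real.log N / Real.log Y)|
          ≤ ε * (kapR u r * Real.log (Real.log N / Real.log Y))} : ℝ) ≤ ε * N := by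
    intro r hr
    obtain ⟨u₀, hu₀, h⟩ := lln (R := Rr r) (fun ρ hρ => hρ.1) (sig_pos hr) hε'0 hε'1
    refine ⟨u₀, hu₀, fun u hu => ?_⟩
    obtain ⟨lam₀, ℓ₀, hlam₀, hℓ₀, h⟩ := h u hu
    refine ⟨max (max 4 (3 ^ u + 1)) (Real.exp lam₀), ℓ₀, (le_max_left _ _).trans (le_max_left _ _), ?_, hℓ₀, ?_⟩
    · refine lt_of_lt_of_le ?_ ((le_max_right _ _).trans (le_max_left _ _))
      linarith
    intro Y N hY hℓ
    simp only [max_le_iff] at hY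
    obtain ⟨⟨hY4, hY3⟩, hYl⟩ := hY
    have hY0 : 0 < Y := by linarith
    set ℓ := Real.log (Real.log N / Real.log Y) with hℓdef
    have hlY : 0 < Real.log Y := Real.log_pos (by linarith)
    have hratio : 0 < Real.log N / Real.log Y := by
      by_contra hcon
      push Not at hcon
      have h1 : Real.log N / Real.log Y = 0 := by
        apply le_antisymm hcon
        have : 0 ≤ Real.log N := Real.log_natCast_nonneg N
        positivity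
      rw [hℓdef, h1, Real.log_zero] at hℓ
      linarith
    have hN1 : 1 ≤ N := by
      rcases Nat.eq_zero_or_pos N with h0 | h0
      · rw [h0] at hratio; simp at hratio
      · exact h0
    have hNL : Real.log N = Real.log Y * Real.exp ℓ := by
      rw [hℓdef, Real.exp_log hratio]; field_simp
    have h1 := h (Real.log Y) ((Real.le_log_iff_exp_le hY0).2 hYl) ℓ hℓ N hN1 hNL
    rw [Real.exp_log hY0, kap0_eq hr] at h1
    have hk0 : 0 ≤ kapR u r := by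
      have := kapR_ge (hu₀.trans hu) hr
      have : (0 : ℝ) ≤ u := Nat.cast_nonneg u
      linarith
    have hNR : (0 : ℝ) ≤ N := Nat.cast_nonneg N
    refine le_trans ?_ (h1.trans (mul_le_mul_of_nonneg_right hε'2 hNR))
    have hsub : {n : ℕ | 1 ≤ n ∧ n ≤ N ∧ ¬ ∃ v : ℕ, (RoughTimes u r Y n).encard = v ∧
        |(v : ℝ) - kapR u r * ℓ| ≤ ε * (kapR u r * ℓ)} ⊆
        (((Icc 1 N).filter (fun n : ℕ => ¬ ∃ v : ℕ, (HT (Ru u (Rr r)) Y (n : ℤ)).encard = v ∧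
          |(v : ℝ) - kapR u r * ℓ| ≤ ε' * (kapR u r * ℓ)) : Finset ℕ) : Set ℕ) := by
      intro n hn
      rw [mem_coe, mem_filter, Finset.mem_Icc]
      refine ⟨⟨hn.1, hn.2.1⟩, ?_⟩
      rintro ⟨v, hv, hv2⟩
      apply hn.2.2
      refine ⟨v, ?_, hv2.trans (mul_le_mul_of_nonneg_right hε'2 (mul_nonneg hk0 (by linarith)))⟩
      rw [RoughTimes_eq (by linarith), HC_HT (fun x hx => hx.2.1) (by linarith), hv]
    have h2 := Set.ncard_le_ncard hsub (Finset.finite_toSet _)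
    rw [Set.ncard_coe_finset] at h2
    exact_mod_cast h2
  obtain ⟨a0, ha0, h0⟩ := key 0 (by norm_num)
  obtain ⟨a1, ha1, h1⟩ := key 1 (by norm_num)
  obtain ⟨a2, ha2, h2⟩ := key 2 (by norm_num)
  refine ⟨max a0 (max a1 a2), ha0.trans (le_max_left _ _), fun u hu => ?_⟩
  simp only [max_le_iff] at hu
  obtain ⟨Y0, l0, y0, z0, m0, g0⟩ := h0 u hu.1
  obtain ⟨Y1, l1, y1, z1, m1, g1⟩ := h1 u hu.2.1
  obtain ⟨Y2, l2, y2, z2, m2, g2⟩ := h2 u hu.2.2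
  refine ⟨max Y0 (max Y1 Y2), max l0 (max l1 l2), y0.trans (le_max_left _ _),
    z0.trans_le (le_max_left _ _), m0.trans (le_max_left _ _), ?_⟩
  intro r hr Y N hY hℓ
  simp only [max_le_iff] at hY hℓ
  obtain rfl | rfl | rfl : r = 0 ∨ r = 1 ∨ r = 2 := by omega
  · exact g0 Y N hY.1 hℓ.1
  · exact g1 Y N hY.2.1 hℓ.2.1
  · exact g2 Y N hY.2.2 hℓ.2.2

/-- the terms are distinct -/
theorem distinct' {u r n m : ℕ} {Y : ℝ} (hm : (m : ℕ∞) ≤ (RoughTimes u r Y n).encard)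
    (hlow : ∃ k, ((C^[k] n : ℕ) : ℝ) < Y) : ∃ s : Finset ℕ, s.card = m ∧ ∀ p ∈ s,
      Y ≤ (p : ℝ) ∧ Rough u p ∧ ∃ k, C^[k] n = p := by
  obtain ⟨t, ht, htc⟩ := Set.exists_subset_encard_eq hm
  have hf : t.Finite := Set.finite_of_encard_eq_coe htc
  have hinj : Set.InjOn (fun k => C^[k] n) t := by
    have key : ∀ k ∈ t, ∀ k' ∈ t, k < k' → C^[k] n = C^[k'] n → False := by
      intro k _ k' hk' hkk he
      obtain ⟨i, hi⟩ := hlow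
      have := cycle_ge hkk he (ht hk').2.2 i
      linarith
    intro k hk k' hk' he
    rcases lt_trichotomy k k' with h | h | h
    · exact (key k hk k' hk' h he).elim
    · exact h
    · exact (key k' hk' k hk h he.symm).elim
  refine ⟨hf.toFinset.image (fun k => C^[k] n), ?_, ?_⟩
  · rw [card_image_of_injOn (by rwa [hf.coe_toFinset])]
    rw [hf.encard_eq_coe_toFinset_card] at htc
    exact_mod_cast htc
  · intro p hp
    rw [mem_image] at hp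
    obtain ⟨k, hk, rfl⟩ := hp
    obtain ⟨h1, h2, h3⟩ := ht (hf.mem_toFinset.1 hk)
    exact ⟨h3 k le_rfl, h1, k, rfl⟩

/-- a finite form: all but few `n` have `v` distinct rough terms, `v ≥ (1 - ε) κ ℓ` -/
theorem distinct_lln {ε : ℝ} (hε : 0 < ε) : ∃ B : ℝ, 0 < B ∧ ∃ u₀ : ℕ, 1 ≤ u₀ ∧ ∀ u : ℕ, u₀ ≤ u →
    ∃ Y₀ ℓ₀ : ℝ, 4 ≤ Y₀ ∧ (3 : ℝ) ^ u < Y₀ ∧ 1 ≤ ℓ₀ ∧ ∀ (Y : ℝ) (N : ℕ), Y₀ ≤ Y →
      ℓ₀ ≤ Real.log (Real.log N / Real.log Y) →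
      (Set.ncard {n : ℕ | 1 ≤ n ∧ n ≤ N ∧ ¬ ∃ s : Finset ℕ,
        (1 - ε) * (kapR u 0 * Real.log (Real.log N / Real.log Y)) ≤ s.card ∧
          ∀ m ∈ s, Y ≤ (m : ℝ) ∧ ArithmeticFunction.cardFactors m < u ∧ Rough u m ∧ ∃ k, C^[k] n = m} : ℝ)
        ≤ ε * N + B * N / Real.log (Y / 2) := by
  obtain ⟨B, hB, hstay⟩ := stay_count
  obtain ⟨u₀, hu₀, h⟩ := lln_col hε
  refine ⟨B, hB, u₀, hu₀, fun u hu => ?_⟩
  obtain ⟨Y₀, ℓ₀, hY₀, hY₀', hℓ₀, h⟩ := h u hu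
  refine ⟨Y₀, ℓ₀, hY₀, hY₀', hℓ₀, ?_⟩
  intro Y N hY hℓ
  have h1 := h 0 (by norm_num) Y N hY hℓ
  have hN1 : 1 ≤ N := by
    rcases Nat.eq_zero_or_pos N with h0 | h0
    · rw [h0] at hℓ; simp at hℓ; linarith
    · exact h0
  have h2 := hstay Y N (hY₀.trans hY) hN1
  set ℓ := Real.log (Real.log N / Real.log Y) with hℓdef
  set E := {n : ℕ | 1 ≤ n ∧ n ≤ N ∧ ∀ k, Y ≤ ((C^[k] n : ℕ) : ℝ)} with hE
  set G := {n : ℕ | 1 ≤ n ∧ n ≤ N ∧ ¬ ∃ v : ℕ, (RoughTimes u 0 Y n).encard = v ∧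
        |(v : ℝ) - kapR u 0 * ℓ| ≤ ε * (kapR u 0 * ℓ)} with hG
  have hEfin : E.Finite := (Set.finite_Icc 1 N).subset fun n hn => ⟨hn.1, hn.2.1⟩
  have hGfin : G.Finite := (Set.finite_Icc 1 N).subset fun n hn => ⟨hn.1, hn.2.1⟩
  have hsub : {n : ℕ | 1 ≤ n ∧ n ≤ N ∧ ¬ ∃ s : Finset ℕ,
        (1 - ε) * (kapR u 0 * ℓ) ≤ s.card ∧
          ∀ m ∈ s, Y ≤ (m : ℝ) ∧ ArithmeticFunction.cardFactors m < u ∧ Rough u m ∧ ∃ k, C^[k] n = m}
      ⊆ G ∪ E := by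
    intro n hn
    by_contra hcon
    rw [Set.mem_union, not_or] at hcon
    obtain ⟨hc1, hc2⟩ := hcon
    have e1 : ∃ v : ℕ, (RoughTimes u 0 Y n).encard = v ∧ |(v : ℝ) - kapR u 0 * ℓ| ≤ ε * (kapR u 0 * ℓ) := by
      by_contra h3
      exact hc1 ⟨hn.1, hn.2.1, h3⟩
    have e2 : ∃ k, ((C^[k] n : ℕ) : ℝ) < Y := by
      by_contra h3
      push Not at h3
      exact hc2 ⟨hn.1, hn.2.1, h3⟩
    obtain ⟨v, hv, hv2⟩ := e1
    obtain ⟨s, hs1, hs2⟩ := distinct' (m := v) hv.ge e2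
    apply hn.2.2
    refine ⟨s, ?_, ?_⟩
    · rw [hs1]
      have := (abs_le.1 hv2).1
      linarith
    · intro m hm
      obtain ⟨g1, g2, g3⟩ := hs2 m hm
      have hm1 : 1 ≤ m := by
        have : (0 : ℝ) < m := by linarith
        exact_mod_cast this
      exact ⟨g1, g2.card_lt (hu₀.trans hu) hm1, g2, g3⟩
  have h3 := Set.ncard_le_ncard hsub (hGfin.union hEfin)
  have h4 := Set.ncard_union_le G E
  have h5 : (Set.ncard {n : ℕ | 1 ≤ n ∧ n ≤ N ∧ ¬ ∃ s : Finset ℕ,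
        (1 - ε) * (kapR u 0 * ℓ) ≤ s.card ∧
          ∀ m ∈ s, Y ≤ (m : ℝ) ∧ ArithmeticFunction.cardFactors m < u ∧ Rough u m ∧ ∃ k, C^[k] n = m} : ℝ)
      ≤ (Set.ncard G : ℝ) + (Set.ncard E : ℝ) := by exact_mod_cast h3.trans h4
  linarith

/-- many almost primes on almost every trajectory -/
theorem many_almost {ε : ℝ} (hε : 0 < ε) (M : ℝ) : ∃ u : ℕ, ∀ Y : ℝ, ∃ N₀ : ℕ, ∀ N : ℕ, N₀ ≤ N →
    (Set.ncard {n : ℕ | 1 ≤ n ∧ n ≤ N ∧ ¬ ∃ s : Finset ℕ, M * Real.log (Real.log N) ≤ s.card ∧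
          ∀ m ∈ s, Y ≤ (m : ℝ) ∧ ArithmeticFunction.cardFactors m < u ∧ Rough u m ∧ ∃ k, C^[k] n = m} : ℝ)
        ≤ ε * N := by
  obtain ⟨ε', hε'⟩ : ∃ ε' : ℝ, ε' = min (ε / 2) (1 / 2) := ⟨_, rfl⟩
  have hε'0 : 0 < ε' := by rw [hε']; positivity
  have hε'1 : ε' ≤ 1 / 2 := by rw [hε']; exact min_le_right _ _
  have hε'2 : ε' ≤ ε / 2 := by rw [hε']; exact min_le_left _ _
  obtain ⟨B, hB, u₀, hu₀, h⟩ := distinct_lln hε'0
  obtain ⟨u₁, hu₁⟩ := exists_nat_ge (4 * |M|)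
  obtain ⟨Y₀, ℓ₀, hY₀, hY₀', hℓ₀, h⟩ := h (max u₀ u₁) (le_max_left _ _)
  set u := max u₀ u₁ with hu
  refine ⟨u, fun Y₁ => ?_⟩
  obtain ⟨Y, hY⟩ : ∃ Y : ℝ, Y = max (max Y₁ Y₀) (2 * Real.exp (2 * B / ε)) := ⟨_, rfl⟩
  have hYa : Y₁ ≤ Y := by rw [hY]; exact (le_max_left _ _).trans (le_max_left _ _)
  have hYb : Y₀ ≤ Y := by rw [hY]; exact (le_max_right _ _).trans (le_max_left _ _)
  have hYc : 2 * Real.exp (2 * B / ε) ≤ Y := by rw [hY]; exact le_max_right _ _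
  have hY4 : 4 ≤ Y := hY₀.trans hYb
  have hlY : 2 * B / ε ≤ Real.log (Y / 2) := by
    rw [Real.le_log_iff_exp_le (by linarith)]
    linarith
  obtain ⟨N₀, hN₀⟩ := loglog_ev (max (ℓ₀ + Real.log (Real.log Y)) (2 * Real.log (Real.log Y)))
  refine ⟨N₀ + 1, fun N hN => ?_⟩
  obtain ⟨hN1, hN2⟩ := hN₀ N (by omega)
  obtain ⟨hN2, hN3⟩ := max_le_iff.1 hN2
  obtain ⟨hell, hllY⟩ := ell_eq hY4 hN1
  have hNR : (0 : ℝ) < N := by
    have : 0 < N := by omega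
    exact_mod_cast this
  have hm := h Y N hYb (by rw [hell]; linarith)
  set ℓ := Real.log (Real.log N / Real.log Y) with hℓdef
  have hℓ1 : ℓ₀ ≤ ℓ := by rw [hell]; linarith
  have hℓ0 : 0 < ℓ := by linarith
  have hll : Real.log (Real.log N) ≤ 2 * ℓ := by rw [hell]; linarith
  have hll0 : 0 ≤ Real.log (Real.log N) := by linarith
  have hk : (u : ℝ) ≤ kapR u 0 := kapR_ge (hu₀.trans (le_max_left _ _)) (by norm_num)
  have hu1 : 4 * |M| ≤ u := hu₁.trans (by rw [hu]; exact_mod_cast le_max_right _ _)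
  have hM : M * Real.log (Real.log N) ≤ (1 - ε') * (kapR u 0 * ℓ) := by
    have e1 : M * Real.log (Real.log N) ≤ |M| * (2 * ℓ) :=
      (mul_le_mul_of_nonneg_right (le_abs_self M) hll0).trans
        (mul_le_mul_of_nonneg_left hll (abs_nonneg M))
    have e2 : 0 ≤ |M| := abs_nonneg M
    have e3 : 4 * |M| * ℓ ≤ kapR u 0 * ℓ := mul_le_mul_of_nonneg_right (hu1.trans hk) hℓ0.le
    have e4 : 1 / 2 * (kapR u 0 * ℓ) ≤ (1 - ε') * (kapR u 0 * ℓ) := by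
      apply mul_le_mul_of_nonneg_right (by linarith)
      have : 0 ≤ 4 * |M| * ℓ := by positivity
      linarith
    linarith
  have hfin : {n : ℕ | 1 ≤ n ∧ n ≤ N ∧ ¬ ∃ s : Finset ℕ,
        (1 - ε') * (kapR u 0 * ℓ) ≤ s.card ∧
          ∀ m ∈ s, Y ≤ (m : ℝ) ∧ ArithmeticFunction.cardFactors m < u ∧ Rough u m ∧
            ∃ k, C^[k] n = m}.Finite :=
    (Set.finite_Icc 1 N).subset fun n hn => ⟨hn.1, hn.2.1⟩
  have h2 := Set.ncard_le_ncard (s := {n : ℕ | 1 ≤ n ∧ n ≤ N ∧ ¬ ∃ s : Finset ℕ,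
      M * Real.log (Real.log N) ≤ s.card ∧
          ∀ m ∈ s, Y₁ ≤ (m : ℝ) ∧ ArithmeticFunction.cardFactors m < u ∧ Rough u m ∧
            ∃ k, C^[k] n = m}) (by
    intro n hn
    refine ⟨hn.1, hn.2.1, ?_⟩
    rintro ⟨s, hs1, hs2⟩
    exact hn.2.2 ⟨s, hM.trans hs1, fun m hm => ⟨hYa.trans (hs2 m hm).1, (hs2 m hm).2⟩⟩) hfin
  have h3 : (Set.ncard {n : ℕ | 1 ≤ n ∧ n ≤ N ∧ ¬ ∃ s : Finset ℕ,
      M * Real.log (Real.log N) ≤ s.card ∧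
          ∀ m ∈ s, Y₁ ≤ (m : ℝ) ∧ ArithmeticFunction.cardFactors m < u ∧ Rough u m ∧
            ∃ k, C^[k] n = m} : ℝ)
      ≤ (Set.ncard {n : ℕ | 1 ≤ n ∧ n ≤ N ∧ ¬ ∃ s : Finset ℕ,
        (1 - ε') * (kapR u 0 * ℓ) ≤ s.card ∧
          ∀ m ∈ s, Y ≤ (m : ℝ) ∧ ArithmeticFunction.cardFactors m < u ∧ Rough u m ∧
            ∃ k, C^[k] n = m} : ℝ) := by exact_mod_cast h2
  have h4 : B * N / Real.log (Y / 2) ≤ ε / 2 * N := by
    have e0 : 0 < 2 * B / ε := by positivity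
    rw [div_le_iff₀ (by linarith)]
    rw [div_le_iff₀ hε] at hlY
    have : B * N ≤ (Real.log (Y / 2) * ε / 2) * N := mul_le_mul_of_nonneg_right (by linarith) hNR.le
    linarith
  have h5 : ε' * N ≤ ε / 2 * N := mul_le_mul_of_nonneg_right hε'2 hNR.le
  linarith

/-- large almost primes on almost every trajectory -/
theorem large_almost {ε : ℝ} (hε : 0 < ε) (M : ℝ) : ∃ u : ℕ, ∃ c : ℝ, 0 < c ∧ ∃ N₀ : ℕ,
    ∀ N : ℕ, N₀ ≤ N →
    (Set.ncard {n : ℕ | 1 ≤ n ∧ n ≤ N ∧ ¬ ∃ s : Finset ℕ, M ≤ s.card ∧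
          ∀ m ∈ s, (N : ℝ) ^ c ≤ (m : ℝ) ∧ ArithmeticFunction.cardFactors m < u ∧ Rough u m ∧
            ∃ k, C^[k] n = m} : ℝ)
        ≤ ε * N := by
  obtain ⟨ε', hε'⟩ : ∃ ε' : ℝ, ε' = min (ε / 2) (1 / 2) := ⟨_, rfl⟩
  have hε'0 : 0 < ε' := by rw [hε']; positivity
  have hε'1 : ε' ≤ 1 / 2 := by rw [hε']; exact min_le_right _ _
  have hε'2 : ε' ≤ ε / 2 := by rw [hε']; exact min_le_left _ _
  obtain ⟨B, hB, u, hu, h⟩ := distinct_lln hε'0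
  obtain ⟨Y₀, ℓ₀, hY₀, hY₀', hℓ₀, h⟩ := h u le_rfl
  have hk : (u : ℝ) ≤ kapR u 0 := kapR_ge hu (by norm_num)
  have hu1 : (1 : ℝ) ≤ u := by exact_mod_cast hu
  set ℓ := max ℓ₀ (2 * |M|) with hℓ
  have hℓ1 : ℓ₀ ≤ ℓ := le_max_left _ _
  have hℓ2 : 2 * |M| ≤ ℓ := le_max_right _ _
  set c := Real.exp (-ℓ) with hc
  have hc0 : 0 < c := Real.exp_pos _
  have h1 : Tendsto (fun N : ℕ => Real.log (N : ℝ)) atTop atTop :=
    Real.tendsto_log_atTop.comp tendsto_natCast_atTop_atTop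
  obtain ⟨N₀, hN₀⟩ := eventually_atTop.1 (h1.eventually_ge_atTop
    (max 1 (max (Real.log Y₀ / c) ((Real.log 2 + 2 * B / ε) / c))))
  refine ⟨u, c, hc0, N₀ + 1, fun N hN => ?_⟩
  have hN2 := hN₀ N (by omega)
  simp only [max_le_iff] at hN2
  obtain ⟨hN1, hN2, hN3⟩ := hN2
  have hNR : (0 : ℝ) < N := by
    have : 0 < N := by omega
    exact_mod_cast this
  rw [div_le_iff₀ hc0] at hN2 hN3
  set Y := (N : ℝ) ^ c with hY
  have hY0 : 0 < Y := by positivity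
  have hlY : Real.log Y = Real.log N * c := by rw [hY, Real.log_rpow hNR]; ring
  have hYb : Y₀ ≤ Y := by
    rw [← Real.log_le_log_iff (by linarith) hY0, hlY]; exact hN2
  have hell : Real.log (Real.log N / Real.log Y) = ℓ := by
    rw [hlY]
    have : Real.log N / (Real.log N * c) = Real.exp ℓ := by
      rw [hc, Real.exp_neg]
      have := Real.exp_pos ℓ
      field_simp
    rw [this, Real.log_exp]
  have hm := h Y N hYb (by rw [hell]; exact hℓ1)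
  rw [hell] at hm
  have hM : M ≤ (1 - ε') * (kapR u 0 * ℓ) := by
    have e1 : 0 ≤ |M| := abs_nonneg M
    have e0 : 0 < ℓ := by linarith
    have e2 : ℓ ≤ kapR u 0 * ℓ := le_mul_of_one_le_left e0.le (by linarith)
    have e3 : 1 / 2 * (kapR u 0 * ℓ) ≤ (1 - ε') * (kapR u 0 * ℓ) :=
      mul_le_mul_of_nonneg_right (by linarith) (by linarith)
    have e4 := le_abs_self M
    linarith
  have hfin : {n : ℕ | 1 ≤ n ∧ n ≤ N ∧ ¬ ∃ s : Finset ℕ,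
        (1 - ε') * (kapR u 0 * ℓ) ≤ s.card ∧
          ∀ m ∈ s, Y ≤ (m : ℝ) ∧ ArithmeticFunction.cardFactors m < u ∧ Rough u m ∧
            ∃ k, C^[k] n = m}.Finite :=
    (Set.finite_Icc 1 N).subset fun n hn => ⟨hn.1, hn.2.1⟩
  have h2 := Set.ncard_le_ncard (s := {n : ℕ | 1 ≤ n ∧ n ≤ N ∧ ¬ ∃ s : Finset ℕ,
      M ≤ s.card ∧
          ∀ m ∈ s, Y ≤ (m : ℝ) ∧ ArithmeticFunction.cardFactors m < u ∧ Rough u m ∧
            ∃ k, C^[k] n = m}) (by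
    intro n hn
    refine ⟨hn.1, hn.2.1, ?_⟩
    rintro ⟨s, hs1, hs2⟩
    exact hn.2.2 ⟨s, hM.trans hs1, hs2⟩) hfin
  have h3 : (Set.ncard {n : ℕ | 1 ≤ n ∧ n ≤ N ∧ ¬ ∃ s : Finset ℕ,
      M ≤ s.card ∧
          ∀ m ∈ s, Y ≤ (m : ℝ) ∧ ArithmeticFunction.cardFactors m < u ∧ Rough u m ∧
            ∃ k, C^[k] n = m} : ℝ)
      ≤ (Set.ncard {n : ℕ | 1 ≤ n ∧ n ≤ N ∧ ¬ ∃ s : Finset ℕ,
        (1 - ε') * (kapR u 0 * ℓ) ≤ s.card ∧
          ∀ m ∈ s, Y ≤ (m : ℝ) ∧ ArithmeticFunction.cardFactors m < u ∧ Rough u m ∧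
            ∃ k, C^[k] n = m} : ℝ) := by exact_mod_cast h2
  have h4 : B * N / Real.log (Y / 2) ≤ ε / 2 * N := by
    have e0 : 0 < 2 * B / ε := by positivity
    have e1 : Real.log (Y / 2) = Real.log Y - Real.log 2 := Real.log_div hY0.ne' (by norm_num)
    have e2 : 2 * B / ε ≤ Real.log (Y / 2) := by rw [e1, hlY]; linarith
    rw [div_le_iff₀ (by linarith)]
    rw [div_le_iff₀ hε] at e2
    have : B * N ≤ (Real.log (Y / 2) * ε / 2) * N := mul_le_mul_of_nonneg_right (by linarith) hNR.le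
    linarith
  have h5 : ε' * N ≤ ε / 2 * N := mul_le_mul_of_nonneg_right hε'2 hNR.le
  linarith

end Pool.Agent.H998_RN
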