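import Pool.Agent.W41.Core2

/-! Rough numbers on trajectories, part 1: comparison of a function that is invariant along the first
`k` steps, along sifted progressions, with its mean. Adapted from `Pool.Agent.W41.Core2`. -/

set_option autoImplicit false

namespace Pool.Agent.H998_RN

open Finset Pool.Agent.H499R2.CO Pool.Agent.W41

/-- one shift -/
theorem shift_err : ∃ K y0 : ℕ, 1 ≤ K ∧ 2 ≤ y0 ∧ ∀ y : ℕ, y0 ≤ y → ∀ k T : ℕ, 2 ^ k * y ^ K ≤ T →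
    ∀ P : Finset ℕ, (∀ p ∈ P, p.Prime ∧ p ≤ y) → ∀ A B : ℤ, (∀ p ∈ P, ¬ (p : ℤ) ∣ B) →
    ∀ x0 R : ℤ, 0 ≤ R → R % 2 = 1 → ∀ lo : ℤ,
    ∀ f : ℤ → ℝ, (∀ x, 0 ≤ f x) → (∀ x, f x ≤ 1) →
    (∀ x x' : ℤ, lo ≤ x → lo ≤ x' → ∀ j ≤ k, (Tz 1)^[j] x = (Tz 1)^[j] x' → f x = f x') → ∀ h : ℤ,
    lo ≤ x0 → lo ≤ x0 - h →
    |∑ t ∈ Icc 1 T, wt P A B (t : ℕ) * f (x0 + R * (t : ℕ)) -
      ∑ t ∈ Icc 1 T, wt P A B (t : ℕ) * f (x0 + R * (t : ℕ) - h)| ≤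
      8 * T * V P * q step (0, 0) k (0, -(1 * h)) := by
  classical
  obtain ⟨K, y0, hK, hy0, H⟩ := surv_sum
  refine ⟨K, y0, hK, hy0, fun y hy k T hT P hP A B hB x0 R hR0 hR lo f hf0 hf1 hf h hlo1 hlo2 => ?_⟩
  have hd : (1 : ℤ) % 2 = 1 := by norm_num
  refine le_trans ?_ (H y hy k T hT P hP A B hB 1 hd x0 R hR (0, -(1 * h)))
  rw [← sum_sub_distrib]
  refine (abs_sum_le_sum_abs _ _).trans (sum_le_sum fun t _ => ?_)
  rw [← mul_sub, abs_mul, abs_of_nonneg (wt_nonneg _ _ _ _)]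
  apply mul_le_mul_of_nonneg_left _ (wt_nonneg _ _ _ _)
  have hRt : 0 ≤ R * ((t : ℕ) : ℤ) := mul_nonneg hR0 (Nat.cast_nonneg _)
  split_ifs with hs
  · rw [abs_le]
    have a1 := hf0 (x0 + R * (t : ℕ)); have a2 := hf1 (x0 + R * (t : ℕ))
    have a3 := hf0 (x0 + R * (t : ℕ) - h); have a4 := hf1 (x0 + R * (t : ℕ) - h)
    constructor <;> linarith
  · obtain ⟨j, hjk, hj⟩ := coal hd k 0 (-(1 * h)) _ hs
    have e : (3 : ℤ) ^ 0 * (x0 + R * (t : ℕ)) + 1 * (-(1 * h)) = x0 + R * (t : ℕ) - h := by ring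
    rw [e] at hj
    rw [hf _ _ (by linarith) (by linarith) j hjk hj, sub_self, abs_zero]

/-- THE COMPARISON. -/
theorem core {ε : ℝ} (hε : 0 < ε) (hε1 : ε ≤ 1) : ∃ (K y0 k0 : ℕ) (θ : ℝ), 1 ≤ K ∧ 2 ≤ y0 ∧ 0 < θ ∧
    ∀ y : ℕ, y0 ≤ y → ∀ k : ℕ, k0 ≤ k → ∀ T : ℕ, 2 ^ k * y ^ K ≤ T →
    ∀ P : Finset ℕ, (∀ p ∈ P, p.Prime ∧ p ≤ y) → ∀ A B : ℤ, (∀ p ∈ P, ¬ (p : ℤ) ∣ B) →
    ∀ x0 : ℤ, ∀ R : ℕ, R % 2 = 1 →
    ∀ h0 : ℕ, y ^ K ≤ h0 → (R * h0 : ℝ) ≤ (2 : ℝ) ^ (θ * k) → ∀ lo : ℤ, lo + R * h0 ≤ x0 →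
    ∀ f : ℤ → ℝ, (∀ x, 0 ≤ f x) → (∀ x, f x ≤ 1) →
    (∀ x x' : ℤ, lo ≤ x → lo ≤ x' → ∀ j ≤ k, (Tz 1)^[j] x = (Tz 1)^[j] x' → f x = f x') →
    |∑ t ∈ Icc 1 T, wt P A B (t : ℕ) * f (x0 + R * (t : ℕ)) -
      V P / R * ∑ m ∈ Ioc x0 (x0 + R * T), f m| ≤ ε * (T * V P) + h0 := by
  obtain ⟨K1, y1, hK1, hy1, H1⟩ := shift_err
  obtain ⟨K2, y2, hK2, hy2, H2⟩ := window (show 0 < ε / 2 by positivity)
  obtain ⟨θ, hθ, k0, hq⟩ := q_quant (show 0 < ε / 16 by positivity) (by linarith)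
  refine ⟨max K1 K2, max y1 y2, k0, θ, le_trans hK1 (le_max_left _ _), le_trans hy1 (le_max_left _ _), hθ, ?_⟩
  intro y hy k hk T hT P hP A B hB x0 R hR h0 hh0 hRh lo hlo f hf0 hf1 hf
  have hy1' : y1 ≤ y := le_trans (le_max_left _ _) hy
  have hy2' : y2 ≤ y := le_trans (le_max_right _ _) hy
  have hyp : 1 ≤ y := by omega
  have hT1 : 2 ^ k * y ^ K1 ≤ T := le_trans (Nat.mul_le_mul_left _ (Nat.pow_le_pow_right hyp (le_max_left _ _))) hT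
  have hh2 : y ^ K2 ≤ h0 := le_trans (Nat.pow_le_pow_right hyp (le_max_right _ _)) hh0
  have hPp : ∀ p ∈ P, p.Prime := fun p hp => (hP p hp).1
  have hV0 := V_pos hPp
  have hR0 : 0 < R := by omega
  have hRR : (0 : ℝ) < R := by exact_mod_cast hR0
  have hh00 : 0 < h0 := lt_of_lt_of_le (Nat.pos_of_ne_zero (pow_ne_zero _ (by omega))) hh2
  have hhR : (0 : ℝ) < h0 := by exact_mod_cast hh00
  have hT0 : (0 : ℝ) ≤ T := Nat.cast_nonneg _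
  have hRodd : ((R : ℕ) : ℤ) % 2 = 1 := by omega
  set S : ℝ := ∑ t ∈ Icc 1 T, wt P A B (t : ℕ) * f (x0 + R * (t : ℕ)) with hS
  -- each shift
  have s1 : ∀ g ∈ range h0, ∀ r ∈ range R,
      |S - ∑ t ∈ Icc 1 T, wt P A B ((t : ℕ) + (g : ℕ)) * f (x0 + R * (t : ℕ) - r)| ≤ ε / 2 * (T * V P) + h0 := by
    intro g hg r hr
    rw [mem_range] at hg hr
    have hsh : (R : ℤ) * g + r ≤ R * h0 := by
      have h1 : (g : ℤ) + 1 ≤ h0 := by exact_mod_cast hg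
      have h2 : (r : ℤ) ≤ R := by exact_mod_cast hr.le
      have h3 : (R : ℤ) * (g + 1) ≤ R * h0 := mul_le_mul_of_nonneg_left h1 (Nat.cast_nonneg _)
      linarith
    have hsh0 : (0 : ℤ) ≤ R * h0 := by positivity
    have a1 := H1 y hy1' k T hT1 P hP A B hB x0 R (Nat.cast_nonneg _) hRodd lo f hf0 hf1 hf (R * g + r)
      (by linarith) (by linarith)
    have a2 : q step (0, 0) k (0, -(1 * ((R : ℤ) * g + r))) ≤ ε / 16 := by
      apply hq k hk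
      have e1 : |((-(1 * ((R : ℤ) * g + r)) : ℤ) : ℝ)| = R * g + r := by
        push_cast
        rw [abs_neg, one_mul, abs_of_nonneg (by positivity)]
      rw [e1]
      refine le_trans ?_ hRh
      have h3 : (g : ℝ) + 1 ≤ h0 := by exact_mod_cast hg
      have h4 : (r : ℝ) ≤ R := by exact_mod_cast hr.le
      nlinarith
    have a3 : 8 * T * V P * q step (0, 0) k (0, -(1 * ((R : ℤ) * g + r))) ≤ ε / 2 * (T * V P) := by
      have : 0 ≤ 8 * T * V P := by positivity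
      calc _ ≤ 8 * T * V P * (ε / 16) := mul_le_mul_of_nonneg_left a2 this
        _ = _ := by ring
    have a4 := trans_err (fun t => wt P A B t * f (x0 + R * t - (R * g + r)))
      (fun t => mul_nonneg (wt_nonneg _ _ _ _) (hf0 _))
      (fun t => mul_le_one₀ (wt_le_one _ _ _ _) (hf0 _) (hf1 _)) T g
    have a5 : ∑ t ∈ Icc 1 T, wt P A B ((t : ℕ) + (g : ℕ)) * f (x0 + R * ((t : ℕ) + (g : ℕ)) - (R * g + r)) =
        ∑ t ∈ Icc 1 T, wt P A B ((t : ℕ) + (g : ℕ)) * f (x0 + R * (t : ℕ) - r) := by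
      apply sum_congr rfl
      intro t _
      congr 2
      ring
    rw [a5] at a4
    have a6 : (g : ℝ) ≤ h0 := by exact_mod_cast hg.le
    have := abs_sub_le S (∑ t ∈ Icc 1 T, wt P A B (t : ℕ) * f (x0 + R * (t : ℕ) - (R * g + r)))
      (∑ t ∈ Icc 1 T, wt P A B ((t : ℕ) + (g : ℕ)) * f (x0 + R * (t : ℕ) - r))
    linarith
  -- the mean over the shifts
  have s2 : |S * (h0 * R) - ∑ g ∈ range h0, ∑ r ∈ range R,
      ∑ t ∈ Icc 1 T, wt P A B ((t : ℕ) + (g : ℕ)) * f (x0 + R * (t : ℕ) - r)| ≤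
      (ε / 2 * (T * V P) + h0) * (h0 * R) := by
    have e : S * (h0 * R) = ∑ g ∈ range h0, ∑ r ∈ range R, S := by
      simp only [sum_const, card_range, nsmul_eq_mul]; ring
    rw [e, ← sum_sub_distrib]
    refine (abs_sum_le_sum_abs _ _).trans ?_
    calc _ ≤ ∑ g ∈ range h0, ∑ r ∈ range R, (ε / 2 * (T * V P) + h0) := by
          apply sum_le_sum
          intro g hg
          rw [← sum_sub_distrib]
          exact (abs_sum_le_sum_abs _ _).trans (sum_le_sum fun r hr => s1 g hg r hr)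
      _ = _ := by simp only [sum_const, card_range, nsmul_eq_mul]; ring
  -- swap
  have s3 : ∑ g ∈ range h0, ∑ r ∈ range R,
      ∑ t ∈ Icc 1 T, wt P A B ((t : ℕ) + (g : ℕ)) * f (x0 + R * (t : ℕ) - r) =
      ∑ t ∈ Icc 1 T, (∑ g ∈ range h0, wt P A B ((t : ℕ) + (g : ℕ))) * ∑ r ∈ range R, f (x0 + R * (t : ℕ) - r) := by
    have e : ∀ g ∈ range h0, ∑ r ∈ range R,
      ∑ t ∈ Icc 1 T, wt P A B ((t : ℕ) + (g : ℕ)) * f (x0 + R * (t : ℕ) - r) =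
      ∑ t ∈ Icc 1 T, wt P A B ((t : ℕ) + (g : ℕ)) * ∑ r ∈ range R, f (x0 + R * (t : ℕ) - r) := by
      intro g _
      rw [sum_comm]
      exact sum_congr rfl fun t _ => (mul_sum _ _ _).symm
    rw [sum_congr rfl e, sum_comm]
    exact sum_congr rfl fun t _ => (sum_mul _ _ _).symm
  have s4 : |∑ t ∈ Icc 1 T, (∑ g ∈ range h0, wt P A B ((t : ℕ) + (g : ℕ))) * ∑ r ∈ range R, f (x0 + R * (t : ℕ) - r) -
      (h0 * V P) * ∑ m ∈ Ioc x0 (x0 + R * T), f m| ≤ T * (ε / 2 * (h0 * V P) * R) := by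
    rw [← tile, mul_sum, ← sum_sub_distrib]
    refine (abs_sum_le_sum_abs _ _).trans ?_
    calc _ ≤ ∑ t ∈ Icc 1 T, (ε / 2 * (h0 * V P) * R) := by
          apply sum_le_sum
          intro t _
          rw [← sub_mul, abs_mul]
          have b1 := H2 y hy2' h0 hh2 P hP A B hB t
          have b2 : |∑ r ∈ range R, f (x0 + R * (t : ℕ) - r)| ≤ R := by
            rw [abs_of_nonneg (sum_nonneg fun _ _ => hf0 _)]
            calc _ ≤ ∑ r ∈ range R, (1 : ℝ) := sum_le_sum fun _ _ => hf1 _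
              _ = R := by simp
          exact mul_le_mul b1 b2 (abs_nonneg _) (by positivity)
      _ = _ := by rw [sum_const, nsmul_eq_mul, Nat.card_Icc, Nat.add_sub_cancel]
  rw [s3] at s2
  have s5 : |S * (h0 * R) - (h0 * V P) * ∑ m ∈ Ioc x0 (x0 + R * T), f m| ≤
      (ε * (T * V P) + h0) * (h0 * R) := by
    have := abs_sub_le (S * (h0 * R)) (∑ t ∈ Icc 1 T, (∑ g ∈ range h0, wt P A B ((t : ℕ) + (g : ℕ))) *
      ∑ r ∈ range R, f (x0 + R * (t : ℕ) - r)) ((h0 * V P) * ∑ m ∈ Ioc x0 (x0 + R * T), f m)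
    calc _ ≤ _ := this
      _ ≤ (ε / 2 * (T * V P) + h0) * (h0 * R) + T * (ε / 2 * (h0 * V P) * R) := add_le_add s2 s4
      _ = _ := by ring
  have hM : (0 : ℝ) < h0 * R := by positivity
  have e : S - V P / R * ∑ m ∈ Ioc x0 (x0 + R * T), f m =
      (S * (h0 * R) - (h0 * V P) * ∑ m ∈ Ioc x0 (x0 + R * T), f m) / (h0 * R) := by
    field_simp
  rw [e, abs_div, abs_of_pos hM, div_le_iff₀ hM]
  exact s5

end Pool.Agent.H998_RN
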