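import Pool.Agent.H998_RN.Cnt
import Pool.Agent.H998_PL.Top

/-! Rough numbers on trajectories, part 14: the top block. -/

set_option autoImplicit false

namespace Pool.Agent.H998_RN

open Finset Filter Topology
open Pool.Agent.H320R2.PD Pool.Agent.H499R2.ND
open Pool.Agent.H998_PL Pool.Agent.H998_BC

theorem reg_of {P R : Set ℤ} {G X₁ : ℝ} (hP : Rg P R G X₁) : ∃ X₀ : ℝ, Real.exp 100 ≤ X₀ ∧
    Regular {m : ℕ | (m : ℤ) ∈ P} (1 / 2) X₀ (fun X => G * (1 / Real.log X)) := by
  classical
  refine ⟨X₁, hP.X1, ?_⟩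
  intro X hX j v hj
  have hX100 : Real.exp 100 ≤ X := hP.X1.trans hX
  have hX0 : 0 < X := lt_of_lt_of_le (Real.exp_pos _) hX100
  set L := Real.log X with hL
  have hL100 : 100 ≤ L := by
    rw [hL, ← Real.log_exp 100]; exact Real.log_le_log (Real.exp_pos _) hX100
  have hLexp : Real.exp L = X := Real.exp_log hX0
  have hL0 : 0 < L := by linarith
  have hjL : (j : ℝ) ≤ Real.sqrt L := by rw [Real.sqrt_eq_rpow]; exact hj
  have hsX : Real.sqrt X = Real.exp (L / 2) := by
    rw [← hLexp, Real.sqrt_eq_rpow, ← Real.exp_mul]; congr 1; ring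
  have h3j : (3 : ℝ) ^ j ≤ Real.sqrt X := by
    have e2 : (3 : ℝ) ^ j = Real.exp (j * Real.log 3) := by
      rw [Real.exp_nat_mul, Real.exp_log (by norm_num)]
    rw [e2, hsX]
    apply Real.exp_le_exp.2
    have h3 := log3_le'
    have e5 : Real.sqrt L ≤ L / 10 := by
      rw [Real.sqrt_le_left (by positivity)]
      nlinarith
    have e7 : (j : ℝ) * Real.log 3 ≤ L / 10 * 1.11 :=
      mul_le_mul (hjL.trans e5) h3 (Real.log_nonneg (by norm_num)) (by positivity)
    linarith
  have h1 := hP.bt X hX j h3j 1 v isCoprime_one_left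
  have h2 : (Set.ncard {a : ℕ | a ∈ {m : ℕ | (m : ℤ) ∈ P} ∧ X ≤ (a : ℝ) ∧ (a : ℝ) < 2 * X ∧
      a % 3 ^ j = v} : ℝ) ≤ ((cls P X (2 * X) j 1 v).card : ℝ) := by
    rw [← Set.ncard_coe_finset]
    have : Set.ncard {a : ℕ | a ∈ {m : ℕ | (m : ℤ) ∈ P} ∧ X ≤ (a : ℝ) ∧ (a : ℝ) < 2 * X ∧
      a % 3 ^ j = v} ≤ Set.ncard ((cls P X (2 * X) j 1 v : Finset ℤ) : Set ℤ) := by
      apply Set.ncard_le_ncard_of_injOn (fun a : ℕ => (a : ℤ))
      · rintro a ⟨g1, g2, g3, g4⟩
        show (a : ℤ) ∈ cls P X (2 * X) j 1 v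
        rw [mem_cls]
        refine ⟨⟨by exact_mod_cast g2, by exact_mod_cast g3⟩, hP.odd _ g1, g1, ?_⟩
        rw [one_mul]
        apply Int.dvd_of_emod_eq_zero
        apply Int.emod_eq_emod_iff_emod_sub_eq_zero.1
        have : ((a % 3 ^ j : ℕ) : ℤ) = (v : ℤ) := by exact_mod_cast g4
        push_cast at this
        rw [← g4]
        push_cast
        rw [Int.emod_emod_of_dvd _ dvd_rfl]
      · intro a _ b _ hab
        have h' : (a : ℤ) = (b : ℤ) := hab
        exact_mod_cast h'
    exact_mod_cast this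
  refine h2.trans (h1.trans (le_of_eq ?_))
  have hlx : 0 < Real.log X := by rw [← hL]; exact hL0
  show G * (X / (3 ^ j * Real.log X)) = G * (1 / Real.log X) * (X / 3 ^ j)
  field_simp

/-- few visits -/
theorem quant_reg {S : Set ℕ} {K X₀ : ℝ} (hK : 0 < K) (hX₀ : Real.exp 100 ≤ X₀)
    (hR : Regular S (1 / 2) X₀ (fun X => K * (1 / Real.log X))) :
    ∃ K : ℝ, 0 < K ∧ ∀ (Y : ℝ) (N Q : ℕ), 2 ≤ Y → Y ≤ N → 1 ≤ Q →
    (Set.ncard {n : ℕ | 1 ≤ n ∧ n ≤ N ∧ Visits S Y Q n} : ℝ)
      ≤ K * N * ((1 + Real.log (Real.log N / Real.log Y)) / Q + 1 / Real.log Y) := by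
  have hX₀2 : (101 : ℝ) ≤ X₀ := by linarith [Real.add_one_le_exp (100 : ℝ)]
  have hl0 : ∀ X, X₀ ≤ X → 0 < Real.log X := fun X hX => Real.log_pos (by linarith)
  obtain ⟨K', Y₀, hK', hY₀, h⟩ := quant_gen (g := fun X => 1 / Real.log X) hK (by linarith)
    (fun x hx y hy hxy => one_div_le_one_div_of_le (hl0 x hx)
      (Real.log_le_log (by linarith [Set.mem_Ici.1 hx]) hxy))
    (fun X hX => by have := hl0 X hX; positivity)
    (by
      have : (fun X : ℝ => 1 / Real.log X) = fun X : ℝ => (Real.log X)⁻¹ := by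
        funext X; rw [one_div]
      rw [this]
      exact tendsto_inv_atTop_zero.comp Real.tendsto_log_atTop) hR 1
  refine ⟨max (4 * K') (Real.log Y₀), by positivity, ?_⟩
  intro Y N Q hY hYN hQ
  have hlog : 0 < Real.log Y := Real.log_pos (by linarith)
  have hN0 : (0 : ℝ) ≤ N := Nat.cast_nonneg N
  have hQ0 : (0 : ℝ) < Q := by exact_mod_cast hQ
  have hlogN : Real.log Y ≤ Real.log N := Real.log_le_log (by linarith) hYN
  have hrat : 0 ≤ Real.log (Real.log N / Real.log Y) := by
    apply Real.log_nonneg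
    rw [le_div_iff₀ hlog]; linarith
  rcases le_or_gt Y₀ Y with hc | hc
  · obtain ⟨I, hI1, hI2⟩ := exists_scale (by linarith) hYN
    have h1 := h Y hc Q hQ N I hI1
    refine h1.trans ?_
    rw [pow_one]
    set a := Real.log Y with ha
    set c := Real.log 2 with hcdef
    have hc0 : 0 < c := Real.log_pos (by norm_num)
    have hca : 2 * c ≤ a := by
      have e1 : Real.log 4 ≤ a := Real.log_le_log (by norm_num) (by linarith)
      have e2 : Real.log 4 = 2 * c := by
        rw [hcdef, show (4 : ℝ) = 2 ^ 2 by norm_num, Real.log_pow]; norm_num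
      linarith
    have hsum : ∑ i ∈ range I, 1 / Real.log (Y * 2 ^ i) ≤ 2 * (Real.log (Real.log N / a) + 1) := by
      have e1 : ∀ i ∈ range I, 1 / Real.log (Y * 2 ^ i) = (fun x => 1 / x) (a + i * c) := fun i _ => by
        rw [log_scale (by linarith)]
      rw [sum_congr rfl e1]
      have ht := tele_sum (f := fun x => -(Real.log x / c)) (g := fun x => 1 / x) (a := a) (c := c)
        (fun i => by
          have hx : c < a + i * c := by
            have : 0 ≤ (i : ℝ) * c := by positivity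
            linarith
          have hd := log_diff hc0.le hx
          have hx0 : 0 < a + i * c := by linarith
          have e2 : 1 / (a + i * c) = (c / (a + i * c)) / c := by field_simp
          rw [e2]
          have e3 : -(Real.log (a + i * c - c) / c) - -(Real.log (a + i * c) / c)
              = (Real.log (a + i * c) - Real.log (a + i * c - c)) / c := by ring
          rw [e3]
          exact div_le_div_of_nonneg_right hd hc0.le) I
      refine ht.trans ?_
      have e4 : Real.log (a + I * c - c) ≤ Real.log (Real.log N) := by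
        rcases Nat.eq_zero_or_pos I with rfl | hI
        · exfalso
          rw [pow_zero, mul_one] at hI1
          linarith
        · apply Real.log_le_log _ hI2
          have : (1 : ℝ) ≤ I := by exact_mod_cast hI
          nlinarith
      have e5 : Real.log a - 1 ≤ Real.log (a - c) := by
        have : Real.log (a / 2) ≤ Real.log (a - c) := Real.log_le_log (by linarith) (by linarith)
        rw [Real.log_div (by linarith) (by norm_num)] at this
        have := Real.log_two_lt_d9
        linarith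
      have e6 : Real.log (Real.log N / a) = Real.log (Real.log N) - Real.log a := by
        rw [Real.log_div (by linarith) (by linarith)]
      have e7 : -(Real.log (a - c) / c) - -(Real.log (a + I * c - c) / c)
          = (Real.log (a + I * c - c) - Real.log (a - c)) / c := by ring
      rw [e7, div_le_iff₀ hc0, e6]
      have hc2 : 1 / 2 ≤ c := by have := Real.log_two_gt_d9; linarith
      rw [e6] at hrat
      nlinarith
    have h2 : (∑ i ∈ range I, 1 / Real.log (Y * 2 ^ i)) / Q ≤ 2 * ((1 + Real.log (Real.log N / a)) / Q) := by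
      rw [← mul_div_assoc]
      apply div_le_div_of_nonneg_right _ hQ0.le
      linarith
    have h3 : 0 ≤ (1 + Real.log (Real.log N / a)) / Q := by positivity
    calc K' * N * ((∑ i ∈ range I, 1 / Real.log (Y * 2 ^ i)) / Q + 1 / a)
        ≤ K' * N * (4 * ((1 + Real.log (Real.log N / a)) / Q + 1 / a)) := by
          apply mul_le_mul_of_nonneg_left _ (by positivity)
          have : 0 < 1 / a := by positivity
          linarith
      _ = 4 * K' * N * ((1 + Real.log (Real.log N / a)) / Q + 1 / a) := by ring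
      _ ≤ _ := by
          apply mul_le_mul_of_nonneg_right _ (by positivity)
          exact mul_le_mul_of_nonneg_right (le_max_left _ _) hN0
  · refine (trivial_bound _ N).trans ?_
    have h1 : Real.log Y ≤ Real.log Y₀ := Real.log_le_log (by linarith) hc.le
    calc (N : ℝ) = Real.log Y * N * (1 / Real.log Y) := by field_simp
      _ ≤ max (4 * K') (Real.log Y₀) * N * (1 / Real.log Y) := by
          apply mul_le_mul_of_nonneg_right _ (by positivity)
          exact mul_le_mul_of_nonneg_right (h1.trans (le_max_right _ _)) hN0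
      _ ≤ _ := by
          apply mul_le_mul_of_nonneg_left _ (by positivity)
          have : 0 ≤ (1 + Real.log (Real.log N / Real.log Y)) / Q := by positivity
          linarith

theorem HC_visits' {P : Set ℤ} {z : ℝ} {j n : ℕ}
    (h : (j : ℕ∞) ≤ (HC {m : ℕ | (m : ℤ) ∈ P} z n).encard) : Visits {m : ℕ | (m : ℤ) ∈ P} z j n := by
  obtain ⟨t, ht, htc⟩ := Set.exists_subset_encard_eq h
  have hf : t.Finite := Set.finite_of_encard_eq_coe htc
  refine ⟨hf.toFinset, ?_, ?_⟩
  · rw [hf.encard_eq_coe_toFinset_card] at htc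
    exact_mod_cast htc
  · intro k hk
    exact ht (hf.mem_toFinset.1 hk)

theorem top_bound' {P R : Set ℤ} {G X₁ : ℝ} (hP : Rg P R G X₁) : ∃ K : ℝ, 0 < K ∧ ∀ (z : ℝ) (N Q : ℕ),
    2 ≤ z → z ≤ N → 1 ≤ Q →
    ∑ n ∈ Icc 1 N, tr Q (HT P z (n : ℤ)).encard
      ≤ K * N * ((1 + Real.log (Real.log N / Real.log z)) * (1 + Real.log Q) + Q / Real.log z) := by
  classical
  obtain ⟨X₀, hX₀, hreg⟩ := reg_of hP
  obtain ⟨K, hK, h⟩ := quant_reg (by linarith [hP.G1]) hX₀ hreg
  refine ⟨K, hK, ?_⟩
  intro z N Q hz hzN hQ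
  simp_rw [← HC_HT hP.odd (show (1 : ℝ) ≤ z by linarith), tr_eq]
  rw [sum_comm]
  have h1 : ∀ j ∈ Icc 1 Q, ∑ n ∈ Icc 1 N,
      (if (j : ℕ∞) ≤ (HC {m : ℕ | (m : ℤ) ∈ P} z n).encard then (1 : ℝ) else 0)
      ≤ K * N * ((1 + Real.log (Real.log N / Real.log z)) / j + 1 / Real.log z) := by
    intro j hj
    rw [Finset.mem_Icc] at hj
    refine le_trans ?_ (h z N j hz hzN hj.1)
    rw [← sum_filter, sum_const, nsmul_eq_mul, mul_one]
    rw [← Set.ncard_coe_finset]
    have hfin : {n : ℕ | 1 ≤ n ∧ n ≤ N ∧ Visits {m : ℕ | (m : ℤ) ∈ P} z j n}.Finite :=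
      (Set.finite_Icc 1 N).subset fun n hn => ⟨hn.1, hn.2.1⟩
    have h2 := Set.ncard_le_ncard (s := ((Icc 1 N).filter
      (fun n => (j : ℕ∞) ≤ (HC {m : ℕ | (m : ℤ) ∈ P} z n).encard) : Set ℕ)) (by
      intro n hn
      rw [mem_coe, mem_filter, Finset.mem_Icc] at hn
      exact ⟨hn.1.1, hn.1.2, HC_visits' hn.2⟩) hfin
    exact_mod_cast h2
  refine (sum_le_sum h1).trans ?_
  rw [← mul_sum]
  apply mul_le_mul_of_nonneg_left _ (by positivity)
  rw [sum_add_distrib, sum_const, nsmul_eq_mul, Nat.card_Icc, Nat.add_sub_cancel]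
  have hlz : 0 < Real.log z := Real.log_pos (by linarith)
  have h2 : 0 ≤ 1 + Real.log (Real.log N / Real.log z) := by
    have : 0 ≤ Real.log (Real.log N / Real.log z) := by
      apply Real.log_nonneg
      rw [le_div_iff₀ hlz, one_mul]
      exact Real.log_le_log (by linarith) hzN
    linarith
  have h3 : ∑ j ∈ Icc 1 Q, (1 + Real.log (Real.log N / Real.log z)) / (j : ℝ)
      = (1 + Real.log (Real.log N / Real.log z)) * ∑ j ∈ Icc 1 Q, 1 / (j : ℝ) := by
    rw [mul_sum]
    apply sum_congr rfl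
    intro j _
    ring
  rw [h3]
  have h4 := mul_le_mul_of_nonneg_left (harm_le Q) h2
  have h5 : (Q : ℝ) * (1 / Real.log z) = Q / Real.log z := by ring
  linarith

end Pool.Agent.H998_RN
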