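import Pool.Agent.H998_RN.Sec
import Pool.Agent.H998_RN.Top
import Pool.Agent.H998_PL.Last2

/-! Rough numbers on trajectories, part 17: the law of large numbers. -/

set_option autoImplicit false

namespace Pool.Agent.H998_RN

open Finset Filter Topology
open Pool.Agent.H320R2.PD Pool.Agent.H499R2.ND
open Pool.Agent.H499R2.CO (Tz)
open Pool.Agent.R344.TH Pool.Agent.H998_PL

/-- the excess -/
noncomputable def Dn (P : Set ℤ) (δ L : ℝ) (I Q : ℕ) (n : ℕ) : ℝ :=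
  tr Q (HT P (Real.exp (ls L δ 1)) (n : ℤ)).encard
    + ∑ i ∈ range I, ∑ j ∈ Icc 2 Q, ind (Sh P (Real.exp (ls L δ (1 + i) / (1 + δ)))
      (Real.exp (ls L δ (1 + i))) j) (n : ℤ)

theorem tr_ind {P : Set ℤ} {y z : ℝ} {Q : ℕ} (hQ : 1 ≤ Q) (x : ℤ) :
    tr Q (BB P y z x).encard = ind (Sh P y z 1) x + ∑ j ∈ Icc 2 Q, ind (Sh P y z j) x := by
  classical
  have h1 : tr Q (BB P y z x).encard = ∑ j ∈ Icc 1 Q, ind (Sh P y z j) x := by
    rw [tr_eq]
    apply sum_congr rfl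
    intro j _
    unfold ind
    simp only [mem_Sh]
  have h2 : Icc 1 Q = insert 1 (Icc 2 Q) := by
    ext j; simp only [mem_insert, Finset.mem_Icc]; omega
  rw [h1, h2, sum_insert (by simp)]

variable {P : Set ℤ} {δ x τ l₀ K₂ K L lam ℓ : ℝ} {I N Q : ℕ}

theorem HT_eq (hL : 0 ≤ L) (hδ : 0 < δ) (J : ℕ) (n : ℕ) :
    (HT P (Real.exp (ls L δ (1 + J))) (n : ℤ)).encard
        = (HT P (Real.exp (ls L δ 1)) (n : ℤ)).encard
          + ∑ i ∈ range J, (BB P (Real.exp (ls L δ (1 + i) / (1 + δ)))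
            (Real.exp (ls L δ (1 + i))) (n : ℤ)).encard := by
  have hz : Antitone (fun i => Real.exp (ls L δ i)) := fun a b hab =>
    Real.exp_le_exp.2 (ls_anti hL hδ hab)
  refine (HT_blocks P hz (n : ℤ) 1 J).trans ?_
  congr 1
  apply sum_congr rfl
  intro i _
  rw [ls_succ]

theorem HT_mono {Y Y' : ℝ} (h : Y ≤ Y') (n : ℕ) : (HT P Y' (n : ℤ)).encard ≤ (HT P Y (n : ℤ)).encard := by
  apply Set.encard_le_encard
  intro k hk
  exact ⟨hk.1, fun j hj => h.trans (hk.2 j hj)⟩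

/-- pointwise upper bound -/
theorem pt_up (hL : 0 ≤ L) (hδ : 0 < δ) {Y : ℝ} (hY : Real.exp (ls L δ (1 + I)) ≤ Y) (hQ : 1 ≤ Q) (n : ℕ) :
    tr Q (HT P Y (n : ℤ)).encard ≤ Dn P δ L I Q n + Bn P δ L I n := by
  have h2 := HT_mono (P := P) hY n
  rw [HT_eq hL hδ] at h2
  refine (tr_mono Q h2).trans ((tr_sum Q _ _ I).trans ?_)
  have h3 : ∑ i ∈ range I, tr Q (BB P (Real.exp (ls L δ (1 + i) / (1 + δ)))
            (Real.exp (ls L δ (1 + i))) (n : ℤ)).encard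
      = Bn P δ L I n + ∑ i ∈ range I, ∑ j ∈ Icc 2 Q, ind (Sh P (Real.exp (ls L δ (1 + i) / (1 + δ)))
      (Real.exp (ls L δ (1 + i))) j) (n : ℤ) := by
    unfold Bn BS
    rw [← sum_add_distrib]
    exact sum_congr rfl fun i _ => tr_ind hQ _
  rw [h3]
  unfold Dn
  linarith

/-- pointwise lower bound -/
theorem pt_lo (hL : 0 ≤ L) (hδ : 0 < δ) {J : ℕ} {Y : ℝ} (hY : Y ≤ Real.exp (ls L δ (1 + J))) (n : ℕ) :
    ∃ m : ℕ, (m : ℝ) = Bn P δ L J n ∧ (m : ℕ∞) ≤ (HT P Y (n : ℤ)).encard := by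
  classical
  set F := (range J).filter (fun i => (n : ℤ) ∈ Sh P (Real.exp (ls L δ (1 + i) / (1 + δ)))
    (Real.exp (ls L δ (1 + i))) 1) with hF
  refine ⟨F.card, ?_, ?_⟩
  · unfold Bn BS ind
    rw [hF, card_filter]; push_cast
    exact sum_congr rfl fun i _ => by congr
  · have h2 := HT_mono (P := P) hY n
    rw [HT_eq hL hδ] at h2
    refine le_trans ?_ (le_trans le_add_self h2)
    have h4 : (F.card : ℕ∞) = ∑ i ∈ range J, (if (n : ℤ) ∈ Sh P (Real.exp (ls L δ (1 + i) / (1 + δ)))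
        (Real.exp (ls L δ (1 + i))) 1 then (1 : ℕ∞) else 0) := by
      rw [hF, card_filter]; push_cast; rfl
    rw [h4]
    apply sum_le_sum
    intro i _
    split_ifs with h5
    · rw [mem_Sh] at h5
      exact_mod_cast h5
    · exact zero_le

theorem many_sum (hB : Bl P δ x τ l₀ K₂) (hn : Num δ L lam ℓ I) (hl : l₀ ≤ lam)
    (hN : (N : ℝ) = Real.exp L) {i : ℕ} (hi : i < I) :
    ∑ n ∈ Icc 1 N, ∑ j ∈ Icc 2 Q, ind (Sh P (Real.exp (ls L δ (1 + i) / (1 + δ)))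
      (Real.exp (ls L δ (1 + i))) j) (n : ℤ)
      ≤ τ * x * (N + 1) + Q * K₂ * (N + 1) * (1 / ls L δ (1 + i) ^ 2) + Q * (N * er δ L) := by
  have h1 := hn.ls_ge' hi
  have h2 := exp_part hn hN i
  have hx0 := hB.x0
  have hτ0 := hB.τ0
  have hK0 := hB.K0
  have hL : 0 ≤ L := by have := hn.ell_le; have := hn.hℓ; linarith
  have her : 0 ≤ er δ L := by unfold er; positivity
  set l := ls L δ (1 + i) with hld
  have hl1 : 1 ≤ l := by linarith [hn.hlam]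
  rw [sum_comm]
  have h3 : ∀ j ∈ Icc 2 Q, ∑ n ∈ Icc 1 N, ind (Sh P (Real.exp (l / (1 + δ))) (Real.exp l) j) (n : ℤ)
      ≤ τ * x * (N + 1) * (1 / ((j : ℝ) * (j - 1))) + (K₂ * (N + 1) * (1 / l ^ 2) + N * er δ L) := by
    intro j hj
    rw [Finset.mem_Icc] at hj
    have hjR : (2 : ℝ) ≤ j := by exact_mod_cast hj.1
    have hjj : (0 : ℝ) < (j : ℝ) * j - j := by nlinarith
    have h4 := cnt_up (S := Sh P (Real.exp (l / (1 + δ))) (Real.exp l) j)
      (fun e m hm => Sh_even hB.odd e m hm) (ρ := τ * x / ((j : ℝ) * j - j) + K₂ / l ^ 2)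
      (z := Real.exp l) (by positivity) (Real.one_le_exp (by linarith))
      (fun A hA => hB.many l (hl.trans h1) A hA j hj.1) N
    have e1 : (τ * x / ((j : ℝ) * j - j) + K₂ / l ^ 2) * ((N : ℝ) + 1)
        = τ * x * (N + 1) * (1 / ((j : ℝ) * (j - 1))) + K₂ * (N + 1) * (1 / l ^ 2) := by
      rw [show (j : ℝ) * j - j = j * (j - 1) by ring]; ring
    rw [e1] at h4
    unfold er
    linarith
  refine (sum_le_sum h3).trans ?_
  rw [sum_add_distrib, ← mul_sum, sum_const, nsmul_eq_mul]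
  have h4 := H998_BC.sum_tele (Icc 2 Q) (fun n hn => (Finset.mem_Icc.1 hn).1)
  have h5 := mul_le_mul_of_nonneg_left h4 (show 0 ≤ τ * x * ((N : ℝ) + 1) by positivity)
  have h6 : (((Icc 2 Q).card : ℕ) : ℝ) ≤ Q := by
    rw [Nat.card_Icc]
    have : Q + 1 - 2 ≤ Q := by omega
    exact_mod_cast this
  have h7 : 0 ≤ K₂ * ((N : ℝ) + 1) * (1 / l ^ 2) + N * er δ L := by positivity
  have h8 := mul_le_mul_of_nonneg_right h6 h7
  have e2 : (Q : ℝ) * (K₂ * (N + 1) * (1 / l ^ 2) + N * er δ L)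
      = Q * K₂ * (N + 1) * (1 / l ^ 2) + Q * (N * er δ L) := by ring
  linarith

/-- the mean of the excess -/
theorem dn_sum (hB : Bl P δ x τ l₀ K₂) (hn : Num δ L lam ℓ I) (hl : l₀ ≤ lam)
    (hN : (N : ℝ) = Real.exp L) (hK : 0 < K) (hQ : 1 ≤ Q)
    (htop : ∀ z : ℝ, 2 ≤ z → z ≤ N → ∑ n ∈ Icc 1 N, tr Q (HT P z (n : ℤ)).encard
      ≤ K * N * ((1 + Real.log (Real.log N / Real.log z)) * (1 + Real.log Q) + Q / Real.log z))
    (c4 : K * (2 * (1 + Real.log Q) + 2 * Q / L) ≤ τ * (x * I))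
    (c5 : 4 * Q * K₂ / (δ * lam ^ 2) ≤ τ * (x * I)) (c6 : Q * er δ L ≤ τ * x) :
    ∑ n ∈ Icc 1 N, Dn P δ L I Q n ≤ 5 * τ * N * (x * I) := by
  have hx0 := hB.x0
  have hτ0 := hB.τ0
  have hK0 := hB.K0
  have hδ := hn.hδ
  have hδ1 := hn.hδ1
  have hlam := hn.hlam
  have hL1 : 1 ≤ L := by have := hn.ell_le; have := hn.hℓ; linarith
  have hN1 : (1 : ℝ) ≤ N := by rw [hN]; exact Real.one_le_exp (by linarith)
  have hQR : (1 : ℝ) ≤ Q := by exact_mod_cast hQ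
  have hl1 : ls L δ 1 = L / (1 + δ) := by unfold ls; rw [pow_one]
  have hlI := hn.ls_ge' (i := 0) hn.I_pos
  rw [add_zero] at hlI
  -- the top
  have t1 : ∑ n ∈ Icc 1 N, tr Q (HT P (Real.exp (ls L δ 1)) (n : ℤ)).encard ≤ N * (τ * (x * I)) := by
    have h2 := htop (Real.exp (ls L δ 1)) (by
      have := Real.add_one_le_exp (ls L δ 1)
      linarith) (by
      rw [hN]; apply Real.exp_le_exp.2
      rw [hl1]; exact div_le_self (by linarith) (by linarith))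
    rw [Real.log_exp, hN, Real.log_exp, ← hN] at h2
    refine h2.trans ?_
    have h3 : L / ls L δ 1 = 1 + δ := by rw [hl1]; field_simp
    rw [h3]
    have h4 := log_one_add_le hδ
    have h4' : 0 ≤ Real.log (1 + δ) := hn.lpos.le
    have h6 : 0 ≤ Real.log Q := Real.log_nonneg hQR
    have h7 : (Q : ℝ) / ls L δ 1 ≤ 2 * Q / L := by
      rw [hl1, div_div_eq_mul_div]
      apply div_le_div_of_nonneg_right _ (by linarith)
      nlinarith
    have h8 : (1 + Real.log (1 + δ)) * (1 + Real.log Q) ≤ 2 * (1 + Real.log Q) := by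
      nlinarith
    calc K * N * ((1 + Real.log (1 + δ)) * (1 + Real.log Q) + Q / ls L δ 1)
        ≤ K * N * (2 * (1 + Real.log Q) + 2 * Q / L) :=
          mul_le_mul_of_nonneg_left (add_le_add h8 h7) (by positivity)
      _ = N * (K * (2 * (1 + Real.log Q) + 2 * Q / L)) := by ring
      _ ≤ _ := mul_le_mul_of_nonneg_left c4 (by linarith)
  -- the blocks
  have t2 : ∑ n ∈ Icc 1 N, ∑ i ∈ range I, ∑ j ∈ Icc 2 Q, ind (Sh P (Real.exp (ls L δ (1 + i) / (1 + δ)))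
      (Real.exp (ls L δ (1 + i))) j) (n : ℤ)
      ≤ I * (τ * x * (N + 1)) + Q * K₂ * (N + 1) * ∑ i ∈ range I, 1 / ls L δ (1 + i) ^ 2
        + I * (Q * (N * er δ L)) := by
    rw [sum_comm]
    refine (sum_le_sum fun i hi => many_sum (Q := Q) hB hn hl hN (mem_range.1 hi)).trans (le_of_eq ?_)
    rw [sum_add_distrib, sum_add_distrib, sum_const, sum_const, card_range, nsmul_eq_mul,
      nsmul_eq_mul, ← mul_sum]
  have t3 : Q * K₂ * ((N : ℝ) + 1) * ∑ i ∈ range I, 1 / ls L δ (1 + i) ^ 2 ≤ N * (τ * (x * I)) := by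
    have e1 := hn.inv_sum
    calc Q * K₂ * ((N : ℝ) + 1) * ∑ i ∈ range I, 1 / ls L δ (1 + i) ^ 2
        ≤ Q * K₂ * (2 * N) * (2 / (δ * lam ^ 2)) := by
          apply mul_le_mul _ e1 (sum_nonneg fun i _ => by positivity) (by positivity)
          apply mul_le_mul_of_nonneg_left _ (by positivity)
          linarith
      _ = N * (4 * Q * K₂ / (δ * lam ^ 2)) := by ring
      _ ≤ _ := mul_le_mul_of_nonneg_left c5 (by linarith)
  have t4 : I * (τ * x * ((N : ℝ) + 1)) ≤ 2 * (N * (τ * (x * I))) := by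
    have : 0 ≤ (I : ℝ) * (τ * x) := by positivity
    nlinarith
  have t5 : (I : ℝ) * (Q * (N * er δ L)) ≤ N * (τ * (x * I)) := by
    have h0 : 0 ≤ (I : ℝ) * N := by positivity
    have := mul_le_mul_of_nonneg_left c6 h0
    nlinarith
  unfold Dn
  rw [sum_add_distrib]
  linarith

open scoped Classical in
/-- Chebyshev's inequality -/
theorem cheb {N : ℕ} {f : ℕ → ℝ} {μ b S : ℝ} (hb : 0 ≤ b) (h : ∑ n ∈ Icc 1 N, (f n - μ) ^ 2 ≤ S) :
    b ^ 2 * (((Icc 1 N).filter (fun n => ¬ |f n - μ| ≤ b)).card : ℝ) ≤ S := by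
  refine le_trans ?_ h
  calc b ^ 2 * (((Icc 1 N).filter (fun n => ¬ |f n - μ| ≤ b)).card : ℝ)
      = ∑ n ∈ (Icc 1 N).filter (fun n => ¬ |f n - μ| ≤ b), b ^ 2 := by rw [sum_const, nsmul_eq_mul]; ring
    _ ≤ ∑ n ∈ (Icc 1 N).filter (fun n => ¬ |f n - μ| ≤ b), (f n - μ) ^ 2 := by
        apply sum_le_sum
        intro n hn
        have h1 := (not_le.1 (mem_filter.1 hn).2).le
        rw [← sq_abs (f n - μ)]
        exact pow_le_pow_left₀ hb h1 2
    _ ≤ ∑ n ∈ Icc 1 N, (f n - μ) ^ 2 :=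
        sum_le_sum_of_subset_of_nonneg (filter_subset _ _) fun n hn _ => sq_nonneg _

open scoped Classical in
/-- the exceptional set -/
theorem exc {a : ℝ} (hB : Bl P δ x τ l₀ K₂) (hn : Num δ L lam ℓ I) (hl : l₀ ≤ lam)
    (hN : (N : ℝ) = Real.exp L) (hK : 0 < K)
    (htop : ∀ z : ℝ, 2 ≤ z → z ≤ N → ∑ n ∈ Icc 1 N, tr Q (HT P z (n : ℤ)).encard
      ≤ K * N * ((1 + Real.log (Real.log N / Real.log z)) * (1 + Real.log Q) + Q / Real.log z))
    {W : ℕ} (hW : 6 ≤ (1 + δ) ^ W) (c1 : 16 ≤ τ * x * N)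
    (c2 : 8 * er δ L ≤ τ * x ^ 2) (c3 : 32 * W ≤ τ * x * I)
    (c4 : K * (2 * (1 + Real.log Q) + 2 * Q / L) ≤ τ * (x * I))
    (c5 : 4 * Q * K₂ / (δ * lam ^ 2) ≤ τ * (x * I)) (c6 : Q * er δ L ≤ τ * x)
    (ha : 0 < a) (ha1 : a ≤ 1) (hQ : (1 + 2 * a) * (x * I) < Q) :
    a ^ 2 * (((Icc 1 N).filter (fun n : ℕ => ¬ ∃ v : ℕ, (HT P (Real.exp lam) (n : ℤ)).encard = v ∧
      (1 - a) * (x * I) - 1 ≤ v ∧ (v : ℝ) ≤ (1 + 2 * a) * (x * I))).card : ℝ) ≤ 9 * τ * N := by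
  have hx0 := hB.x0
  have hτ0 := hB.τ0
  have hL1 : 1 ≤ L := by have := hn.ell_le; have := hn.hℓ; linarith
  have hIp := hn.I_pos
  have hI : (1 : ℝ) ≤ I := by exact_mod_cast hIp
  have hμ : 0 < x * I := by positivity
  have hQ1 : 1 ≤ Q := by
    have : (0 : ℝ) < Q := lt_of_le_of_lt (by positivity) hQ
    have : 0 < Q := by exact_mod_cast this
    omega
  have h1 := cheb (μ := x * I) (b := a * (x * I)) (by positivity) (var_up hB hn hl hN hW c1 c2 c3)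
  have h2 := markov_up (b := a * (x * I)) (t := fun n => Dn P δ L I Q n) (fun n _ => by
    unfold Dn
    have := tr_nonneg Q (HT P (Real.exp (ls L δ 1)) (n : ℤ)).encard
    have : 0 ≤ ∑ i ∈ range I, ∑ j ∈ Icc 2 Q, ind (Sh P (Real.exp (ls L δ (1 + i) / (1 + δ)))
      (Real.exp (ls L δ (1 + i))) j) (n : ℤ) := sum_nonneg fun i _ => sum_nonneg fun j _ => ind_nonneg _ _
    linarith) (dn_sum hB hn hl hN hK hQ1 htop c4 c5 c6)
  set c₁ := (((Icc 1 N).filter (fun n => ¬ |Bn P δ L I n - x * I| ≤ a * (x * I))).card : ℝ) with hc₁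
  set c₂ := (((Icc 1 N).filter (fun n => ¬ Dn P δ L I Q n ≤ a * (x * I))).card : ℝ) with hc₂
  have hsub : (Icc 1 N).filter (fun n : ℕ => ¬ ∃ v : ℕ, (HT P (Real.exp lam) (n : ℤ)).encard = v ∧
      (1 - a) * (x * I) - 1 ≤ v ∧ (v : ℝ) ≤ (1 + 2 * a) * (x * I))
      ⊆ (Icc 1 N).filter (fun n => ¬ |Bn P δ L I n - x * I| ≤ a * (x * I))
        ∪ (Icc 1 N).filter (fun n => ¬ Dn P δ L I Q n ≤ a * (x * I)) := by
    intro n hn'
    rw [mem_filter] at hn'
    rw [mem_union, mem_filter, mem_filter]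
    by_contra hcon
    push Not at hcon
    have g1 : |Bn P δ L I n - x * I| ≤ a * (x * I) := hcon.1 hn'.1
    have g2 : Dn P δ L I Q n ≤ a * (x * I) := hcon.2 hn'.1
    apply hn'.2
    rw [abs_le] at g1
    have g3 := pt_up (P := P) (by linarith) hn.hδ (Real.exp_le_exp.2 hn.ls_last) hQ1 n
    have g4 := le_floor_of_tr (g3.trans (show _ ≤ (1 + 2 * a) * (x * I) by linarith [g1.2])) hQ
    obtain ⟨J, rfl⟩ : ∃ J, I = J + 1 := ⟨I - 1, by omega⟩
    obtain ⟨m, hm1, hm2⟩ := pt_lo (P := P) (L := L) (by linarith) hn.hδ (J := J)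
      (Real.exp_le_exp.2 (hn.ls_ge' (by omega))) n
    have g5 : Bn P δ L (J + 1) n ≤ m + 1 := by
      rw [hm1]; unfold Bn; rw [sum_range_succ]
      have := ind_le (BS P δ (ls L δ (1 + J))) (n : ℤ)
      linarith
    have g6 : (HT P (Real.exp lam) (n : ℤ)).encard ≠ ⊤ := by
      intro htp
      rw [htp] at g4
      exact absurd g4 (not_le.2 (ENat.coe_lt_top _))
    obtain ⟨v, hv⟩ := ENat.ne_top_iff_exists.1 g6
    refine ⟨v, hv.symm, ?_, ?_⟩
    · rw [← hv] at hm2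
      have g7 : (m : ℝ) ≤ v := by
        have : m ≤ v := by exact_mod_cast hm2
        exact_mod_cast this
      linarith [g1.1]
    · rw [← hv] at g4
      have g7 : v ≤ ⌊(1 + 2 * a) * (x * ((J + 1 : ℕ) : ℝ))⌋₊ := by exact_mod_cast g4
      exact (Nat.le_floor_iff (by positivity)).1 g7
  have h3 : (((Icc 1 N).filter (fun n : ℕ => ¬ ∃ v : ℕ, (HT P (Real.exp lam) (n : ℤ)).encard = v ∧
      (1 - a) * (x * I) - 1 ≤ v ∧ (v : ℝ) ≤ (1 + 2 * a) * (x * I))).card : ℝ) ≤ c₁ + c₂ := by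
    have := (card_le_card hsub).trans (card_union_le _ _)
    rw [hc₁, hc₂]
    exact_mod_cast this
  have hc20 : 0 ≤ c₂ := Nat.cast_nonneg _
  have h4 : a ^ 2 * c₁ ≤ 4 * τ * N := by
    have e1 : (a * (x * I)) ^ 2 * c₁ = (a ^ 2 * c₁) * (x * I) ^ 2 := by ring
    rw [e1] at h1
    exact le_of_mul_le_mul_right h1 (by positivity)
  have h5 : a * c₂ ≤ 5 * τ * N := by
    have e1 : a * (x * I) * c₂ = (a * c₂) * (x * I) := by ring
    rw [e1] at h2
    exact le_of_mul_le_mul_right h2 hμ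
  have h6 : a ^ 2 * c₂ ≤ a * c₂ := by
    have : a ^ 2 ≤ a := by nlinarith
    exact mul_le_mul_of_nonneg_right this hc20
  have h7 := mul_le_mul_of_nonneg_left h3 (sq_nonneg a)
  linarith

end Pool.Agent.H998_RN
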