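import Pool.Agent.H998_RN.Fin

/-! Rough numbers on trajectories, part 18: the law of large numbers, main form. -/

set_option autoImplicit false

namespace Pool.Agent.H998_RN

open Finset Filter Topology
open Pool.Agent.H320R2.PD Pool.Agent.H499R2.ND
open Pool.Agent.H499R2.CO (Tz)
open Pool.Agent.R344.TH Pool.Agent.H998_PL

/-- the conditions hold eventually -/
theorem ev_all {δ x τ K K₂ : ℝ} (hδ : 0 < δ) (hδ1 : δ ≤ 1 / 50) (hx0 : 0 < x) (hx1 : x ≤ 1 / 4)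
    (hτ0 : 0 < τ) (hK : 0 < K) (hK₂ : 0 < K₂) (W : ℕ) (B : ℝ) :
    ∃ lam₀ ℓ₀ : ℝ, 1 ≤ lam₀ ∧ 1 ≤ ℓ₀ ∧ ∀ lam : ℝ, lam₀ ≤ lam → ∀ ℓ : ℝ, ℓ₀ ≤ ℓ →
      ∀ (L : ℝ) (I N : ℕ), Num δ L lam ℓ I → (N : ℝ) = Real.exp L →
        B ≤ x * I ∧ B ≤ ℓ ∧ 16 ≤ τ * x * N ∧ 8 * er δ L ≤ τ * x ^ 2 ∧ 32 * W ≤ τ * x * I ∧
        ∀ Q : ℕ, 3 * (x * I) ≤ Q → (Q : ℝ) ≤ 4 * (x * I) →
          K * (2 * (1 + Real.log Q) + 2 * Q / L) ≤ τ * (x * I) ∧
          4 * Q * K₂ / (δ * lam ^ 2) ≤ τ * (x * I) ∧ Q * er δ L ≤ τ * x := by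
  have e2 : Tendsto (fun L : ℝ => δ / 2 * L) atTop atTop := tendsto_id.const_mul_atTop (by positivity)
  -- 8 er ≤ τ x^2
  have h1 : ∀ᶠ L : ℝ in atTop, 8 * er δ L ≤ τ * x ^ 2 := by
    have e1 := (Real.tendsto_pow_mul_exp_neg_atTop_nhds_zero 1).comp e2
    have e3 := e1.const_mul (48 / δ)
    rw [mul_zero] at e3
    filter_upwards [e3.eventually_le_const (show (0 : ℝ) < τ * x ^ 2 by positivity)] with L hL
    refine le_trans (le_of_eq ?_) hL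
    simp only [Function.comp, pow_one]
    unfold er
    rw [show δ / 2 * L = δ * L / 2 by ring]
    field_simp
    ring
  -- 6 L^2/δ * exp ≤ τ x
  have h2 : ∀ᶠ L : ℝ in atTop, 2 * L / δ * er δ L ≤ τ * x := by
    have e1 := (Real.tendsto_pow_mul_exp_neg_atTop_nhds_zero 2).comp e2
    have e3 := e1.const_mul (24 / δ ^ 3)
    rw [mul_zero] at e3
    filter_upwards [e3.eventually_le_const (show (0 : ℝ) < τ * x by positivity)] with L hL
    refine le_trans (le_of_eq ?_) hL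
    simp only [Function.comp]
    unfold er
    rw [show δ / 2 * L = δ * L / 2 by ring]
    field_simp
    ring
  have h3 : ∀ᶠ y : ℝ in atTop, 2 * K * (1 + Real.log y) ≤ τ / 8 * y := by
    have e1 := Real.isLittleO_log_id_atTop.def (show 0 < τ / (32 * K) by positivity)
    filter_upwards [e1, eventually_ge_atTop (max 1 (32 * K / τ))] with y hy hy1
    have hy2 : 1 ≤ y := (le_max_left _ _).trans hy1
    have hy3 : 32 * K / τ ≤ y := (le_max_right _ _).trans hy1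
    rw [id, Real.norm_eq_abs, Real.norm_eq_abs, abs_of_nonneg (by linarith : (0 : ℝ) ≤ y)] at hy
    have hy4 := (le_abs_self _).trans hy
    rw [div_le_iff₀ hτ0] at hy3
    have hy5 := mul_le_mul_of_nonneg_left hy4 (show 0 ≤ 2 * K by positivity)
    have e4 : 2 * K * (τ / (32 * K) * y) = τ / 16 * y := by field_simp; ring
    rw [e4] at hy5
    linarith
  obtain ⟨L₁, hL₁⟩ := eventually_atTop.1 h1
  obtain ⟨L₂, hL₂⟩ := eventually_atTop.1 h2
  obtain ⟨y₁, hy₁⟩ := eventually_atTop.1 h3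
  refine ⟨max 1 (16 * K₂ / (δ * τ)), max (max (max 1 L₁) (max L₂ (16 / (τ * x))))
    (max (max (32 * W / (τ * x) + 1) (y₁ / (3 * x) + 1)) (max (16 * K / τ) (max (B / x + 1) B))),
    le_max_left _ _, ?_, ?_⟩
  · exact (le_max_left _ _).trans ((le_max_left _ _).trans (le_max_left _ _))
  intro lam hlam ℓ hℓ L I N hn hN
  simp only [max_le_iff] at hℓ hlam
  obtain ⟨⟨⟨hℓ1, hℓL⟩, hℓL2, hℓc⟩, ⟨hℓW, hℓy⟩, hℓK, hℓB, hℓB'⟩ := hℓ
  obtain ⟨hlam1, hlam2⟩ := hlam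
  have hℓL' : ℓ ≤ L := by have := hn.ell_le; linarith
  have hL1 : 1 ≤ L := by linarith
  have hI1 : ℓ - 1 ≤ I := by
    have := hn.I_ge
    have : (I : ℝ) * δ ≤ I * 1 := mul_le_mul_of_nonneg_left (by linarith) (Nat.cast_nonneg I)
    linarith
  have hI2 : (I : ℝ) * δ ≤ 2 * L := by
    have := hn.I_le
    nlinarith
  have hIp : (1 : ℝ) ≤ I := by exact_mod_cast hn.I_pos
  have hLN : L ≤ N := by rw [hN]; linarith [Real.add_one_le_exp L]
  refine ⟨?_, hℓB', ?_, hL₁ L (by linarith), ?_, ?_⟩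
  · have : B / x ≤ I := by linarith
    rw [div_le_iff₀ hx0] at this
    linarith
  · have : 16 / (τ * x) ≤ N := by linarith
    rw [div_le_iff₀ (by positivity)] at this
    linarith
  · have : 32 * W / (τ * x) ≤ I := by linarith
    rw [div_le_iff₀ (by positivity)] at this
    linarith
  intro Q hQ1 hQ2
  have hμ : 0 < x * I := by positivity
  have hQ0 : (0 : ℝ) < Q := by linarith
  refine ⟨?_, ?_, ?_⟩
  · have g1 : y₁ ≤ Q := by
      have : y₁ / (3 * x) ≤ I := by linarith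
      rw [div_le_iff₀ (by positivity)] at this
      linarith
    have g2 := hy₁ Q g1
    have g3 : K * (2 * Q / L) ≤ τ / 2 * (x * I) := by
      have g4 : 16 * K ≤ τ * L := by
        have : 16 * K / τ ≤ L := by linarith
        rw [div_le_iff₀ hτ0] at this
        linarith
      rw [mul_div_assoc', div_le_iff₀ (by linarith)]
      have g5 : K * (2 * Q) ≤ 8 * K * (x * I) := by
        have := mul_le_mul_of_nonneg_left hQ2 (show 0 ≤ 2 * K by positivity)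
        linarith
      have g6 := mul_le_mul_of_nonneg_right g4 hμ.le
      linarith
    have g4 : τ / 8 * Q ≤ τ / 2 * (x * I) := by
      have := mul_le_mul_of_nonneg_left hQ2 (show 0 ≤ τ / 8 by positivity)
      linarith
    linarith
  · have g1 : 16 * K₂ ≤ lam * (δ * τ) := by rwa [div_le_iff₀ (by positivity)] at hlam2
    have g2 : 16 * K₂ ≤ δ * lam ^ 2 * τ := by
      have g3 : lam * (δ * τ) ≤ lam ^ 2 * (δ * τ) :=
        mul_le_mul_of_nonneg_right (by nlinarith) (by positivity)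
      linarith
    rw [div_le_iff₀ (by positivity)]
    have g3 := mul_le_mul_of_nonneg_right hQ2 (show 0 ≤ 4 * K₂ by positivity)
    have g4 := mul_le_mul_of_nonneg_right g2 hμ.le
    nlinarith
  · have g1 : (Q : ℝ) ≤ 2 * L / δ := by
      rw [le_div_iff₀ hδ]
      have : (Q : ℝ) ≤ I := by
        have : 4 * (x * I) ≤ 1 * I := by
          rw [← mul_assoc]
          exact mul_le_mul_of_nonneg_right (by linarith) (by linarith)
        linarith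
      have := mul_le_mul_of_nonneg_right this hδ.le
      linarith
    have g2 : 0 ≤ er δ L := by unfold er; positivity
    exact (mul_le_mul_of_nonneg_right g1 g2).trans (hL₂ L (by linarith))

open scoped Classical in
/-- THE LAW OF LARGE NUMBERS -/
theorem lln {R : Set ℤ} (hR : ∀ r ∈ R, r = 1 ∨ r = 2) (hσ : 0 < sig R) {ε : ℝ} (hε : 0 < ε) (hε1 : ε ≤ 1) :
    ∃ u₀ : ℕ, 1 ≤ u₀ ∧ ∀ u : ℕ, u₀ ≤ u → ∃ lam₀ ℓ₀ : ℝ, 1 ≤ lam₀ ∧ 1 ≤ ℓ₀ ∧
      ∀ lam : ℝ, lam₀ ≤ lam → ∀ ℓ : ℝ, ℓ₀ ≤ ℓ → ∀ N : ℕ, 1 ≤ N → Real.log N = lam * Real.exp ℓ →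
        (((Icc 1 N).filter (fun n : ℕ => ¬ ∃ v : ℕ, (HT (Ru u R) (Real.exp lam) (n : ℤ)).encard = v ∧
          |(v : ℝ) - kap0 (th u) R * ℓ| ≤ ε * (kap0 (th u) R * ℓ))).card : ℝ) ≤ ε * N := by
  have hτ0 : 0 < ε ^ 3 / 144 := by positivity
  have hε2 : ε ^ 2 ≤ 1 := pow_le_one₀ hε.le hε1
  have hε3 : ε ^ 3 ≤ ε := by
    have : ε ^ 3 = ε * ε ^ 2 := by ring
    rw [this]; nlinarith
  have hτε : ε ^ 3 / 144 ≤ ε / 144 := by linarith
  obtain ⟨u₀, hu₀, hbl⟩ := blocks hR hσ hτ0 (by linarith)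
  refine ⟨u₀, hu₀, ?_⟩
  intro u hu
  obtain ⟨δ, l₀, K₂, X₁, hδτ, hB, hP⟩ := hbl u hu
  obtain ⟨K, hK, htop⟩ := top_bound' hP
  set κ := kap0 (th u) R with hκ
  set τ := ε ^ 3 / 144 with hτ
  have hδ0 := hB.δ0
  have hx0 := hB.x0
  have hx1 := hB.x1
  have hκ0 : 0 < κ := by
    by_contra hcon
    push Not at hcon
    have : κ * δ ≤ 0 := mul_nonpos_of_nonpos_of_nonneg hcon hδ0.le
    linarith
  obtain ⟨W, hW⟩ : ∃ W : ℕ, 6 ≤ (1 + δ) ^ W := by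
    obtain ⟨W, hW⟩ := pow_unbounded_of_one_lt (6 : ℝ) (show 1 < 1 + δ by linarith)
    exact ⟨W, hW.le⟩
  obtain ⟨lam₀, ℓ₀, hlam₀, hℓ₀, hev⟩ := ev_all (K := K) (K₂ := K₂) hδ0 hB.δ1 hx0 hx1 hB.τ0 hK
    hB.K0 W (max 1 (8 / (3 * ε * κ)))
  refine ⟨max lam₀ l₀, ℓ₀, hlam₀.trans (le_max_left _ _), hℓ₀, ?_⟩
  intro lam hlam ℓ hℓ N hN hNL
  obtain ⟨hlam1, hlam2⟩ := max_le_iff.1 hlam
  have hNR : (0 : ℝ) < N := by exact_mod_cast hN
  obtain ⟨I, hI⟩ : ∃ I : ℕ, I = ⌊ℓ / Real.log (1 + δ)⌋₊ := ⟨_, rfl⟩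
  have hlog : 0 < Real.log (1 + δ) := Real.log_pos (by linarith)
  have hnum : Num δ (Real.log N) lam ℓ I := by
    refine ⟨hδ0, hB.δ1, by linarith, hNL, by linarith, ?_, ?_⟩
    · have := Nat.floor_le (show 0 ≤ ℓ / Real.log (1 + δ) by have : 0 < ℓ := by linarith
                                                             positivity)
      rw [← hI, le_div_iff₀ hlog] at this
      exact this
    · have := Nat.lt_floor_add_one (ℓ / Real.log (1 + δ))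
      rw [← hI, div_lt_iff₀ hlog] at this
      exact this
  have hNe : (N : ℝ) = Real.exp (Real.log N) := (Real.exp_log hNR).symm
  obtain ⟨hμ1, hℓB, c1, c2, c3, hQc⟩ := hev lam hlam1 ℓ hℓ (Real.log N) I N hnum hNe
  set μ := κ * δ * I with hμ
  have hμ2 : 1 ≤ μ := (le_max_left _ _).trans hμ1
  have hQ1 : 3 * μ ≤ (⌈3 * μ⌉₊ : ℝ) := Nat.le_ceil _
  have hQ2 : (⌈3 * μ⌉₊ : ℝ) ≤ 4 * μ := by
    have := Nat.ceil_lt_add_one (show 0 ≤ 3 * μ by linarith)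
    linarith
  obtain ⟨c4, c5, c6⟩ := hQc ⌈3 * μ⌉₊ hQ1 hQ2
  have hQp : 1 ≤ ⌈3 * μ⌉₊ := by
    rw [Nat.one_le_ceil_iff]; linarith
  have h1 := exc (a := ε / 4) hB hnum hlam2 hNe hK (fun z hz hzN => htop z N ⌈3 * μ⌉₊ hz hzN hQp)
    hW c1 c2 c3 c4 c5 c6 (by positivity) (by linarith) (by
      refine lt_of_lt_of_le ?_ hQ1
      rw [← hμ]
      have : (1 + 2 * (ε / 4)) * μ < 3 * μ := mul_lt_mul_of_pos_right (by linarith) (by linarith)
      exact this)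
  rw [← hμ] at h1
  -- the bounds
  have hIle := hnum.I_le
  have hIge := hnum.I_ge
  have hℓ0 : 0 < ℓ := by linarith
  have hup : (1 + 2 * (ε / 4)) * μ ≤ (1 + ε) * (κ * ℓ) := by
    have g1 : μ = κ * (I * δ) := by rw [hμ]; ring
    have g2 : μ ≤ κ * (ℓ * (1 + δ)) := by rw [g1]; exact mul_le_mul_of_nonneg_left hIle hκ0.le
    have g3 : (1 + 2 * (ε / 4)) * (1 + δ) ≤ 1 + ε := by
      have : δ ≤ ε / 144 := by linarith
      nlinarith
    calc (1 + 2 * (ε / 4)) * μ ≤ (1 + 2 * (ε / 4)) * (κ * (ℓ * (1 + δ))) :=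
          mul_le_mul_of_nonneg_left g2 (by positivity)
      _ = ((1 + 2 * (ε / 4)) * (1 + δ)) * (κ * ℓ) := by ring
      _ ≤ _ := mul_le_mul_of_nonneg_right g3 (by positivity)
  have hlo : (1 - ε) * (κ * ℓ) ≤ (1 - ε / 4) * μ - 1 := by
    have g1 : μ = κ * (I * δ) := by rw [hμ]; ring
    have g2 : κ * (ℓ - δ) ≤ μ := by rw [g1]; exact mul_le_mul_of_nonneg_left hIge hκ0.le
    have g3 : (1 - ε / 4) * (κ * (ℓ - δ)) ≤ (1 - ε / 4) * μ :=
      mul_le_mul_of_nonneg_left g2 (by linarith)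
    have g4 : 8 / (3 * ε * κ) ≤ ℓ := (le_max_right _ _).trans hℓB
    rw [div_le_iff₀ (by positivity)] at g4
    have g5 : (1 - ε / 4) * (κ * δ) ≤ 1 := by
      have : (1 - ε / 4) * (κ * δ) ≤ 1 * (κ * δ) := mul_le_mul_of_nonneg_right (by linarith) hx0.le
      linarith
    nlinarith
  have hsub : (Icc 1 N).filter (fun n : ℕ => ¬ ∃ v : ℕ, (HT (Ru u R) (Real.exp lam) (n : ℤ)).encard = v ∧
          |(v : ℝ) - κ * ℓ| ≤ ε * (κ * ℓ)) ⊆
      (Icc 1 N).filter (fun n : ℕ => ¬ ∃ v : ℕ, (HT (Ru u R) (Real.exp lam) (n : ℤ)).encard = v ∧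
      (1 - ε / 4) * μ - 1 ≤ v ∧ (v : ℝ) ≤ (1 + 2 * (ε / 4)) * μ) := by
    intro n hn
    rw [mem_filter] at hn ⊢
    refine ⟨hn.1, ?_⟩
    rintro ⟨v, hv, hv1, hv2⟩
    apply hn.2
    refine ⟨v, hv, ?_⟩
    rw [abs_le]
    constructor <;> linarith
  have h2 : (((Icc 1 N).filter (fun n : ℕ => ¬ ∃ v : ℕ, (HT (Ru u R) (Real.exp lam) (n : ℤ)).encard = v ∧
          |(v : ℝ) - κ * ℓ| ≤ ε * (κ * ℓ))).card : ℝ)
      ≤ (((Icc 1 N).filter (fun n : ℕ => ¬ ∃ v : ℕ, (HT (Ru u R) (Real.exp lam) (n : ℤ)).encard = v ∧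
      (1 - ε / 4) * μ - 1 ≤ v ∧ (v : ℝ) ≤ (1 + 2 * (ε / 4)) * μ)).card : ℝ) := by
    exact_mod_cast card_le_card hsub
  refine h2.trans ?_
  have h3 : 9 * τ * N = (ε / 4) ^ 2 * (ε * N) := by rw [hτ]; ring
  rw [h3] at h1
  exact le_of_mul_le_mul_left h1 (by positivity)

end Pool.Agent.H998_RN
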