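import Pool.Agent.H305R2.MertensE
import Pool.Agent.W41.Sieve

/-! Rough numbers on trajectories, part 9: Mertens' product over the primes at least five. -/

set_option autoImplicit false

namespace Pool.Agent.H998_RN

open Finset Filter Topology
open Pool.Agent.W41

/-- the primes from `5` to `y` -/
def PP (y : ℕ) : Finset ℕ := (Icc 1 y).filter (fun p => p.Prime ∧ 5 ≤ p)

theorem mem_PP {y p : ℕ} : p ∈ PP y ↔ p.Prime ∧ 5 ≤ p ∧ p ≤ y := by
  unfold PP
  rw [mem_filter, mem_Icc]
  constructor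
  · rintro ⟨⟨h1, h2⟩, h3, h4⟩; exact ⟨h3, h4, h2⟩
  · rintro ⟨h1, h2, h3⟩; exact ⟨⟨by omega, h3⟩, h1, h2⟩

theorem PP_prime {y p : ℕ} (h : p ∈ PP y) : p.Prime ∧ p ≤ y := by
  rw [mem_PP] at h; exact ⟨h.1, h.2.2⟩

theorem PP_ndvd {y p : ℕ} (h : p ∈ PP y) (m : ℕ) : ¬ (p : ℤ) ∣ 2 * 3 ^ m := by
  rw [mem_PP] at h
  intro hd
  have h1 : p ∣ 2 * 3 ^ m := by exact_mod_cast hd
  rcases (Nat.Prime.dvd_mul h.1).1 h1 with h2 | h2
  · have := Nat.le_of_dvd (by norm_num) h2; omega
  · have := Nat.le_of_dvd (by norm_num) (h.1.dvd_of_dvd_pow h2); omega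

theorem V_PP {y : ℕ} (hy : 3 ≤ y) :
    V (PP y) = 3 * ∏ p ∈ (Icc 1 y).filter Nat.Prime, (1 - (p : ℝ)⁻¹) := by
  have e : (Icc 1 y).filter Nat.Prime = insert 2 (insert 3 (PP y)) := by
    ext p
    rw [mem_insert, mem_insert, mem_PP, mem_filter, mem_Icc]
    constructor
    · rintro ⟨⟨h1, h2⟩, h3⟩
      have h4 := h3.two_le
      by_cases h5 : p = 2
      · left; exact h5
      · by_cases h6 : p = 3
        · right; left; exact h6
        · right; right
          refine ⟨h3, ?_, h2⟩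
          have h7 : p ≠ 4 := by rintro rfl; revert h3; norm_num
          omega
    · rintro (rfl | rfl | ⟨h1, h2, h3⟩)
      · exact ⟨⟨by norm_num, by omega⟩, Nat.prime_two⟩
      · exact ⟨⟨by norm_num, by omega⟩, Nat.prime_three⟩
      · exact ⟨⟨by omega, h3⟩, h1⟩
  rw [e, prod_insert, prod_insert]
  · unfold V
    simp only [one_div]
    push_cast
    ring
  · rw [mem_PP]; omega
  · rw [mem_insert, mem_PP]; omega

theorem V_log : Tendsto (fun y : ℕ => V (PP y) * Real.log y) atTop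
    (𝓝 (3 * Real.exp (-Real.eulerMascheroniConstant))) := by
  have h1 := (H305R2.mertens_three.inv₀ (Real.exp_pos _).ne').const_mul 3
  rw [← Real.exp_neg] at h1
  refine h1.congr' ?_
  filter_upwards [eventually_ge_atTop 3] with y hy
  rw [V_PP hy, inv_div, prod_inv_distrib, div_inv_eq_mul]
  ring

/-- the sifting limit -/
noncomputable def yy (u : ℕ) (L : ℝ) : ℕ := ⌊L ^ (1 / (u : ℝ))⌋₊

theorem yy_pow {u : ℕ} (hu : 1 ≤ u) {L : ℝ} (hL : 0 ≤ L) {p : ℕ} : p ≤ yy u L ↔ (p : ℝ) ^ u ≤ L := by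
  have hu0 : (u : ℝ) ≠ 0 := by positivity
  unfold yy
  rw [Nat.le_floor_iff (by positivity)]
  constructor
  · intro h
    have := pow_le_pow_left₀ (Nat.cast_nonneg p) h u
    rwa [← Real.rpow_natCast (L ^ (1 / (u : ℝ))), ← Real.rpow_mul hL, one_div, inv_mul_cancel₀ hu0,
      Real.rpow_one] at this
  · intro h
    have := Real.rpow_le_rpow (by positivity) h (by positivity : (0 : ℝ) ≤ 1 / (u : ℝ))
    rwa [← Real.rpow_natCast (p : ℝ), ← Real.rpow_mul (Nat.cast_nonneg p), one_div,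
      mul_inv_cancel₀ hu0, Real.rpow_one, ← one_div] at this

theorem yy_tendsto {u : ℕ} (hu : 1 ≤ u) : Tendsto (yy u) atTop atTop := by
  unfold yy
  exact tendsto_nat_floor_atTop.comp (tendsto_rpow_atTop (by positivity))

theorem log_yy {u : ℕ} (hu : 1 ≤ u) :
    Tendsto (fun L : ℝ => Real.log L / Real.log (yy u L)) atTop (𝓝 u) := by
  have huR : (0 : ℝ) < u := by positivity
  have hz : Tendsto (fun L : ℝ => L ^ (1 / (u : ℝ))) atTop atTop := tendsto_rpow_atTop (by positivity)
  have h1 : Tendsto (fun z : ℝ => Real.log (⌊z⌋₊ / z)) atTop (𝓝 0) := by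
    have := (Real.continuousAt_log one_ne_zero).tendsto.comp (tendsto_nat_floor_div_atTop (R := ℝ))
    rwa [Real.log_one] at this
  have h2 : Tendsto (fun z : ℝ => Real.log (⌊z⌋₊ / z) / Real.log z) atTop (𝓝 0) :=
    h1.div_atTop Real.tendsto_log_atTop
  have h3 : Tendsto (fun z : ℝ => 1 + Real.log (⌊z⌋₊ / z) / Real.log z) atTop (𝓝 1) := by
    simpa using h2.const_add 1
  have h4 := (h3.comp hz).inv₀ one_ne_zero
  have h5 := h4.const_mul (u : ℝ)
  rw [inv_one, mul_one] at h5
  refine h5.congr' ?_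
  filter_upwards [hz.eventually_ge_atTop 3, eventually_gt_atTop 1] with L hL hL1
  have hL0 : 0 < L := by linarith
  set z := L ^ (1 / (u : ℝ)) with hzd
  have hz0 : 0 < z := by linarith
  have hf : (2 : ℝ) ≤ (⌊z⌋₊ : ℝ) := by linarith [Nat.lt_floor_add_one z]
  have hlz : 0 < Real.log z := Real.log_pos (by linarith)
  have hlf : 0 < Real.log (⌊z⌋₊ : ℝ) := Real.log_pos (by linarith)
  have e1 : Real.log L = u * Real.log z := by
    rw [hzd, Real.log_rpow hL0]; field_simp
  have e2 : 1 + Real.log (⌊z⌋₊ / z) / Real.log z = Real.log (⌊z⌋₊ : ℝ) / Real.log z := by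
    rw [Real.log_div (by linarith) hz0.ne']
    field_simp
    ring
  show (u : ℝ) * (1 + Real.log (⌊z⌋₊ / z) / Real.log z)⁻¹ = Real.log L / Real.log (yy u L)
  rw [e2, e1]
  unfold yy
  rw [← hzd]
  field_simp

/-- the constant -/
noncomputable def th (u : ℕ) : ℝ := Real.exp (-Real.eulerMascheroniConstant) * u

theorem V_yy {u : ℕ} (hu : 1 ≤ u) :
    Tendsto (fun L : ℝ => V (PP (yy u L)) * Real.log L) atTop (𝓝 (3 * th u)) := by
  have h1 := (V_log.comp (yy_tendsto hu)).mul (log_yy hu)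
  have e : 3 * Real.exp (-Real.eulerMascheroniConstant) * (u : ℝ) = 3 * th u := by unfold th; ring
  rw [e] at h1
  refine h1.congr' ?_
  filter_upwards [(yy_tendsto hu).eventually_ge_atTop 2] with L hL
  have h2 : (2 : ℝ) ≤ yy u L := by exact_mod_cast hL
  have h3 : 0 < Real.log (yy u L) := Real.log_pos (by linarith)
  show V (PP (yy u L)) * Real.log (yy u L) * (Real.log L / Real.log (yy u L)) = _
  field_simp

theorem V_yy2 {u : ℕ} (hu : 1 ≤ u) :
    Tendsto (fun L : ℝ => V (PP (yy u (2 * L))) * Real.log L) atTop (𝓝 (3 * th u)) := by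
  have h2 : Tendsto (fun L : ℝ => 2 * L) atTop atTop := tendsto_id.const_mul_atTop (by norm_num)
  have h1 := (V_yy hu).comp h2
  have h3 : Tendsto (fun L : ℝ => Real.log L / Real.log (2 * L)) atTop (𝓝 1) := by
    have h4 : Tendsto (fun L : ℝ => Real.log 2 / Real.log L) atTop (𝓝 0) :=
      tendsto_const_nhds.div_atTop Real.tendsto_log_atTop
    have h5 : Tendsto (fun L : ℝ => (1 + Real.log 2 / Real.log L)⁻¹) atTop (𝓝 1) := by
      have := (h4.const_add 1).inv₀ (by norm_num)
      simpa using this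
    refine h5.congr' ?_
    filter_upwards [eventually_gt_atTop 1] with L hL
    have : 0 < Real.log L := Real.log_pos hL
    have h6 : 0 < Real.log 2 := Real.log_pos (by norm_num)
    rw [Real.log_mul (by norm_num) (by linarith)]
    field_simp
    ring
  have h4 := h1.mul h3
  rw [mul_one] at h4
  refine h4.congr' ?_
  filter_upwards [eventually_gt_atTop 1] with L hL
  have : 0 < Real.log (2 * L) := Real.log_pos (by linarith)
  show V (PP (yy u (2 * L))) * Real.log (2 * L) * (Real.log L / Real.log (2 * L)) = _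
  field_simp

end Pool.Agent.H998_RN
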