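import Pool.Agent.H998_RN.Cnt

/-! Rough numbers on trajectories, part 3: the number of starting points with an endpoint in `P`. -/

set_option autoImplicit false

namespace Pool.Agent.H998_RN

open Finset
open Pool.Agent.H320R2.PD Pool.Agent.H499R2.ND
open Pool.Agent.R344.TH Pool.Agent.H998_PL

section

variable {P R : Set ℤ} {G X₁ : ℝ}

theorem Nk_shift (hP : ∀ x ∈ P, Odd x) {A : ℝ} (hA : 0 ≤ A) (cap k m Tl Tm : ℕ) (c : ℤ) :
    |(∑ w ∈ GW cap k Tl Tm, ((XP P A k m c w).card : ℝ))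
      - ∑ T ∈ Icc Tl Tm, ∑ w ∈ FWT cap k T, ((cls P (A * 3 ^ k / 2 ^ T)
        (2 * (A * 3 ^ k / 2 ^ T)) (k + m) (2 ^ T) (Wo w + 3 ^ k * c)).card : ℝ)| ≤ 2 * 2 ^ Tm := by
  classical
  have h1 : |(∑ w ∈ GW cap k Tl Tm, ((XP P A k m c w).card : ℝ))
      - ∑ w ∈ GW cap k Tl Tm, ((cls P (A * 3 ^ k / 2 ^ w.sum) (2 * (A * 3 ^ k / 2 ^ w.sum)) (k + m)
        (2 ^ w.sum) (Wo w + 3 ^ k * c)).card : ℝ)| ≤ 2 * 2 ^ Tm := by
    rw [← sum_sub_distrib]
    refine (abs_sum_le_sum_abs _ _).trans ?_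
    have h2 : ∑ w ∈ GW cap k Tl Tm, |((XP P A k m c w).card : ℝ)
        - ((cls P (A * 3 ^ k / 2 ^ w.sum) (2 * (A * 3 ^ k / 2 ^ w.sum)) (k + m)
        (2 ^ w.sum) (Wo w + 3 ^ k * c)).card : ℝ)| ≤ ∑ w ∈ GW cap k Tl Tm, (2 : ℝ) := by
      apply sum_le_sum
      intro w hw
      unfold GW at hw
      obtain ⟨h3, h4⟩ := FW_props (mem_filter.1 hw).1
      exact XP_card hP hA h3 h4
    refine h2.trans ?_
    rw [sum_const, nsmul_eq_mul]
    have := GW_card cap k Tl Tm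
    linarith
  have e : ∑ w ∈ GW cap k Tl Tm, ((cls P (A * 3 ^ k / 2 ^ w.sum) (2 * (A * 3 ^ k / 2 ^ w.sum)) (k + m)
        (2 ^ w.sum) (Wo w + 3 ^ k * c)).card : ℝ)
      = ∑ T ∈ Icc Tl Tm, ∑ w ∈ FWT cap k T, ((cls P (A * 3 ^ k / 2 ^ T)
        (2 * (A * 3 ^ k / 2 ^ T)) (k + m) (2 ^ T) (Wo w + 3 ^ k * c)).card : ℝ) := by
    rw [sum_GW]
    apply sum_congr rfl
    intro T _
    apply sum_congr rfl
    intro w hw
    unfold FWT at hw
    rw [(mem_filter.1 hw).2]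
  rwa [e] at h1

theorem massR_nonneg (cap k T : ℕ) : 0 ≤ massR R cap k T := by
  unfold massR; exact sum_nonneg fun w _ => by unfold wwt; positivity

theorem dev_nonneg' (cap k T n m' : ℕ) : 0 ≤ dev (FWT cap k T) wwt (fun w => (Wo w : ℤ)) n m' :=
    sum_nonneg fun _ _ => abs_nonneg _

/-- upper bound -/
theorem Nk_up (hP : Rg P R G X₁) {θ : ℝ} (hθ : 0 ≤ θ) {m' : ℕ} (hm' : 1 ≤ m')
    (hL₀ : ∀ L : ℝ, X₁ ≤ L → ∀ c : ℤ, c % 3 ∈ R →
      ((cls P L (2 * L) m' 1 c).card : ℝ) ≤ θ * (3 / 2) * (L / (3 ^ m' * Real.log L)))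
    {A : ℝ} (hA : 0 < A) (cap k m Tl Tm : ℕ) (hk : m' ≤ k)
    (hTm : Tm ≤ k * cap) (c : ℤ) (hL1 : X₁ ≤ A * 3 ^ k / 2 ^ Tm)
    (hL2 : (3 : ℝ) ^ (k + m) ≤ Real.sqrt (A * 3 ^ k / 2 ^ Tm)) {lam0 : ℝ} (hlam : 0 < lam0)
    (h0 : lam0 ≤ Real.log (A * 3 ^ k / 2 ^ Tm)) :
    (∑ w ∈ GW cap k Tl Tm, ((XP P A k m c w).card : ℝ))
        ≤ A / 3 ^ m * ((θ * (3 / 2) * (∑ T ∈ Icc Tl Tm, massR R cap k T)
          + G * ∑ T ∈ range (k * cap + 1), dev (FWT cap k T) wwt (fun w => (Wo w : ℤ)) (k + m) m')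
            / lam0) + 2 * 2 ^ Tm := by
  classical
  have hG0 : 0 ≤ G := by linarith [hP.G1]
  have h1 := (abs_le.1 (Nk_shift hP.odd hA.le cap k m Tl Tm c)).2
  have h2 : ∑ T ∈ Icc Tl Tm, ∑ w ∈ FWT cap k T, ((cls P (A * 3 ^ k / 2 ^ T)
        (2 * (A * 3 ^ k / 2 ^ T)) (k + m) (2 ^ T) (Wo w + 3 ^ k * c)).card : ℝ)
      ≤ ∑ T ∈ Icc Tl Tm, (θ * (3 / 2) * massR R cap k T
          + G * dev (FWT cap k T) wwt (fun w => (Wo w : ℤ)) (k + m) m') * (A / 3 ^ m * (1 / lam0)) := by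
    apply sum_le_sum
    intro T hT
    rw [mem_Icc] at hT
    have hle : A * 3 ^ k / 2 ^ Tm ≤ A * 3 ^ k / 2 ^ T :=
      div_le_div_of_nonneg_left (by positivity) (by positivity)
        (pow_le_pow_right₀ (by norm_num) hT.2)
    have g1 : X₁ ≤ A * 3 ^ k / 2 ^ T := hL1.trans hle
    have g3 : (1 : ℝ) < A * 3 ^ k / 2 ^ T := by
      have : (1 : ℝ) < Real.exp 100 := by
        rw [← Real.exp_zero]; exact Real.exp_lt_exp.2 (by norm_num)
      linarith [hP.X1]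
    have g4 : (3 : ℝ) ^ (k + m) ≤ Real.sqrt (A * 3 ^ k / 2 ^ T) := hL2.trans (Real.sqrt_le_sqrt hle)
    have g5 := FT_up hP hθ hm' (hL₀ _ g1) g3 cap k m T hk c
      (fun r => hP.bt _ g1 (k + m) g4 _ r (cop_two_pow T))
    have e1 : (2 : ℝ) ^ T * (A * 3 ^ k / 2 ^ T / (3 ^ (k + m) * Real.log (A * 3 ^ k / 2 ^ T)))
        = A / (3 ^ m * Real.log (A * 3 ^ k / 2 ^ T)) := by
      rw [pow_add]
      have : 0 < Real.log (A * 3 ^ k / 2 ^ T) := Real.log_pos g3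
      field_simp
    rw [e1] at g5
    refine g5.trans ?_
    apply mul_le_mul_of_nonneg_left
    · have hlog : lam0 ≤ Real.log (A * 3 ^ k / 2 ^ T) := h0.trans (Real.log_le_log (by positivity) hle)
      rw [div_mul_div_comm, mul_one]
      apply div_le_div_of_nonneg_left hA.le (by positivity)
      exact mul_le_mul_of_nonneg_left hlog (by positivity)
    · have := massR_nonneg (R := R) cap k T
      have := dev_nonneg' cap k T (k + m) m'
      positivity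
  have h3 : ∑ T ∈ Icc Tl Tm, (θ * (3 / 2) * massR R cap k T
          + G * dev (FWT cap k T) wwt (fun w => (Wo w : ℤ)) (k + m) m') * (A / 3 ^ m * (1 / lam0))
      ≤ A / 3 ^ m * ((θ * (3 / 2) * (∑ T ∈ Icc Tl Tm, massR R cap k T)
          + G * ∑ T ∈ range (k * cap + 1), dev (FWT cap k T) wwt (fun w => (Wo w : ℤ)) (k + m) m')
            / lam0) := by
    rw [← sum_mul, sum_add_distrib, ← mul_sum, ← mul_sum]
    have e : A / 3 ^ m * ((θ * (3 / 2) * (∑ T ∈ Icc Tl Tm, massR R cap k T)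
          + G * ∑ T ∈ range (k * cap + 1), dev (FWT cap k T) wwt (fun w => (Wo w : ℤ)) (k + m) m')
            / lam0) = (θ * (3 / 2) * (∑ T ∈ Icc Tl Tm, massR R cap k T)
          + G * ∑ T ∈ range (k * cap + 1), dev (FWT cap k T) wwt (fun w => (Wo w : ℤ)) (k + m) m')
            * (A / 3 ^ m * (1 / lam0)) := by ring
    rw [e]
    apply mul_le_mul_of_nonneg_right _ (by positivity)
    apply add_le_add le_rfl
    apply mul_le_mul_of_nonneg_left _ hG0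
    apply sum_le_sum_of_subset_of_nonneg
    · intro T hT
      rw [mem_Icc] at hT
      rw [mem_range]; omega
    · intro T _ _; exact dev_nonneg' cap k T (k + m) m'
  linarith

/-- lower bound -/
theorem Nk_lo (hP : Rg P R G X₁) {θ : ℝ} (hθ : 0 ≤ θ) {m' : ℕ} (hm' : 1 ≤ m')
    (hL₀ : ∀ L : ℝ, X₁ ≤ L → ∀ c : ℤ, c % 3 ∈ R →
      θ * (3 / 2) * (L / (3 ^ m' * Real.log L)) ≤ ((cls P L (2 * L) m' 1 c).card : ℝ))
    {A : ℝ} (hA : 0 < A) (cap k m Tl Tm : ℕ) (hk : m' ≤ k)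
    (hTm : Tm ≤ k * cap) (c : ℤ) (hL1 : X₁ ≤ A * 3 ^ k / 2 ^ Tm)
    (hL2 : (3 : ℝ) ^ (k + m) ≤ Real.sqrt (A * 3 ^ k / 2 ^ Tm)) {lam0 lam1 : ℝ} (hlam : 0 < lam0)
    (h0 : lam0 ≤ Real.log (A * 3 ^ k / 2 ^ Tm)) (h1 : Real.log (A * 3 ^ k / 2 ^ Tl) ≤ lam1) :
    A / 3 ^ m * ((θ * (3 / 2) * ∑ T ∈ Icc Tl Tm, massR R cap k T) / lam1
          - (G * ∑ T ∈ range (k * cap + 1), dev (FWT cap k T) wwt (fun w => (Wo w : ℤ)) (k + m) m')
            / lam0) - 2 * 2 ^ Tm ≤ (∑ w ∈ GW cap k Tl Tm, ((XP P A k m c w).card : ℝ)) := by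
  classical
  have hG0 : 0 ≤ G := by linarith [hP.G1]
  have h3 := (abs_le.1 (Nk_shift hP.odd hA.le cap k m Tl Tm c)).1
  have h2 : ∑ T ∈ Icc Tl Tm, (θ * (3 / 2) * massR R cap k T * (A / 3 ^ m * (1 / lam1))
          - G * dev (FWT cap k T) wwt (fun w => (Wo w : ℤ)) (k + m) m' * (A / 3 ^ m * (1 / lam0)))
      ≤ ∑ T ∈ Icc Tl Tm, ∑ w ∈ FWT cap k T, ((cls P (A * 3 ^ k / 2 ^ T)
        (2 * (A * 3 ^ k / 2 ^ T)) (k + m) (2 ^ T) (Wo w + 3 ^ k * c)).card : ℝ) := by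
    apply sum_le_sum
    intro T hT
    rw [mem_Icc] at hT
    have hle : A * 3 ^ k / 2 ^ Tm ≤ A * 3 ^ k / 2 ^ T :=
      div_le_div_of_nonneg_left (by positivity) (by positivity)
        (pow_le_pow_right₀ (by norm_num) hT.2)
    have g1 : X₁ ≤ A * 3 ^ k / 2 ^ T := hL1.trans hle
    have g3 : (1 : ℝ) < A * 3 ^ k / 2 ^ T := by
      have : (1 : ℝ) < Real.exp 100 := by
        rw [← Real.exp_zero]; exact Real.exp_lt_exp.2 (by norm_num)
      linarith [hP.X1]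
    have g4 : (3 : ℝ) ^ (k + m) ≤ Real.sqrt (A * 3 ^ k / 2 ^ T) := hL2.trans (Real.sqrt_le_sqrt hle)
    have g5 := FT_lo hP hθ hm' (hL₀ _ g1) g3 cap k m T hk c
      (fun r => hP.bt _ g1 (k + m) g4 _ r (cop_two_pow T))
    have e1 : (2 : ℝ) ^ T * (A * 3 ^ k / 2 ^ T / (3 ^ (k + m) * Real.log (A * 3 ^ k / 2 ^ T)))
        = A / (3 ^ m * Real.log (A * 3 ^ k / 2 ^ T)) := by
      rw [pow_add]
      have : 0 < Real.log (A * 3 ^ k / 2 ^ T) := Real.log_pos g3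
      field_simp
    rw [e1] at g5
    refine le_trans ?_ g5
    have hlog0 : lam0 ≤ Real.log (A * 3 ^ k / 2 ^ T) := h0.trans (Real.log_le_log (by positivity) hle)
    have hlog1 : Real.log (A * 3 ^ k / 2 ^ T) ≤ lam1 := by
      refine (Real.log_le_log (by positivity) ?_).trans h1
      exact div_le_div_of_nonneg_left (by positivity) (by positivity)
        (pow_le_pow_right₀ (by norm_num) hT.1)
    have hl0 : 0 < Real.log (A * 3 ^ k / 2 ^ T) := lt_of_lt_of_le hlam hlog0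
    have a1 : A / (3 ^ m * Real.log (A * 3 ^ k / 2 ^ T)) ≤ A / 3 ^ m * (1 / lam0) := by
      rw [div_mul_div_comm, mul_one]
      apply div_le_div_of_nonneg_left hA.le (by positivity)
      exact mul_le_mul_of_nonneg_left hlog0 (by positivity)
    have a2 : A / 3 ^ m * (1 / lam1) ≤ A / (3 ^ m * Real.log (A * 3 ^ k / 2 ^ T)) := by
      rw [div_mul_div_comm, mul_one]
      apply div_le_div_of_nonneg_left hA.le (by positivity)
      exact mul_le_mul_of_nonneg_left hlog1 (by positivity)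
    rw [sub_mul]
    apply sub_le_sub
    · apply mul_le_mul_of_nonneg_left a2
      have := massR_nonneg (R := R) cap k T
      positivity
    · apply mul_le_mul_of_nonneg_left a1
      have := dev_nonneg' cap k T (k + m) m'
      positivity
  have h4 : A / 3 ^ m * ((θ * (3 / 2) * ∑ T ∈ Icc Tl Tm, massR R cap k T) / lam1
          - (G * ∑ T ∈ range (k * cap + 1), dev (FWT cap k T) wwt (fun w => (Wo w : ℤ)) (k + m) m')
            / lam0) ≤ ∑ T ∈ Icc Tl Tm, (θ * (3 / 2) * massR R cap k T * (A / 3 ^ m * (1 / lam1))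
          - G * dev (FWT cap k T) wwt (fun w => (Wo w : ℤ)) (k + m) m' * (A / 3 ^ m * (1 / lam0))) := by
    rw [sum_sub_distrib, ← sum_mul, ← sum_mul, ← mul_sum, ← mul_sum]
    have e : A / 3 ^ m * ((θ * (3 / 2) * ∑ T ∈ Icc Tl Tm, massR R cap k T) / lam1
          - (G * ∑ T ∈ range (k * cap + 1), dev (FWT cap k T) wwt (fun w => (Wo w : ℤ)) (k + m) m')
            / lam0) = θ * (3 / 2) * (∑ T ∈ Icc Tl Tm, massR R cap k T) * (A / 3 ^ m * (1 / lam1))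
          - G * (∑ T ∈ range (k * cap + 1), dev (FWT cap k T) wwt (fun w => (Wo w : ℤ)) (k + m) m')
            * (A / 3 ^ m * (1 / lam0)) := by ring
    rw [e]
    apply sub_le_sub le_rfl
    apply mul_le_mul_of_nonneg_right _ (by positivity)
    apply mul_le_mul_of_nonneg_left _ hG0
    apply sum_le_sum_of_subset_of_nonneg
    · intro T hT
      rw [mem_Icc] at hT
      rw [mem_range]; omega
    · intro T _ _; exact dev_nonneg' cap k T (k + m) m'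
  linarith

end

end Pool.Agent.H998_RN
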