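import Pool.Agent.H998_RN.Blocks
import Pool.Agent.H998_PL.Mean

/-! Rough numbers on trajectories, part 16: the second moment of the number of blocks that are hit. -/

set_option autoImplicit false

namespace Pool.Agent.H998_RN

open Finset
open Pool.Agent.H320R2.PD Pool.Agent.H499R2.ND
open Pool.Agent.H499R2.CO (Tz)
open Pool.Agent.R344.TH Pool.Agent.H998_PL

/-- sum of the indicator over the starting points -/
theorem ind_cast (S : Set ℤ) (N : ℕ) : ∑ n ∈ Icc 1 N, ind S (n : ℤ)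
    = ((@Finset.filter ℤ (fun x => x ∈ S) (Classical.decPred _) (Icc (1 : ℤ) N)).card : ℝ) := by
  classical
  rw [← sum_cast]
  apply sum_congr rfl
  intro n _
  unfold ind
  congr

theorem cnt_up {S : Set ℤ} (hS : ∀ (e : ℕ) (m : ℤ), 0 < m → 2 ^ e * m ∈ S → m ∈ S) {ρ z : ℝ}
    (hρ : 0 ≤ ρ) (hz : 1 ≤ z) (h : ∀ A : ℝ, z / 2 ≤ A → PB S A 0 ρ) (N : ℕ) :
    ∑ n ∈ Icc 1 N, ind S (n : ℤ) ≤ ρ * (N + 1) + z * (Nat.log 2 N + 1) := by
  rw [ind_cast]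
  convert count_all hS hρ hz h N

theorem ind_compl (S : Set ℤ) (x : ℤ) : ind S x = 1 - ind Sᶜ x := by
  unfold ind
  by_cases h : x ∈ S
  · rw [if_pos h, if_neg (by simpa using h)]; ring
  · rw [if_neg h, if_pos (by simpa using h)]; ring

theorem cnt_lo {S : Set ℤ} (hS : ∀ (e : ℕ) (m : ℤ), 0 < m → 2 ^ e * m ∈ Sᶜ → m ∈ Sᶜ) {ρ z : ℝ}
    (hρ : 0 ≤ ρ) (hz : 1 ≤ z) (h : ∀ A : ℝ, z / 2 ≤ A → PB Sᶜ A 0 ρ) (N : ℕ) :
    (N : ℝ) - (ρ * (N + 1) + z * (Nat.log 2 N + 1)) ≤ ∑ n ∈ Icc 1 N, ind S (n : ℤ) := by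
  have h1 := cnt_up hS hρ hz h N
  have h2 : ∑ n ∈ Icc 1 N, ind S (n : ℤ) = N - ∑ n ∈ Icc 1 N, ind Sᶜ (n : ℤ) := by
    rw [sum_congr rfl (fun (n : ℕ) _ => ind_compl S (n : ℤ)), sum_sub_distrib]
    simp
  rw [h2]; linarith

theorem ind_mono {S T : Set ℤ} {x : ℤ} (h : x ∈ S → x ∈ T) : ind S x ≤ ind T x := by
  unfold ind
  by_cases h1 : x ∈ S
  · rw [if_pos h1, if_pos (h h1)]
  · rw [if_neg h1]; split_ifs <;> norm_num

theorem ind_mul {S T U : Set ℤ} {x : ℤ} (h : x ∈ S → x ∈ T → x ∈ U) : ind S x * ind T x ≤ ind U x := by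
  unfold ind
  by_cases h1 : x ∈ S
  · by_cases h2 : x ∈ T
    · rw [if_pos h1, if_pos h2, if_pos (h h1 h2)]; norm_num
    · rw [if_neg h2, mul_zero]; split_ifs <;> norm_num
  · rw [if_neg h1, zero_mul]; split_ifs <;> norm_num

/-- the block of the scale `l` -/
def BS (P : Set ℤ) (δ l : ℝ) : Set ℤ := Sh P (Real.exp (l / (1 + δ))) (Real.exp l) 1

variable {P : Set ℤ} {δ x τ l₀ K₂ L lam ℓ : ℝ} {I N : ℕ}

/-- the error term -/
noncomputable def er (δ L : ℝ) : ℝ := 3 * L * Real.exp (-(δ * L / 2))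

theorem one_up (hB : Bl P δ x τ l₀ K₂) (hn : Num δ L lam ℓ I) (hl : l₀ ≤ lam)
    (hN : (N : ℝ) = Real.exp L) {i : ℕ} (hi : i < I) :
    ∑ n ∈ Icc 1 N, ind (BS P δ (ls L δ (1 + i))) (n : ℤ) ≤ x * (1 + τ) * (N + 1) + N * er δ L := by
  have h1 := hn.ls_ge' hi
  have h2 := exp_part hn hN i
  have h3 := cnt_up (S := BS P δ (ls L δ (1 + i))) (fun e m hm => Sh_even hB.odd e m hm)
    (ρ := x * (1 + τ)) (z := Real.exp (ls L δ (1 + i))) (by have := hB.x0; have := hB.τ0; positivity)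
    (Real.one_le_exp (by linarith [hn.hlam])) (hB.up _ (hl.trans h1)) N
  unfold er
  linarith

theorem one_lo (hB : Bl P δ x τ l₀ K₂) (hn : Num δ L lam ℓ I) (hl : l₀ ≤ lam)
    (hN : (N : ℝ) = Real.exp L) {i : ℕ} (hi : i < I) :
    x * (1 - τ) * N - 1 - N * er δ L ≤ ∑ n ∈ Icc 1 N, ind (BS P δ (ls L δ (1 + i))) (n : ℤ) := by
  have h1 := hn.ls_ge' hi
  have h2 := exp_part hn hN i
  have hx0 := hB.x0
  have hx1 := hB.x1
  have hτ0 := hB.τ0
  have hτ1 := hB.τ1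
  have h4 : 0 ≤ x * (1 - τ) := mul_nonneg hx0.le (by linarith)
  have h5 : x * (1 - τ) ≤ 1 := by nlinarith
  have h3 := cnt_lo (S := BS P δ (ls L δ (1 + i))) (fun e m hm => Shc_even hB.odd e m hm)
    (ρ := 1 - x * (1 - τ)) (z := Real.exp (ls L δ (1 + i))) (by linarith)
    (Real.one_le_exp (by linarith [hn.hlam])) (hB.lo _ (hl.trans h1)) N
  unfold er
  have e1 : (N : ℝ) - ((1 - x * (1 - τ)) * (N + 1)) = x * (1 - τ) * N + x * (1 - τ) - 1 := by ring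
  linarith

theorem two_up (hB : Bl P δ x τ l₀ K₂) (hn : Num δ L lam ℓ I) (hl : l₀ ≤ lam)
    (hN : (N : ℝ) = Real.exp L) {i i' : ℕ} (hi : i < I) (hi' : i' < I)
    (hfar : 6 * ls L δ (1 + i') ≤ ls L δ (1 + i)) :
    ∑ n ∈ Icc 1 N, ind (BS P δ (ls L δ (1 + i))) (n : ℤ) * ind (BS P δ (ls L δ (1 + i'))) (n : ℤ)
      ≤ x ^ 2 * (1 + τ) * (N + 1) + N * er δ L := by
  have h1 := hn.ls_ge' hi
  have h1' := hn.ls_ge' hi'
  have h2 := exp_part hn hN i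
  have hx0 := hB.x0
  have hτ0 := hB.τ0
  have hδ0 := hB.δ0
  have hδ1 := hB.δ1
  set l := ls L δ (1 + i) with hld
  set l' := ls L δ (1 + i') with hl'd
  have hl1 : 1 ≤ l := by linarith [hn.hlam]
  have hl'1 : 1 ≤ l' := by linarith [hn.hlam]
  have hy' : Real.exp (l' / (1 + δ)) ≤ Real.exp l' :=
    Real.exp_le_exp.2 (div_le_self (by linarith) (by linarith))
  have hzy : Real.exp l' ≤ Real.exp (l / (1 + δ)) := by
    apply Real.exp_le_exp.2
    rw [le_div_iff₀ (by linarith)]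
    nlinarith
  have h3 := cnt_up (S := Sh (P ∩ Sh P (Real.exp (l' / (1 + δ))) (Real.exp l') 1)
    (Real.exp (l / (1 + δ))) (Real.exp l) 1) (fun e m hm => Sh_even (fun y hy => hB.odd y hy.1) e m hm)
    (ρ := x ^ 2 * (1 + τ)) (z := Real.exp l) (by positivity)
    (Real.one_le_exp (by linarith)) (hB.cross l' (hl.trans h1') l hfar) N
  have h4 : ∑ n ∈ Icc 1 N, ind (BS P δ l) (n : ℤ) * ind (BS P δ l') (n : ℤ)
      ≤ ∑ n ∈ Icc 1 N, ind (Sh (P ∩ Sh P (Real.exp (l' / (1 + δ))) (Real.exp l') 1)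
    (Real.exp (l / (1 + δ))) (Real.exp l) 1) (n : ℤ) := by
    apply sum_le_sum
    intro n _
    exact ind_mul fun a b => Sh_inter hy' hzy a b
  unfold er
  linarith

/-- the number of blocks that are hit -/
noncomputable def Bn (P : Set ℤ) (δ L : ℝ) (I : ℕ) (n : ℕ) : ℝ :=
  ∑ i ∈ range I, ind (BS P δ (ls L δ (1 + i))) (n : ℤ)

theorem far_of {W : ℕ} (hn : Num δ L lam ℓ I) (hW : 6 ≤ (1 + δ) ^ W) {i i' : ℕ} (h : i + W ≤ i') :
    6 * ls L δ (1 + i') ≤ ls L δ (1 + i) := by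
  have hδ := hn.hδ
  have hL : 0 ≤ L := by have := hn.ell_le; have := hn.hℓ; linarith
  unfold ls
  rw [mul_div_assoc', div_le_div_iff₀ (by positivity) (by positivity)]
  have h1 : (1 + δ) ^ (1 + i + W) ≤ (1 + δ) ^ (1 + i') :=
    pow_le_pow_right₀ (by linarith) (by omega)
  rw [pow_add] at h1
  have h2 : 6 * (1 + δ) ^ (1 + i) ≤ (1 + δ) ^ (1 + i) * (1 + δ) ^ W := by
    rw [mul_comm]; exact mul_le_mul_of_nonneg_left hW (by positivity)
  calc 6 * L * (1 + δ) ^ (1 + i) = L * (6 * (1 + δ) ^ (1 + i)) := by ring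
    _ ≤ L * (1 + δ) ^ (1 + i') := mul_le_mul_of_nonneg_left (h2.trans h1) hL

theorem pair_sum_le (hB : Bl P δ x τ l₀ K₂) (hn : Num δ L lam ℓ I) (hl : l₀ ≤ lam)
    (hN : (N : ℝ) = Real.exp L) {W : ℕ} (hW : 6 ≤ (1 + δ) ^ W) {i i' : ℕ} (hi : i < I) (hi' : i' < I) :
    ∑ n ∈ Icc 1 N, ind (BS P δ (ls L δ (1 + i))) (n : ℤ) * ind (BS P δ (ls L δ (1 + i'))) (n : ℤ)
      ≤ (x ^ 2 * (1 + τ) * (N + 1) + N * er δ L)
        + (if i' < i + W ∧ i < i' + W then x * (1 + τ) * (N + 1) + N * er δ L else 0) := by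
  have hx0 := hB.x0
  have hτ0 := hB.τ0
  have hL : 0 ≤ L := by have := hn.ell_le; have := hn.hℓ; linarith
  have her : 0 ≤ er δ L := by unfold er; positivity
  split_ifs with h
  · have h1 : ∑ n ∈ Icc 1 N, ind (BS P δ (ls L δ (1 + i))) (n : ℤ) * ind (BS P δ (ls L δ (1 + i'))) (n : ℤ)
        ≤ ∑ n ∈ Icc 1 N, ind (BS P δ (ls L δ (1 + i))) (n : ℤ) := by
      apply sum_le_sum
      intro n _
      exact mul_le_of_le_one_right (ind_nonneg _ _) (ind_le _ _)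
    have h2 := one_up hB hn hl hN hi
    have h3 : 0 ≤ x ^ 2 * (1 + τ) * ((N : ℝ) + 1) + N * er δ L := by positivity
    linarith
  · rw [add_zero]
    rcases le_or_gt (i + W) i' with h1 | h1
    · exact two_up hB hn hl hN hi hi' (far_of hn hW h1)
    · have h2 : i' + W ≤ i := by
        by_contra hcon
        exact h ⟨h1, by omega⟩
      have h3 := two_up hB hn hl hN hi' hi (far_of hn hW h2)
      refine le_trans (le_of_eq ?_) h3
      exact sum_congr rfl fun n _ => mul_comm _ _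

theorem sec_up (hB : Bl P δ x τ l₀ K₂) (hn : Num δ L lam ℓ I) (hl : l₀ ≤ lam)
    (hN : (N : ℝ) = Real.exp L) {W : ℕ} (hW : 6 ≤ (1 + δ) ^ W) :
    ∑ n ∈ Icc 1 N, Bn P δ L I n ^ 2 ≤ I ^ 2 * (x ^ 2 * (1 + τ) * (N + 1) + N * er δ L)
      + 2 * W * I * (x * (1 + τ) * (N + 1) + N * er δ L) := by
  have hx0 := hB.x0
  have hτ0 := hB.τ0
  have hL : 0 ≤ L := by have := hn.ell_le; have := hn.hℓ; linarith
  have her : 0 ≤ er δ L := by unfold er; positivity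
  set a := x ^ 2 * (1 + τ) * ((N : ℝ) + 1) + N * er δ L with ha
  set b := x * (1 + τ) * ((N : ℝ) + 1) + N * er δ L with hb
  have hb0 : 0 ≤ b := by positivity
  have h1 : ∑ n ∈ Icc 1 N, Bn P δ L I n ^ 2 = ∑ i ∈ range I, ∑ i' ∈ range I, ∑ n ∈ Icc 1 N,
      ind (BS P δ (ls L δ (1 + i))) (n : ℤ) * ind (BS P δ (ls L δ (1 + i'))) (n : ℤ) := by
    unfold Bn
    simp_rw [sq, sum_mul_sum]
    rw [sum_comm]
    exact sum_congr rfl fun i _ => sum_comm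
  rw [h1]
  have h2 : ∀ i ∈ range I, ∑ i' ∈ range I, ∑ n ∈ Icc 1 N,
      ind (BS P δ (ls L δ (1 + i))) (n : ℤ) * ind (BS P δ (ls L δ (1 + i'))) (n : ℤ)
      ≤ I * a + 2 * W * b := by
    intro i hi
    have h3 : ∑ i' ∈ range I, ∑ n ∈ Icc 1 N,
      ind (BS P δ (ls L δ (1 + i))) (n : ℤ) * ind (BS P δ (ls L δ (1 + i'))) (n : ℤ)
        ≤ ∑ i' ∈ range I, (a + (if i' < i + W ∧ i < i' + W then b else 0)) :=
      sum_le_sum fun i' hi' => pair_sum_le hB hn hl hN hW (mem_range.1 hi) (mem_range.1 hi')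
    refine h3.trans ?_
    rw [sum_add_distrib, sum_const, card_range, nsmul_eq_mul, ← sum_filter, sum_const, nsmul_eq_mul]
    apply add_le_add le_rfl
    apply mul_le_mul_of_nonneg_right _ hb0
    have h4 : ((range I).filter (fun i' => i' < i + W ∧ i < i' + W)).card ≤ 2 * W := by
      have h5 : (range I).filter (fun i' => i' < i + W ∧ i < i' + W) ⊆ Ico (i + 1 - W) (i + W) := by
        intro j hj
        rw [mem_filter] at hj
        rw [mem_Ico]; omega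
      have h6 := card_le_card h5
      rw [Nat.card_Ico] at h6
      omega
    exact_mod_cast h4
  refine (sum_le_sum h2).trans (le_of_eq ?_)
  rw [sum_const, card_range, nsmul_eq_mul]
  ring

theorem fst_lo (hB : Bl P δ x τ l₀ K₂) (hn : Num δ L lam ℓ I) (hl : l₀ ≤ lam)
    (hN : (N : ℝ) = Real.exp L) :
    I * (x * (1 - τ) * N - 1 - N * er δ L) ≤ ∑ n ∈ Icc 1 N, Bn P δ L I n := by
  unfold Bn
  rw [sum_comm]
  have h1 : ∑ i ∈ range I, (x * (1 - τ) * N - 1 - N * er δ L)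
      ≤ ∑ i ∈ range I, ∑ n ∈ Icc 1 N, ind (BS P δ (ls L δ (1 + i))) (n : ℤ) :=
    sum_le_sum fun i hi => one_lo hB hn hl hN (mem_range.1 hi)
  rwa [sum_const, card_range, nsmul_eq_mul] at h1

/-- THE VARIANCE -/
theorem var_up (hB : Bl P δ x τ l₀ K₂) (hn : Num δ L lam ℓ I) (hl : l₀ ≤ lam)
    (hN : (N : ℝ) = Real.exp L) {W : ℕ} (hW : 6 ≤ (1 + δ) ^ W) (c1 : 16 ≤ τ * x * N)
    (c2 : 8 * er δ L ≤ τ * x ^ 2) (c3 : 32 * W ≤ τ * x * I) :
    ∑ n ∈ Icc 1 N, (Bn P δ L I n - x * I) ^ 2 ≤ 4 * τ * N * (x * I) ^ 2 := by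
  have hx0 := hB.x0
  have hx1 := hB.x1
  have hτ0 := hB.τ0
  have hτ1 := hB.τ1
  have hL : 0 ≤ L := by have := hn.ell_le; have := hn.hℓ; linarith
  have her : 0 ≤ er δ L := by unfold er; positivity
  have hI : (1 : ℝ) ≤ I := by exact_mod_cast hn.I_pos
  have hN1 : (1 : ℝ) ≤ N := by rw [hN]; exact Real.one_le_exp hL
  have h1 := sec_up hB hn hl hN hW
  have h2 := fst_lo hB hn hl hN
  set e := er δ L with he
  have h3 : ∑ n ∈ Icc 1 N, (Bn P δ L I n - x * I) ^ 2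
      = ∑ n ∈ Icc 1 N, Bn P δ L I n ^ 2 - 2 * (x * I) * ∑ n ∈ Icc 1 N, Bn P δ L I n
        + N * (x * I) ^ 2 := by
    have : ∀ n ∈ Icc 1 N, (Bn P δ L I n - x * I) ^ 2
        = Bn P δ L I n ^ 2 - 2 * (x * I) * Bn P δ L I n + (x * I) ^ 2 := fun n _ => by ring
    rw [sum_congr rfl this, sum_add_distrib, sum_sub_distrib, ← mul_sum, sum_const, Nat.card_Icc,
      Nat.add_sub_cancel, nsmul_eq_mul]
  rw [h3]
  have h4 : 2 * (x * I) * (I * (x * (1 - τ) * N - 1 - N * e)) ≤ 2 * (x * I) * ∑ n ∈ Icc 1 N, Bn P δ L I n :=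
    mul_le_mul_of_nonneg_left h2 (by positivity)
  have hIx : 0 ≤ (x * I : ℝ) := by positivity
  -- the four error terms
  have hxI2 : 0 ≤ x * (I : ℝ) ^ 2 := by positivity
  have t1 : 4 * (x * (I : ℝ) ^ 2) ≤ τ / 4 * N * (x * I) ^ 2 := by
    have := mul_le_mul_of_nonneg_right c1 hxI2
    nlinarith
  have t2 : 2 * ((I : ℝ) ^ 2 * (N * e)) ≤ τ / 4 * N * (x * I) ^ 2 := by
    have h5 : 0 ≤ (I : ℝ) ^ 2 * N := by positivity
    have := mul_le_mul_of_nonneg_right c2 h5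
    nlinarith
  have t3 : 8 * (W * I * x * N) ≤ τ / 4 * N * (x * I) ^ 2 := by
    have h5 : 0 ≤ (I : ℝ) * x * N := by positivity
    have := mul_le_mul_of_nonneg_right c3 h5
    nlinarith
  have hWI : (W : ℝ) ≤ I := by
    have : τ * x * I ≤ 1 * I := by
      apply mul_le_mul_of_nonneg_right _ (by linarith)
      nlinarith
    linarith
  have t4 : 2 * (W * I * (N * e)) ≤ τ / 4 * N * (x * I) ^ 2 := by
    refine le_trans ?_ t2
    apply mul_le_mul_of_nonneg_left _ (by norm_num)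
    have h5 : (W : ℝ) * I ≤ I * I := mul_le_mul_of_nonneg_right hWI (by linarith)
    have h6 : 0 ≤ (N : ℝ) * e := by positivity
    have := mul_le_mul_of_nonneg_right h5 h6
    rw [sq]; exact this
  have e1 : x ^ 2 * (1 + τ) ≤ 2 * x := by nlinarith
  have e2 : x * (1 + τ) ≤ 2 * x := by nlinarith
  have e3 : (I : ℝ) ^ 2 * (x ^ 2 * (1 + τ) * (N + 1) + N * e)
      ≤ (1 + τ) * N * (x * I) ^ 2 + 2 * (x * (I : ℝ) ^ 2) + (I : ℝ) ^ 2 * (N * e) := by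
    have := mul_le_mul_of_nonneg_right e1 (sq_nonneg (I : ℝ))
    nlinarith
  have e4 : 2 * (W : ℝ) * I * (x * (1 + τ) * (N + 1) + N * e)
      ≤ 8 * (W * I * x * N) + 2 * (W * I * (N * e)) := by
    have h5 : x * (1 + τ) * ((N : ℝ) + 1) ≤ 2 * x * (2 * N) :=
      mul_le_mul e2 (by linarith) (by positivity) (by positivity)
    have h6 : (0 : ℝ) ≤ 2 * W * I := by positivity
    have := mul_le_mul_of_nonneg_left h5 h6
    nlinarith
  have e5 : 2 * (x * I) * (I * (x * (1 - τ) * N - 1 - N * e))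
      = 2 * (1 - τ) * N * (x * I) ^ 2 - 2 * (x * (I : ℝ) ^ 2) - 2 * x * ((I : ℝ) ^ 2 * (N * e)) := by ring
  have e6 : 2 * x * ((I : ℝ) ^ 2 * (N * e)) ≤ (I : ℝ) ^ 2 * (N * e) := by
    have h5 : 0 ≤ (I : ℝ) ^ 2 * (N * e) := by positivity
    nlinarith
  rw [e5] at h4
  nlinarith

end Pool.Agent.H998_RN
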