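import Pool.Agent.H998_RN.Rough

/-! Rough numbers on trajectories, part 11: pairs. -/

set_option autoImplicit false

namespace Pool.Agent.H998_RN

open Finset
open Pool.Agent.Erdos456 Pool.Agent.Erdos456.SieveAux
open Pool.Agent.H998_BC (Ta terras kap cc cc_eq cc_pos Ta_ge avg)

/-- Selberg upper bound for two linear forms without small prime factors. -/
theorem rough_two (a₁ b₁ a₂ b₂ N X : ℕ) (ha₁ : 0 < a₁) (ha₂ : 0 < a₂) (hne : a₁ * b₂ ≠ a₂ * b₁)
    (hX1 : 1 ≤ X) (F : Finset ℕ) (hF : ∀ n ∈ F, n ∈ Icc 1 N ∧ ∀ p : ℕ, p.Prime → p ≤ X ^ 2 →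
      ¬ p ∣ (a₁ * n + b₁) * (a₂ * n + b₂)) :
    (F.card : ℝ) ≤ 32 * (((a₁ * a₂ * (((a₁ * b₂ : ℕ) : ℤ) - ((a₂ * b₁ : ℕ) : ℤ)).natAbs : ℕ) : ℝ) /
        ((Nat.totient (a₁ * a₂ * (((a₁ * b₂ : ℕ) : ℤ) - ((a₂ * b₁ : ℕ) : ℤ)).natAbs) : ℕ) : ℝ)) ^ 2
        * N / (Real.log (X + 1)) ^ 2 + (X : ℝ) ^ 12 := by
  have hDdef : a₁ * a₂ * (((a₁ * b₂ : ℕ) : ℤ) - ((a₂ * b₁ : ℕ) : ℤ)).natAbs = DD a₁ b₁ a₂ b₂ := rfl
  rw [hDdef]
  set D := DD a₁ b₁ a₂ b₂ with hD
  have hD0 : 0 < D := by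
    rw [hD]; unfold DD
    apply Nat.mul_pos (Nat.mul_pos ha₁ ha₂)
    rw [Int.natAbs_pos]
    intro h
    apply hne
    have : ((a₁ * b₂ : ℕ) : ℤ) = ((a₂ * b₁ : ℕ) : ℤ) := by linarith
    exact_mod_cast this
  have hX1r : (1 : ℝ) ≤ X := by exact_mod_cast hX1
  have hlog : 0 < Real.log (X + 1) := Real.log_pos (by linarith)
  set M := 2 * D with hM
  have hM2 : 2 ∣ M := dvd_mul_right _ _
  have hDM : D ∣ M := dvd_mul_left _ _
  have hM0 : M ≠ 0 := by omega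
  set R := X ^ 2 with hR
  have hR1 : 1 ≤ R := Nat.one_le_pow _ _ hX1
  set s := sv a₁ b₁ a₂ b₂ N R M hM2 with hs
  -- main Selberg bound
  have hsel := selberg_bound (s := s) R hR1 (A := R) (B := (R : ℝ) ^ 2) (by positivity) (by positivity)
    (by
      intro d hd hdR
      refine (g_div_nu_le hM2 (Nat.dvd_of_mem_divisors hd)).trans ?_
      exact_mod_cast hdR)
    (by
      intro d hd hdR
      refine (rem_le hM2 ha₁ ha₂ hDM (Nat.dvd_of_mem_divisors hd)).trans ?_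
      exact_mod_cast hdR)
  have hcard : (F.card : ℝ) ≤ s.siftedSum := by
    rw [hs, siftedSum_eq hM2 ha₁ ha₂]
    have h1 : F ⊆ (Icc 1 N).filter (fun n => Nat.Coprime (PR R M) (ff a₁ b₁ a₂ b₂ n)) := by
      intro n hn
      obtain ⟨h2, h3⟩ := hF n hn
      rw [mem_filter]
      refine ⟨h2, ?_⟩
      rw [Nat.coprime_iff_gcd_eq_one]
      by_contra h
      obtain ⟨p, hp, hpd⟩ := Nat.exists_prime_and_dvd h
      have h4 : p ∣ PR R M := hpd.trans (Nat.gcd_dvd_left _ _)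
      have h5 : p ∣ ff a₁ b₁ a₂ b₂ n := hpd.trans (Nat.gcd_dvd_right _ _)
      exact h3 p hp ((prime_dvd_PR hp).1 h4).1 h5
    exact_mod_cast card_le_card h1
  -- lower bound for J
  have hJ1 := JJ_lower (a₁ := a₁) (b₁ := b₁) (a₂ := a₂) (b₂ := b₂) (N := N) (X := X) hM2
  have hU := U_lower X M hM0
  have hUs := U_sq X M
  have hJpos : 0 < JJ s R := JJ_pos R hR1
  have htot : (0 : ℝ) < Nat.totient D := by exact_mod_cast Nat.totient_pos.2 hD0
  have htotM : (0 : ℝ) < Nat.totient M := by exact_mod_cast Nat.totient_pos.2 (Nat.pos_of_ne_zero hM0)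
  have hDr : (0 : ℝ) < D := by exact_mod_cast hD0
  set G := (D : ℝ) / (Nat.totient D : ℝ) with hG
  have hG1 : 1 ≤ G := by
    rw [hG, one_le_div htot]
    exact_mod_cast Nat.totient_le D
  have hMG : (M : ℝ) / (Nat.totient M : ℝ) ≤ 2 * G := by
    rw [hG, hM, ← mul_div_assoc]
    push_cast
    apply div_le_div_of_nonneg_left (by positivity) htot
    have : Nat.totient D ≤ Nat.totient (2 * D) :=
      Nat.le_of_dvd (Nat.totient_pos.2 (by omega)) (Nat.totient_dvd_of_dvd (dvd_mul_left _ _))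
    exact_mod_cast this
  have hU0 : 0 ≤ U X M := Finset.sum_nonneg fun _ _ => by positivity
  have h1 : Real.log (X + 1) ≤ 2 * (2 * G) * U X M := by
    refine hU.trans ?_
    gcongr
  have hJ2 : (Real.log (X + 1)) ^ 2 ≤ 32 * G ^ 2 * JJ s R := by
    calc (Real.log (X + 1)) ^ 2 ≤ (2 * (2 * G) * U X M) ^ 2 := by gcongr
      _ = 16 * G ^ 2 * (U X M) ^ 2 := by ring
      _ ≤ 16 * G ^ 2 * (2 * JJ s R) := by
          gcongr
          refine hUs.trans ?_
          linarith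
      _ = _ := by ring
  have hmain : s.totalMass / JJ s R ≤ 32 * G ^ 2 * N / (Real.log (X + 1)) ^ 2 := by
    show (N : ℝ) / JJ s R ≤ _
    rw [div_le_div_iff₀ hJpos (by positivity)]
    calc (N : ℝ) * (Real.log (X + 1)) ^ 2 ≤ N * (32 * G ^ 2 * JJ s R) := by gcongr
      _ = _ := by ring
  have hRr : (R : ℝ) = (X : ℝ) ^ 2 := by rw [hR]; push_cast; ring
  have he2 : (R : ℝ) ^ 2 * ((R : ℝ) * R) ^ 2 = (X : ℝ) ^ 12 := by
    rw [hRr]; ring
  linarith

/-- rough numbers whose `t`-th iterate is rough, in one class -/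
theorem rough_class {Y : ℕ} (hY : 1 ≤ Y) {X : ℝ} (hX : Real.exp 100 ≤ X) (hYX : (Y : ℝ) ^ 28 ≤ X)
    {t j r v : ℕ} (ht : 1 ≤ t) (hrodd : r % 2 = 1) (hM : (2 : ℝ) ^ t * 3 ^ j ≤ Real.sqrt X)
    (F : Finset ℕ) (hF : ∀ p ∈ F, (X ≤ (p : ℝ) ∧ (p : ℝ) ≤ 2 * X) ∧ p % 2 ^ t = r ∧ p % 3 ^ j = v ∧
      ∀ q : ℕ, q.Prime → q ≤ Y ^ 2 → ¬ q ∣ p * Ta^[t] p) :
    (F.card : ℝ) ≤ 1025 * ((cc t r : ℝ) / Nat.totient (cc t r)) ^ 2 * (X / (2 ^ t * 3 ^ j))
      / (Real.log (Y + 1)) ^ 2 := by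
  have hlX : 100 ≤ Real.log X := by
    rw [← Real.log_exp 100]; exact Real.log_le_log (Real.exp_pos _) hX
  have hX101 : 101 ≤ X := by linarith [Real.add_one_le_exp (100 : ℝ)]
  have hX0 : 0 < X := by linarith
  have hY1 : (1 : ℝ) ≤ Y := by exact_mod_cast hY
  have hlY : 0 < Real.log (Y + 1) := Real.log_pos (by linarith)
  rcases F.eq_empty_or_nonempty with hFe | ⟨p₀, hp₀⟩
  · rw [hFe, card_empty, Nat.cast_zero]
    positivity
  obtain ⟨⟨hp2, hp1⟩, hp3, hp4, hp5⟩ := hF p₀ hp₀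
  have hp₀X : 100 < p₀ := by
    have : (100 : ℝ) < p₀ := by linarith
    exact_mod_cast this
  set M : ℕ := 2 ^ t * 3 ^ j with hMdef
  have hM0 : 0 < M := by positivity
  have hMR : (M : ℝ) ≤ Real.sqrt X := by rw [hMdef]; push_cast; exact hM
  have hsq : Real.sqrt X * Real.sqrt X = X := Real.mul_self_sqrt hX0.le
  have hsX : 10 ≤ Real.sqrt X := by
    apply Real.le_sqrt_of_sq_le; norm_num; linarith
  have hMX : (M : ℝ) ≤ X / 10 := by nlinarith
  have hcop : Nat.Coprime (2 ^ t) (3 ^ j) := Nat.Coprime.pow _ _ (by norm_num)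
  -- the form of the elements
  set b₁ : ℕ := p₀ % M with hb₁
  set s₀ : ℕ := b₁ / 2 ^ t with hs₀
  have hb1t : b₁ % 2 ^ t = r := by
    rw [hb₁, Nat.mod_mod_of_dvd _ (Dvd.intro _ rfl)]; exact hp3
  have hb1 : 2 ^ t * s₀ + r = b₁ := by
    rw [hs₀, ← hb1t]; exact Nat.div_add_mod b₁ (2 ^ t)
  set κ := kap t r with hκ
  set b₂ : ℕ := 3 ^ κ * s₀ + Ta^[t] r with hb₂
  have hform : ∀ n : ℕ, Ta^[t] (M * n + b₁) = 3 ^ (κ + j) * n + b₂ := by
    intro n
    have e : M * n + b₁ = 2 ^ t * (3 ^ j * n + s₀) + r := by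
      rw [← hb1, hMdef]; ring
    rw [e, terras, hb₂, pow_add]; ring
  have hp₀M : p₀ = M * (p₀ / M) + b₁ := (Nat.div_add_mod p₀ M).symm
  have hcc1 : 1 ≤ cc t r := cc_pos ht hrodd
  have hdiff : M * b₂ = 3 ^ (κ + j) * b₁ + 3 ^ j * cc t r := by
    have h1 := cc_eq t r
    rw [← hκ] at h1
    calc M * b₂ = 3 ^ j * (2 ^ t * 3 ^ κ * s₀ + 2 ^ t * Ta^[t] r) := by rw [hMdef, hb₂]; ring
      _ = 3 ^ j * (2 ^ t * 3 ^ κ * s₀ + (3 ^ κ * r + cc t r)) := by rw [h1]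
      _ = 3 ^ (κ + j) * (2 ^ t * s₀ + r) + 3 ^ j * cc t r := by rw [pow_add]; ring
      _ = _ := by rw [hb1]
  have h3cc : 1 ≤ 3 ^ j * cc t r := Nat.one_le_iff_ne_zero.2 (by positivity)
  have hne : M * b₂ ≠ 3 ^ (κ + j) * b₁ := by omega
  -- the number of values of `n`
  obtain ⟨N, hN⟩ : ∃ N : ℕ, N = ⌊2 * X / M⌋₊ := ⟨_, rfl⟩
  have hMR0 : (0 : ℝ) < M := by exact_mod_cast hM0
  have hN1 : (N : ℝ) ≤ 2 * X / M := by rw [hN]; exact Nat.floor_le (by positivity)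
  have hN2 : Real.sqrt X ≤ N := by
    have h1 : 2 * Real.sqrt X ≤ 2 * X / M := by
      rw [le_div_iff₀ hMR0]
      nlinarith [Real.sqrt_nonneg X]
    have h2 : 2 * X / M - 1 ≤ N := by rw [hN]; linarith [Nat.lt_floor_add_one (2 * X / M)]
    linarith
  have hN2' : 2 ≤ N := by
    have : (2 : ℝ) ≤ N := by linarith
    exact_mod_cast this
  have hcard : (F.image (fun p => p / M)).card = F.card := by
    apply card_image_of_injOn
    intro p hp q hq hpq
    have hp' := hF p hp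
    have hq' := hF q hq
    have h1 : p ≡ q [MOD M] := by
      apply (Nat.modEq_and_modEq_iff_modEq_mul hcop).1
      constructor
      · show p % 2 ^ t = q % 2 ^ t
        rw [hp'.2.1, hq'.2.1]
      · show p % 3 ^ j = q % 3 ^ j
        rw [hp'.2.2.1, hq'.2.2.1]
    have h2 : p % M = q % M := h1
    have hpq' : p / M = q / M := hpq
    rw [← Nat.div_add_mod p M, ← Nat.div_add_mod q M, hpq', h2]
  have hs := rough_two M b₁ (3 ^ (κ + j)) b₂ N Y hM0 (by positivity) hne hY (F.image (fun p => p / M)) (by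
    intro n hn
    rw [mem_image] at hn
    obtain ⟨p, hp, rfl⟩ := hn
    obtain ⟨⟨g2, g1⟩, g3, g4, g5⟩ := hF p hp
    have hmod : p % M = b₁ := by
      rw [hb₁]
      have h1 : p ≡ p₀ [MOD 2 ^ t] := by
        show p % 2 ^ t = p₀ % 2 ^ t
        rw [g3, hp3]
      have h2 : p ≡ p₀ [MOD 3 ^ j] := by
        show p % 3 ^ j = p₀ % 3 ^ j
        rw [g4, hp4]
      exact (Nat.modEq_and_modEq_iff_modEq_mul hcop).1 ⟨h1, h2⟩
    have hpM : p = M * (p / M) + b₁ := by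
      rw [← hmod]; exact (Nat.div_add_mod p M).symm
    refine ⟨?_, ?_⟩
    · rw [mem_Icc]
      refine ⟨?_, ?_⟩
      · rw [Nat.one_le_div_iff hM0]
        have : (M : ℝ) ≤ p := by linarith
        exact_mod_cast this
      · rw [hN]
        apply Nat.le_floor
        rw [le_div_iff₀ hMR0]
        have h1 : p / M * M ≤ p := Nat.div_mul_le_self _ _
        have h3 : (((p / M * M : ℕ)) : ℝ) ≤ p := by exact_mod_cast h1
        push_cast at h3
        linarith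
    · have h6 := hform (p / M)
      rw [← hpM] at h6
      rw [← hpM, ← h6]
      exact g5)
  rw [hcard] at hs
  -- the discriminant
  set D : ℕ := M * 3 ^ (κ + j) * (((M * b₂ : ℕ) : ℤ) - ((3 ^ (κ + j) * b₁ : ℕ) : ℤ)).natAbs with hD
  have hDval : D = M * 3 ^ (κ + j) * (3 ^ j * cc t r) := by
    rw [hD]
    congr 1
    rw [hdiff]
    push_cast
    rw [add_sub_cancel_left]
    exact Int.natAbs_natCast _
  have hD1 : 1 ≤ D := by rw [hDval]; exact Nat.one_le_iff_ne_zero.2 (by positivity)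
  set ρ : ℝ := (cc t r : ℝ) / Nat.totient (cc t r) with hρ
  have hρ0 : 0 ≤ ρ := by rw [hρ]; positivity
  have h2pow : ∀ i : ℕ, ((2 ^ i : ℕ) : ℝ) ≤ 2 * Nat.totient (2 ^ i) := by
    intro i
    rcases Nat.eq_zero_or_pos i with rfl | hi
    · simp
    · rw [Nat.totient_prime_pow Nat.prime_two hi]
      obtain ⟨i', rfl⟩ : ∃ i', i = i' + 1 := ⟨i - 1, by omega⟩
      rw [Nat.add_sub_cancel]
      push_cast
      rw [pow_succ]
      have : (0 : ℝ) < 2 ^ i' := by positivity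
      nlinarith
  have h3pow : ∀ i : ℕ, ((3 ^ i : ℕ) : ℝ) ≤ 2 * Nat.totient (3 ^ i) := by
    intro i
    rcases Nat.eq_zero_or_pos i with rfl | hi
    · simp
    · rw [Nat.totient_prime_pow Nat.prime_three hi]
      obtain ⟨i', rfl⟩ : ∃ i', i = i' + 1 := ⟨i - 1, by omega⟩
      rw [Nat.add_sub_cancel]
      push_cast
      rw [pow_succ]
      have : (0 : ℝ) < 3 ^ i' := by positivity
      nlinarith
  have hratio : (D : ℝ) / (Nat.totient D : ℝ) ≤ 4 * ρ := by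
    have hDv : D = 2 ^ t * (3 ^ (j + (κ + j) + j) * cc t r) := by
      rw [hDval, hMdef]; ring
    have h1 : Nat.totient (2 ^ t) * (Nat.totient (3 ^ (j + (κ + j) + j)) * Nat.totient (cc t r))
        ≤ Nat.totient D := by
      rw [hDv]
      exact (Nat.mul_le_mul_left _ (Nat.totient_super_multiplicative _ _)).trans
        (Nat.totient_super_multiplicative _ _)
    have t2 : (0 : ℝ) < Nat.totient (2 ^ t) := by exact_mod_cast Nat.totient_pos.2 (by positivity)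
    have t3 : (0 : ℝ) < Nat.totient (3 ^ (j + (κ + j) + j)) := by
      exact_mod_cast Nat.totient_pos.2 (by positivity)
    have t4 : (0 : ℝ) < Nat.totient (cc t r) := by exact_mod_cast Nat.totient_pos.2 hcc1
    have h5 : ((Nat.totient (2 ^ t) * (Nat.totient (3 ^ (j + (κ + j) + j)) * Nat.totient (cc t r)) : ℕ) : ℝ)
        ≤ Nat.totient D := by exact_mod_cast h1
    rw [Nat.cast_mul, Nat.cast_mul] at h5
    calc (D : ℝ) / (Nat.totient D : ℝ)
        ≤ (D : ℝ) / ((Nat.totient (2 ^ t) : ℝ) * ((Nat.totient (3 ^ (j + (κ + j) + j)) : ℝ)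
            * Nat.totient (cc t r))) := by
          apply div_le_div_of_nonneg_left (Nat.cast_nonneg _) (by positivity) h5
      _ = (((2 ^ t : ℕ) : ℝ) / Nat.totient (2 ^ t)) * ((((3 ^ (j + (κ + j) + j) : ℕ) : ℝ)
            / Nat.totient (3 ^ (j + (κ + j) + j))) * ρ) := by
          rw [hDv, Nat.cast_mul, Nat.cast_mul, hρ]
          field_simp
      _ ≤ 2 * (2 * ρ) := by
          apply mul_le_mul
          · rw [div_le_iff₀ t2]; exact h2pow t
          · apply mul_le_mul_of_nonneg_right _ hρ0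
            rw [div_le_iff₀ t3]; exact h3pow _
          · positivity
          · norm_num
      _ = _ := by ring
  have hratio0 : 0 ≤ (D : ℝ) / (Nat.totient D : ℝ) := by positivity
  have hρ1 : 1 ≤ ρ := by
    have t4 : (0 : ℝ) < Nat.totient (cc t r) := by exact_mod_cast Nat.totient_pos.2 hcc1
    rw [hρ, one_le_div t4]
    exact_mod_cast Nat.totient_le _
  have hY12 : (Y : ℝ) ^ 12 ≤ 1 * ρ ^ 2 * (X / M) / (Real.log (Y + 1)) ^ 2 := by
    rw [le_div_iff₀ (by positivity)]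
    have h1 : Real.log (Y + 1) ≤ Y := by
      have := Real.log_le_sub_one_of_pos (show (0 : ℝ) < Y + 1 by linarith)
      linarith
    have h2 : (Real.log (Y + 1)) ^ 2 ≤ (Y : ℝ) ^ 2 := pow_le_pow_left₀ hlY.le h1 2
    have h3 : (Y : ℝ) ^ 14 ≤ Real.sqrt X := by
      apply Real.le_sqrt_of_sq_le
      rw [← pow_mul]; exact hYX
    have h4 : Real.sqrt X ≤ X / M := by
      rw [le_div_iff₀ hMR0]
      nlinarith [Real.sqrt_nonneg X]
    have h5 : 1 ≤ ρ ^ 2 := one_le_pow₀ hρ1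
    have h6 : 0 ≤ X / M := by positivity
    calc (Y : ℝ) ^ 12 * Real.log (Y + 1) ^ 2 ≤ (Y : ℝ) ^ 12 * (Y : ℝ) ^ 2 :=
          mul_le_mul_of_nonneg_left h2 (by positivity)
      _ = (Y : ℝ) ^ 14 := by ring
      _ ≤ X / M := h3.trans h4
      _ ≤ 1 * ρ ^ 2 * (X / M) := by nlinarith
  calc (F.card : ℝ) ≤ 32 * ((D : ℝ) / (Nat.totient D : ℝ)) ^ 2 * N / (Real.log (Y + 1)) ^ 2
        + (Y : ℝ) ^ 12 := hs
    _ ≤ 32 * (4 * ρ) ^ 2 * (2 * X / M) / (Real.log (Y + 1)) ^ 2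
        + 1 * ρ ^ 2 * (X / M) / (Real.log (Y + 1)) ^ 2 := by
        apply add_le_add _ hY12
        apply div_le_div_of_nonneg_right _ (by positivity)
        apply mul_le_mul _ hN1 (Nat.cast_nonneg _) (by positivity)
        exact mul_le_mul_of_nonneg_left (pow_le_pow_left₀ hratio0 hratio 2) (by norm_num)
    _ = _ := by
        have : (M : ℝ) = 2 ^ t * 3 ^ j := by rw [hMdef]; push_cast; ring
        rw [this]
        field_simp
        ring

/-- the same without fixing the class modulo `2^t` -/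
theorem rough_count : ∃ C : ℝ, 0 < C ∧ ∀ Y : ℕ, 1 ≤ Y → ∀ X : ℝ, Real.exp 100 ≤ X → (Y : ℝ) ^ 28 ≤ X →
    ∀ t j v : ℕ, 1 ≤ t → (2 : ℝ) ^ t * 3 ^ j ≤ Real.sqrt X →
    ∀ F : Finset ℕ, (∀ p ∈ F, (X ≤ (p : ℝ) ∧ (p : ℝ) ≤ 2 * X) ∧ p % 2 = 1 ∧ p % 3 ^ j = v ∧
      ∀ q : ℕ, q.Prime → q ≤ Y ^ 2 → ¬ q ∣ p * Ta^[t] p) →
    (F.card : ℝ) ≤ C * (X / 3 ^ j) / (Real.log (Y + 1)) ^ 2 := by
  obtain ⟨C', hC', havg⟩ := avg
  refine ⟨1025 * C', by positivity, fun Y hY X hX hYX t j v ht hM F hF => ?_⟩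
  have hX101 : 101 ≤ X := by linarith [Real.add_one_le_exp (100 : ℝ)]
  have hX0 : 0 < X := by linarith
  have hY1 : (1 : ℝ) ≤ Y := by exact_mod_cast hY
  have hlY : 0 < Real.log (Y + 1) := Real.log_pos (by linarith)
  have hsub : F ⊆ ((range (2 ^ t)).filter (fun r => r % 2 = 1)).biUnion (fun r =>
        F.filter (fun p : ℕ => p % 2 ^ t = r)) := by
    intro p hp
    rw [mem_biUnion]
    refine ⟨p % 2 ^ t, ?_, ?_⟩
    · rw [mem_filter, mem_range]
      refine ⟨Nat.mod_lt _ (by positivity), ?_⟩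
      rw [Nat.mod_mod_of_dvd _ (dvd_pow_self 2 (by omega))]
      exact (hF p hp).2.1
    · rw [mem_filter]
      exact ⟨hp, rfl⟩
  have h1 : (F.card : ℝ) ≤ ∑ r ∈ (range (2 ^ t)).filter (fun r => r % 2 = 1),
        ((F.filter (fun p : ℕ => p % 2 ^ t = r)).card : ℝ) := by
    exact_mod_cast (card_le_card hsub).trans card_biUnion_le
  refine h1.trans ?_
  calc ∑ r ∈ (range (2 ^ t)).filter (fun r => r % 2 = 1),
        ((F.filter (fun p : ℕ => p % 2 ^ t = r)).card : ℝ)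
      ≤ ∑ r ∈ (range (2 ^ t)).filter (fun r => r % 2 = 1),
        (1025 * (X / (2 ^ t * 3 ^ j)) / (Real.log (Y + 1)) ^ 2) * ((cc t r : ℝ) / Nat.totient (cc t r)) ^ 2 := by
        apply sum_le_sum
        intro r hr
        refine (rough_class hY hX hYX ht (mem_filter.1 hr).2 hM (F.filter (fun p : ℕ => p % 2 ^ t = r))
          (v := v) (fun p hp => ?_)).trans (le_of_eq ?_)
        · rw [mem_filter] at hp
          obtain ⟨g1, g2, g3, g4⟩ := hF p hp.1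
          exact ⟨g1, hp.2, g3, g4⟩
        · ring
    _ = (1025 * (X / (2 ^ t * 3 ^ j)) / (Real.log (Y + 1)) ^ 2) * ∑ r ∈ (range (2 ^ t)).filter (fun r => r % 2 = 1),
        ((cc t r : ℝ) / Nat.totient (cc t r)) ^ 2 := by rw [mul_sum]
    _ ≤ (1025 * (X / (2 ^ t * 3 ^ j)) / (Real.log (Y + 1)) ^ 2) * (C' * 2 ^ t) :=
        mul_le_mul_of_nonneg_left (havg t ht) (by positivity)
    _ = _ := by
        field_simp

end Pool.Agent.H998_RN
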