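import Pool.Agent.H998_RN.Ap
import Pool.Agent.H998_RN.Mert

/-! Rough numbers on trajectories, part 10: the set of rough numbers. -/

set_option autoImplicit false

namespace Pool.Agent.H998_RN

open Finset Filter Topology
open Pool.Agent.H320R2.PD Pool.Agent.H499R2.ND
open Pool.Agent.W41

/-- odd positive numbers without prime factors `p` with `p ^ u ≤ x`, with residue in `R` modulo `3` -/
def Ru (u : ℕ) (R : Set ℤ) : Set ℤ :=
  {x : ℤ | 0 < x ∧ Odd x ∧ x % 3 ∈ R ∧ ∀ p : ℕ, p.Prime → (p : ℤ) ^ u ≤ x → ¬ (p : ℤ) ∣ x}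

theorem Ru_sift {u : ℕ} (hu : 1 ≤ u) {R : Set ℤ} {x : ℤ} (hx : x ∈ Ru u R) {L : ℝ} (hL : 0 ≤ L)
    (hLx : L ≤ x) : ∀ p ∈ PP (yy u L), ¬ (p : ℤ) ∣ x := by
  intro p hp
  rw [mem_PP] at hp
  apply hx.2.2.2 p hp.1
  have h1 := ((yy_pow hu hL).1 hp.2.2).trans hLx
  exact_mod_cast h1

theorem Ru_of {u : ℕ} (hu : 1 ≤ u) {R : Set ℤ} (hR : ∀ r ∈ R, r = 1 ∨ r = 2) {x : ℤ} (h0 : 0 < x)
    (hodd : Odd x) (h3 : x % 3 ∈ R) {L : ℝ} (hL : 0 ≤ L) (hxL : (x : ℝ) < L)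
    (hs : ∀ p ∈ PP (yy u L), ¬ (p : ℤ) ∣ x) : x ∈ Ru u R := by
  refine ⟨h0, hodd, h3, fun p hp hpx hd => ?_⟩
  have h2 : p ≠ 2 := by
    rintro rfl
    have : ¬ Even x := by rwa [Int.not_even_iff_odd]
    exact this (even_iff_two_dvd.2 (by exact_mod_cast hd))
  have h33 : p ≠ 3 := by
    rintro rfl
    have h1 : x % 3 = 0 := Int.emod_eq_zero_of_dvd (by exact_mod_cast hd)
    rcases hR _ h3 with h | h <;> omega
  have h5 : 5 ≤ p := by
    have h4 : p ≠ 4 := by rintro rfl; revert hp; norm_num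
    have := hp.two_le
    omega
  have hle : p ≤ yy u L := by
    rw [yy_pow hu hL]
    have : ((p : ℤ) ^ u : ℝ) ≤ x := by exact_mod_cast hpx
    push_cast at this
    linarith
  exact hs p (mem_PP.2 ⟨hp, h5, hle⟩) hd

theorem wt_sum (P : Finset ℕ) (A B : ℤ) (X : ℕ) :
    ∑ t ∈ Icc 1 X, wt P A B (t : ℕ) = ∑ g ∈ range X, wt P A B (1 + (g : ℕ)) := by
  have e0 : Icc 1 X = Ico 1 (X + 1) := by ext; simp
  rw [e0, sum_Ico_eq_sum_range, Nat.add_sub_cancel]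
  apply sum_congr rfl
  intro g _
  push_cast
  rfl

theorem th_ge {u : ℕ} (hu : 1 ≤ u) : (u : ℝ) / 3 ≤ th u := by
  unfold th
  have h1 := Real.add_one_le_exp (-Real.eulerMascheroniConstant)
  have h2 := Real.eulerMascheroniConstant_lt_two_thirds
  have huR : (0 : ℝ) < u := by positivity
  have : (1 / 3 : ℝ) ≤ Real.exp (-Real.eulerMascheroniConstant) := by linarith
  have := mul_le_mul_of_nonneg_right this huR.le
  linarith

theorem th_le (u : ℕ) : th u ≤ u := by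
  unfold th
  have h2 := Real.one_half_lt_eulerMascheroniConstant
  have : Real.exp (-Real.eulerMascheroniConstant) ≤ 1 := Real.exp_le_one_iff.2 (by linarith)
  have := mul_le_mul_of_nonneg_right this (Nat.cast_nonneg u)
  linarith

/-- the sifting limit is small -/
theorem yy_small {u K : ℕ} (hu : 4 * K ≤ u) (hu1 : 1 ≤ u) {L : ℝ} (hL : 16 ≤ L) (hy : 1 ≤ yy u L) :
    ((yy u L : ℕ) : ℝ) ^ K ≤ Real.sqrt L / 2 ∧ (((yy u L : ℕ) : ℝ) ^ K) ^ 4 ≤ L := by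
  have h1 : ((yy u L : ℕ) : ℝ) ^ u ≤ L := (yy_pow hu1 (by linarith)).1 le_rfl
  have hyR : (1 : ℝ) ≤ ((yy u L : ℕ) : ℝ) := by exact_mod_cast hy
  have h2 : (((yy u L : ℕ) : ℝ) ^ K) ^ 4 ≤ L := by
    rw [← pow_mul]
    refine (pow_le_pow_right₀ hyR ?_).trans h1
    omega
  refine ⟨?_, h2⟩
  set z := ((yy u L : ℕ) : ℝ) ^ K with hz
  have hz0 : 0 ≤ z := by positivity
  have hs := Real.sq_sqrt (by linarith : 0 ≤ L)
  have hs0 := Real.sqrt_nonneg L
  have hs4 : 4 ≤ Real.sqrt L := Real.le_sqrt_of_sq_le (by linarith)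
  by_contra hcon
  push Not at hcon
  have h3 : (Real.sqrt L / 2) ^ 2 < z ^ 2 := pow_lt_pow_left₀ hcon (by positivity) (by norm_num)
  have h4 : ((Real.sqrt L / 2) ^ 2) ^ 2 < (z ^ 2) ^ 2 := pow_lt_pow_left₀ h3 (by positivity) (by norm_num)
  have h5 : (z ^ 2) ^ 2 = z ^ 4 := by ring
  rw [h5] at h4
  have h6 : ((Real.sqrt L / 2) ^ 2) ^ 2 = L ^ 2 / 16 := by
    rw [div_pow, hs]; ring
  rw [h6] at h4
  nlinarith

/-- the class bound -/
theorem Ru_rg : ∃ u₀ : ℕ, 1 ≤ u₀ ∧ ∀ u : ℕ, u₀ ≤ u → ∃ X₁ : ℝ, ∀ R : Set ℤ, Rg (Ru u R) R (8 * th u) X₁ := by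
  obtain ⟨K, y0, hK, hy0, hw⟩ := window (show (0 : ℝ) < 1 by norm_num)
  refine ⟨4 * K, by omega, fun u hu => ?_⟩
  have hu1 : 1 ≤ u := by omega
  have hth := th_ge hu1
  have huR : (1 : ℝ) ≤ u := by exact_mod_cast hu1
  have hth0 : 0 < th u := by linarith
  have hV : ∀ᶠ L : ℝ in atTop, V (PP (yy u L)) * Real.log L ≤ 4 * th u :=
    (V_yy hu1).eventually_le_const (by linarith)
  obtain ⟨X₁, hX₁⟩ := eventually_atTop.1 (hV.and ((yy_tendsto hu1).eventually_ge_atTop y0))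
  refine ⟨max X₁ (Real.exp 100), fun R => ⟨fun x hx => hx.2.1, fun x hx => hx.2.2.1, by linarith,
    le_max_right _ _, ?_⟩⟩
  intro L hL n hn a v ha
  obtain ⟨hV1, hy1⟩ := hX₁ L ((le_max_left _ _).trans hL)
  have hL100 : Real.exp 100 ≤ L := (le_max_right _ _).trans hL
  have hL101 : 101 ≤ L := by linarith [Real.add_one_le_exp (100 : ℝ)]
  have hL0 : 0 < L := by linarith
  have hlog : 0 < Real.log L := Real.log_pos (by linarith)
  obtain ⟨A₀, hA1, hA2, hA⟩ := ap_param n ha v L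
  have hB : (0 : ℝ) < 2 * 3 ^ n := by positivity
  have hsm := (yy_small (K := K) hu hu1 (by linarith) (by omega : 1 ≤ yy u L)).1
  have hdiv : Real.sqrt L / 2 ≤ L / (2 * 3 ^ n) := by
    rw [div_le_div_iff₀ (by norm_num) hB]
    have hs := Real.mul_self_sqrt hL0.le
    have := mul_le_mul_of_nonneg_left hn (Real.sqrt_nonneg L)
    linarith
  have hX : yy u L ^ K ≤ nT L n + 1 := by
    have h1 := lt_nT L n
    have : ((yy u L ^ K : ℕ) : ℝ) ≤ ((nT L n + 1 : ℕ) : ℝ) := by push_cast; linarith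
    exact_mod_cast this
  have hwin := hw (yy u L) hy1 (nT L n + 1) hX (PP (yy u L)) (fun p hp => PP_prime hp) A₀ (2 * 3 ^ n)
    (fun p hp => PP_ndvd hp n) 1
  have hVp := V_pos (P := PP (yy u L)) (fun p hp => (PP_prime hp).1)
  have h1 := cls_le_sum (Q := Ru u R) hL0.le hA1 hA2 hA (fun t => wt (PP (yy u L)) A₀ (2 * 3 ^ n) t)
    (fun t => wt_nonneg _ _ _ _) (fun t hQ hL1 _ _ => by
      unfold wt
      rw [if_pos]
      exact Ru_sift hu1 hQ hL0.le hL1)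
  rw [wt_sum] at h1
  have h2 := (abs_le.1 hwin).2
  have hn1 : ((nT L n + 1 : ℕ) : ℝ) ≤ L / 3 ^ n := by
    push_cast
    have g1 := nT_le hL0.le n
    have g2 : 4 ≤ Real.sqrt L := Real.le_sqrt_of_sq_le (by linarith)
    have g3 : L / (2 * 3 ^ n) = (L / 3 ^ n) / 2 := by field_simp
    rw [g3] at g1 hdiv
    linarith
  have h3 : ((nT L n + 1 : ℕ) : ℝ) * V (PP (yy u L)) ≤ L / 3 ^ n * (4 * th u / Real.log L) := by
    apply mul_le_mul hn1 _ hVp.le (by positivity)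
    rw [le_div_iff₀ hlog]; exact hV1
  calc ((cls (Ru u R) L (2 * L) n a v).card : ℝ) ≤ _ := h1
    _ ≤ 2 * (((nT L n + 1 : ℕ) : ℝ) * V (PP (yy u L))) := by linarith
    _ ≤ 2 * (L / 3 ^ n * (4 * th u / Real.log L)) := by linarith
    _ = _ := by field_simp; ring

/-- the density in the classes modulo powers of three -/
theorem Ru_dens {ε : ℝ} (hε : 0 < ε) (hε1 : ε ≤ 1) : ∃ u₀ : ℕ, 1 ≤ u₀ ∧ ∀ u : ℕ, u₀ ≤ u → ∀ m : ℕ, 1 ≤ m →
    ∃ X₂ : ℝ, ∀ L : ℝ, X₂ ≤ L → ∀ R : Set ℤ, (∀ r ∈ R, r = 1 ∨ r = 2) → ∀ c : ℤ, c % 3 ∈ R →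
    (1 - ε) * th u * (3 / 2) * (L / (3 ^ m * Real.log L)) ≤ ((cls (Ru u R) L (2 * L) m 1 c).card : ℝ) ∧
    ((cls (Ru u R) L (2 * L) m 1 c).card : ℝ) ≤ (1 + ε) * th u * (3 / 2) * (L / (3 ^ m * Real.log L)) := by
  obtain ⟨K, y0, hK, hy0, hw⟩ := window (show (0 : ℝ) < ε / 4 by positivity)
  refine ⟨4 * K, by omega, fun u hu m hm => ?_⟩
  have hu1 : 1 ≤ u := by omega
  have hth := th_ge hu1
  have huR : (1 : ℝ) ≤ u := by exact_mod_cast hu1
  have hth0 : 0 < th u := by linarith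
  have hB : (0 : ℝ) < 2 * 3 ^ m := by positivity
  have hV : ∀ᶠ L : ℝ in atTop, V (PP (yy u L)) * Real.log L ≤ 3 * th u * (1 + ε / 4) :=
    (V_yy hu1).eventually_le_const (by nlinarith)
  have hV2 : ∀ᶠ L : ℝ in atTop, 3 * th u * (1 - ε / 4) ≤ V (PP (yy u (2 * L))) * Real.log L :=
    (V_yy2 hu1).eventually_const_le (by nlinarith)
  have hdiv : Tendsto (fun L : ℝ => L / (2 * 3 ^ m)) atTop atTop :=
    tendsto_id.atTop_div_const hB
  have hy2 : ∀ᶠ L : ℝ in atTop, y0 ≤ yy u (2 * L) :=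
    ((yy_tendsto hu1).comp (tendsto_id.const_mul_atTop (by norm_num : (0 : ℝ) < 2))).eventually_ge_atTop y0
  have hsq : ∀ᶠ L : ℝ in atTop, 4 * (2 * 3 ^ m) + 4 ≤ Real.sqrt L :=
    Real.tendsto_sqrt_atTop.eventually_ge_atTop _
  obtain ⟨X₁, hX₁⟩ := eventually_atTop.1 (hV.and (hV2.and (((yy_tendsto hu1).eventually_ge_atTop y0).and
    (hy2.and ((hdiv.eventually_ge_atTop (4 / ε)).and hsq)))))
  refine ⟨max X₁ 16, ?_⟩
  intro L hL R hR c hc
  obtain ⟨hV1, hV2, hy1, hy2, hdivL, hsqL⟩ := hX₁ L ((le_max_left _ _).trans hL)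
  have hL16 : 16 ≤ L := (le_max_right _ _).trans hL
  have hL0 : 0 < L := by linarith
  have hlog : 0 < Real.log L := Real.log_pos (by linarith)
  obtain ⟨A₀, hA1, hA2, hA⟩ := ap_param m (isCoprime_one_left (x := (3 : ℤ))) c L
  have hnT1 := nT_le hL0.le m
  have hnT2 := lt_nT L m
  have hone : 1 ≤ ε / 4 * (L / (2 * 3 ^ m)) := by
    rw [div_le_iff₀ hε] at hdivL
    linarith
  have hs := Real.mul_self_sqrt hL0.le
  -- the number of terms against the sifting limit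
  have hbig : Real.sqrt L ≤ L / (2 * 3 ^ m) - 1 := by
    rw [le_sub_iff_add_le, le_div_iff₀ hB]
    have h3 : (1 : ℝ) ≤ 3 ^ m := one_le_pow₀ (by norm_num)
    nlinarith [Real.sqrt_nonneg L]
  have hXn : yy u L ^ K ≤ nT L m + 1 := by
    have g := (yy_small (K := K) hu hu1 hL16 (by omega : 1 ≤ yy u L)).1
    have : ((yy u L ^ K : ℕ) : ℝ) ≤ ((nT L m + 1 : ℕ) : ℝ) := by
      push_cast
      linarith [Real.sqrt_nonneg L]
    exact_mod_cast this
  have hXn2 : yy u (2 * L) ^ K ≤ nT L m := by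
    have g := (yy_small (K := K) hu hu1 (by linarith : 16 ≤ 2 * L) (by omega : 1 ≤ yy u (2 * L))).1
    have h4 : Real.sqrt (2 * L) ≤ 2 * Real.sqrt L := by
      rw [Real.sqrt_le_left (by positivity)]
      nlinarith
    have : ((yy u (2 * L) ^ K : ℕ) : ℝ) ≤ ((nT L m : ℕ) : ℝ) := by
      push_cast
      linarith [Real.sqrt_nonneg L]
    exact_mod_cast this
  have hVp := V_pos (P := PP (yy u L)) (fun p hp => (PP_prime hp).1)
  have hVp2 := V_pos (P := PP (yy u (2 * L))) (fun p hp => (PP_prime hp).1)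
  have hmain : L / (2 * 3 ^ m) * (3 * th u / Real.log L) = th u * (3 / 2) * (L / (3 ^ m * Real.log L)) := by
    field_simp
  constructor
  · have hwin := hw (yy u (2 * L)) hy2 (nT L m) hXn2 (PP (yy u (2 * L))) (fun p hp => PP_prime hp) A₀
      (2 * 3 ^ m) (fun p hp => PP_ndvd hp m) 1
    have h1 := sum_le_cls (Q := Ru u R) hL0.le hA1 hA2 hA (fun t => wt (PP (yy u (2 * L))) A₀ (2 * 3 ^ m) t)
      (fun t => wt_le_one _ _ _ _) (fun t hL1 hL2 ho hQ => by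
        unfold wt
        rw [if_neg]
        intro hs
        apply hQ
        have hx0 : (0 : ℤ) < A₀ + 2 * 3 ^ m * t := by
          have : (0 : ℝ) < ((A₀ + 2 * 3 ^ m * t : ℤ) : ℝ) := by linarith
          exact_mod_cast this
        refine Ru_of hu1 hR hx0 ho ?_ (by linarith) hL2 hs
        have h3 : (3 : ℤ) ^ m ∣ 1 * (A₀ + 2 * 3 ^ m * t) - c := ((hA _).2 ⟨t, by ring⟩).2
        have h4 : (3 : ℤ) ∣ 1 * (A₀ + 2 * 3 ^ m * t) - c := (dvd_pow_self 3 (by omega)).trans h3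
        rw [one_mul] at h4
        rw [Int.emod_eq_emod_iff_emod_sub_eq_zero.2 (Int.emod_eq_zero_of_dvd h4)]
        exact hc)
    rw [wt_sum] at h1
    have h2 := (abs_le.1 hwin).1
    have h3 : (1 - ε / 4) * (L / (2 * 3 ^ m)) ≤ nT L m := by
      rw [sub_mul, one_mul]; linarith
    have h4 : 3 * th u / Real.log L * (1 - ε / 4) ≤ V (PP (yy u (2 * L))) := by
      rw [div_mul_eq_mul_div, div_le_iff₀ hlog]; exact hV2
    have h5 : (1 - ε / 4) * (L / (2 * 3 ^ m)) * (3 * th u / Real.log L * (1 - ε / 4))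
        ≤ nT L m * V (PP (yy u (2 * L))) := by
      apply mul_le_mul h3 h4 _ (Nat.cast_nonneg _)
      have : 0 ≤ 1 - ε / 4 := by linarith
      positivity
    refine le_trans ?_ h1
    have h6 : (1 - ε / 4) * (nT L m * V (PP (yy u (2 * L)))) ≤ ∑ g ∈ range (nT L m), wt (PP (yy u (2 * L))) A₀ (2 * 3 ^ m) (1 + (g : ℕ)) := by
      linarith
    refine le_trans ?_ h6
    have h7 : (1 - ε / 4) * ((1 - ε / 4) * (L / (2 * 3 ^ m)) * (3 * th u / Real.log L * (1 - ε / 4)))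
        ≤ (1 - ε / 4) * (nT L m * V (PP (yy u (2 * L)))) :=
      mul_le_mul_of_nonneg_left h5 (by linarith)
    refine le_trans ?_ h7
    have e1 : (1 - ε / 4) * ((1 - ε / 4) * (L / (2 * 3 ^ m)) * (3 * th u / Real.log L * (1 - ε / 4)))
        = (1 - ε / 4) ^ 3 * (L / (2 * 3 ^ m) * (3 * th u / Real.log L)) := by ring
    rw [e1, hmain]
    have h8 : 1 - ε ≤ (1 - ε / 4) ^ 3 := by nlinarith [sq_nonneg ε]
    have h9 : 0 ≤ th u * (3 / 2) * (L / (3 ^ m * Real.log L)) := by positivity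
    have := mul_le_mul_of_nonneg_right h8 h9
    linarith
  · have hwin := hw (yy u L) hy1 (nT L m + 1) hXn (PP (yy u L)) (fun p hp => PP_prime hp) A₀
      (2 * 3 ^ m) (fun p hp => PP_ndvd hp m) 1
    have h1 := cls_le_sum (Q := Ru u R) hL0.le hA1 hA2 hA (fun t => wt (PP (yy u L)) A₀ (2 * 3 ^ m) t)
      (fun t => wt_nonneg _ _ _ _) (fun t hQ hL1 _ _ => by
        unfold wt
        rw [if_pos]
        exact Ru_sift hu1 hQ hL0.le hL1)
    rw [wt_sum] at h1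
    have h2 := (abs_le.1 hwin).2
    have h3 : ((nT L m + 1 : ℕ) : ℝ) ≤ (1 + ε / 4) * (L / (2 * 3 ^ m)) := by
      push_cast; rw [add_mul, one_mul]; linarith
    have h4 : V (PP (yy u L)) ≤ 3 * th u / Real.log L * (1 + ε / 4) := by
      rw [div_mul_eq_mul_div, le_div_iff₀ hlog]; exact hV1
    have h5 : ((nT L m + 1 : ℕ) : ℝ) * V (PP (yy u L)) ≤
        (1 + ε / 4) * (L / (2 * 3 ^ m)) * (3 * th u / Real.log L * (1 + ε / 4)) :=
      mul_le_mul h3 h4 hVp.le (by positivity)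
    refine h1.trans ?_
    have h6 : ∑ g ∈ range (nT L m + 1), wt (PP (yy u L)) A₀ (2 * 3 ^ m) (1 + (g : ℕ))
        ≤ (1 + ε / 4) * (((nT L m + 1 : ℕ) : ℝ) * V (PP (yy u L))) := by
      linarith
    refine h6.trans ?_
    have h7 := mul_le_mul_of_nonneg_left h5 (by linarith : 0 ≤ 1 + ε / 4)
    refine h7.trans ?_
    have e1 : (1 + ε / 4) * ((1 + ε / 4) * (L / (2 * 3 ^ m)) * (3 * th u / Real.log L * (1 + ε / 4)))
        = (1 + ε / 4) ^ 3 * (L / (2 * 3 ^ m) * (3 * th u / Real.log L)) := by ring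
    rw [e1, hmain]
    have h8 : (1 + ε / 4) ^ 3 ≤ 1 + ε := by nlinarith [sq_nonneg ε]
    have h9 : 0 ≤ th u * (3 / 2) * (L / (3 ^ m * Real.log L)) := by positivity
    have := mul_le_mul_of_nonneg_right h8 h9
    linarith

end Pool.Agent.H998_RN
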