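import Pool.Agent.H998_RN.Rough

/-! Rough numbers on trajectories, part 13: rough numbers in an almost invariant set. -/

set_option autoImplicit false

namespace Pool.Agent.H998_RN

open Finset Filter Topology
open Pool.Agent.H320R2.PD Pool.Agent.H499R2.ND
open Pool.Agent.H499R2.CO (Tz)
open Pool.Agent.W41

open scoped Classical in
/-- elements of `S` in `[W,2W)` -/
noncomputable def iv (S : Set ℤ) (W : ℝ) : Finset ℤ := (Ico ⌈W⌉ ⌈2 * W⌉).filter (fun x => x ∈ S)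

theorem mem_iv {S : Set ℤ} {W : ℝ} {x : ℤ} : x ∈ iv S W ↔ (W ≤ x ∧ (x : ℝ) < 2 * W) ∧ x ∈ S := by
  classical
  unfold iv; rw [mem_filter, mem_Ico, Int.ceil_le, Int.lt_ceil]

theorem iv_card_le (S : Set ℤ) {W : ℝ} (hW : 0 ≤ W) : ((iv S W).card : ℝ) ≤ W + 1 := by
  classical
  have h1 : (iv S W).card ≤ (Ico ⌈W⌉ ⌈2 * W⌉).card := by
    unfold iv; exact card_le_card (filter_subset _ _)
  rw [Int.card_Ico] at h1
  have h2 := Int.le_ceil W
  have h3 := Int.ceil_lt_add_one (2 * W)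
  have h4 : ((⌈2 * W⌉ - ⌈W⌉).toNat : ℝ) ≤ W + 1 := by
    have h5 : (((⌈2 * W⌉ - ⌈W⌉).toNat : ℤ) : ℝ) = ((⌈2 * W⌉ - ⌈W⌉ : ℤ) : ℝ) := by
      rw [Int.toNat_of_nonneg]
      have := Int.ceil_mono (by linarith : W ≤ 2 * W)
      linarith
    have h6 : (((⌈2 * W⌉ - ⌈W⌉).toNat : ℕ) : ℝ) = ((⌈2 * W⌉ - ⌈W⌉ : ℤ) : ℝ) := by exact_mod_cast h5
    rw [h6]; push_cast; linarith
  have h5 : ((iv S W).card : ℝ) ≤ ((⌈2 * W⌉ - ⌈W⌉).toNat : ℝ) := by exact_mod_cast h1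
  linarith

theorem iv_half {S : Set ℤ} (hS : ∀ (e : ℕ) (m : ℤ), 0 < m → 2 ^ e * m ∈ S → m ∈ S) {W : ℝ} (hW : 0 < W) :
    ((iv S W).card : ℝ) ≤ ((cls S W (2 * W) 0 1 0).card : ℝ) + ((iv S (W / 2)).card : ℝ) := by
  classical
  have hsub : iv S W ⊆ cls S W (2 * W) 0 1 0 ∪ (iv S (W / 2)).image (fun x => 2 * x) := by
    intro x hx
    rw [mem_iv] at hx
    rw [mem_union]
    rcases Int.even_or_odd x with he | ho
    · right
      obtain ⟨y, hy⟩ := he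
      rw [mem_image]
      refine ⟨y, ?_, by omega⟩
      have hxy : (x : ℝ) = 2 * y := by rw [hy]; push_cast; ring
      have hy0 : 0 < y := by
        have : (0 : ℝ) < x := lt_of_lt_of_le hW hx.1.1
        rw [hxy] at this
        have : (0 : ℝ) < y := by linarith
        exact_mod_cast this
      rw [mem_iv]
      refine ⟨⟨by linarith [hx.1.1], by linarith [hx.1.2]⟩, hS 1 y hy0 ?_⟩
      rw [pow_one, show (2 : ℤ) * y = x by omega]; exact hx.2
    · left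
      rw [mem_cls]
      exact ⟨hx.1, ho, hx.2, by rw [pow_zero]; exact one_dvd _⟩
  have h1 := (card_le_card hsub).trans (card_union_le _ _)
  have h2 := card_image_le (s := iv S (W / 2)) (f := fun x : ℤ => 2 * x)
  exact_mod_cast h1.trans (Nat.add_le_add_left h2 _)

/-- the number of elements in a dyadic interval -/
theorem iv_bound {S : Set ℤ} (hS : ∀ (e : ℕ) (m : ℤ), 0 < m → 2 ^ e * m ∈ S → m ∈ S) {ρ Z : ℝ} (hρ : 0 ≤ ρ)
    (hZ : 0 < Z) (h : ∀ A : ℝ, Z / 2 ≤ A → PB S A 0 ρ) : ∀ (n : ℕ) (W : ℝ), 0 < W → W < 2 ^ n * (Z / 2) →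
    ((iv S W).card : ℝ) ≤ ρ * W + Z / 2 + 1
  | 0, W, hW, hn => by
    have := iv_card_le S hW.le
    have : 0 ≤ ρ * W := by positivity
    rw [pow_zero, one_mul] at hn
    linarith
  | n + 1, W, hW, hn => by
    have h0 : 0 ≤ ρ * W := by positivity
    rcases lt_or_ge W (Z / 2) with h1 | h1
    · have := iv_card_le S hW.le
      linarith
    · have h2 := iv_half hS hW
      have h3 := h W h1 1 0 isCoprime_one_left
      have h4 := iv_bound hS hρ hZ h n (W / 2) (by positivity) (by rw [pow_succ] at hn; linarith)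
      rw [pow_zero, mul_one] at h3
      linarith

open scoped Classical in
/-- the indicator -/
noncomputable def ind (S : Set ℤ) (x : ℤ) : ℝ := if x ∈ S then 1 else 0

theorem ind_nonneg (S : Set ℤ) (x : ℤ) : 0 ≤ ind S x := by unfold ind; split_ifs <;> norm_num

theorem ind_le (S : Set ℤ) (x : ℤ) : ind S x ≤ 1 := by unfold ind; split_ifs <;> norm_num

/-- sum of the indicator over an interval -/
theorem ind_sum {S : Set ℤ} {a b : ℤ} {W c : ℝ} (hW : 0 ≤ W) (ha : W ≤ a) (hb : (b : ℝ) ≤ 2 * W + c)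
    (hc : 0 ≤ c) : ∑ x ∈ Ioc a b, ind S x ≤ ((iv S W).card : ℝ) + c + 1 := by
  classical
  have hsub : (Ioc a b).filter (fun x => x ∈ S) ⊆ iv S W ∪ Icc ⌈2 * W⌉ b := by
    intro x hx
    rw [mem_filter, mem_Ioc] at hx
    rw [mem_union, mem_iv, mem_Icc]
    have h1 : (a : ℝ) < x := by exact_mod_cast hx.1.1
    rcases lt_or_ge (x : ℝ) (2 * W) with h2 | h2
    · left; exact ⟨⟨by linarith, h2⟩, hx.2⟩
    · right; exact ⟨Int.ceil_le.2 h2, hx.1.2⟩
  have e : ∑ x ∈ Ioc a b, ind S x = (((Ioc a b).filter (fun x => x ∈ S)).card : ℝ) := by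
    unfold ind
    rw [← sum_filter, sum_const, nsmul_eq_mul, mul_one]
  rw [e]
  have h1 := (card_le_card hsub).trans (card_union_le _ _)
  rw [Int.card_Icc] at h1
  have h2 : (((Ioc a b).filter (fun x => x ∈ S)).card : ℝ)
      ≤ ((iv S W).card : ℝ) + ((b + 1 - ⌈2 * W⌉).toNat : ℝ) := by exact_mod_cast h1
  have h3 : ((b + 1 - ⌈2 * W⌉).toNat : ℝ) ≤ c + 1 := by
    rcases le_or_gt 0 (b + 1 - ⌈2 * W⌉) with h4 | h4
    · have h5 : (((b + 1 - ⌈2 * W⌉).toNat : ℕ) : ℝ) = ((b + 1 - ⌈2 * W⌉ : ℤ) : ℝ) := by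
        have : (((b + 1 - ⌈2 * W⌉).toNat : ℕ) : ℤ) = b + 1 - ⌈2 * W⌉ := Int.toNat_of_nonneg h4
        exact_mod_cast this
      rw [h5]; push_cast
      have := Int.le_ceil (2 * W)
      linarith
    · rw [Int.toNat_of_nonpos h4.le]
      push_cast; linarith
  linarith

/-- lower bound for the iterates -/
theorem Tz_ge (x : ℤ) (hx : 0 ≤ x) : ∀ j : ℕ, (x : ℝ) / 2 ^ j ≤ (((Tz 1)^[j] x : ℤ) : ℝ) ∧ 0 ≤ (Tz 1)^[j] x
  | 0 => by simp [hx]
  | j + 1 => by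
    obtain ⟨h1, h2⟩ := Tz_ge x hx j
    rw [Function.iterate_succ_apply']
    set z := (Tz 1)^[j] x with hz
    have h3 : (z : ℝ) / 2 ≤ ((Tz 1 z : ℤ) : ℝ) ∧ 0 ≤ Tz 1 z := by
      unfold Tz
      split_ifs with h
      · constructor
        · have : z = 2 * (z / 2) := by omega
          have h4 : (z : ℝ) = 2 * ((z / 2 : ℤ) : ℝ) := by exact_mod_cast this
          rw [h4]; linarith
        · omega
      · constructor
        · have : z ≤ 2 * ((3 * z + 1) / 2) := by omega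
          have h4 : (z : ℝ) ≤ 2 * (((3 * z + 1) / 2 : ℤ) : ℝ) := by exact_mod_cast this
          linarith
        · omega
    refine ⟨?_, h3.2⟩
    rw [pow_succ, ← div_div]
    linarith [h3.1]

/-- the membership does not change along the first steps -/
theorem inv_iter {S : Set ℤ} {Z : ℝ} (hinv : ∀ x : ℤ, Z ≤ x → (x ∈ S ↔ Tz 1 x ∈ S)) {k : ℕ} {x : ℤ}
    (hx0 : 0 ≤ x) (hx : 2 ^ k * Z ≤ x) (hZ : 0 ≤ Z) : ∀ j ≤ k, (x ∈ S ↔ (Tz 1)^[j] x ∈ S)
  | 0, _ => by simp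
  | j + 1, hj => by
    rw [inv_iter hinv hx0 hx hZ j (by omega), Function.iterate_succ_apply']
    apply hinv
    refine le_trans ?_ (Tz_ge x hx0 j).1
    rw [le_div_iff₀ (by positivity)]
    refine le_trans ?_ hx
    rw [mul_comm]
    exact mul_le_mul_of_nonneg_right (pow_le_pow_right₀ (by norm_num) (by omega)) hZ

/-- ROUGH NUMBERS IN ALMOST INVARIANT SETS -/
theorem star {ε : ℝ} (hε : 0 < ε) (hε1 : ε ≤ 1) : ∃ u₀ : ℕ, 1 ≤ u₀ ∧ ∀ u : ℕ, u₀ ≤ u → ∀ m : ℕ,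
    ∃ X₃ : ℝ, ∀ L : ℝ, X₃ ≤ L → ∀ Z : ℝ, 1 ≤ Z → Z ^ 3 ≤ L → ∀ (S : Set ℤ) (ρ : ℝ), 0 ≤ ρ → ρ ≤ 1 →
    (∀ (e : ℕ) (m : ℤ), 0 < m → 2 ^ e * m ∈ S → m ∈ S) →
    (∀ x : ℤ, Z ≤ x → (x ∈ S ↔ Tz 1 x ∈ S)) → (∀ A : ℝ, Z / 2 ≤ A → PB S A 0 ρ) →
    ∀ (R : Set ℤ) (c : ℤ), ((cls (Ru u R ∩ S) L (2 * L) m 1 c).card : ℝ)
      ≤ th u * (ρ + ε) * (3 / 2) * (L / (3 ^ m * Real.log L)) := by
  classical
  obtain ⟨K, y0, k0, θ, hK, hy0, hθ, hcore⟩ := core (show (0 : ℝ) < ε / 4 by positivity) (by linarith)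
  obtain ⟨u₁, hu₁⟩ := exists_nat_ge (6 * K / θ)
  refine ⟨max u₁ (4 * K), le_trans (by omega) (le_max_right _ _), fun u hu m => ?_⟩
  have huK : 4 * K ≤ u := (le_max_right _ _).trans hu
  have hu1 : 1 ≤ u := by omega
  have huR : (1 : ℝ) ≤ u := by exact_mod_cast hu1
  have hKu : (K : ℝ) / u ≤ θ / 6 := by
    rw [div_le_div_iff₀ (by linarith) (by norm_num)]
    have h1 : (u₁ : ℝ) ≤ u := by exact_mod_cast (le_max_left _ _).trans hu
    have h2 := hu₁.trans h1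
    rw [div_le_iff₀ hθ] at h2
    linarith
  have hth := th_ge hu1
  have hth0 : 0 < th u := by linarith
  set B : ℝ := 2 * 3 ^ m with hBdef
  have hB : 0 < B := by positivity
  have hB2 : 2 ≤ B := by
    have : (1 : ℝ) ≤ 3 ^ m := one_le_pow₀ (by norm_num)
    linarith
  set RR : ℝ := 3 ^ (m + 1) with hRRdef
  have hRR1 : 1 ≤ RR := one_le_pow₀ (by norm_num)
  have hRB : RR = 3 / 2 * B := by rw [hRRdef, hBdef, pow_succ]; ring
  -- eventually
  have hV : ∀ᶠ L : ℝ in atTop, V (PP (yy u L)) * Real.log L ≤ 3 * th u * (1 + ε / 4) :=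
    (V_yy hu1).eventually_le_const (by nlinarith)
  have hw3 : Tendsto (fun L : ℝ => L ^ (1 / 3 : ℝ)) atTop atTop := tendsto_rpow_atTop (by norm_num)
  have hwθ : Tendsto (fun L : ℝ => (L ^ (1 / 3 : ℝ)) ^ (θ / 2)) atTop atTop :=
    (tendsto_rpow_atTop (by positivity)).comp hw3
  obtain ⟨X₁, hX₁⟩ := eventually_atTop.1 (hV.and (((yy_tendsto hu1).eventually_ge_atTop y0).and
    ((hw3.eventually_ge_atTop (max (max (2 ^ (k0 + 1)) (5 * B + 4)) (max (24 * B / ε) 16))).and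
    (hwθ.eventually_ge_atTop (RR * 2 ^ θ)))))
  refine ⟨max X₁ 16, ?_⟩
  intro L hL Z hZ hZL S ρ hρ hρ1 hS hinv hPB R c
  obtain ⟨hV1, hy1, hw, hwθ1⟩ := hX₁ L ((le_max_left _ _).trans hL)
  have hL16 : 16 ≤ L := (le_max_right _ _).trans hL
  have hL0 : 0 < L := by linarith
  have hlog : 0 < Real.log L := Real.log_pos (by linarith)
  set w := L ^ (1 / 3 : ℝ) with hwd
  have hwk : (2 : ℝ) ^ (k0 + 1) ≤ w := (le_max_left _ _).trans ((le_max_left _ _).trans hw)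
  have hwB : 5 * B + 4 ≤ w := (le_max_right _ _).trans ((le_max_left _ _).trans hw)
  have hwε : 24 * B / ε ≤ w := (le_max_left _ _).trans ((le_max_right _ _).trans hw)
  have hw16 : 16 ≤ w := (le_max_right _ _).trans ((le_max_right _ _).trans hw)
  have hw0 : 0 < w := by linarith
  have hwL : w ^ 3 = L := by
    rw [hwd, ← Real.rpow_natCast, ← Real.rpow_mul hL0.le]; norm_num
  have hZw : Z ≤ w := by
    by_contra hcon
    push Not at hcon
    have : w ^ 3 < Z ^ 3 := pow_lt_pow_left₀ hcon hw0.le (by norm_num)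
    linarith
  -- the number of steps
  set k := Nat.log 2 ⌊w⌋₊ with hk
  have hfl : ⌊w⌋₊ ≠ 0 := by
    have : 16 ≤ ⌊w⌋₊ := Nat.le_floor (by exact_mod_cast hw16)
    omega
  have h2k : (2 : ℝ) ^ k ≤ w := by
    have h1 : 2 ^ k ≤ ⌊w⌋₊ := Nat.pow_log_le_self 2 hfl
    have h2 : ((2 ^ k : ℕ) : ℝ) ≤ (⌊w⌋₊ : ℝ) := by exact_mod_cast h1
    have h3 := Nat.floor_le hw0.le
    push_cast at h2; linarith
  have h2k' : w < 2 * 2 ^ k := by
    have h1 : ⌊w⌋₊ < 2 ^ (k + 1) := Nat.lt_pow_succ_log_self (by norm_num) _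
    have h2 : ((⌊w⌋₊ + 1 : ℕ) : ℝ) ≤ ((2 ^ (k + 1) : ℕ) : ℝ) := by exact_mod_cast h1
    have h3 := Nat.lt_floor_add_one w
    push_cast at h2
    rw [pow_succ] at h2
    linarith
  have hk0 : k0 ≤ k := by
    have h1 : (2 : ℝ) ^ (k0 + 1) < 2 ^ (k + 1) := by
      rw [pow_succ 2 k]; linarith
    have := (pow_lt_pow_iff_right₀ (by norm_num : (1 : ℝ) < 2)).1 h1
    omega
  set y := yy u L with hyd
  have hy1' : 1 ≤ y := by omega
  have hyR : (1 : ℝ) ≤ y := by exact_mod_cast hy1'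
  have hyK := (yy_small (K := K) huK hu1 hL16 hy1').2
  rw [← hyd] at hyK
  have hyKw : (y : ℝ) ^ K ≤ w := by
    by_contra hcon
    push Not at hcon
    have h1 : w ^ 4 < ((y : ℝ) ^ K) ^ 4 := pow_lt_pow_left₀ hcon hw0.le (by norm_num)
    have h2 : w ^ 4 = w * L := by rw [← hwL]; ring
    nlinarith
  obtain ⟨A₀, hA1, hA2, hA⟩ := ap_param m (isCoprime_one_left (x := (3 : ℤ))) c L
  have hA₀odd : Odd A₀ := ((hA A₀).2 (by simp)).1
  obtain ⟨a₀, ha₀⟩ := hA₀odd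
  set x0 : ℤ := 3 * a₀ + 2 with hx0
  have hx0R : (x0 : ℝ) = (3 * A₀ + 1) / 2 := by rw [hx0, ha₀]; push_cast; ring
  -- the first step of the elements of the progression
  have hstep : ∀ t : ℤ, Tz 1 (A₀ + 2 * 3 ^ m * t) = x0 + ((3 ^ (m + 1) : ℕ) : ℤ) * t := by
    intro t
    have e1 : A₀ + 2 * 3 ^ m * t = 2 * (a₀ + 3 ^ m * t) + 1 := by rw [ha₀]; ring
    unfold Tz
    rw [e1, if_neg (by omega)]
    have e2 : 3 * (2 * (a₀ + 3 ^ m * t) + 1) + 1 = 2 * (3 * (a₀ + 3 ^ m * t) + 2) := by ring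
    rw [e2, Int.mul_ediv_cancel_left _ (by norm_num : (2 : ℤ) ≠ 0), hx0]
    push_cast
    rw [pow_succ]; ring
  have hnT1 := nT_le hL0.le m
  have hnT2 := lt_nT L m
  rw [← hBdef] at hnT1 hnT2
  set T := nT L m + 1 with hT
  have hTR : (T : ℝ) = nT L m + 1 := by rw [hT]; push_cast; ring
  have hwB3 : w ^ 2 ≤ w ^ 3 / B := by
    rw [le_div_iff₀ hB]
    nlinarith [sq_nonneg w]
  have hcond1 : 2 ^ k * y ^ K ≤ T := by
    have h1 : (2 : ℝ) ^ k * (y : ℝ) ^ K ≤ w * w := mul_le_mul h2k hyKw (by positivity) hw0.le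
    have h2 : (2 : ℝ) ^ k * (y : ℝ) ^ K ≤ T := by
      rw [hTR]
      have h3 : w ^ 3 / B < nT L m + 1 := by rw [hwL]; exact hnT2
      linarith [sq w]
    exact_mod_cast h2
  have hRcast : ((3 ^ (m + 1) : ℕ) : ℝ) = RR := by rw [hRRdef]; push_cast; ring
  have hcond2 : (((3 ^ (m + 1) : ℕ) : ℝ) * ((y ^ K : ℕ) : ℝ)) ≤ (2 : ℝ) ^ (θ * k) := by
    rw [hRcast]
    push_cast
    have h1 : (y : ℝ) ^ K ≤ w ^ (θ / 2) := by
      have g1 : (y : ℝ) ≤ L ^ (1 / (u : ℝ)) := by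
        rw [hyd]; exact Nat.floor_le (by positivity)
      have g2 := pow_le_pow_left₀ (by positivity) g1 K
      rw [← Real.rpow_natCast (L ^ (1 / (u : ℝ))), ← Real.rpow_mul hL0.le] at g2
      have g3 : L ^ (1 / (u : ℝ) * (K : ℝ)) ≤ L ^ (θ / 6) := by
        apply Real.rpow_le_rpow_of_exponent_le (by linarith)
        rw [one_div, mul_comm, ← div_eq_mul_inv]; exact hKu
      have g4 : L ^ (θ / 6) = w ^ (θ / 2) := by
        rw [hwd, ← Real.rpow_mul hL0.le]; congr 1; ring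
      linarith
    have h2 : (w / 2) ^ θ ≤ (2 : ℝ) ^ (θ * k) := by
      rw [mul_comm θ, Real.rpow_mul (by norm_num), Real.rpow_natCast]
      exact Real.rpow_le_rpow (by positivity) (by linarith) hθ.le
    refine le_trans ?_ h2
    rw [Real.div_rpow hw0.le (by norm_num), le_div_iff₀ (by positivity)]
    have h3 : w ^ θ = w ^ (θ / 2) * w ^ (θ / 2) := by
      rw [← Real.rpow_add hw0]; congr 1; ring
    rw [h3]
    have h4 : 0 ≤ w ^ (θ / 2) := by positivity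
    calc RR * (y : ℝ) ^ K * 2 ^ θ = RR * 2 ^ θ * (y : ℝ) ^ K := by ring
      _ ≤ w ^ (θ / 2) * w ^ (θ / 2) := mul_le_mul hwθ1 h1 (by positivity) h4
  -- the lower end
  set lo : ℤ := ⌈(2 : ℝ) ^ k * Z⌉ with hlo
  have hlo1 : (2 : ℝ) ^ k * Z ≤ lo := Int.le_ceil _
  have hlo2 : (lo : ℝ) ≤ w * w + 1 := by
    have h1 := Int.ceil_lt_add_one ((2 : ℝ) ^ k * Z)
    have h2 : (2 : ℝ) ^ k * Z ≤ w * w := mul_le_mul h2k hZw (by linarith) hw0.le
    linarith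
  have hlo0 : 0 ≤ lo := by
    have : (0 : ℝ) ≤ lo := le_trans (by positivity) hlo1
    exact_mod_cast this
  have hcond3 : lo + ((3 ^ (m + 1) : ℕ) : ℤ) * ((y ^ K : ℕ) : ℤ) ≤ x0 := by
    have h1 : RR * (y : ℝ) ^ K ≤ (3 / 2 * B) * w := by
      rw [hRB]; exact mul_le_mul_of_nonneg_left hyKw (by positivity)
    have h2 : (3 * (L - B) + 1) / 2 ≤ x0 := by rw [hx0R]; linarith
    have h3 : (lo : ℝ) + RR * (y : ℝ) ^ K ≤ x0 := by
      have h4 : w ^ 2 * 16 ≤ w ^ 2 * w := mul_le_mul_of_nonneg_left hw16 (by positivity)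
      have h5 : B * w ≤ w * w / 5 := by nlinarith
      have h6 : w * 16 ≤ w * w := mul_le_mul_of_nonneg_left hw16 (by positivity)
      have h7 : w ^ 2 * w = L := by rw [← hwL]; ring
      have h8 : w ^ 2 = w * w := sq w
      nlinarith
    rw [← hRcast] at h3
    exact_mod_cast h3
  have hf : ∀ x x' : ℤ, lo ≤ x → lo ≤ x' → ∀ j ≤ k, (Tz 1)^[j] x = (Tz 1)^[j] x' → ind S x = ind S x' := by
    intro x x' h1 h2 j hj h3
    have g1 : (2 : ℝ) ^ k * Z ≤ x := hlo1.trans (by exact_mod_cast h1)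
    have g2 : (2 : ℝ) ^ k * Z ≤ x' := hlo1.trans (by exact_mod_cast h2)
    have g3 := inv_iter hinv (hlo0.trans h1) g1 (by linarith) j hj
    have g4 := inv_iter hinv (hlo0.trans h2) g2 (by linarith) j hj
    unfold ind
    have : x ∈ S ↔ x' ∈ S := by rw [g3, g4, h3]
    simp only [this]
  have hmain := (abs_le.1 (hcore y hy1 k hk0 T hcond1 (PP y) (fun p hp => PP_prime hp) A₀ (2 * 3 ^ m)
    (fun p hp => PP_ndvd hp m) x0 (3 ^ (m + 1)) (by
      rw [Nat.pow_mod]; norm_num) (y ^ K) le_rfl hcond2 lo hcond3 (ind S) (ind_nonneg S) (ind_le S) hf)).2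
  have hcls := cls_le_sum (Q := Ru u R ∩ S) hL0.le hA1 hA2 hA
    (fun t => wt (PP y) A₀ (2 * 3 ^ m) t * ind S (x0 + ((3 ^ (m + 1) : ℕ) : ℤ) * t))
    (fun t => mul_nonneg (wt_nonneg _ _ _ _) (ind_nonneg _ _)) (fun t hQ hL1 _ _ => by
      have h1 : wt (PP y) A₀ (2 * 3 ^ m) t = 1 := by
        unfold wt; rw [if_pos]; exact Ru_sift hu1 hQ.1 hL0.le hL1
      have h2 : ind S (x0 + ((3 ^ (m + 1) : ℕ) : ℤ) * t) = 1 := by
        unfold ind
        rw [← hstep t, if_pos]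
        refine (hinv _ ?_).1 hQ.2
        have : w ≤ L := by rw [← hwL]; nlinarith [sq_nonneg w]
        linarith
      rw [h1, h2]; norm_num)
  rw [← hT] at hcls
  -- the number of elements of `S`
  have hW0 : 0 < 3 / 2 * L - 3 / 2 * B := by
    have : B < L := by rw [← hwL]; nlinarith [sq_nonneg w]
    linarith
  obtain ⟨n, hn⟩ : ∃ n : ℕ, 3 / 2 * L - 3 / 2 * B < 2 ^ n * (Z / 2) := by
    obtain ⟨n, hn⟩ := pow_unbounded_of_one_lt ((3 / 2 * L - 3 / 2 * B) / (Z / 2)) (by norm_num : (1 : ℝ) < 2)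
    refine ⟨n, ?_⟩
    rw [div_lt_iff₀ (by linarith)] at hn
    exact hn
  have hiv := iv_bound hS hρ (by linarith : 0 < Z) hPB n _ hW0 hn
  have hsum := ind_sum (S := S) (a := x0) (b := x0 + ((3 ^ (m + 1) : ℕ) : ℤ) * (T : ℤ)) (W := 3 / 2 * L - 3 / 2 * B)
    (c := 9 / 2 * B + 1) hW0.le (by rw [hx0R]; linarith) (by
      have e1 : ((x0 + ((3 ^ (m + 1) : ℕ) : ℤ) * (T : ℤ) : ℤ) : ℝ) = x0 + RR * T := by
        push_cast; rw [hRRdef]
      rw [e1, hx0R, hTR, hRB]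
      have h1 : B * (nT L m : ℝ) ≤ L := by
        rw [le_div_iff₀ hB] at hnT1; linarith
      linarith) (by positivity)
  have hVp := V_pos (P := PP y) (fun p hp => (PP_prime hp).1)
  have hVle : V (PP y) ≤ 3 * th u * (1 + ε / 4) / Real.log L := by
    rw [le_div_iff₀ hlog]; exact hV1
  set Λ := L / B with hΛ
  have hΛw : Λ = w ^ 3 / B := by rw [hΛ, hwL]
  have hSg : ∑ x ∈ Ioc x0 (x0 + ((3 ^ (m + 1) : ℕ) : ℤ) * (T : ℤ)), ind S x
      ≤ 3 / 2 * ρ * L + (w + 5 * B + 3) := by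
    have : 0 ≤ ρ * (3 / 2 * B) := by positivity
    linarith
  have h24 : 24 * B ≤ ε * w := by
    rw [div_le_iff₀ hε] at hwε; linarith
  -- small terms
  have hsmall : (w + 5 * B + 3) + 1 ≤ ε / 8 * Λ := by
    rw [hΛw, mul_div_assoc', le_div_iff₀ hB]
    have h1 : (w + 5 * B + 3) + 1 ≤ 2 * w := by linarith
    have h2 : ((w + 5 * B + 3) + 1) * B ≤ 2 * w * B := mul_le_mul_of_nonneg_right h1 hB.le
    have h3 : 2 * w * B ≤ 2 * w * (ε * w / 24) := mul_le_mul_of_nonneg_left (by linarith) (by positivity)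
    have h4 : ε * w ^ 2 ≤ ε * w ^ 3 := by
      apply mul_le_mul_of_nonneg_left _ hε.le
      nlinarith [sq_nonneg w]
    nlinarith
  have hsmall2 : w * Real.log L ≤ ε / 8 * Λ := by
    have h1 : Real.log L ≤ 3 * w := by
      rw [← hwL, Real.log_pow]
      have := Real.log_le_sub_one_of_pos hw0
      push_cast; linarith
    rw [hΛw, mul_div_assoc', le_div_iff₀ hB]
    have h2 : w * Real.log L * B ≤ w * (3 * w) * B :=
      mul_le_mul_of_nonneg_right (mul_le_mul_of_nonneg_left h1 hw0.le) hB.le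
    have h3 : w * (3 * w) * B ≤ w * (3 * w) * (ε * w / 24) :=
      mul_le_mul_of_nonneg_left (by linarith) (by positivity)
    nlinarith
  have hΛ0 : 0 < Λ := by positivity
  -- assembling
  have e1 : ∑ t ∈ Icc 1 T, wt (PP y) A₀ (2 * 3 ^ m) (t : ℕ) * ind S (x0 + ((3 ^ (m + 1) : ℕ) : ℤ) * (t : ℕ))
      ≤ V (PP y) * (ρ * Λ + ε / 8 * Λ + ε / 4 * Λ) + w := by
    have g1 : V (PP y) / ((3 ^ (m + 1) : ℕ) : ℝ) * ∑ x ∈ Ioc x0 (x0 + ((3 ^ (m + 1) : ℕ) : ℤ) * (T : ℤ)), ind S x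
        ≤ V (PP y) * (ρ * Λ) + V (PP y) * (w + 5 * B + 3) := by
      rw [hRcast]
      calc _ ≤ V (PP y) / RR * (3 / 2 * ρ * L + (w + 5 * B + 3)) :=
            mul_le_mul_of_nonneg_left hSg (by positivity)
        _ = V (PP y) * (ρ * Λ) + V (PP y) * (w + 5 * B + 3) / RR := by
            rw [hRB, hΛ]; field_simp
        _ ≤ _ := by
            apply add_le_add le_rfl
            exact div_le_self (by positivity) hRR1
    have g2 : ε / 4 * ((T : ℝ) * V (PP y)) ≤ V (PP y) * (ε / 4 * Λ) + V (PP y) * 1 := by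
      have : (T : ℝ) ≤ Λ + 1 := by rw [hTR]; linarith
      have h1 : ε / 4 * ((T : ℝ) * V (PP y)) ≤ ε / 4 * ((Λ + 1) * V (PP y)) :=
        mul_le_mul_of_nonneg_left (mul_le_mul_of_nonneg_right this hVp.le) (by positivity)
      have h2 : ε / 4 * V (PP y) ≤ 1 * V (PP y) := mul_le_mul_of_nonneg_right (by linarith) hVp.le
      nlinarith
    have g3 : ((y ^ K : ℕ) : ℝ) ≤ w := by push_cast; exact hyKw
    have g4 : V (PP y) * ((w + 5 * B + 3) + 1) ≤ V (PP y) * (ε / 8 * Λ) :=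
      mul_le_mul_of_nonneg_left hsmall hVp.le
    have g5 := hmain
    nlinarith
  have hc1 : ((cls (Ru u R ∩ S) L (2 * L) m 1 c).card : ℝ)
      ≤ V (PP y) * (ρ * Λ + ε / 8 * Λ + ε / 4 * Λ) + w := hcls.trans e1
  have hq : 0 < 3 * th u / Real.log L := by positivity
  have e2 : V (PP y) * (ρ * Λ + ε / 8 * Λ + ε / 4 * Λ) ≤
      3 * th u / Real.log L * ((1 + ε / 4) * ((ρ + 3 * ε / 8) * Λ)) := by
    calc _ ≤ 3 * th u * (1 + ε / 4) / Real.log L * (ρ * Λ + ε / 8 * Λ + ε / 4 * Λ) :=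
          mul_le_mul_of_nonneg_right hVle (by positivity)
      _ = _ := by ring
  have e3 : w ≤ 3 * th u / Real.log L * (ε / 8 * Λ) := by
    rw [div_mul_eq_mul_div, le_div_iff₀ hlog]
    have : 1 ≤ 3 * th u := by linarith
    have h0 : 0 ≤ ε / 8 * Λ := by positivity
    nlinarith
  have e4 : (1 + ε / 4) * (ρ + 3 * ε / 8) + ε / 8 ≤ ρ + ε := by nlinarith
  have e5 : th u * (ρ + ε) * (3 / 2) * (L / (3 ^ m * Real.log L)) = 3 * th u / Real.log L * ((ρ + ε) * Λ) := by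
    rw [hΛ, hBdef]; field_simp
  rw [e5]
  calc ((cls (Ru u R ∩ S) L (2 * L) m 1 c).card : ℝ)
      ≤ 3 * th u / Real.log L * ((1 + ε / 4) * ((ρ + 3 * ε / 8) * Λ))
        + 3 * th u / Real.log L * (ε / 8 * Λ) := by linarith
    _ = 3 * th u / Real.log L * (((1 + ε / 4) * (ρ + 3 * ε / 8) + ε / 8) * Λ) := by ring
    _ ≤ _ := by
        apply mul_le_mul_of_nonneg_left _ hq.le
        exact mul_le_mul_of_nonneg_right e4 hΛ0.le

end Pool.Agent.H998_RN
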