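import Pool.Agent.H998_RN.WFin

/-! Rough numbers on trajectories, part 23: almost bounded almost prime values. -/

set_option autoImplicit false

namespace Pool.Agent.H998_RN

open Finset Filter Topology
open Pool.Agent.H998_BC (C)

/-- almost every trajectory has an almost bounded almost prime value -/
theorem almost_bounded {f g : ℕ → ℝ} (hf : Tendsto f atTop atTop) (hg : Tendsto g atTop atTop) :
    Tendsto (fun N : ℕ => (Set.ncard {n : ℕ | 1 ≤ n ∧ n ≤ N ∧ ¬ ∃ m : ℕ, (∃ k, C^[k] n = m) ∧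
      1 < m ∧ (m : ℝ) ≤ f n ∧ ∀ p : ℕ, p.Prime → p ∣ m → (m : ℝ) < (p : ℝ) ^ (g n)} : ℝ) / N)
      atTop (𝓝 0) := by
  rw [Metric.tendsto_atTop]
  intro ε hε
  obtain ⟨u, c, Z₀, hc, hZ₀, h⟩ := window_almost (show 0 < ε / 4 by positivity) 1
  obtain ⟨n₁, hn₁⟩ := eventually_atTop.1 (hf.eventually_ge_atTop Z₀)
  obtain ⟨n₂, hn₂⟩ := eventually_atTop.1 (hg.eventually_ge_atTop (u : ℝ))
  set n₀ := max n₁ n₂ with hn₀
  obtain ⟨N₀, hN₀⟩ := exists_nat_gt (max Z₀ (4 * n₀ / ε))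
  refine ⟨N₀, fun N hN => ?_⟩
  have hNR : (N₀ : ℝ) ≤ N := by exact_mod_cast hN
  have hNZ : Z₀ ≤ N := ((le_max_left _ _).trans hN₀.le).trans hNR
  have hNn : 4 * n₀ / ε ≤ N := ((le_max_right _ _).trans hN₀.le).trans hNR
  have hN0 : (0 : ℝ) < N := by linarith
  rw [div_le_iff₀ hε] at hNn
  have h1 := h Z₀ N le_rfl hNZ
  set G := {n : ℕ | 1 ≤ n ∧ n ≤ N ∧ ¬ ∃ s : Finset ℕ, (1 : ℝ) ≤ s.card ∧
          ∀ m ∈ s, Z₀ ^ c ≤ (m : ℝ) ∧ (m : ℝ) ≤ Z₀ ∧ ArithmeticFunction.cardFactors m < u ∧ Rough u m ∧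
            ∃ k, C^[k] n = m} with hG
  have hGfin : G.Finite := (Set.finite_Icc 1 N).subset fun n hn => ⟨hn.1, hn.2.1⟩
  have hsub : {n : ℕ | 1 ≤ n ∧ n ≤ N ∧ ¬ ∃ m : ℕ, (∃ k, C^[k] n = m) ∧
      1 < m ∧ (m : ℝ) ≤ f n ∧ ∀ p : ℕ, p.Prime → p ∣ m → (m : ℝ) < (p : ℝ) ^ (g n)}
      ⊆ G ∪ (Finset.range n₀ : Set ℕ) := by
    intro n hn
    by_contra hcon
    rw [Set.mem_union, not_or] at hcon
    obtain ⟨hc1, hc2⟩ := hcon
    have hnn : n₀ ≤ n := by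
      by_contra h5
      push Not at h5
      exact hc2 (by simpa using h5)
    have e1 : ∃ s : Finset ℕ, (1 : ℝ) ≤ s.card ∧
          ∀ m ∈ s, Z₀ ^ c ≤ (m : ℝ) ∧ (m : ℝ) ≤ Z₀ ∧ ArithmeticFunction.cardFactors m < u ∧ Rough u m ∧
            ∃ k, C^[k] n = m := by
      by_contra h5
      exact hc1 ⟨hn.1, hn.2.1, h5⟩
    obtain ⟨s, hs1, hs2⟩ := e1
    have hs0 : 0 < s.card := by
      have : (0 : ℝ) < s.card := by linarith
      exact_mod_cast this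
    obtain ⟨m, hm⟩ := card_pos.1 hs0
    obtain ⟨g1, g2, _, g4, g5⟩ := hs2 m hm
    apply hn.2.2
    have hm1 : (1 : ℝ) < m := (Real.one_lt_rpow hZ₀ hc).trans_le g1
    refine ⟨m, g5, by exact_mod_cast hm1, g2.trans (hn₁ n ((le_max_left _ _).trans hnn)), fun p hp hd => ?_⟩
    have h6 := g4 p hp hd
    have h7 : (m : ℝ) < (p : ℝ) ^ u := by exact_mod_cast h6
    refine h7.trans_le ?_
    rw [← Real.rpow_natCast]
    exact Real.rpow_le_rpow_of_exponent_le (by exact_mod_cast hp.one_lt.le)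
      (hn₂ n ((le_max_right _ _).trans hnn))
  have h2 := Set.ncard_le_ncard hsub (hGfin.union (Finset.finite_toSet _))
  have h3 := Set.ncard_union_le G (Finset.range n₀ : Set ℕ)
  rw [Set.ncard_coe_finset, card_range] at h3
  have h4 : (Set.ncard {n : ℕ | 1 ≤ n ∧ n ≤ N ∧ ¬ ∃ m : ℕ, (∃ k, C^[k] n = m) ∧
      1 < m ∧ (m : ℝ) ≤ f n ∧ ∀ p : ℕ, p.Prime → p ∣ m → (m : ℝ) < (p : ℝ) ^ (g n)} : ℝ)
      ≤ (Set.ncard G : ℝ) + n₀ := by exact_mod_cast h2.trans h3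
  rw [Real.dist_eq, sub_zero, abs_of_nonneg (by positivity), div_lt_iff₀ hN0]
  have : 0 < ε * N := by positivity
  linarith

end Pool.Agent.H998_RN
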