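import Pool.Agent.H998_RN.WSec
import Pool.Agent.H998_RN.Col

/-! Rough numbers on trajectories, part 22: rough terms in every window. -/

set_option autoImplicit false

namespace Pool.Agent.H998_RN

open Finset Filter Topology
open Pool.Agent.H320R2.PD Pool.Agent.H499R2.ND
open Pool.Agent.H499R2.CO (Tz)
open Pool.Agent.R344.TH Pool.Agent.H998_PL
open Pool.Agent.H998_BC (C C_iter_cast)

section

variable {P : Set ℤ} {δ L lam ℓ : ℝ} {I : ℕ}

/-- the blocks that are hit give different times -/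
theorem bw_times (hn : Num δ L lam ℓ I) (n : ℕ) :
    ∃ t : Finset ℕ, (t.card : ℝ) = Bw P δ L I n ∧ ∀ k ∈ t, (Tz 1)^[k] (n : ℤ) ∈ P ∧
      (((Tz 1)^[k] (n : ℤ) : ℤ) : ℝ) < Real.exp (3 * L) ∧
      ∀ j ≤ k, Real.exp (lam / (1 + δ)) ≤ (((Tz 1)^[j] (n : ℤ) : ℤ) : ℝ) := by
  classical
  have hδ := hn.hδ
  have hL : 0 ≤ L := by have := hn.ell_le; have := hn.hℓ; linarith
  have key : ∀ i : ℕ, ∃ k : ℕ, (n : ℤ) ∈ BT P δ (ls L δ (1 + i)) →
      ((Tz 1)^[k] (n : ℤ) ∈ Pl P (ls L δ (1 + i)) ∧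
        (∀ j ≤ k, Real.exp (ls L δ (1 + i) / (1 + δ)) ≤ (((Tz 1)^[j] (n : ℤ) : ℤ) : ℝ)) ∧
        ∃ j ≤ k, (((Tz 1)^[j] (n : ℤ) : ℤ) : ℝ) < Real.exp (ls L δ (1 + i))) := by
    intro i
    by_cases h : (n : ℤ) ∈ BT P δ (ls L δ (1 + i))
    · have h1 := h
      unfold BT at h1
      rw [Sh_one] at h1
      obtain ⟨k, hk⟩ := h1
      exact ⟨k, fun _ => hk⟩
    · exact ⟨0, fun h' => absurd h' h⟩
  choose κ hκ using key
  set S := (range I).filter (fun i => (n : ℤ) ∈ BT P δ (ls L δ (1 + i))) with hS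
  have hlt : ∀ i ∈ S, ∀ i' ∈ S, i < i' → κ i < κ i' := by
    intro i hi i' hi' hii
    obtain ⟨_, h2, _⟩ := hκ i (mem_filter.1 hi).2
    obtain ⟨_, _, j, hj, h3⟩ := hκ i' (mem_filter.1 hi').2
    by_contra hcon
    push Not at hcon
    have h4 := h2 j (hj.trans hcon)
    have h5 : ls L δ (1 + i') ≤ ls L δ (1 + i) / (1 + δ) := by
      rw [← ls_succ]
      exact ls_anti hL hδ (by omega)
    have h6 := Real.exp_le_exp.2 h5
    linarith
  have hinj : Set.InjOn κ (S : Set ℕ) := by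
    intro i hi i' hi' he
    rcases lt_trichotomy i i' with h | h | h
    · exact absurd he (hlt i hi i' hi' h).ne
    · exact h
    · exact absurd he.symm (hlt i' hi' i hi h).ne
  refine ⟨S.image κ, ?_, ?_⟩
  · rw [card_image_of_injOn hinj]
    unfold Bw ind
    rw [hS, card_filter]
    push_cast
    exact sum_congr rfl fun i _ => by congr
  · intro k hk
    obtain ⟨i, hi, rfl⟩ := mem_image.1 hk
    obtain ⟨h1, h2, _⟩ := hκ i (mem_filter.1 hi).2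
    have hi' := mem_range.1 (mem_filter.1 hi).1
    refine ⟨h1.1, h1.2.trans_le (Real.exp_le_exp.2 ?_), fun j hj => le_trans (Real.exp_le_exp.2 ?_) (h2 j hj)⟩
    · have := hn.ls_le i
      have : 0 ≤ δ * L := by positivity
      linarith
    · exact div_le_div_of_nonneg_right (hn.ls_ge' hi') (by linarith)

end

/-- different times give different terms -/
theorem distinct3 {u n : ℕ} {R : Set ℤ} (hu : 1 ≤ u) {Y Z : ℝ} {t : Finset ℕ} (hY : 1 ≤ Y)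
    (ht : ∀ k ∈ t, (Tz 1)^[k] (n : ℤ) ∈ Ru u R ∧ (((Tz 1)^[k] (n : ℤ) : ℤ) : ℝ) < Z ∧
      ∀ j ≤ k, Y ≤ (((Tz 1)^[j] (n : ℤ) : ℤ) : ℝ))
    (hlow : ∃ k, ((C^[k] n : ℕ) : ℝ) < Y) : ∃ s : Finset ℕ, s.card = t.card ∧ ∀ m ∈ s,
      Y ≤ (m : ℝ) ∧ (m : ℝ) < Z ∧ ArithmeticFunction.cardFactors m < u ∧ Rough u m ∧ ∃ k, C^[k] n = m := by
  classical
  have hval : ∀ k, ((C^[sg k (n : ℤ)] n : ℕ) : ℤ) = (Tz 1)^[k] (n : ℤ) := by
    intro k
    rw [← C_iter_cast, sg_val]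
  have hvalR : ∀ k, ((C^[sg k (n : ℤ)] n : ℕ) : ℝ) = (((Tz 1)^[k] (n : ℤ) : ℤ) : ℝ) := by
    intro k
    rw [← hval k]; push_cast; rfl
  have hge : ∀ k ∈ t, ∀ j ≤ sg k (n : ℤ), Y ≤ ((C^[j] n : ℕ) : ℝ) := by
    intro k hk j hj
    have := sg_ge (by linarith) k (n : ℤ) (ht k hk).2.2 j hj
    rw [C_iter_cast] at this
    exact_mod_cast this
  have hm : StrictMono (fun k => sg k (n : ℤ)) := strictMono_nat_of_lt_succ fun k => sg_lt k _
  have key : ∀ k ∈ t, ∀ k' ∈ t, k < k' → C^[sg k (n : ℤ)] n = C^[sg k' (n : ℤ)] n → False := by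
    intro k _ k' hk' hkk he
    obtain ⟨i, hi⟩ := hlow
    have := cycle_ge (hm hkk) he (hge k' hk') i
    linarith
  have hinj : Set.InjOn (fun k => C^[sg k (n : ℤ)] n) (t : Set ℕ) := by
    intro k hk k' hk' he
    rcases lt_trichotomy k k' with h | h | h
    · exact (key k hk k' hk' h he).elim
    · exact h
    · exact (key k' hk' k hk h he.symm).elim
  refine ⟨t.image (fun k => C^[sg k (n : ℤ)] n), card_image_of_injOn hinj, ?_⟩
  intro m hm'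
  obtain ⟨k, hk, rfl⟩ := mem_image.1 hm'
  obtain ⟨h1, h2, h3⟩ := ht k hk
  have hr : Rough u (C^[sg k (n : ℤ)] n) := by
    rw [← hval k] at h1
    obtain ⟨_, _, _, h5⟩ := h1
    intro p hp hdvd
    by_contra hcon
    push Not at hcon
    exact h5 p hp (by exact_mod_cast hcon) (by exact_mod_cast hdvd)
  have h4 := hge k hk _ le_rfl
  have hm1 : 1 ≤ C^[sg k (n : ℤ)] n := by
    have : (0 : ℝ) < ((C^[sg k (n : ℤ)] n : ℕ) : ℝ) := by linarith
    exact_mod_cast this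
  refine ⟨h4, ?_, hr.card_lt hu hm1, hr, _, rfl⟩
  rw [hvalR]; exact h2

open scoped Classical in
/-- ROUGH TERMS IN EVERY WINDOW -/
theorem window_almost {ε : ℝ} (hε : 0 < ε) (M : ℝ) : ∃ u : ℕ, ∃ c Z₀ : ℝ, 0 < c ∧ 1 < Z₀ ∧
    ∀ (Z : ℝ) (N : ℕ), Z₀ ≤ Z → Z ≤ N →
    (Set.ncard {n : ℕ | 1 ≤ n ∧ n ≤ N ∧ ¬ ∃ s : Finset ℕ, M ≤ s.card ∧
          ∀ m ∈ s, Z ^ c ≤ (m : ℝ) ∧ (m : ℝ) ≤ Z ∧ ArithmeticFunction.cardFactors m < u ∧ Rough u m ∧
            ∃ k, C^[k] n = m} : ℝ) ≤ ε * N := by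
  obtain ⟨τ, hτ⟩ : ∃ τ : ℝ, τ = min (ε / 32) 1 := ⟨_, rfl⟩
  have hτ0 : 0 < τ := by rw [hτ]; positivity
  have hτ1 : τ ≤ 1 := by rw [hτ]; exact min_le_right _ _
  have hτε : τ ≤ ε / 32 := by rw [hτ]; exact min_le_left _ _
  obtain ⟨u, hu, hbl⟩ := blocks2 (R := Rr 0) (fun ρ hρ => hρ.1) (sig_pos (by norm_num)) hτ0 hτ1
  obtain ⟨δ, l₀, K₂, X₁, hδτ, hB, hP, hlob⟩ := hbl u le_rfl
  obtain ⟨B, hB0, hstay⟩ := stay_count
  set x := kap0 (th u) (Rr 0) * δ with hx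
  have hδ0 := hB.δ0
  have hx0 := hB.x0
  have hx1 := hB.x1
  obtain ⟨W, hW⟩ : ∃ W : ℕ, 6 ≤ (1 + δ) ^ W := by
    obtain ⟨W, hW⟩ := pow_unbounded_of_one_lt (6 : ℝ) (show 1 < 1 + δ by linarith)
    exact ⟨W, hW.le⟩
  obtain ⟨lam₀, ℓ, hlam₀, hℓ₀, hev⟩ := ev_all (K := 1) (K₂ := K₂) hδ0 hB.δ1 hx0 hx1 hB.τ0 one_pos
    hB.K0 W (2 * |M|)
  obtain ⟨I, hI⟩ : ∃ I : ℕ, I = ⌊ℓ / Real.log (1 + δ)⌋₊ := ⟨_, rfl⟩
  have hlog : 0 < Real.log (1 + δ) := Real.log_pos (by linarith)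
  obtain ⟨D, hD⟩ : ∃ D : ℝ, D = max (max lam₀ l₀) (2 * (1 + 2 * B / ε) + 4) := ⟨_, rfl⟩
  have hD1 : lam₀ ≤ D := by rw [hD]; exact (le_max_left _ _).trans (le_max_left _ _)
  have hD2 : l₀ ≤ D := by rw [hD]; exact (le_max_right _ _).trans (le_max_left _ _)
  have hD3 : 2 * (1 + 2 * B / ε) + 4 ≤ D := by rw [hD]; exact le_max_right _ _
  have heℓ := Real.exp_pos ℓ
  have hDp : 0 < D := by linarith
  refine ⟨u, Real.exp (-ℓ) / 8, Real.exp (max 12 (3 * (Real.exp ℓ * D + 1))), by positivity,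
    Real.one_lt_exp_iff.2 (lt_of_lt_of_le (by norm_num) (le_max_left _ _)), ?_⟩
  intro Z N hZ hZN
  have hZ0 : 0 < Z := (Real.exp_pos _).trans_le hZ
  have hlZ : max 12 (3 * (Real.exp ℓ * D + 1)) ≤ Real.log Z := by
    rw [Real.le_log_iff_exp_le hZ0]; exact hZ
  obtain ⟨hlZ1, hlZ2⟩ := max_le_iff.1 hlZ
  -- the scale
  set N' := ⌊Z ^ (1 / 3 : ℝ)⌋₊ with hN'
  have hZ3 : Z ^ (1 / 3 : ℝ) = Real.exp (Real.log Z / 3) := by
    rw [Real.rpow_def_of_pos hZ0]; congr 1; ring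
  have hZ3b : 2 ≤ Z ^ (1 / 3 : ℝ) := by
    rw [hZ3]
    have := Real.add_one_le_exp (Real.log Z / 3)
    linarith
  have hN'le : (N' : ℝ) ≤ Z ^ (1 / 3 : ℝ) := Nat.floor_le (by positivity)
  have hN'ge : Z ^ (1 / 3 : ℝ) / 2 ≤ N' := by
    have := Nat.lt_floor_add_one (Z ^ (1 / 3 : ℝ))
    rw [← hN'] at this
    linarith
  have hN'0 : (0 : ℝ) < N' := by linarith
  obtain ⟨L, hL⟩ : ∃ L : ℝ, L = Real.log N' := ⟨_, rfl⟩
  have hNe : (N' : ℝ) = Real.exp L := by rw [hL, Real.exp_log hN'0]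
  have hLle : 3 * L ≤ Real.log Z := by
    have h1 : L ≤ Real.log Z / 3 := by
      rw [← Real.exp_le_exp, ← hNe, ← hZ3]; exact hN'le
    linarith
  have hLge : Real.log Z / 3 - Real.log 2 ≤ L := by
    rw [← Real.exp_le_exp, ← hNe, Real.exp_sub, ← hZ3, Real.exp_log (by norm_num)]; exact hN'ge
  have hl2 := Real.log_two_lt_d9
  have hl2' : 0 < Real.log 2 := Real.log_pos (by norm_num)
  obtain ⟨lam, hlam⟩ : ∃ lam : ℝ, lam = L * Real.exp (-ℓ) := ⟨_, rfl⟩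
  have hee : Real.exp (-ℓ) * Real.exp ℓ = 1 := by rw [← Real.exp_add]; simp
  have hLlam : L = lam * Real.exp ℓ := by rw [hlam, mul_assoc, hee, mul_one]
  have hlamD : D ≤ lam := by
    have h1 : Real.exp ℓ * D ≤ L := by linarith
    rw [hLlam, mul_comm] at h1
    exact le_of_mul_le_mul_right h1 heℓ
  have hnum : Num δ L lam ℓ I := by
    refine ⟨hδ0, hB.δ1, by linarith, hLlam, hℓ₀, ?_, ?_⟩
    · have := Nat.floor_le (show 0 ≤ ℓ / Real.log (1 + δ) by have : 0 < ℓ := by linarith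
                                                             positivity)
      rw [← hI, le_div_iff₀ hlog] at this
      exact this
    · have := Nat.lt_floor_add_one (ℓ / Real.log (1 + δ))
      rw [← hI, div_lt_iff₀ hlog] at this
      exact this
  obtain ⟨hμ1, _, c1, c2, c3, _⟩ := hev lam (hD1.trans hlamD) ℓ le_rfl L I N' hnum hNe
  have hN'N : (N' : ℝ) ≤ N := by
    refine le_trans ?_ hZN
    rw [hNe, ← Real.exp_log hZ0]
    apply Real.exp_le_exp.2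
    have : 0 ≤ L := by
      have := hnum.ell_le
      linarith
    linarith
  have hNR : (0 : ℝ) < N := hN'0.trans_le hN'N
  have hIp : (1 : ℝ) ≤ I := by exact_mod_cast hnum.I_pos
  have hμ : 0 < x * I := by positivity
  have hvar := var_up2 (N := N) hB hlob hnum (hD2.trans hlamD) (by rw [← hNe]; exact hN'N) hW
    (c1.trans (mul_le_mul_of_nonneg_left hN'N (by positivity))) c2 c3
  have h1 := cheb (b := x * I / 2) (by positivity) hvar
  set c₁ := (((Icc 1 N).filter (fun n => ¬ |Bw (Ru u (Rr 0)) δ L I n - x * I| ≤ x * I / 2)).card : ℝ) with hc₁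
  have h2 : c₁ ≤ 16 * τ * N := by
    have e1 : (x * I / 2) ^ 2 * c₁ = (c₁ / 4) * (x * I) ^ 2 := by ring
    rw [e1] at h1
    have := le_of_mul_le_mul_right h1 (by positivity)
    linarith
  -- the orbits that stay high
  set Y := Real.exp (lam / (1 + δ)) with hY
  have hδ1 := hB.δ1
  have hlam2 : lam / 2 ≤ lam / (1 + δ) :=
    div_le_div_of_nonneg_left (by linarith) (by linarith) (by linarith)
  have hY4 : 4 ≤ Y := by
    rw [hY]
    have := Real.add_one_le_exp (lam / (1 + δ))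
    have h0 : 0 < 2 * B / ε := by positivity
    linarith
  have hN1 : 1 ≤ N := by
    have : 0 < N := by exact_mod_cast hNR
    omega
  have h3 := hstay Y N hY4 hN1
  have h4 : B * N / Real.log (Y / 2) ≤ ε / 2 * N := by
    have e1 : Real.log (Y / 2) = lam / (1 + δ) - Real.log 2 := by
      rw [Real.log_div (by positivity) (by norm_num), hY, Real.log_exp]
    have e0 : 0 < 2 * B / ε := by positivity
    have e2 : 2 * B / ε ≤ Real.log (Y / 2) := by rw [e1]; linarith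
    rw [div_le_iff₀ (by linarith)]
    rw [div_le_iff₀ hε] at e2
    have : B * N ≤ (Real.log (Y / 2) * ε / 2) * N := mul_le_mul_of_nonneg_right (by linarith) hNR.le
    linarith
  set E := {n : ℕ | 1 ≤ n ∧ n ≤ N ∧ ∀ k, Y ≤ ((C^[k] n : ℕ) : ℝ)} with hE
  set G : Set ℕ := (((Icc 1 N).filter (fun n => ¬ |Bw (Ru u (Rr 0)) δ L I n - x * I| ≤ x * I / 2) : Finset ℕ) : Set ℕ) with hG
  have hEfin : E.Finite := (Set.finite_Icc 1 N).subset fun n hn => ⟨hn.1, hn.2.1⟩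
  have hGfin : G.Finite := Finset.finite_toSet _
  have hsub : {n : ℕ | 1 ≤ n ∧ n ≤ N ∧ ¬ ∃ s : Finset ℕ, M ≤ s.card ∧
          ∀ m ∈ s, Z ^ (Real.exp (-ℓ) / 8) ≤ (m : ℝ) ∧ (m : ℝ) ≤ Z ∧ ArithmeticFunction.cardFactors m < u ∧
            Rough u m ∧ ∃ k, C^[k] n = m} ⊆ G ∪ E := by
    intro n hn
    by_contra hcon
    rw [Set.mem_union, not_or] at hcon
    obtain ⟨hc1, hc2⟩ := hcon
    have e1 : |Bw (Ru u (Rr 0)) δ L I n - x * I| ≤ x * I / 2 := by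
      by_contra h5
      exact hc1 (mem_filter.2 ⟨mem_Icc.2 ⟨hn.1, hn.2.1⟩, h5⟩)
    have e2 : ∃ k, ((C^[k] n : ℕ) : ℝ) < Y := by
      by_contra h5
      push Not at h5
      exact hc2 ⟨hn.1, hn.2.1, h5⟩
    obtain ⟨t, ht1, ht2⟩ := bw_times (P := Ru u (Rr 0)) hnum n
    obtain ⟨s, hs1, hs2⟩ := distinct3 hu (by linarith) ht2 e2
    apply hn.2.2
    refine ⟨s, ?_, ?_⟩
    · rw [hs1, ht1]
      have := (abs_le.1 e1).1
      have := le_abs_self M
      linarith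
    · intro m hm
      obtain ⟨g1, g2, g3⟩ := hs2 m hm
      refine ⟨le_trans ?_ g1, g2.le.trans ?_, g3⟩
      · rw [Real.rpow_def_of_pos hZ0]
        apply Real.exp_le_exp.2
        refine le_trans ?_ hlam2
        rw [hlam]
        have e3 := Real.exp_pos (-ℓ)
        have e4 : Real.log Z / 4 ≤ L := by linarith
        have e5 := mul_le_mul_of_nonneg_right e4 e3.le
        linarith
      · rw [← Real.exp_log hZ0]
        exact Real.exp_le_exp.2 hLle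
  have h5 := Set.ncard_le_ncard hsub (hGfin.union hEfin)
  have h6 := Set.ncard_union_le G E
  have h7 : (Set.ncard G : ℝ) = c₁ := by
    rw [hG, hc₁, Set.ncard_coe_finset]
  have h8 : (Set.ncard {n : ℕ | 1 ≤ n ∧ n ≤ N ∧ ¬ ∃ s : Finset ℕ, M ≤ s.card ∧
          ∀ m ∈ s, Z ^ (Real.exp (-ℓ) / 8) ≤ (m : ℝ) ∧ (m : ℝ) ≤ Z ∧ ArithmeticFunction.cardFactors m < u ∧
            Rough u m ∧ ∃ k, C^[k] n = m} : ℝ)
      ≤ (Set.ncard G : ℝ) + (Set.ncard E : ℝ) := by exact_mod_cast h5.trans h6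
  have h9 : 16 * τ * N ≤ ε / 2 * N := mul_le_mul_of_nonneg_right (by linarith) hNR.le
  linarith

end Pool.Agent.H998_RN
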