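import Pool.Agent.H998_RN.Blk2
import Pool.Agent.H998_RN.Sec

/-! Rough numbers on trajectories, part 21: the second moment in a window. -/

set_option autoImplicit false

namespace Pool.Agent.H998_RN

open Finset
open Pool.Agent.H320R2.PD Pool.Agent.H499R2.ND
open Pool.Agent.H499R2.CO (Tz)
open Pool.Agent.R344.TH Pool.Agent.H998_PL

/-- the block of the scale `l`, with the terms of bounded size -/
def BT (P : Set ℤ) (δ l : ℝ) : Set ℤ := Sh (Pl P l) (Real.exp (l / (1 + δ))) (Real.exp l) 1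

/-- the lower bound for the blocks -/
def Lob (P : Set ℤ) (δ x τ l₀ : ℝ) : Prop := ∀ l : ℝ, l₀ ≤ l → ∀ A : ℝ, Real.exp l / 2 ≤ A →
  PB (BT P δ l)ᶜ A 0 (1 - x * (1 - τ))

theorem BT_sub {P : Set ℤ} {δ l : ℝ} {x : ℤ} (h : x ∈ BT P δ l) : x ∈ BS P δ l := by
  unfold BT at h
  unfold BS
  rw [Sh_one] at h ⊢
  obtain ⟨k, h1, h2⟩ := h
  exact ⟨k, h1.1, h2⟩

/-- the number of blocks that are hit -/
noncomputable def Bw (P : Set ℤ) (δ L : ℝ) (I : ℕ) (n : ℕ) : ℝ :=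
  ∑ i ∈ range I, ind (BT P δ (ls L δ (1 + i))) (n : ℤ)

variable {P : Set ℤ} {δ x τ l₀ K₂ L lam ℓ : ℝ} {I N : ℕ}

theorem Bw_nonneg (n : ℕ) : 0 ≤ Bw P δ L I n := sum_nonneg fun _ _ => ind_nonneg _ _

theorem Bw_le (n : ℕ) : Bw P δ L I n ≤ Bn P δ L I n := sum_le_sum fun _ _ => ind_mono BT_sub

theorem exp_part2 (h : Num δ L lam ℓ I) (hN : Real.exp L ≤ N) (i : ℕ) :
    Real.exp (ls L δ (1 + i)) * (Nat.log 2 N + 1) ≤ N * (3 * L * Real.exp (-(δ * L / 2))) := by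
  have hL1 : 1 ≤ L := by have := h.ell_le; have := h.hℓ; linarith
  have hNp : (0 : ℝ) < N := (Real.exp_pos L).trans_le hN
  obtain ⟨Λ, hΛ⟩ : ∃ Λ : ℝ, Λ = Real.log N := ⟨_, rfl⟩
  have hNe : (N : ℝ) = Real.exp Λ := by rw [hΛ, Real.exp_log hNp]
  have hLΛ : L ≤ Λ := by rw [hNe] at hN; exact Real.exp_le_exp.1 hN
  have h2 := logN hNe (hL1.trans hLΛ)
  have h1 : Real.exp (ls L δ (1 + i)) ≤ Real.exp L * Real.exp (-(δ * L / 2)) := by
    rw [← Real.exp_add]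
    apply Real.exp_le_exp.2
    have := h.ls_le i
    linarith
  have h3 : Real.exp L * Λ ≤ N * L := by
    have e1 : Real.exp Λ = Real.exp L * Real.exp (Λ - L) := by rw [← Real.exp_add]; congr 1; ring
    rw [hNe, e1, mul_assoc]
    apply mul_le_mul_of_nonneg_left _ (Real.exp_pos L).le
    have e2 := Real.add_one_le_exp (Λ - L)
    have e3 : 0 ≤ Λ - L := by linarith
    nlinarith [mul_nonneg e3 (sub_nonneg.2 hL1)]
  have hE := Real.exp_pos (-(δ * L / 2))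
  calc Real.exp (ls L δ (1 + i)) * (Nat.log 2 N + 1)
      ≤ (Real.exp L * Real.exp (-(δ * L / 2))) * (3 * Λ) := mul_le_mul h1 h2 (by positivity) (by positivity)
    _ = 3 * Real.exp (-(δ * L / 2)) * (Real.exp L * Λ) := by ring
    _ ≤ 3 * Real.exp (-(δ * L / 2)) * (N * L) := mul_le_mul_of_nonneg_left h3 (by positivity)
    _ = _ := by ring

theorem one_up2 (hB : Bl P δ x τ l₀ K₂) (hn : Num δ L lam ℓ I) (hl : l₀ ≤ lam)
    (hN : Real.exp L ≤ N) {i : ℕ} (hi : i < I) :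
    ∑ n ∈ Icc 1 N, ind (BS P δ (ls L δ (1 + i))) (n : ℤ) ≤ x * (1 + τ) * (N + 1) + N * er δ L := by
  have h1 := hn.ls_ge' hi
  have h2 := exp_part2 hn hN i
  have h3 := cnt_up (S := BS P δ (ls L δ (1 + i))) (fun e m hm => Sh_even hB.odd e m hm)
    (ρ := x * (1 + τ)) (z := Real.exp (ls L δ (1 + i))) (by have := hB.x0; have := hB.τ0; positivity)
    (Real.one_le_exp (by linarith [hn.hlam])) (hB.up _ (hl.trans h1)) N
  unfold er
  linarith

theorem one_lo2 (hB : Bl P δ x τ l₀ K₂) (hB2 : Lob P δ x τ l₀) (hn : Num δ L lam ℓ I) (hl : l₀ ≤ lam)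
    (hN : Real.exp L ≤ N) {i : ℕ} (hi : i < I) :
    x * (1 - τ) * N - 1 - N * er δ L ≤ ∑ n ∈ Icc 1 N, ind (BT P δ (ls L δ (1 + i))) (n : ℤ) := by
  have h1 := hn.ls_ge' hi
  have h2 := exp_part2 hn hN i
  have hx0 := hB.x0
  have hx1 := hB.x1
  have hτ0 := hB.τ0
  have hτ1 := hB.τ1
  have h4 : 0 ≤ x * (1 - τ) := mul_nonneg hx0.le (by linarith)
  have h5 : x * (1 - τ) ≤ 1 := by nlinarith
  have h3 := cnt_lo (S := BT P δ (ls L δ (1 + i))) (fun e m hm => Shc_even (fun y hy => hB.odd y hy.1) e m hm)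
    (ρ := 1 - x * (1 - τ)) (z := Real.exp (ls L δ (1 + i))) (by linarith)
    (Real.one_le_exp (by linarith [hn.hlam])) (hB2 _ (hl.trans h1)) N
  unfold er
  have e1 : (N : ℝ) - ((1 - x * (1 - τ)) * (N + 1)) = x * (1 - τ) * N + x * (1 - τ) - 1 := by ring
  linarith

theorem two_up2 (hB : Bl P δ x τ l₀ K₂) (hn : Num δ L lam ℓ I) (hl : l₀ ≤ lam)
    (hN : Real.exp L ≤ N) {i i' : ℕ} (hi : i < I) (hi' : i' < I)
    (hfar : 6 * ls L δ (1 + i') ≤ ls L δ (1 + i)) :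
    ∑ n ∈ Icc 1 N, ind (BS P δ (ls L δ (1 + i))) (n : ℤ) * ind (BS P δ (ls L δ (1 + i'))) (n : ℤ)
      ≤ x ^ 2 * (1 + τ) * (N + 1) + N * er δ L := by
  have h1 := hn.ls_ge' hi
  have h1' := hn.ls_ge' hi'
  have h2 := exp_part2 hn hN i
  have hx0 := hB.x0
  have hτ0 := hB.τ0
  have hδ0 := hB.δ0
  have hδ1 := hB.δ1
  set l := ls L δ (1 + i) with hld
  set l' := ls L δ (1 + i') with hl'd
  have hl1 : 1 ≤ l := by linarith [hn.hlam]
  have hl'1 : 1 ≤ l' := by linarith [hn.hlam]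
  have hy' : Real.exp (l' / (1 + δ)) ≤ Real.exp l' :=
    Real.exp_le_exp.2 (div_le_self (by linarith) (by linarith))
  have hzy : Real.exp l' ≤ Real.exp (l / (1 + δ)) := by
    apply Real.exp_le_exp.2
    rw [le_div_iff₀ (by linarith)]
    nlinarith
  have h3 := cnt_up (S := Sh (P ∩ Sh P (Real.exp (l' / (1 + δ))) (Real.exp l') 1)
    (Real.exp (l / (1 + δ))) (Real.exp l) 1) (fun e m hm => Sh_even (fun y hy => hB.odd y hy.1) e m hm)
    (ρ := x ^ 2 * (1 + τ)) (z := Real.exp l) (by positivity)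
    (Real.one_le_exp (by linarith)) (hB.cross l' (hl.trans h1') l hfar) N
  have h4 : ∑ n ∈ Icc 1 N, ind (BS P δ l) (n : ℤ) * ind (BS P δ l') (n : ℤ)
      ≤ ∑ n ∈ Icc 1 N, ind (Sh (P ∩ Sh P (Real.exp (l' / (1 + δ))) (Real.exp l') 1)
    (Real.exp (l / (1 + δ))) (Real.exp l) 1) (n : ℤ) := by
    apply sum_le_sum
    intro n _
    exact ind_mul fun a b => Sh_inter hy' hzy a b
  unfold er
  linarith

theorem pair_sum_le2 (hB : Bl P δ x τ l₀ K₂) (hn : Num δ L lam ℓ I) (hl : l₀ ≤ lam)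
    (hN : Real.exp L ≤ N) {W : ℕ} (hW : 6 ≤ (1 + δ) ^ W) {i i' : ℕ} (hi : i < I) (hi' : i' < I) :
    ∑ n ∈ Icc 1 N, ind (BS P δ (ls L δ (1 + i))) (n : ℤ) * ind (BS P δ (ls L δ (1 + i'))) (n : ℤ)
      ≤ (x ^ 2 * (1 + τ) * (N + 1) + N * er δ L)
        + (if i' < i + W ∧ i < i' + W then x * (1 + τ) * (N + 1) + N * er δ L else 0) := by
  have hx0 := hB.x0
  have hτ0 := hB.τ0
  have hL : 0 ≤ L := by have := hn.ell_le; have := hn.hℓ; linarith
  have her : 0 ≤ er δ L := by unfold er; positivity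
  split_ifs with h
  · have h1 : ∑ n ∈ Icc 1 N, ind (BS P δ (ls L δ (1 + i))) (n : ℤ) * ind (BS P δ (ls L δ (1 + i'))) (n : ℤ)
        ≤ ∑ n ∈ Icc 1 N, ind (BS P δ (ls L δ (1 + i))) (n : ℤ) := by
      apply sum_le_sum
      intro n _
      exact mul_le_of_le_one_right (ind_nonneg _ _) (ind_le _ _)
    have h2 := one_up2 hB hn hl hN hi
    have h3 : 0 ≤ x ^ 2 * (1 + τ) * ((N : ℝ) + 1) + N * er δ L := by positivity
    linarith
  · rw [add_zero]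
    rcases le_or_gt (i + W) i' with h1 | h1
    · exact two_up2 hB hn hl hN hi hi' (far_of hn hW h1)
    · have h2 : i' + W ≤ i := by
        by_contra hcon
        exact h ⟨h1, by omega⟩
      have h3 := two_up2 hB hn hl hN hi' hi (far_of hn hW h2)
      refine le_trans (le_of_eq ?_) h3
      exact sum_congr rfl fun n _ => mul_comm _ _

theorem sec_up2 (hB : Bl P δ x τ l₀ K₂) (hn : Num δ L lam ℓ I) (hl : l₀ ≤ lam)
    (hN : Real.exp L ≤ N) {W : ℕ} (hW : 6 ≤ (1 + δ) ^ W) :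
    ∑ n ∈ Icc 1 N, Bn P δ L I n ^ 2 ≤ I ^ 2 * (x ^ 2 * (1 + τ) * (N + 1) + N * er δ L)
      + 2 * W * I * (x * (1 + τ) * (N + 1) + N * er δ L) := by
  have hx0 := hB.x0
  have hτ0 := hB.τ0
  have hL : 0 ≤ L := by have := hn.ell_le; have := hn.hℓ; linarith
  have her : 0 ≤ er δ L := by unfold er; positivity
  set a := x ^ 2 * (1 + τ) * ((N : ℝ) + 1) + N * er δ L with ha
  set b := x * (1 + τ) * ((N : ℝ) + 1) + N * er δ L with hb
  have hb0 : 0 ≤ b := by positivity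
  have h1 : ∑ n ∈ Icc 1 N, Bn P δ L I n ^ 2 = ∑ i ∈ range I, ∑ i' ∈ range I, ∑ n ∈ Icc 1 N,
      ind (BS P δ (ls L δ (1 + i))) (n : ℤ) * ind (BS P δ (ls L δ (1 + i'))) (n : ℤ) := by
    unfold Bn
    simp_rw [sq, sum_mul_sum]
    rw [sum_comm]
    exact sum_congr rfl fun i _ => sum_comm
  rw [h1]
  have h2 : ∀ i ∈ range I, ∑ i' ∈ range I, ∑ n ∈ Icc 1 N,
      ind (BS P δ (ls L δ (1 + i))) (n : ℤ) * ind (BS P δ (ls L δ (1 + i'))) (n : ℤ)
      ≤ I * a + 2 * W * b := by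
    intro i hi
    have h3 : ∑ i' ∈ range I, ∑ n ∈ Icc 1 N,
      ind (BS P δ (ls L δ (1 + i))) (n : ℤ) * ind (BS P δ (ls L δ (1 + i'))) (n : ℤ)
        ≤ ∑ i' ∈ range I, (a + (if i' < i + W ∧ i < i' + W then b else 0)) :=
      sum_le_sum fun i' hi' => pair_sum_le2 hB hn hl hN hW (mem_range.1 hi) (mem_range.1 hi')
    refine h3.trans ?_
    rw [sum_add_distrib, sum_const, card_range, nsmul_eq_mul, ← sum_filter, sum_const, nsmul_eq_mul]
    apply add_le_add le_rfl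
    apply mul_le_mul_of_nonneg_right _ hb0
    have h4 : ((range I).filter (fun i' => i' < i + W ∧ i < i' + W)).card ≤ 2 * W := by
      have h5 : (range I).filter (fun i' => i' < i + W ∧ i < i' + W) ⊆ Ico (i + 1 - W) (i + W) := by
        intro j hj
        rw [mem_filter] at hj
        rw [mem_Ico]; omega
      have h6 := card_le_card h5
      rw [Nat.card_Ico] at h6
      omega
    exact_mod_cast h4
  refine (sum_le_sum h2).trans (le_of_eq ?_)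
  rw [sum_const, card_range, nsmul_eq_mul]
  ring

theorem fst_lo2 (hB : Bl P δ x τ l₀ K₂) (hB2 : Lob P δ x τ l₀) (hn : Num δ L lam ℓ I) (hl : l₀ ≤ lam)
    (hN : Real.exp L ≤ N) :
    I * (x * (1 - τ) * N - 1 - N * er δ L) ≤ ∑ n ∈ Icc 1 N, Bw P δ L I n := by
  unfold Bw
  rw [sum_comm]
  have h1 : ∑ i ∈ range I, (x * (1 - τ) * N - 1 - N * er δ L)
      ≤ ∑ i ∈ range I, ∑ n ∈ Icc 1 N, ind (BT P δ (ls L δ (1 + i))) (n : ℤ) :=
    sum_le_sum fun i hi => one_lo2 hB hB2 hn hl hN (mem_range.1 hi)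
  rwa [sum_const, card_range, nsmul_eq_mul] at h1

theorem sec_bw (hB : Bl P δ x τ l₀ K₂) (hn : Num δ L lam ℓ I) (hl : l₀ ≤ lam)
    (hN : Real.exp L ≤ N) {W : ℕ} (hW : 6 ≤ (1 + δ) ^ W) :
    ∑ n ∈ Icc 1 N, Bw P δ L I n ^ 2 ≤ I ^ 2 * (x ^ 2 * (1 + τ) * (N + 1) + N * er δ L)
      + 2 * W * I * (x * (1 + τ) * (N + 1) + N * er δ L) := by
  refine le_trans ?_ (sec_up2 hB hn hl hN hW)
  exact sum_le_sum fun n _ => pow_le_pow_left₀ (Bw_nonneg n) (Bw_le n) 2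

/-- THE VARIANCE -/
theorem var_up2 (hB : Bl P δ x τ l₀ K₂) (hB2 : Lob P δ x τ l₀) (hn : Num δ L lam ℓ I) (hl : l₀ ≤ lam)
    (hN : Real.exp L ≤ N) {W : ℕ} (hW : 6 ≤ (1 + δ) ^ W) (c1 : 16 ≤ τ * x * N)
    (c2 : 8 * er δ L ≤ τ * x ^ 2) (c3 : 32 * W ≤ τ * x * I) :
    ∑ n ∈ Icc 1 N, (Bw P δ L I n - x * I) ^ 2 ≤ 4 * τ * N * (x * I) ^ 2 := by
  have hx0 := hB.x0
  have hx1 := hB.x1
  have hτ0 := hB.τ0
  have hτ1 := hB.τ1
  have hL : 0 ≤ L := by have := hn.ell_le; have := hn.hℓ; linarith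
  have her : 0 ≤ er δ L := by unfold er; positivity
  have hI : (1 : ℝ) ≤ I := by exact_mod_cast hn.I_pos
  have hN1 : (1 : ℝ) ≤ N := (Real.one_le_exp hL).trans hN
  have h1 := sec_bw hB hn hl hN hW
  have h2 := fst_lo2 hB hB2 hn hl hN
  set e := er δ L with he
  have h3 : ∑ n ∈ Icc 1 N, (Bw P δ L I n - x * I) ^ 2
      = ∑ n ∈ Icc 1 N, Bw P δ L I n ^ 2 - 2 * (x * I) * ∑ n ∈ Icc 1 N, Bw P δ L I n
        + N * (x * I) ^ 2 := by
    have : ∀ n ∈ Icc 1 N, (Bw P δ L I n - x * I) ^ 2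
        = Bw P δ L I n ^ 2 - 2 * (x * I) * Bw P δ L I n + (x * I) ^ 2 := fun n _ => by ring
    rw [sum_congr rfl this, sum_add_distrib, sum_sub_distrib, ← mul_sum, sum_const, Nat.card_Icc,
      Nat.add_sub_cancel, nsmul_eq_mul]
  rw [h3]
  have h4 : 2 * (x * I) * (I * (x * (1 - τ) * N - 1 - N * e)) ≤ 2 * (x * I) * ∑ n ∈ Icc 1 N, Bw P δ L I n :=
    mul_le_mul_of_nonneg_left h2 (by positivity)
  have hIx : 0 ≤ (x * I : ℝ) := by positivity
  -- the four error terms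
  have hxI2 : 0 ≤ x * (I : ℝ) ^ 2 := by positivity
  have t1 : 4 * (x * (I : ℝ) ^ 2) ≤ τ / 4 * N * (x * I) ^ 2 := by
    have := mul_le_mul_of_nonneg_right c1 hxI2
    nlinarith
  have t2 : 2 * ((I : ℝ) ^ 2 * (N * e)) ≤ τ / 4 * N * (x * I) ^ 2 := by
    have h5 : 0 ≤ (I : ℝ) ^ 2 * N := by positivity
    have := mul_le_mul_of_nonneg_right c2 h5
    nlinarith
  have t3 : 8 * (W * I * x * N) ≤ τ / 4 * N * (x * I) ^ 2 := by
    have h5 : 0 ≤ (I : ℝ) * x * N := by positivity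
    have := mul_le_mul_of_nonneg_right c3 h5
    nlinarith
  have hWI : (W : ℝ) ≤ I := by
    have : τ * x * I ≤ 1 * I := by
      apply mul_le_mul_of_nonneg_right _ (by linarith)
      nlinarith
    linarith
  have t4 : 2 * (W * I * (N * e)) ≤ τ / 4 * N * (x * I) ^ 2 := by
    refine le_trans ?_ t2
    apply mul_le_mul_of_nonneg_left _ (by norm_num)
    have h5 : (W : ℝ) * I ≤ I * I := mul_le_mul_of_nonneg_right hWI (by linarith)
    have h6 : 0 ≤ (N : ℝ) * e := by positivity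
    have := mul_le_mul_of_nonneg_right h5 h6
    rw [sq]; exact this
  have e1 : x ^ 2 * (1 + τ) ≤ 2 * x := by nlinarith
  have e2 : x * (1 + τ) ≤ 2 * x := by nlinarith
  have e3 : (I : ℝ) ^ 2 * (x ^ 2 * (1 + τ) * (N + 1) + N * e)
      ≤ (1 + τ) * N * (x * I) ^ 2 + 2 * (x * (I : ℝ) ^ 2) + (I : ℝ) ^ 2 * (N * e) := by
    have := mul_le_mul_of_nonneg_right e1 (sq_nonneg (I : ℝ))
    nlinarith
  have e4 : 2 * (W : ℝ) * I * (x * (1 + τ) * (N + 1) + N * e)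
      ≤ 8 * (W * I * x * N) + 2 * (W * I * (N * e)) := by
    have h5 : x * (1 + τ) * ((N : ℝ) + 1) ≤ 2 * x * (2 * N) :=
      mul_le_mul e2 (by linarith) (by positivity) (by positivity)
    have h6 : (0 : ℝ) ≤ 2 * W * I := by positivity
    have := mul_le_mul_of_nonneg_left h5 h6
    nlinarith
  have e5 : 2 * (x * I) * (I * (x * (1 - τ) * N - 1 - N * e))
      = 2 * (1 - τ) * N * (x * I) ^ 2 - 2 * (x * (I : ℝ) ^ 2) - 2 * x * ((I : ℝ) ^ 2 * (N * e)) := by ring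
  have e6 : 2 * x * ((I : ℝ) ^ 2 * (N * e)) ≤ (I : ℝ) ^ 2 * (N * e) := by
    have h5 : 0 ≤ (I : ℝ) ^ 2 * (N * e) := by positivity
    nlinarith
  rw [e5] at h4
  nlinarith

end Pool.Agent.H998_RN
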